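import Mathlib

set_option autoImplicit false
open MeasureTheory Finset

namespace Helper912.Z

noncomputable section

/-- Haar function on `[0,1)` -/
def et (w : ℝ) : ℝ := if 0 ≤ w ∧ w < 1/2 then 1 else if 1/2 ≤ w ∧ w < 1 then -1 else 0

/-- `et * et * et` -/
def ps (w : ℝ) : ℝ := ∫ a, ∫ b, et a * et b * et (w - a - b)

/-- the even symmetrised kernel (odd, supported in `[-2,2]`) -/
def phi (u : ℝ) : ℝ := ps (u + 2) + ps (u + 1)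

/-- sign of the top bit -/
def sgn (M i : ℕ) : ℝ := if i < M / 2 then 1 else -1

/-- discrete kernel of level `j` -/
def kk (j : ℕ) (m : ℤ) : ℝ :=
  (1/8^j) * ∑ i ∈ range (2^j), ∑ k ∈ range (2^j), ∑ l ∈ range (2^j),
    if ((i:ℤ) + k + l) = m then sgn (2^j) i * sgn (2^j) k * sgn (2^j) l else 0

/-- the discrete form with kernel `kk j (x+y+z-n)` -/
def DD (R j : ℕ) (n : ℤ) (f g h : ℤ → ℤ → ℝ) : ℝ :=
  ∑ x ∈ Ico (-(R:ℤ)) R, ∑ y ∈ Ico (-(R:ℤ)) R, ∑ z ∈ Ico (-(R:ℤ)) R,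
    f x y * g y z * h z x * kk j (x + y + z - n)

def A3 (R : ℕ) (f : ℤ → ℤ → ℝ) : ℝ :=
  ∑ x ∈ Ico (-(R:ℤ)) R, ∑ y ∈ Ico (-(R:ℤ)) R, |f x y|^3

/-- support in the box -/
def Box (R : ℕ) (f : ℤ → ℤ → ℝ) : Prop :=
  ∀ x y : ℤ, ¬ (-(R:ℤ) ≤ x ∧ x < R ∧ -(R:ℤ) ≤ y ∧ y < R) → f x y = 0

/-- conclusion of Z1 -/
def Z1 : Prop := ∃ C : ℝ, ∀ (R J : ℕ) (f g h : ℤ → ℤ → ℝ), Box R f → Box R g → Box R h →
  ∑ j ∈ Icc 1 J, (|DD R j (-2*(2^j-1)) f g h| + |DD R j (-2*(2^j-1) + 2^j) f g h|)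
    ≤ C * (A3 R f + A3 R g + A3 R h)

/-- integrand of the triangular form -/
def F3 (f g h : ℝ × ℝ → ℝ) (p : ℝ × ℝ × ℝ) : ℝ :=
  f (p.1, p.2.1) * g (p.2.1, p.2.2) * h (p.2.2, p.1)

/-- conclusion of Z2 = hypothesis of Z3 -/
def Z2 : Prop := ∃ C : ℝ, ∀ (f g h : ℝ × ℝ → ℝ),
  Measurable f → Measurable g → Measurable h →
  HasCompactSupport f → HasCompactSupport g → HasCompactSupport h →
  (∃ M : ℝ, ∀ p, |f p| ≤ M) → (∃ M : ℝ, ∀ p, |g p| ≤ M) → (∃ M : ℝ, ∀ p, |h p| ≤ M) →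
  ∀ (t : ℝ), 0 < t → ∀ (I : Finset ℤ) (e : ℤ → ℝ), (∀ i, |e i| ≤ 1) →
  |∑ i ∈ I, e i * ((2:ℝ)^i * t)⁻¹ * ∫ p : ℝ × ℝ × ℝ,
      F3 f g h p * phi ((p.1 + p.2.1 + p.2.2) / ((2:ℝ)^i * t))|
    ≤ C * (eLpNorm f 3 volume).toReal * (eLpNorm g 3 volume).toReal
        * (eLpNorm h 3 volume).toReal

end

end Helper912.Z
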