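import Pool.Agent.Helper912.ZF
import Pool.Agent.Helper704.Z1.Glue

set_option autoImplicit false

namespace Helper912.Z

/-- the full conclusion of Z2, unconditional -/
theorem z2 : Z2 := Z2_of_Z1 Pool.Agent.TH704.Z1_912

end Helper912.Z
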