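import Pool.Agent.Helper912.ZDefs

set_option autoImplicit false
open MeasureTheory Finset

namespace Helper912.LG

noncomputable section

/-- truncated kernel `1/s` on `ε < |s| < N` -/
def kap (ε N s : ℝ) : ℝ := if ε < |s| ∧ |s| < N then 1 / s else 0

/-- bounded measurable compactly supported functions -/
structure Ni {E : Type*} [TopologicalSpace E] [MeasurableSpace E] (f : E → ℝ) : Prop where
  meas : Measurable f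
  supp : HasCompactSupport f
  bdd : ∃ M : ℝ, ∀ p, |f p| ≤ M

/-- `L^p` norm as a real number -/
def nm {E : Type*} [MeasureSpace E] (p : ENNReal) (f : E → ℝ) : ℝ := (eLpNorm f p volume).toReal

/-- triangular form with kernel `κ` -/
def T3 (κ : ℝ → ℝ) (f g h : ℝ × ℝ → ℝ) : ℝ :=
  ∫ p : ℝ × ℝ × ℝ, Helper912.Z.F3 f g h p * κ (p.1 + p.2.1 + p.2.2)

/-- 4-linear simplex form with kernel `κ`; coordinates `x1 = p.1`, `x2 = p.2.1`, `x3 = p.2.2.1`,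
`x4 = p.2.2.2` -/
def T4 (κ : ℝ → ℝ) (f g h k : ℝ × ℝ × ℝ → ℝ) : ℝ :=
  ∫ p : ℝ × ℝ × ℝ × ℝ, f (p.1, p.2.1, p.2.2.1) * g (p.2.1, p.2.2.1, p.2.2.2) *
    h (p.2.2.1, p.2.2.2, p.1) * k (p.2.2.2, p.1, p.2.1) * κ (p.1 + p.2.1 + p.2.2.1 + p.2.2.2)

/-- conclusion of Z3a (measurable bounded class) -/
def L3 : Prop := ∃ C : ℝ, 0 ≤ C ∧ ∀ (f g h : ℝ × ℝ → ℝ), Ni f → Ni g → Ni h →
  ∀ ε N : ℝ, 0 < ε → ε < N → |T3 (kap ε N) f g h| ≤ C * nm 3 f * nm 3 g * nm 3 h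

/-- conclusion of P1 -/
def P1 : Prop := ∃ C : ℝ, 0 ≤ C ∧ ∀ ε N : ℝ, 0 < ε → ε < N → ∃ M : ℝ → ℝ, Measurable M ∧
  (∀ t, 0 ≤ M t) ∧ Integrable M ∧ ∫ t, M t ≤ C * (1 + Real.log (N / ε)) ∧
  ∀ (f g h : ℝ × ℝ → ℝ), Ni f → Ni g → Ni h → ∀ a t : ℝ,
    |T3 (fun s => kap ε N (s + a) * kap ε N (s + a + t)) f g h| ≤ M t * nm 3 f * nm 3 g * nm 3 h

/-- conclusion of P2 -/
def P2 : Prop := ∃ C : ℝ, 0 ≤ C ∧ ∀ (f g h k : ℝ × ℝ × ℝ → ℝ), Ni f → Ni g → Ni h → Ni k →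
  ∀ ε N : ℝ, 0 < ε → ε < N →
  |T4 (kap ε N) f g h k| ≤ C * Real.sqrt (1 + Real.log (N / ε)) * nm 2 f * nm 6 g * nm 6 h * nm 6 k

/-- conclusion of P3: the final bound -/
def P4 : Prop := ∃ C : ℝ, 0 ≤ C ∧ ∀ (f g h k : ℝ × ℝ × ℝ → ℝ), Ni f → Ni g → Ni h → Ni k →
  ∀ ε N : ℝ, 0 < ε → ε < N →
  |T4 (kap ε N) f g h k| ≤ C * Real.sqrt (1 + Real.log (N / ε)) * nm 4 f * nm 4 g * nm 4 h * nm 4 k

end

end Helper912.LG
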