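import Mathlib

set_option autoImplicit false

namespace Pool.Agent.Helper912.FC

open Equiv

theorem inv_app {A : Type} (s : Perm A) (x : A) : s⁻¹ (s x) = x := s.symm_apply_apply x
theorem app_inv {A : Type} (s : Perm A) (x : A) : s (s⁻¹ x) = x := s.apply_symm_apply x

variable {A : Type} [AddCommGroup A]

/-- elements killed by `2^n` -/
def D (n : ℕ) : AddSubgroup A where
  carrier := {a | (2 ^ n : ℕ) • a = 0}
  zero_mem' := by simp
  add_mem' := by
    intro a b ha hb
    simp only [Set.mem_ofPred_eq] at *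
    rw [smul_add, ha, hb, add_zero]
  neg_mem' := by
    intro a ha
    simp only [Set.mem_ofPred_eq] at *
    rw [smul_neg, ha, neg_zero]

theorem mem_D {n : ℕ} {a : A} : a ∈ (D n : AddSubgroup A) ↔ (2 ^ n : ℕ) • a = 0 := Iff.rfl

theorem mem_D_zero {a : A} : a ∈ (D 0 : AddSubgroup A) ↔ a = 0 := by
  rw [mem_D]; simp

theorem D_mono {m n : ℕ} (h : m ≤ n) : (D m : AddSubgroup A) ≤ D n := by
  intro a ha
  rw [mem_D] at *
  obtain ⟨k, rfl⟩ := Nat.exists_eq_add_of_le h
  rw [pow_add, mul_comm, mul_smul, ha, smul_zero]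

theorem two_smul_mem {n : ℕ} {a : A} : (2 : ℕ) • a ∈ (D n : AddSubgroup A) ↔ a ∈ (D (n + 1) : AddSubgroup A) := by
  rw [mem_D, mem_D, pow_succ, mul_smul]

/-- the Pruefer 2-group, axiomatically -/
structure Pru (A : Type) [AddCommGroup A] (e : A) : Prop where
  tors : ∀ a : A, ∃ n : ℕ, (2 ^ n : ℕ) • a = 0
  ne : e ≠ 0
  two_e : (2 : ℕ) • e = 0
  two : ∀ a : A, (2 : ℕ) • a = 0 → a = 0 ∨ a = e
  div : ∀ a : A, ∃ b : A, (2 : ℕ) • b = a

variable {e : A}

theorem Pru.exists_D (hA : Pru A e) (a : A) : ∃ n : ℕ, a ∈ (D n : AddSubgroup A) := hA.tors a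

theorem Pru.dich (hA : Pru A e) {k : ℕ} {a : A} (ha : a ∈ (D (k + 1) : AddSubgroup A)) :
    (2 ^ k : ℕ) • a = 0 ∨ (2 ^ k : ℕ) • a = e := by
  apply hA.two
  rw [← mul_smul, mul_comm, ← pow_succ]; exact ha

theorem Pru.mem_of_eq_e (hA : Pru A e) {k : ℕ} {a : A} (ha : (2 ^ k : ℕ) • a = e) :
    a ∈ (D (k + 1) : AddSubgroup A) := by
  rw [mem_D, pow_succ, mul_comm, mul_smul, ha, hA.two_e]

theorem Pru.neg_e (hA : Pru A e) : -e = e := by
  have := hA.two_e
  rw [two_smul] at this
  exact (eq_neg_of_add_eq_zero_left this).symm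

theorem Pru.not_mem (hA : Pru A e) {k : ℕ} {a : A} (ha : (2 ^ k : ℕ) • a = e) :
    a ∉ (D k : AddSubgroup A) := by
  rw [mem_D, ha]; exact hA.ne

theorem Pru.exists_e (hA : Pru A e) (k : ℕ) : ∃ a : A, (2 ^ k : ℕ) • a = e := by
  induction k with
  | zero => exact ⟨e, by simp⟩
  | succ k ih =>
    obtain ⟨a, ha⟩ := ih
    obtain ⟨b, hb⟩ := hA.div a
    exact ⟨b, by rw [pow_succ, mul_smul, hb, ha]⟩

theorem Pru.finite_D (hA : Pru A e) (n : ℕ) : ((D n : AddSubgroup A) : Set A).Finite := by
  induction n with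
  | zero =>
    apply (Set.finite_singleton (0 : A)).subset
    intro a ha
    exact mem_D_zero.1 ha
  | succ n ih =>
    have key : ((D (n + 1) : AddSubgroup A) : Set A) ⊆ (fun a : A => (2 : ℕ) • a) ⁻¹' ((D n : AddSubgroup A) : Set A) := by
      intro a ha
      exact two_smul_mem.2 ha
    refine Set.Finite.subset ?_ key
    apply Set.Finite.preimage' ih
    intro b _
    by_cases hb : ∃ c : A, (2 : ℕ) • c = b
    · obtain ⟨c, hc⟩ := hb
      apply ((Set.finite_singleton (c + e)).insert c).subset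
      intro a ha
      simp only [Set.mem_preimage, Set.mem_singleton_iff] at ha
      have : (2 : ℕ) • (a - c) = 0 := by rw [smul_sub, ha, hc, sub_self]
      rcases hA.two _ this with h | h
      · left; exact sub_eq_zero.1 h
      · right; rw [Set.mem_singleton_iff, ← h]; abel
    · convert Set.finite_empty
      ext a
      simp only [Set.mem_preimage, Set.mem_singleton_iff, Set.mem_empty_iff_false, iff_false]
      intro h; exact hb ⟨a, h⟩

theorem Pru.infinite (hA : Pru A e) : Infinite A := by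
  choose f hf using hA.exists_e
  apply Infinite.of_injective f
  have key : ∀ m n : ℕ, m < n → f m ≠ f n := by
    intro m n hmn h
    have h1 := hA.mem_of_eq_e (hf m)
    have h2 := hA.not_mem (hf n)
    rw [h] at h1
    exact h2 (D_mono (by omega) h1)
  intro m n h
  by_contra hne
  rcases Nat.lt_or_gt_of_ne hne with h' | h'
  · exact key _ _ h' h
  · exact key _ _ h' h.symm

theorem Pru.finite_sub (hA : Pru A e) {F : Set A} (hF : F.Finite) :
    ∃ n : ℕ, ∀ a ∈ F, a ∈ (D n : AddSubgroup A) := by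
  induction F, hF using Set.Finite.induction_on with
  | empty => exact ⟨0, by simp⟩
  | @insert a s _ _ ih =>
    obtain ⟨n, hn⟩ := ih
    obtain ⟨m, hm⟩ := hA.exists_D a
    refine ⟨max m n, ?_⟩
    intro b hb
    rcases Set.mem_insert_iff.1 hb with rfl | hb
    · exact D_mono (le_max_left _ _) hm
    · exact D_mono (le_max_right _ _) (hn b hb)

/-- the Lipschitz-type condition -/
def Lip (s : A → A) : Prop :=
  ∀ (k : ℕ) (x y : A), x - y ∈ (D (2 * k + 2) : AddSubgroup A) → (s x - s y) - (x - y) ∈ (D k : AddSubgroup A)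

theorem Lip.id : Lip (fun x : A => x) := by
  intro k x y _
  simp [(D k : AddSubgroup A).zero_mem]

theorem Lip.le {s : A → A} (hs : Lip s) {k i : ℕ} {x y : A} (h : x - y ∈ (D i : AddSubgroup A)) (hi : i ≤ 2 * k + 2) :
    (s x - s y) - (x - y) ∈ (D k : AddSubgroup A) := hs k x y (D_mono hi h)

theorem Lip.coset {s : A → A} (hs : Lip s) {i : ℕ} {x y : A} (h : x - y ∈ (D i : AddSubgroup A)) :
    s x - s y ∈ (D i : AddSubgroup A) := by
  have h1 := hs.le h (by omega : i ≤ 2 * i + 2)
  have h2 := (D i).add_mem h1 h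
  simpa using h2

theorem Lip.comp {s t : A → A} (hs : Lip s) (ht : Lip t) : Lip (s ∘ t) := by
  intro k x y h
  have h1 := ht k x y h
  have h2 := hs k (t x) (t y) (ht.coset h)
  have h3 := (D k).add_mem h1 h2
  simp only [Function.comp]
  convert h3 using 1
  abel

/-- equality of `2^k`-multiples -/
theorem smul_eq_of_sub_mem {k : ℕ} {a b : A} (h : a - b ∈ (D k : AddSubgroup A)) :
    (2 ^ k : ℕ) • a = (2 ^ k : ℕ) • b := by
  rw [mem_D, smul_sub, sub_eq_zero] at h; exact h

theorem Lip.smul {s : A → A} (hs : Lip s) {k i : ℕ} {x y : A} (h : x - y ∈ (D i : AddSubgroup A))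
    (hi : i ≤ 2 * k + 2) : (2 ^ k : ℕ) • (s x - s y) = (2 ^ k : ℕ) • (x - y) :=
  smul_eq_of_sub_mem (hs.le h hi)

/-- squaring lowers the layer by one -/
theorem Lip.sq {s : A → A} (hs : Lip s) {j : ℕ} {x : A} (h : s x - x ∈ (D (j + 2) : AddSubgroup A)) :
    (2 ^ j : ℕ) • (s (s x) - x) = (2 ^ (j + 1) : ℕ) • (s x - x) := by
  have h1 := hs.smul (k := j) h (by omega)
  have h2 : s (s x) - x = (s (s x) - s x) + (s x - x) := by abel
  rw [h2, smul_add, h1, pow_succ, mul_smul, two_smul, smul_add]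

theorem Lip.sq_mem {s : A → A} (hs : Lip s) {j : ℕ} {x : A} (h : s x - x ∈ (D (j + 1) : AddSubgroup A)) :
    s (s x) - x ∈ (D j : AddSubgroup A) := by
  have h1 := hs.smul (k := j) h (by omega)
  have h2 : s (s x) - x = (s (s x) - s x) + (s x - x) := by abel
  rw [mem_D, h2, smul_add, h1, ← smul_add, ← two_smul ℕ, ← mul_smul, ← pow_succ]
  exact h

/-- the group -/
def GG (A : Type) [AddCommGroup A] : Subgroup (Perm A) where
  carrier := {s | {x : A | s x ≠ x}.Finite ∧ Lip (s : A → A) ∧ Lip ((s⁻¹ : Perm A) : A → A)}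
  one_mem' := by
    refine ⟨by simp, ?_, ?_⟩
    · exact Lip.id
    · rw [inv_one]; exact Lip.id
  mul_mem' := by
    rintro a b ⟨h1, h2, h3⟩ ⟨h4, h5, h6⟩
    refine ⟨?_, ?_, ?_⟩
    · apply (h1.union h4).subset
      intro x hx
      simp only [Set.mem_ofPred_eq, Perm.mul_apply] at hx
      by_contra hc
      simp only [Set.mem_union, Set.mem_ofPred_eq, not_or, not_not] at hc
      rw [hc.2, hc.1] at hx
      exact hx rfl
    · exact h2.comp h5
    · rw [mul_inv_rev]; exact h6.comp h3
  inv_mem' := by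
    rintro a ⟨h1, h2, h3⟩
    refine ⟨?_, h3, ?_⟩
    · apply h1.subset
      intro x hx hx'
      apply hx
      rw [Perm.inv_eq_iff_eq]; exact hx'.symm
    · rw [inv_inv]; exact h2

theorem mem_GG {s : Perm A} : s ∈ GG A ↔ {x : A | s x ≠ x}.Finite ∧ Lip (s : A → A) ∧ Lip ((s⁻¹ : Perm A) : A → A) :=
  Iff.rfl

theorem GG.lip {s : Perm A} (h : s ∈ GG A) : Lip (s : A → A) := h.2.1
theorem GG.lip_inv {s : Perm A} (h : s ∈ GG A) : Lip ((s⁻¹ : Perm A) : A → A) := h.2.2

theorem pow_two_pow_sub_mem {s : Perm A} (hs : Lip (s : A → A)) : ∀ (i j : ℕ) (x : A),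
    s x - x ∈ (D (j + i) : AddSubgroup A) → (s ^ (2 ^ i)) x - x ∈ (D j : AddSubgroup A) := by
  intro i
  induction i generalizing s with
  | zero => intro j x h; simpa using h
  | succ i ih =>
    intro j x h
    rw [pow_succ, mul_comm, pow_mul]
    apply ih
    · have : ((s ^ 2 : Perm A) : A → A) = s ∘ s := by
        ext x; simp [pow_two]
      rw [this]; exact hs.comp hs
    · rw [pow_two, Perm.mul_apply]
      exact hs.sq_mem h

theorem pow_two_pow_eq_e {s : Perm A} (hA : Pru A e) (hs : Lip (s : A → A)) : ∀ (i j : ℕ) (x : A),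
    (2 ^ (j + i) : ℕ) • (s x - x) = e → (2 ^ j : ℕ) • ((s ^ (2 ^ i)) x - x) = e := by
  intro i
  induction i generalizing s with
  | zero => intro j x h; simpa using h
  | succ i ih =>
    intro j x h
    rw [pow_succ 2 i, mul_comm, pow_mul]
    apply ih
    · have : ((s ^ 2 : Perm A) : A → A) = s ∘ s := by
        ext x; simp [pow_two]
      rw [this]; exact hs.comp hs
    · rw [pow_two, Perm.mul_apply]
      rw [hs.sq (j := j + i) (hA.mem_of_eq_e h)]
      exact h

theorem lip_pow {s : Perm A} (hs : Lip (s : A → A)) (n : ℕ) : Lip ((s ^ n : Perm A) : A → A) := by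
  induction n with
  | zero => simp only [pow_zero]; exact Lip.id
  | succ n ih =>
    have : ((s ^ (n + 1) : Perm A) : A → A) = (s ^ n : Perm A) ∘ s := by
      ext x; simp [pow_succ]
    rw [this]; exact ih.comp hs

/-- orbits of elements with the Lipschitz property -/
theorem orbit_full {s : Perm A} (hA : Pru A e) (hs : Lip (s : A → A)) : ∀ (j : ℕ) (x : A),
    (2 ^ j : ℕ) • (s x - x) = e → ∀ y : A, y - x ∈ (D (j + 1) : AddSubgroup A) → ∃ n : ℕ, (s ^ n) x = y := by
  intro j
  induction j generalizing s with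
  | zero =>
    intro x h y hy
    rw [pow_zero, one_smul] at h
    rcases hA.dich hy with h1 | h1
    · rw [pow_zero, one_smul, sub_eq_zero] at h1
      exact ⟨0, by simp [h1]⟩
    · rw [pow_zero, one_smul] at h1
      refine ⟨1, ?_⟩
      rw [pow_one]
      rw [← h] at h1
      exact (sub_left_injective h1).symm
  | succ j ih =>
    intro x h y hy
    have hsq : ((s ^ 2 : Perm A) : A → A) = s ∘ s := by
      ext x; simp [pow_two]
    have hs2 : Lip ((s ^ 2 : Perm A) : A → A) := by rw [hsq]; exact hs.comp hs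
    have hx := hA.mem_of_eq_e h
    by_cases hy2 : y - x ∈ (D (j + 1) : AddSubgroup A)
    · obtain ⟨n, hn⟩ := ih hs2 x (by
        rw [pow_two, Perm.mul_apply, hs.sq hx]; exact h) y hy2
      exact ⟨2 * n, by rw [pow_mul]; exact hn⟩
    · have h1 : (2 ^ (j + 1) : ℕ) • (y - x) = e := by
        rcases hA.dich hy with h1 | h1
        · exact absurd h1 hy2
        · exact h1
      have h2 : y - s x ∈ (D (j + 1) : AddSubgroup A) := by
        rw [mem_D]
        have : y - s x = (y - x) - (s x - x) := by abel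
        rw [this, smul_sub, h1, h, sub_self]
      have h3 : (2 ^ (j + 1) : ℕ) • (s (s x) - s x) = e := by
        rw [hs.smul hx (by omega), h]
      obtain ⟨n, hn⟩ := ih hs2 (s x) (by
        rw [pow_two, Perm.mul_apply, hs.sq (hA.mem_of_eq_e h3)]; exact h3) y h2
      refine ⟨2 * n + 1, ?_⟩
      rw [pow_succ, Perm.mul_apply, pow_mul]; exact hn

theorem orbit_sub {s : Perm A} (hs : s ∈ GG A) {j : ℕ} {x : A} (h : s x - x ∈ (D j : AddSubgroup A)) (n : ℤ) :
    (s ^ n) x - x ∈ (D j : AddSubgroup A) := by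
  have h' : s⁻¹ x - x ∈ (D j : AddSubgroup A) := by
    have := (GG.lip_inv hs).coset h
    rw [inv_app] at this
    have h2 := (D j).neg_mem this
    rwa [neg_sub] at h2
  have key : ∀ t : Perm A, Lip (t : A → A) → t x - x ∈ (D j : AddSubgroup A) →
      ∀ n : ℕ, (t ^ n) x - x ∈ (D j : AddSubgroup A) := by
    intro t ht htx n
    induction n with
    | zero => simp [(D j : AddSubgroup A).zero_mem]
    | succ n ih =>
      rw [pow_succ', Perm.mul_apply]
      have h1 := ht.coset ih
      have h2 := (D j).add_mem h1 htx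
      simpa using h2
  rcases Int.eq_nat_or_neg n with ⟨m, rfl | rfl⟩
  · rw [zpow_natCast]; exact key s (GG.lip hs) h m
  · rw [zpow_neg, zpow_natCast, ← inv_pow]; exact key s⁻¹ (GG.lip_inv hs) h' m

/-- every cycle (orbit of a single element) is a coset of some `D j`. -/
theorem cycle_eq {s : Perm A} (hA : Pru A e) (hs : s ∈ GG A) (x : A) :
    ∃ j : ℕ, Set.range (fun n : ℤ => (s ^ n) x) = {y | y - x ∈ (D j : AddSubgroup A)} ∧ s x - x ∈ (D j : AddSubgroup A) := by
  classical
  have hex : ∃ n : ℕ, s x - x ∈ (D n : AddSubgroup A) := hA.exists_D _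
  set j := Nat.find hex with hj
  have hj1 : s x - x ∈ (D j : AddSubgroup A) := Nat.find_spec hex
  refine ⟨j, ?_, hj1⟩
  apply Set.Subset.antisymm
  · rintro _ ⟨n, rfl⟩
    exact orbit_sub hs hj1 n
  · intro y hy
    rcases Nat.eq_zero_or_pos j with h0 | h0
    · have hy' : y - x ∈ (D 0 : AddSubgroup A) := by rw [← h0]; exact hy
      rw [mem_D_zero, sub_eq_zero] at hy'
      exact ⟨0, by simp [hy']⟩
    · obtain ⟨i, hi⟩ : ∃ i, j = i + 1 := ⟨j - 1, by omega⟩
      have h1 : s x - x ∉ (D i : AddSubgroup A) := Nat.find_min hex (by omega)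
      have hj2 : s x - x ∈ (D (i + 1) : AddSubgroup A) := by rw [← hi]; exact hj1
      have h2 : (2 ^ i : ℕ) • (s x - x) = e := by
        rcases hA.dich hj2 with h | h
        · exact absurd h h1
        · exact h
      have hy2 : y - x ∈ (D (i + 1) : AddSubgroup A) := by rw [← hi]; exact hy
      obtain ⟨n, hn⟩ := orbit_full hA (GG.lip hs) i x h2 y hy2
      exact ⟨n, by simpa using hn⟩

theorem block_D {s : Perm A} (hs : s ∈ GG A) (j : ℕ) (x : A) :
    (⇑s '' {y | y - x ∈ (D j : AddSubgroup A)} = {y | y - x ∈ (D j : AddSubgroup A)} ∨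
      Disjoint (⇑s '' {y | y - x ∈ (D j : AddSubgroup A)}) {y | y - x ∈ (D j : AddSubgroup A)}) := by
  by_cases hd : Disjoint (⇑s '' {y | y - x ∈ (D j : AddSubgroup A)}) {y | y - x ∈ (D j : AddSubgroup A)}
  · right; exact hd
  · left
    rw [Set.not_disjoint_iff] at hd
    obtain ⟨z, ⟨y, hy, rfl⟩, hz⟩ := hd
    simp only [Set.mem_ofPred_eq] at hy hz
    apply Set.Subset.antisymm
    · rintro _ ⟨w, hw, rfl⟩
      simp only [Set.mem_ofPred_eq] at *
      have h1 : w - y ∈ (D j : AddSubgroup A) := by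
        have := (D j).sub_mem hw hy
        simpa using this
      have h2 := (GG.lip hs).coset h1
      have h3 := (D j).add_mem h2 hz
      simpa using h3
    · intro w hw
      simp only [Set.mem_ofPred_eq] at hw
      refine ⟨s⁻¹ w, ?_, by simp⟩
      simp only [Set.mem_ofPred_eq]
      have h1 : w - s y ∈ (D j : AddSubgroup A) := by
        have := (D j).sub_mem hw hz
        simpa using this
      have h2 := (GG.lip_inv hs).coset h1
      rw [inv_app] at h2
      have h3 := (D j).add_mem h2 hy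
      simpa using h3

theorem GG.two_pow {s : Perm A} (hA : Pru A e) (hs : s ∈ GG A) : ∃ n : ℕ, s ^ (2 ^ n) = 1 := by
  obtain ⟨n, hn⟩ := hA.finite_sub (F := (fun x => s x - x) '' {x | s x ≠ x}) (hs.1.image _)
  refine ⟨n, ?_⟩
  ext x
  rw [Perm.one_apply]
  have h1 : s x - x ∈ (D (0 + n) : AddSubgroup A) := by
    rw [zero_add]
    by_cases hx : s x = x
    · rw [hx, sub_self]; exact zero_mem _
    · exact hn _ ⟨x, hx, rfl⟩
  have := pow_two_pow_sub_mem (GG.lip hs) n 0 x h1
  rw [mem_D_zero, sub_eq_zero] at this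
  exact this

/-- translation by `a` on the coset of `D L` containing `x0`, identity elsewhere. -/
noncomputable def trans (L : ℕ) (x0 a : A) (ha : a ∈ (D L : AddSubgroup A)) : Perm A := by
  classical
  exact
  { toFun := fun x => if x - x0 ∈ (D L : AddSubgroup A) then x + a else x
    invFun := fun x => if x - x0 ∈ (D L : AddSubgroup A) then x - a else x
    left_inv := by
      intro x
      by_cases hx : x - x0 ∈ (D L : AddSubgroup A)
      · have h2 : x + a - x0 ∈ (D L : AddSubgroup A) := by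
          have := (D L).add_mem hx ha
          convert this using 1; abel
        simp only [hx, if_true, h2]; abel
      · simp only [hx, if_false]
    right_inv := by
      intro x
      by_cases hx : x - x0 ∈ (D L : AddSubgroup A)
      · have h2 : x - a - x0 ∈ (D L : AddSubgroup A) := by
          have := (D L).sub_mem hx ha
          convert this using 1; abel
        simp only [hx, if_true, h2]; abel
      · simp only [hx, if_false] }

theorem trans_apply_mem {L : ℕ} {x0 a : A} (ha : a ∈ (D L : AddSubgroup A)) {x : A}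
    (hx : x - x0 ∈ (D L : AddSubgroup A)) : trans L x0 a ha x = x + a := by
  simp only [trans, Equiv.coe_fn_mk, hx, if_true]

theorem trans_apply_not_mem {L : ℕ} {x0 a : A} (ha : a ∈ (D L : AddSubgroup A)) {x : A}
    (hx : ¬ x - x0 ∈ (D L : AddSubgroup A)) : trans L x0 a ha x = x := by
  simp only [trans, Equiv.coe_fn_mk, hx, if_false]

theorem trans_inv {L : ℕ} {x0 a : A} (ha : a ∈ (D L : AddSubgroup A)) :
    (trans L x0 a ha)⁻¹ = trans L x0 (-a) ((D L).neg_mem ha) := by
  ext x
  rw [Perm.inv_eq_iff_eq]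
  by_cases hx : x - x0 ∈ (D L : AddSubgroup A)
  · rw [trans_apply_mem _ hx, trans_apply_mem _ (by
      have := (D L).sub_mem hx ha
      convert this using 1; abel)]
    abel
  · rw [trans_apply_not_mem _ hx, trans_apply_not_mem _ hx]

theorem trans_lip {n L : ℕ} (hL : 2 * n + 2 ≤ L) {x0 a : A} (ha : a ∈ (D L : AddSubgroup A)) (ha2 : a ∈ (D n : AddSubgroup A)) :
    Lip (trans L x0 a ha : A → A) := by
  intro k x y hxy
  have hval : ∀ z : A, trans L x0 a ha z - z ∈ (D n : AddSubgroup A) := by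
    intro z
    by_cases hz : z - x0 ∈ (D L : AddSubgroup A)
    · rw [trans_apply_mem _ hz]; simpa using ha2
    · rw [trans_apply_not_mem _ hz]; simp [(D n : AddSubgroup A).zero_mem]
  by_cases hk : n ≤ k
  · have h1 := D_mono hk (hval x)
    have h2 := D_mono hk (hval y)
    have := (D k).sub_mem h1 h2
    convert this using 1; abel
  · have hxy2 : x - y ∈ (D L : AddSubgroup A) := D_mono (by omega) hxy
    by_cases hx : x - x0 ∈ (D L : AddSubgroup A)
    · have hy : y - x0 ∈ (D L : AddSubgroup A) := by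
        have := (D L).sub_mem hx hxy2
        simpa using this
      rw [trans_apply_mem _ hx, trans_apply_mem _ hy]
      simp [(D k : AddSubgroup A).zero_mem]
    · have hy : y - x0 ∉ (D L : AddSubgroup A) := by
        intro hy
        have := (D L).add_mem hxy2 hy
        apply hx
        simpa using this
      rw [trans_apply_not_mem _ hx, trans_apply_not_mem _ hy]
      simp [(D k : AddSubgroup A).zero_mem]

theorem GG.transitive (hA : Pru A e) (x y : A) : ∃ g ∈ GG A, g x = y := by
  obtain ⟨n, hn⟩ := hA.exists_D (y - x)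
  have hL : y - x ∈ (D (2 * n + 2) : AddSubgroup A) := D_mono (by omega) hn
  refine ⟨trans (2 * n + 2) x (y - x) hL, ⟨?_, ?_, ?_⟩, ?_⟩
  · apply ((hA.finite_D (2 * n + 2)).image (fun d => d + x)).subset
    intro z hz
    by_cases hz2 : z - x ∈ (D (2 * n + 2) : AddSubgroup A)
    · exact ⟨z - x, hz2, by simp⟩
    · exact absurd (trans_apply_not_mem _ hz2) hz
  · exact trans_lip (le_refl _) _ hn
  · rw [trans_inv]
    exact trans_lip (le_refl _) _ ((D n).neg_mem hn)
  · rw [trans_apply_mem _ (by simp [(D (2 * n + 2) : AddSubgroup A).zero_mem])]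
    abel

end Pool.Agent.Helper912.FC
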