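import Mathlib
import Pool.Agent.Helper912.FCBasic

set_option autoImplicit false

namespace Pool.Agent.Helper912.FC

open Equiv Filter

variable {A : Type} [AddCommGroup A] {e : A}

/-- A coherent tower of permutations, locally in `H`. -/
structure Tower (e : A) (H : Subgroup (Perm A)) (T : ℕ → Perm A) : Prop where
  zero : ∀ x, T 0 x = x
  sq : ∀ n x, T (n + 1) (T (n + 1) x) = T n x
  val : ∀ n x, (2 ^ n : ℕ) • (T (n + 1) x - x) = e
  loc : ∀ n N, ∃ h ∈ H, ∀ x ∈ (D N : AddSubgroup A), h x = T n x

theorem exists_tower (hA : Pru A e) {H : Subgroup (Perm A)} (hH : H ≤ GG A)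
    (htr : ∀ x y : A, ∃ h ∈ H, h x = y) : ∃ T : ℕ → Perm A, Tower e H T := by
  choose c hc using hA.exists_e
  choose g hg hg0 using fun M : ℕ => htr 0 (c M)
  -- full cycles on `D (M+1)`
  have hlip : ∀ M, Lip (g M : A → A) := fun M => GG.lip (hH (hg M))
  have hfull : ∀ M (x : A), x ∈ (D (M + 1) : AddSubgroup A) → (2 ^ M : ℕ) • (g M x - x) = e := by
    intro M x hx
    have h1 := (hlip M).smul (k := M) (x := x) (y := 0) (i := M + 1) (by simpa using hx) (by omega)
    have h2 : g M x - x = (g M x - g M 0) - (x - 0) + g M 0 := by abel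
    rw [h2, smul_add, smul_sub, h1, sub_self, zero_add, hg0, hc]
  let U : Ultrafilter ℕ := hyperfilter ℕ
  have hU : ∀ N : ℕ, ∀ᶠ M in (U : Filter ℕ), N ≤ M := by
    intro N
    exact (eventually_ge_atTop N).filter_mono Nat.hyperfilter_le_atTop
  have hmem : ∀ x : A, ∀ᶠ M in (U : Filter ℕ), x ∈ (D (M + 1) : AddSubgroup A) := by
    intro x
    obtain ⟨N, hN⟩ := hA.exists_D x
    filter_upwards [hU N] with M hM
    exact D_mono (by omega) hN
  have hex : ∀ (n : ℕ) (x : A), ∃ y : A, ∀ᶠ M in (U : Filter ℕ), ((g M) ^ (2 ^ (M + 1 - n))) x = y := by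
    intro n x
    have h1 : ∀ᶠ M in (U : Filter ℕ), ∃ y ∈ (fun d => d + x) '' ((D n : AddSubgroup A) : Set A),
        ((g M) ^ (2 ^ (M + 1 - n))) x = y := by
      filter_upwards [hU n, hmem x] with M hM hxM
      refine ⟨_, ?_, rfl⟩
      refine ⟨((g M) ^ (2 ^ (M + 1 - n))) x - x, ?_, by simp⟩
      apply pow_two_pow_sub_mem (hlip M)
      have : n + (M + 1 - n) = M + 1 := by omega
      rw [this]
      exact hA.mem_of_eq_e (hfull M x hxM)
    rw [Ultrafilter.eventually_exists_mem_iff ((hA.finite_D n).image _)] at h1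
    obtain ⟨y, _, hy⟩ := h1
    exact ⟨y, hy⟩
  choose T hT using hex
  have hT0 : ∀ x, T 0 x = x := by
    intro x
    have : ∀ᶠ M in (U : Filter ℕ), T 0 x = x := by
      filter_upwards [hT 0 x, hmem x] with M h1 h2
      rw [← h1]
      have h3 := pow_two_pow_sub_mem (hlip M) (M + 1) 0 x (by
        rw [zero_add]; exact hA.mem_of_eq_e (hfull M x h2))
      rw [mem_D_zero, sub_eq_zero] at h3
      simpa using h3
    exact this.exists.choose_spec
  have hTsq : ∀ n x, T (n + 1) (T (n + 1) x) = T n x := by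
    intro n x
    have : ∀ᶠ M in (U : Filter ℕ), T (n + 1) (T (n + 1) x) = T n x := by
      filter_upwards [hT n x, hT (n + 1) x, hT (n + 1) (T (n + 1) x), hU n] with M h1 h2 h3 h4
      rw [← h1, ← h3, ← h2, ← Perm.mul_apply, ← pow_add]
      congr 2
      have : M + 1 - n = (M + 1 - (n + 1)) + 1 := by omega
      rw [this, pow_succ]; ring
    exact this.exists.choose_spec
  have hTval : ∀ n x, (2 ^ n : ℕ) • (T (n + 1) x - x) = e := by
    intro n x
    have : ∀ᶠ M in (U : Filter ℕ), (2 ^ n : ℕ) • (T (n + 1) x - x) = e := by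
      filter_upwards [hT (n + 1) x, hU n, hmem x] with M h1 h2 h3
      rw [← h1]
      apply pow_two_pow_eq_e hA (hlip M)
      have : n + (M + 1 - (n + 1)) = M := by omega
      rw [this]
      exact hfull M x h3
    exact this.exists.choose_spec
  have hloc : ∀ n N, ∃ h ∈ H, ∀ x ∈ (D N : AddSubgroup A), h x = T n x := by
    intro n N
    have h1 : ∀ᶠ M in (U : Filter ℕ), ∀ x ∈ ((D N : AddSubgroup A) : Set A), ((g M) ^ (2 ^ (M + 1 - n))) x = T n x := by
      rw [Filter.eventually_all_finite (hA.finite_D N)]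
      intro x _
      exact hT n x
    obtain ⟨M, hM⟩ := h1.exists
    exact ⟨(g M) ^ (2 ^ (M + 1 - n)), H.pow_mem (hg M) _, hM⟩
  have hbij : ∀ n, Function.Bijective (T n) := by
    intro n
    induction n with
    | zero =>
      have : T 0 = id := by funext x; exact hT0 x
      rw [this]; exact Function.bijective_id
    | succ n ih =>
      have hcomp : T (n + 1) ∘ T (n + 1) = T n := by funext x; exact hTsq n x
      rw [← hcomp] at ih
      exact ⟨ih.1.of_comp, ih.2.of_comp⟩
  refine ⟨fun n => Equiv.ofBijective (T n) (hbij n), ?_, ?_, ?_, ?_⟩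
  · intro x; exact hT0 x
  · intro n x; exact hTsq n x
  · intro n x; exact hTval n x
  · intro n N; exact hloc n N

namespace Tower

variable {H : Subgroup (Perm A)} {T : ℕ → Perm A}

theorem lip (hA : Pru A e) (hH : H ≤ GG A) (hT : Tower e H T) (n : ℕ) : Lip (T n : A → A) := by
  intro k x y hxy
  obtain ⟨N, hN⟩ := hA.finite_sub (F := {x, y}) (by simp)
  obtain ⟨h, hh, hx⟩ := hT.loc n N
  rw [← hx x (hN x (by simp)), ← hx y (hN y (by simp))]
  exact GG.lip (hH hh) k x y hxy

theorem sub_mem (hA : Pru A e) (hT : Tower e H T) (n : ℕ) (x : A) : T n x - x ∈ (D n : AddSubgroup A) := by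
  cases n with
  | zero => rw [hT.zero, sub_self]; exact zero_mem _
  | succ n => exact hA.mem_of_eq_e (hT.val n x)

theorem mem_iff (hA : Pru A e) (hT : Tower e H T) {n N : ℕ} (h : n ≤ N) (x : A) :
    T n x ∈ (D N : AddSubgroup A) ↔ x ∈ (D N : AddSubgroup A) := by
  have h1 := D_mono h (hT.sub_mem hA n x)
  constructor
  · intro h2
    have := (D N).sub_mem h2 h1
    simpa using this
  · intro h2
    have := (D N).add_mem h1 h2
    simpa using this

theorem pow_eq (hT : Tower e H T) (n i : ℕ) : (T (n + i)) ^ (2 ^ i) = T n := by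
  induction i generalizing n with
  | zero => simp
  | succ i ih =>
    have h1 : (T (n + (i + 1))) ^ 2 = T (n + i) := by
      ext x
      rw [pow_two, Perm.mul_apply]
      exact hT.sq (n + i) x
    rw [pow_succ 2 i, mul_comm, pow_mul, h1]
    exact ih n

theorem comm (hT : Tower e H T) (m n : ℕ) : T m * T n = T n * T m := by
  have key : ∀ m i : ℕ, T m * T (m + i) = T (m + i) * T m := by
    intro m i
    rw [← hT.pow_eq m i]
    exact (Commute.pow_self _ _).eq
  rcases Nat.le_total m n with h | h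
  · obtain ⟨i, rfl⟩ := Nat.exists_eq_add_of_le h
    exact key m i
  · obtain ⟨i, rfl⟩ := Nat.exists_eq_add_of_le h
    exact (key n i).symm

theorem comm_apply (hT : Tower e H T) (m n : ℕ) (x : A) : T m (T n x) = T n (T m x) := by
  have := congrArg (fun s : Perm A => s x) (hT.comm m n)
  simpa using this

/-- `T n` is transitive on cosets of `D n` -/
theorem orbit (hA : Pru A e) (hT : Tower e H T) : ∀ (n : ℕ) (x y : A),
    y - x ∈ (D n : AddSubgroup A) → ∃ i : ℕ, ((T n) ^ i) x = y := by
  intro n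
  induction n with
  | zero =>
    intro x y h
    rw [mem_D_zero, sub_eq_zero] at h
    exact ⟨0, by simp [h]⟩
  | succ n ih =>
    intro x y h
    have hpow : (T (n + 1)) ^ 2 = T n := by
      have := hT.pow_eq n 1
      simpa using this
    by_cases h2 : y - x ∈ (D n : AddSubgroup A)
    · obtain ⟨i, hi⟩ := ih x y h2
      exact ⟨2 * i, by rw [pow_mul, hpow]; exact hi⟩
    · have h1 : (2 ^ n : ℕ) • (y - x) = e := by
        rcases hA.dich h with h1 | h1
        · exact absurd h1 h2
        · exact h1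
      have h3 : y - T (n + 1) x ∈ (D n : AddSubgroup A) := by
        rw [mem_D]
        have : y - T (n + 1) x = (y - x) - (T (n + 1) x - x) := by abel
        rw [this, smul_sub, h1, hT.val, sub_self]
      obtain ⟨i, hi⟩ := ih _ y h3
      refine ⟨2 * i + 1, ?_⟩
      rw [pow_succ, Perm.mul_apply, pow_mul, hpow]; exact hi

end Tower

end Pool.Agent.Helper912.FC
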