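import Mathlib
import Pool.Agent.Helper912.FCTower

set_option autoImplicit false

namespace Pool.Agent.Helper912.FC

open Equiv

variable {A : Type} [AddCommGroup A] {e : A}

/-- the operator `f ↦ f ∘ t + f` -/
def S (t : Perm A) : AddMonoid.End (A → A) where
  toFun f := fun x => f (t x) + f x
  map_zero' := by funext x; simp
  map_add' := by intro f g; funext x; simp only [Pi.add_apply]; abel

theorem End_mul_apply (a b : AddMonoid.End (A → A)) (f : A → A) : (a * b) f = a (b f) := rfl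

theorem S_apply (t : Perm A) (f : A → A) (x : A) : S t f x = f (t x) + f x := rfl

/-- functions with values in `D 1` supported on `D N` -/
def V (A : Type) [AddCommGroup A] (N : ℕ) : Set (A → A) :=
  {f | (∀ x, (2 : ℕ) • f x = 0) ∧ ∀ x, x ∉ (D N : AddSubgroup A) → f x = 0}

open Classical in
/-- indicator function of `D N` with value `e` -/
noncomputable def ind (e : A) (N : ℕ) : A → A := fun x => if x ∈ (D N : AddSubgroup A) then e else 0

theorem ind_mem {N : ℕ} {x : A} (h : x ∈ (D N : AddSubgroup A)) : ind e N x = e := by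
  simp [ind, h]

theorem ind_not_mem {N : ℕ} {x : A} (h : x ∉ (D N : AddSubgroup A)) : ind e N x = 0 := by
  simp [ind, h]

variable {H : Subgroup (Perm A)} {T : ℕ → Perm A}

theorem V_add {N : ℕ} {f g : A → A} (hf : f ∈ V A N) (hg : g ∈ V A N) : f + g ∈ V A N := by
  refine ⟨?_, ?_⟩
  · intro x
    rw [Pi.add_apply, smul_add, hf.1, hg.1, add_zero]
  · intro x hx
    rw [Pi.add_apply, hf.2 x hx, hg.2 x hx, add_zero]

theorem V_S (hA : Pru A e) (hT : Tower e H T) {n N : ℕ} (hn : n ≤ N) {f : A → A} (hf : f ∈ V A N) :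
    S (T n) f ∈ V A N := by
  refine ⟨?_, ?_⟩
  · intro x
    rw [S_apply, smul_add, hf.1, hf.1, add_zero]
  · intro x hx
    rw [S_apply, hf.2 x hx, hf.2 (T n x) (by rw [hT.mem_iff hA hn]; exact hx), add_zero]

theorem V_S_pow (hA : Pru A e) (hT : Tower e H T) {n N : ℕ} (hn : n ≤ N) {f : A → A} (hf : f ∈ V A N) (i : ℕ) :
    ((S (T n)) ^ i) f ∈ V A N := by
  induction i with
  | zero => simpa using hf
  | succ i ih => rw [pow_succ', End_mul_apply]; exact V_S hA hT hn ih

theorem V_self {N : ℕ} {f : A → A} (hf : f ∈ V A N) : f + f = 0 := by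
  funext x
  have := hf.1 x
  rw [two_smul] at this
  simpa using this

theorem V_ind (hA : Pru A e) (N : ℕ) : ind e N ∈ V A N := by
  refine ⟨?_, ?_⟩
  · intro x
    by_cases hx : x ∈ (D N : AddSubgroup A)
    · rw [ind_mem hx]; exact hA.two_e
    · rw [ind_not_mem hx, smul_zero]
  · intro x hx; exact ind_not_mem hx

theorem S_ind (hA : Pru A e) (hT : Tower e H T) (N : ℕ) : S (T N) (ind e N) = 0 := by
  funext x
  rw [S_apply]
  by_cases hx : x ∈ (D N : AddSubgroup A)
  · rw [ind_mem hx, ind_mem ((hT.mem_iff hA le_rfl x).2 hx), ← two_smul ℕ, hA.two_e]; rfl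
  · rw [ind_not_mem hx, ind_not_mem (fun h => hx ((hT.mem_iff hA le_rfl x).1 h)), add_zero]; rfl

/-- `S_{n+1}^{2d} = S_n^d` on 2-torsion functions -/
theorem S_pow_two (hA : Pru A e) (hT : Tower e H T) {n N : ℕ} (hn : n ≤ N) (d : ℕ) {f : A → A} (hf : f ∈ V A N) :
    ((S (T (n + 1))) ^ (2 * d)) f = ((S (T n)) ^ d) f := by
  induction d generalizing f with
  | zero => simp
  | succ d ih =>
    have h1 : ((S (T (n + 1))) ^ 2) f = S (T n) f := by
      funext x
      rw [pow_two, End_mul_apply, S_apply, S_apply, S_apply, S_apply, hT.sq]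
      have h2 := hf.1 (T (n + 1) x)
      rw [two_smul] at h2
      calc f (T n x) + f (T (n + 1) x) + (f (T (n + 1) x) + f x)
          = f (T n x) + f x + (f (T (n + 1) x) + f (T (n + 1) x)) := by abel
        _ = f (T n x) + f x := by rw [h2, add_zero]
    rw [mul_add, pow_add, End_mul_apply, mul_one, h1, ih (V_S hA hT hn hf), pow_succ,
      End_mul_apply]

/-- nilpotency -/
theorem S_nil (hA : Pru A e) (hT : Tower e H T) {n N : ℕ} (hn : n ≤ N) {f : A → A} (hf : f ∈ V A N) :
    ((S (T n)) ^ (2 ^ n)) f = 0 := by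
  induction n with
  | zero =>
    funext x
    rw [pow_zero, pow_one, S_apply, hT.zero]
    have := hf.1 x
    rw [two_smul] at this
    simpa using this
  | succ n ih =>
    rw [pow_succ, mul_comm, S_pow_two hA hT (by omega : n ≤ N) _ hf]
    exact ih (by omega)

theorem S_ker (hA : Pru A e) (hT : Tower e H T) {N : ℕ} {f : A → A} (hf : f ∈ V A N)
    (h : S (T N) f = 0) : f = 0 ∨ f = ind e N := by
  have h1 : ∀ x, f (T N x) = f x := by
    intro x
    have h2 : f (T N x) + f x = 0 := congrFun h x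
    have h3 := hf.1 x
    rw [two_smul] at h3
    exact add_right_cancel (h2.trans h3.symm)
  have h2 : ∀ (i : ℕ) (x : A), f (((T N) ^ i) x) = f x := by
    intro i
    induction i with
    | zero => intro x; simp
    | succ i ih => intro x; rw [pow_succ', Perm.mul_apply, h1, ih]
  have h3 : ∀ x ∈ (D N : AddSubgroup A), f x = f 0 := by
    intro x hx
    obtain ⟨i, hi⟩ := hT.orbit hA N 0 x (by simpa using hx)
    rw [← hi, h2]
  rcases hA.two _ (hf.1 0) with h4 | h4
  · left
    funext x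
    by_cases hx : x ∈ (D N : AddSubgroup A)
    · rw [h3 x hx, h4]; rfl
    · rw [hf.2 x hx]; rfl
  · right
    funext x
    by_cases hx : x ∈ (D N : AddSubgroup A)
    · rw [h3 x hx, h4, ind_mem hx]
    · rw [hf.2 x hx, ind_not_mem hx]

/-- closed families of functions -/
structure IsMod (t : Perm A) (N : ℕ) (J : Set (A → A)) : Prop where
  zero : (0 : A → A) ∈ J
  add : ∀ f ∈ J, ∀ g ∈ J, f + g ∈ J
  shift : ∀ f ∈ J, S t f ∈ J
  sub : J ⊆ V A N

theorem IsMod.pow {t : Perm A} {N : ℕ} {J : Set (A → A)} (hJ : IsMod t N J) {f : A → A} (hf : f ∈ J) (i : ℕ) :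
    ((S t) ^ i) f ∈ J := by
  induction i with
  | zero => simpa using hf
  | succ i ih => rw [pow_succ', End_mul_apply]; exact hJ.shift _ ih

/-- uniseriality -/
theorem uniserial (hA : Pru A e) (hT : Tower e H T) {N : ℕ} {J : Set (A → A)} (hJ : IsMod (T N) N J)
    {u : A → A} (hu : u ∈ J) : ∀ (d : ℕ) (f : A → A), f ∈ V A N → ((S (T N)) ^ d) f = 0 →
    (∀ c < d, ((S (T N)) ^ c) u ≠ 0) → f ∈ J := by
  classical
  intro d
  induction d with
  | zero =>
    intro f _ h0 _
    have : f = 0 := by simpa using h0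
    rw [this]; exact hJ.zero
  | succ d ih =>
    intro f hf h0 hc
    by_cases hfd : ((S (T N)) ^ d) f = 0
    · exact ih f hf hfd (fun c hc' => hc c (by omega))
    · have hfd' : ((S (T N)) ^ d) f = ind e N := by
        rcases S_ker hA hT (V_S_pow hA hT le_rfl hf d) (by
          rw [← End_mul_apply, ← pow_succ']; exact h0) with h | h
        · exact absurd h hfd
        · exact h
      have hex : ∃ n : ℕ, ((S (T N)) ^ n) u = 0 := ⟨2 ^ N, S_nil hA hT le_rfl (hJ.sub hu)⟩
      obtain ⟨n0, hn0⟩ : ∃ n0, n0 = Nat.find hex := ⟨_, rfl⟩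
      have hn1 : ((S (T N)) ^ n0) u = 0 := by rw [hn0]; exact Nat.find_spec hex
      have hn2 : ∀ c < n0, ((S (T N)) ^ c) u ≠ 0 := by
        intro c hc'; rw [hn0] at hc'; exact Nat.find_min hex hc'
      have hn3 : d < n0 := by
        by_contra hlt
        exact hc n0 (by omega) hn1
      obtain ⟨r, hr⟩ : ∃ r, n0 = r + d + 1 := ⟨n0 - d - 1, by omega⟩
      have hur : ((S (T N)) ^ (d + r)) u = ind e N := by
        rcases S_ker hA hT (V_S_pow hA hT le_rfl (hJ.sub hu) (d + r)) (by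
          rw [← End_mul_apply, ← pow_succ']
          have : d + r + 1 = n0 := by omega
          rw [this]; exact hn1) with h | h
        · exact absurd h (hn2 _ (by omega))
        · exact h
      have hg : ((S (T N)) ^ r) u ∈ J := hJ.pow hu r
      have hf' : f + ((S (T N)) ^ r) u ∈ J := by
        apply ih
        · exact V_add hf (hJ.sub hg)
        · rw [map_add, hfd', ← End_mul_apply, ← pow_add, hur]
          exact V_self (V_ind hA N)
        · intro c hc'; exact hc c (by omega)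
      have : f = (f + ((S (T N)) ^ r) u) + ((S (T N)) ^ r) u := by
        rw [add_assoc, V_self (hJ.sub hg), add_zero]
      rw [this]
      exact hJ.add _ hf' _ hg

theorem ind_mem_of_ne (hA : Pru A e) (hT : Tower e H T) {N : ℕ} {J : Set (A → A)} (hJ : IsMod (T N) N J)
    {u : A → A} (hu : u ∈ J) (h0 : u ≠ 0) : ind e N ∈ J := by
  apply uniserial hA hT hJ hu 1 _ (V_ind hA N)
  · rw [pow_one]; exact S_ind hA hT N
  · intro c hc
    have : c = 0 := by omega
    rw [this]; simpa using h0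

theorem star (hA : Pru A e) (hT : Tower e H T) {N : ℕ} {J J' : Set (A → A)} (hJ : IsMod (T N) N J)
    (hJ' : IsMod (T N) N J') {f : A → A} (hf : f ∈ V A N) (hfJ' : f ∉ J') (hSf : S (T N) f ∈ J) : J' ⊆ J := by
  classical
  intro u hu
  have hex : ∃ n : ℕ, ((S (T N)) ^ n) f = 0 := ⟨2 ^ N, S_nil hA hT le_rfl hf⟩
  obtain ⟨n0, hn0⟩ : ∃ n0, n0 = Nat.find hex := ⟨_, rfl⟩
  have hn1 : ((S (T N)) ^ n0) f = 0 := by rw [hn0]; exact Nat.find_spec hex
  have hn2 : ∀ c < n0, ((S (T N)) ^ c) f ≠ 0 := by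
    intro c hc'; rw [hn0] at hc'; exact Nat.find_min hex hc'
  have h1 : ∃ c < n0, ((S (T N)) ^ c) u = 0 := by
    by_contra hno
    push Not at hno
    exact hfJ' (uniserial hA hT hJ' hu n0 f hf hn1 hno)
  obtain ⟨c, hc, hcu⟩ := h1
  apply uniserial hA hT hJ hSf c u (hJ'.sub hu) hcu
  intro c' hc'
  rw [← End_mul_apply, ← pow_succ]
  exact hn2 _ (by omega)

/-- layer `k` of the elements of `H` supported on `D N` -/
def J (H : Subgroup (Perm A)) (k N : ℕ) : Set (A → A) :=
  {f | ∃ h ∈ H, (∀ x, x ∉ (D N : AddSubgroup A) → h x = x) ∧ (∀ x, h x - x ∈ (D (k + 1) : AddSubgroup A)) ∧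
    ∀ x, f x = (2 ^ k : ℕ) • (h x - x)}

theorem exists_gam (hA : Pru A e) (hH : H ≤ GG A) (hT : Tower e H T) {M N : ℕ} (hMN : M ≤ N) :
    ∃ g ∈ H, (∀ x ∈ (D N : AddSubgroup A), g x = T M x) ∧
      (∀ x, g x ∈ (D N : AddSubgroup A) ↔ x ∈ (D N : AddSubgroup A)) := by
  obtain ⟨g, hg, hx⟩ := hT.loc M N
  refine ⟨g, hg, hx, ?_⟩
  intro x
  constructor
  · intro h
    have h0 : g 0 ∈ (D N : AddSubgroup A) := by
      rw [hx 0 (zero_mem _), hT.mem_iff hA hMN]; exact zero_mem _
    have h1 : g x - g 0 ∈ (D N : AddSubgroup A) := (D N).sub_mem h h0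
    have h2 := (GG.lip_inv (hH hg)).coset h1
    rw [inv_app, inv_app, sub_zero] at h2
    exact h2
  · intro h
    rw [hx x h, hT.mem_iff hA hMN]; exact h

theorem supp_mem {h : Perm A} {N : ℕ} (hs : ∀ x, x ∉ (D N : AddSubgroup A) → h x = x) (x : A) :
    h x ∈ (D N : AddSubgroup A) ↔ x ∈ (D N : AddSubgroup A) := by
  constructor
  · intro h1
    by_contra h2
    rw [hs x h2] at h1; exact h2 h1
  · intro h1
    by_contra h2
    have h3 := hs _ h2
    have h4 := h.injective h3
    rw [h4] at h2; exact h2 h1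

theorem supp_inv {h : Perm A} {N : ℕ} (hs : ∀ x, x ∉ (D N : AddSubgroup A) → h x = x) (x : A)
    (hx : x ∉ (D N : AddSubgroup A)) : h⁻¹ x = x := by
  rw [Perm.inv_eq_iff_eq]; exact (hs x hx).symm

theorem J_sub_V (k N : ℕ) : J H k N ⊆ V A N := by
  rintro f ⟨h, _, hs, hd, hf⟩
  refine ⟨?_, ?_⟩
  · intro x
    rw [hf, ← mul_smul, mul_comm, ← pow_succ]; exact hd x
  · intro x hx
    rw [hf, hs x hx, sub_self, smul_zero]

theorem J_zero (k N : ℕ) : (0 : A → A) ∈ J H k N := by
  refine ⟨1, H.one_mem, ?_, ?_, ?_⟩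
  · intro x _; rfl
  · intro x; simp [(D (k + 1) : AddSubgroup A).zero_mem]
  · intro x; simp

theorem J_add (hH : H ≤ GG A) {k N : ℕ} {f g : A → A} (hf : f ∈ J H k N) (hg : g ∈ J H k N) :
    f + g ∈ J H k N := by
  obtain ⟨a, ha, has, had, haf⟩ := hf
  obtain ⟨b, hb, hbs, hbd, hbg⟩ := hg
  refine ⟨a * b, H.mul_mem ha hb, ?_, ?_, ?_⟩
  · intro x hx
    rw [Perm.mul_apply, hbs x hx, has x hx]
  · intro x
    rw [Perm.mul_apply]
    have := (D (k + 1)).add_mem (had (b x)) (hbd x)
    simpa using this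
  · intro x
    rw [Perm.mul_apply, Pi.add_apply, haf, hbg]
    have h1 := (GG.lip (hH ha)).smul (k := k) (hbd x) (by omega)
    have h2 : a (b x) - x = (a (b x) - a x) + (a x - x) := by abel
    rw [h2, smul_add, h1]
    abel

theorem J_comp (hA : Pru A e) (hH : H ≤ GG A) (hT : Tower e H T) {k M N : ℕ} (hMN : M ≤ N) {f : A → A}
    (hf : f ∈ J H k N) : (fun x => f (T M x)) ∈ J H k N := by
  obtain ⟨a, ha, has, had, haf⟩ := hf
  obtain ⟨g, hg, hgx, hgD⟩ := exists_gam hA hH hT hMN
  have key : ∀ x, (g⁻¹ (a (g x)) - x) - (a (g x) - g x) ∈ (D k : AddSubgroup A) := by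
    intro x
    have := (GG.lip_inv (hH hg)).le (k := k) (had (g x)) (by omega)
    rwa [inv_app] at this
  refine ⟨g⁻¹ * a * g, H.mul_mem (H.mul_mem (H.inv_mem hg) ha) hg, ?_, ?_, ?_⟩
  · intro x hx
    rw [Perm.mul_apply, Perm.mul_apply, has (g x) (by rw [hgD]; exact hx), inv_app]
  · intro x
    rw [Perm.mul_apply, Perm.mul_apply]
    have := (D (k + 1)).add_mem (D_mono (Nat.le_succ k) (key x)) (had (g x))
    simpa using this
  · intro x
    rw [Perm.mul_apply, Perm.mul_apply, smul_eq_of_sub_mem (key x), ← haf]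
    by_cases hx : x ∈ (D N : AddSubgroup A)
    · rw [hgx x hx]
    · change f (T M x) = f (g x)
      rw [haf, haf, has (g x) (by rw [hgD]; exact hx), has (T M x) (by rw [hT.mem_iff hA hMN]; exact hx)]
      simp

theorem J_shift (hA : Pru A e) (hH : H ≤ GG A) (hT : Tower e H T) {k M N : ℕ} (hMN : M ≤ N) {f : A → A}
    (hf : f ∈ J H k N) : S (T M) f ∈ J H k N := by
  have := J_add hH (J_comp hA hH hT hMN hf) hf
  exact this

theorem J_isMod (hA : Pru A e) (hH : H ≤ GG A) (hT : Tower e H T) (k N : ℕ) : IsMod (T N) N (J H k N) where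
  zero := J_zero k N
  add := fun _ hf _ hg => J_add hH hf hg
  shift := fun _ hf => J_shift hA hH hT le_rfl hf
  sub := J_sub_V k N

theorem J_mono {k N N' : ℕ} (h : N ≤ N') : J H k N ⊆ J H k N' := by
  rintro f ⟨a, ha, has, had, haf⟩
  exact ⟨a, ha, fun x hx => has x (fun hx' => hx (D_mono h hx')), had, haf⟩

end Pool.Agent.Helper912.FC
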