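import Mathlib
import Pool.Agent.Helper912.FCLayer

set_option autoImplicit false

namespace Pool.Agent.Helper912.FC

open Equiv

variable {A : Type} [AddCommGroup A] {e : A} {H : Subgroup (Perm A)} {T : ℕ → Perm A}

/-- `h` approximates `T n` on `D N` up to `D j` -/
def IsAp (T : ℕ → Perm A) (n N j : ℕ) (h : Perm A) : Prop :=
  (∀ x, x ∉ (D N : AddSubgroup A) → h x = x) ∧ ∀ x ∈ (D N : AddSubgroup A), h x - T n x ∈ (D j : AddSubgroup A)

def Ap (H : Subgroup (Perm A)) (T : ℕ → Perm A) (n N j : ℕ) : Prop := ∃ h ∈ H, IsAp T n N j h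

open Classical in
/-- the defect function -/
noncomputable def df (T : ℕ → Perm A) (n N k : ℕ) (h : Perm A) : A → A :=
  fun x => if x ∈ (D N : AddSubgroup A) then (2 ^ k : ℕ) • (h x - T n x) else 0

theorem df_mem {n N k : ℕ} {h : Perm A} {x : A} (hx : x ∈ (D N : AddSubgroup A)) :
    df T n N k h x = (2 ^ k : ℕ) • (h x - T n x) := by simp [df, hx]

theorem df_not_mem {n N k : ℕ} {h : Perm A} {x : A} (hx : x ∉ (D N : AddSubgroup A)) :
    df T n N k h x = 0 := by simp [df, hx]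

theorem df_V {n N k : ℕ} {h : Perm A} (hh : IsAp T n N (k + 1) h) : df T n N k h ∈ V A N := by
  refine ⟨?_, ?_⟩
  · intro x
    by_cases hx : x ∈ (D N : AddSubgroup A)
    · rw [df_mem hx, ← mul_smul, mul_comm, ← pow_succ]; exact hh.2 x hx
    · rw [df_not_mem hx, smul_zero]
  · intro x hx; exact df_not_mem hx

/-- (d) -/
theorem shift_df_mem (hA : Pru A e) (hH : H ≤ GG A) (hT : Tower e H T) {n N k M : ℕ} (hn : n ≤ N) (hM : M ≤ N)
    {h : Perm A} (hhH : h ∈ H) (hh : IsAp T n N (k + 1) h) : S (T M) (df T n N k h) ∈ J H k N := by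
  obtain ⟨g, hg, hgx, hgD⟩ := exists_gam hA hH hT hM
  have hV := df_V hh
  refine ⟨h⁻¹ * (g⁻¹ * h * g), H.mul_mem (H.inv_mem hhH) (H.mul_mem (H.mul_mem (H.inv_mem hg) hhH) hg), ?_, ?_⟩
  · intro x hx
    rw [Perm.mul_apply, Perm.mul_apply, Perm.mul_apply, hh.1 (g x) (by rw [hgD]; exact hx), inv_app]
    exact supp_inv hh.1 x hx
  · -- values
    have key : ∀ x ∈ (D N : AddSubgroup A),
        (h⁻¹ * (g⁻¹ * h * g)) x - x ∈ (D (k + 1) : AddSubgroup A) ∧
        S (T M) (df T n N k h) x = (2 ^ k : ℕ) • ((h⁻¹ * (g⁻¹ * h * g)) x - x) := by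
      intro x hx
      rw [Perm.mul_apply, Perm.mul_apply, Perm.mul_apply]
      have hTMx : T M x ∈ (D N : AddSubgroup A) := (hT.mem_iff hA hM x).2 hx
      have hTnx : T n x ∈ (D N : AddSubgroup A) := (hT.mem_iff hA hn x).2 hx
      obtain ⟨y, hy⟩ : ∃ y, y = T M x := ⟨_, rfl⟩
      have hgy : g x = y := by rw [hgx x hx, hy]
      obtain ⟨z, hz⟩ : ∃ z, z = g⁻¹ (h (g x)) := ⟨_, rfl⟩
      rw [← hz]
      have h1 : h y - T n y ∈ (D (k + 1) : AddSubgroup A) := hh.2 y (by rw [hy]; exact hTMx)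
      have h2 : g⁻¹ (T n y) = T n x := by
        rw [Perm.inv_eq_iff_eq, hgx _ hTnx, hy, hT.comm_apply]
      have h3 : (z - T n x) - (h y - T n y) ∈ (D k : AddSubgroup A) := by
        have := (GG.lip_inv (hH hg)).le (k := k) h1 (by omega)
        rw [h2, ← hgy, ← hz] at this
        rw [← hgy]; exact this
      have h3' : z - T n x ∈ (D (k + 1) : AddSubgroup A) := by
        have := (D (k + 1)).add_mem (D_mono (Nat.le_succ k) h3) h1
        simpa using this
      have h4' := hh.2 x hx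
      have h4 : z - h x ∈ (D (k + 1) : AddSubgroup A) := by
        have := (D (k + 1)).sub_mem h3' h4'
        simpa using this
      have h5 : (h⁻¹ z - x) - (z - h x) ∈ (D k : AddSubgroup A) := by
        have := (GG.lip_inv (hH hhH)).le (k := k) h4 (by omega)
        rw [inv_app] at this
        exact this
      refine ⟨?_, ?_⟩
      · have := (D (k + 1)).add_mem (D_mono (Nat.le_succ k) h5) h4
        simpa using this
      · rw [smul_eq_of_sub_mem h5]
        have h6 : z - h x = (z - T n x) - (h x - T n x) := by abel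
        rw [h6, smul_sub, smul_eq_of_sub_mem h3, S_apply, ← hy, df_mem hx, df_mem (by rw [hy]; exact hTMx)]
        have h7 : (2 : ℕ) • ((2 ^ k : ℕ) • (h x - T n x)) = 0 := by
          rw [← mul_smul, mul_comm, ← pow_succ]; exact h4'
        rw [two_smul] at h7
        have h8 : -((2 ^ k : ℕ) • (h x - T n x)) = (2 ^ k : ℕ) • (h x - T n x) :=
          (eq_neg_of_add_eq_zero_left h7).symm
        rw [sub_eq_add_neg ((2 ^ k : ℕ) • (h y - T n y)), h8]
    refine ⟨?_, ?_⟩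
    · intro x
      by_cases hx : x ∈ (D N : AddSubgroup A)
      · exact (key x hx).1
      · rw [Perm.mul_apply, Perm.mul_apply, Perm.mul_apply, hh.1 (g x) (by rw [hgD]; exact hx), inv_app,
          supp_inv hh.1 x hx, sub_self]
        exact zero_mem _
    · intro x
      by_cases hx : x ∈ (D N : AddSubgroup A)
      · exact (key x hx).2
      · rw [Perm.mul_apply, Perm.mul_apply, Perm.mul_apply, hh.1 (g x) (by rw [hgD]; exact hx), inv_app,
          supp_inv hh.1 x hx, sub_self, smul_zero, S_apply, df_not_mem hx,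
          df_not_mem (by rw [hT.mem_iff hA hM]; exact hx), add_zero]

/-- (R) -/
theorem reduce (hA : Pru A e) (hH : H ≤ GG A) (hT : Tower e H T) {n N k : ℕ}
    {h : Perm A} (hhH : h ∈ H) (hh : IsAp T n N (k + 1) h) (hJ : df T n N k h ∈ J H k N) : Ap H T n N k := by
  obtain ⟨g, hg, hgs, hgd, hgf⟩ := hJ
  refine ⟨h * g⁻¹, H.mul_mem hhH (H.inv_mem hg), ?_, ?_⟩
  · intro x hx
    rw [Perm.mul_apply, supp_inv hgs x hx, hh.1 x hx]
  · intro x hx
    rw [Perm.mul_apply]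
    obtain ⟨y, hy⟩ : ∃ y, y = g⁻¹ x := ⟨_, rfl⟩
    have hgy : g y = x := by rw [hy, app_inv]
    have hyN : y ∈ (D N : AddSubgroup A) := by
      rw [← supp_mem hgs y, hgy]; exact hx
    rw [← hy, mem_D]
    have h1 := hgd y
    rw [hgy] at h1
    have h2 := (hT.lip hA hH n).smul (k := k) h1 (by omega)
    have h3 := hgf y
    rw [df_mem hyN, hgy] at h3
    have h4 : h y - T n x = (h y - T n y) - (T n x - T n y) := by abel
    rw [h4, smul_sub, h2, h3, sub_self]

/-- the square of an approximation -/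
theorem IsAp.sq (hA : Pru A e) (hH : H ≤ GG A) (hT : Tower e H T) {n N k : ℕ} (hn : n + 1 ≤ N)
    {h : Perm A} (hhH : h ∈ H) (hh : IsAp T (n + 1) N (k + 1) h) :
    IsAp T n N (k + 1) (h * h) ∧ df T n N k (h * h) = S (T (n + 1)) (df T (n + 1) N k h) := by
  have hlh := GG.lip (hH hhH)
  have hlT := hT.lip hA hH (n + 1)
  have key : ∀ x ∈ (D N : AddSubgroup A),
      (h * h) x - T n x ∈ (D (k + 1) : AddSubgroup A) ∧
      (2 ^ k : ℕ) • ((h * h) x - T n x) = (2 ^ k : ℕ) • (h (T (n + 1) x) - T (n + 1) (T (n + 1) x)) +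
        (2 ^ k : ℕ) • (h x - T (n + 1) x) := by
    intro x hx
    rw [Perm.mul_apply]
    have hhx : h x ∈ (D N : AddSubgroup A) := (supp_mem hh.1 x).2 hx
    have h1 := hh.2 x hx
    have h2 := hh.2 (h x) hhx
    have h3 := hlT.le (k := k) h1 (by omega)
    have h4 := hlh.le (k := k) h1 (by omega)
    have e1 : h (h x) - T n x = (h (h x) - T (n + 1) (h x)) + (T (n + 1) (h x) - T (n + 1) (T (n + 1) x)) := by
      rw [hT.sq]; abel
    have h5 : T (n + 1) (h x) - T (n + 1) (T (n + 1) x) ∈ (D (k + 1) : AddSubgroup A) := hlT.coset h1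
    refine ⟨?_, ?_⟩
    · rw [e1]; exact (D (k + 1)).add_mem h2 h5
    · rw [e1, smul_add, smul_eq_of_sub_mem h3]
      congr 1
      apply smul_eq_of_sub_mem
      have := (D k).sub_mem h4 h3
      convert this using 1
      abel
  refine ⟨⟨?_, ?_⟩, ?_⟩
  · intro x hx
    rw [Perm.mul_apply, hh.1 x hx, hh.1 x hx]
  · intro x hx; exact (key x hx).1
  · funext x
    by_cases hx : x ∈ (D N : AddSubgroup A)
    · rw [S_apply, df_mem hx, df_mem hx, df_mem ((hT.mem_iff hA hn x).2 hx), (key x hx).2]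
    · rw [S_apply, df_not_mem hx, df_not_mem hx, df_not_mem (by rw [hT.mem_iff hA hn]; exact hx), add_zero]

/-- (e) -/
theorem Ap.down (hA : Pru A e) (hH : H ≤ GG A) (hT : Tower e H T) {n N k : ℕ} (hn : n + 1 ≤ N)
    (h : Ap H T (n + 1) N (k + 1)) : Ap H T n N k := by
  obtain ⟨h, hhH, hh⟩ := h
  obtain ⟨h1, h2⟩ := hh.sq hA hH hT hn hhH
  apply reduce hA hH hT (H.mul_mem hhH hhH) h1
  rw [h2]
  exact shift_df_mem hA hH hT hn hn hhH hh

/-- the square of an approximation, when `n+1 ≤ 2k+2` -/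
theorem IsAp.sq' (hA : Pru A e) (hH : H ≤ GG A) (hT : Tower e H T) {n N k : ℕ} (hn2 : n + 1 ≤ 2 * k + 2)
    {h : Perm A} (hhH : h ∈ H) (hh : IsAp T (n + 1) N (k + 2) h) :
    IsAp T n N (k + 1) (h * h) ∧ df T n N k (h * h) = df T (n + 1) N (k + 1) h := by
  have hlh := GG.lip (hH hhH)
  have hlT := hT.lip hA hH (n + 1)
  have key : ∀ x ∈ (D N : AddSubgroup A),
      (h * h) x - T n x - (2 : ℕ) • (h x - T (n + 1) x) ∈ (D k : AddSubgroup A) := by
    intro x hx
    rw [Perm.mul_apply]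
    have h1 := hh.2 x hx
    have h3 := hlT.le (k := k) h1 (by omega)
    have h4 : h x - x ∈ (D (2 * k + 2) : AddSubgroup A) := by
      have h5 : h x - T (n + 1) x ∈ (D (2 * k + 2) : AddSubgroup A) := D_mono (by omega) h1
      have h6 : T (n + 1) x - x ∈ (D (2 * k + 2) : AddSubgroup A) := D_mono hn2 (hT.sub_mem hA (n + 1) x)
      have := (D (2 * k + 2)).add_mem h5 h6
      simpa using this
    have h7 := hlh k _ _ h4
    have h8 := hlT k _ _ h4
    have e1 : h (h x) - T n x - (2 : ℕ) • (h x - T (n + 1) x) =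
        ((h (h x) - h x - (h x - x)) - (T (n + 1) (h x) - T (n + 1) x - (h x - x))) +
        ((T (n + 1) (h x) - T (n + 1) (T (n + 1) x)) - (h x - T (n + 1) x)) := by
      rw [hT.sq, two_smul]; abel
    rw [e1]
    exact (D k).add_mem ((D k).sub_mem h7 h8) h3
  refine ⟨⟨?_, ?_⟩, ?_⟩
  · intro x hx
    rw [Perm.mul_apply, hh.1 x hx, hh.1 x hx]
  · intro x hx
    have h1 : (2 : ℕ) • (h x - T (n + 1) x) ∈ (D (k + 1) : AddSubgroup A) := two_smul_mem.2 (hh.2 x hx)
    have := (D (k + 1)).add_mem (D_mono (Nat.le_succ k) (key x hx)) h1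
    simpa using this
  · funext x
    by_cases hx : x ∈ (D N : AddSubgroup A)
    · rw [df_mem hx, df_mem hx, smul_eq_of_sub_mem (key x hx), ← mul_smul, ← pow_succ]
    · rw [df_not_mem hx, df_not_mem hx]

/-- (f) -/
theorem J_sub (hA : Pru A e) (hH : H ≤ GG A) (hT : Tower e H T) {n N k : ℕ} (hn : n + 1 ≤ N)
    (hn2 : n + 1 ≤ 2 * k + 2) (h : Ap H T (n + 1) N (k + 2)) (hno : ¬ Ap H T n N k) :
    J H k N ⊆ J H (k + 1) N := by
  obtain ⟨h, hhH, hh⟩ := h
  obtain ⟨h1, h2⟩ := hh.sq' hA hH hT hn2 hhH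
  have hf1 : df T (n + 1) N (k + 1) h ∉ J H k N := by
    intro hc
    rw [← h2] at hc
    exact hno (reduce hA hH hT (H.mul_mem hhH hhH) h1 hc)
  have hf2 : S (T N) (df T (n + 1) N (k + 1) h) ∈ J H (k + 1) N :=
    shift_df_mem hA hH hT hn le_rfl hhH hh
  exact star hA hT (J_isMod hA hH hT (k + 1) N) (J_isMod hA hH hT k N) (df_V hh) hf1 hf2

/-- (i) -/
theorem Ap.up (hA : Pru A e) (hH : H ≤ GG A) (hT : Tower e H T) {n N j : ℕ}
    (h : Ap H T n N j) : Ap H T n (N + 1) j := by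
  obtain ⟨h, hhH, hh⟩ := h
  obtain ⟨g, hg, hgx, hgD⟩ := exists_gam hA hH hT (le_refl (N + 1))
  have hswap : ∀ y ∈ (D (N + 1) : AddSubgroup A), (g y ∈ (D N : AddSubgroup A) ↔ y ∉ (D N : AddSubgroup A)) := by
    intro y hy
    rw [hgx y hy]
    have h1 := hT.val N y
    have h2 : (2 ^ N : ℕ) • (T (N + 1) y) = e + (2 ^ N : ℕ) • y := by
      rw [← h1, smul_sub]; abel
    rcases hA.dich hy with h3 | h3
    · rw [mem_D, mem_D, h2, h3, add_zero]
      simp [hA.ne]
    · rw [mem_D, mem_D, h2, h3, ← two_smul ℕ, hA.two_e]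
      simp [hA.ne]
  refine ⟨h * (g * h * g⁻¹), H.mul_mem hhH (H.mul_mem (H.mul_mem hg hhH) (H.inv_mem hg)), ?_, ?_⟩
  · intro x hx
    have hx2 : g⁻¹ x ∉ (D (N + 1) : AddSubgroup A) := by
      rw [← hgD, app_inv]; exact hx
    rw [Perm.mul_apply, Perm.mul_apply, Perm.mul_apply, hh.1 (g⁻¹ x) (fun hc => hx2 (D_mono (Nat.le_succ N) hc)),
      app_inv, hh.1 x (fun hc => hx (D_mono (Nat.le_succ N) hc))]
  · intro x hx
    rw [Perm.mul_apply, Perm.mul_apply, Perm.mul_apply]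
    obtain ⟨y, hy⟩ : ∃ y, y = g⁻¹ x := ⟨_, rfl⟩
    have hgy : g y = x := by rw [hy, app_inv]
    have hyN : y ∈ (D (N + 1) : AddSubgroup A) := by rw [← hgD, hgy]; exact hx
    rw [← hy]
    by_cases hxN : x ∈ (D N : AddSubgroup A)
    · have hyN2 : y ∉ (D N : AddSubgroup A) := by
        rw [← hswap y hyN, hgy]; exact hxN
      rw [hh.1 y hyN2, hgy]
      exact hh.2 x hxN
    · have hyN2 : y ∈ (D N : AddSubgroup A) := by
        by_contra hc
        rw [← hswap y hyN, hgy] at hc; exact hxN hc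
      have hhy : h y ∈ (D N : AddSubgroup A) := (supp_mem hh.1 y).2 hyN2
      have hhyN : h y ∈ (D (N + 1) : AddSubgroup A) := D_mono (Nat.le_succ N) hhy
      have hghy : g (h y) ∉ (D N : AddSubgroup A) := by
        rw [hswap (h y) hhyN]; exact fun hc => hc hhy
      rw [hh.1 _ hghy, hgx _ hhyN, ← hgy, hgx _ hyN, hT.comm_apply]
      exact (hT.lip hA hH (N + 1)).coset (hh.2 y hyN2)

theorem Ap.mono_N (hA : Pru A e) (hH : H ≤ GG A) (hT : Tower e H T) {n N N' j : ℕ} (hN : N ≤ N')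
    (h : Ap H T n N j) : Ap H T n N' j := by
  induction N', hN using Nat.le_induction with
  | base => exact h
  | succ m hm ih => exact ih.up hA hH hT

theorem Ap.mono_j {n N j j' : ℕ} (hj : j ≤ j') (h : Ap H T n N j) : Ap H T n N j' := by
  obtain ⟨h, hhH, hh⟩ := h
  exact ⟨h, hhH, hh.1, fun x hx => D_mono hj (hh.2 x hx)⟩

theorem Ap.zero_down (hA : Pru A e) (hH : H ≤ GG A) (hT : Tower e H T) {n N : ℕ} (hn : n + 1 ≤ N)
    (h : Ap H T (n + 1) N 0) : Ap H T n N 0 :=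
  (h.mono_j (Nat.zero_le 1)).down hA hH hT hn

theorem exists_layer (hA : Pru A e) (hH : H ≤ GG A) (htr : ∀ x y : A, ∃ h ∈ H, h x = y) (k : ℕ) :
    ∃ h ∈ H, (∀ x, h x - x ∈ (D (k + 1) : AddSubgroup A)) ∧ ∃ x, (2 ^ k : ℕ) • (h x - x) = e := by
  classical
  obtain ⟨c, hc⟩ := hA.exists_e k
  obtain ⟨h, hh, h0⟩ := htr 0 c
  have hex : ∃ i : ℕ, ∀ x, h x - x ∈ (D i : AddSubgroup A) := by
    obtain ⟨n, hn⟩ := hA.finite_sub (F := (fun x => h x - x) '' {x | h x ≠ x}) ((hH hh).1.image _)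
    refine ⟨n, ?_⟩
    intro x
    by_cases hx : h x = x
    · rw [hx, sub_self]; exact zero_mem _
    · exact hn _ ⟨x, hx, rfl⟩
  obtain ⟨i, hi⟩ : ∃ i, i = Nat.find hex := ⟨_, rfl⟩
  have hi1 : ∀ x, h x - x ∈ (D i : AddSubgroup A) := by rw [hi]; exact Nat.find_spec hex
  have hi2 : ∀ m < i, ¬ ∀ x, h x - x ∈ (D m : AddSubgroup A) := by
    intro m hm; rw [hi] at hm; exact Nat.find_min hex hm
  have hki : k < i := by
    by_contra hlt
    have h1 : h 0 - 0 ∈ (D k : AddSubgroup A) := D_mono (by omega) (hi1 0)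
    rw [h0, sub_zero] at h1
    exact hA.not_mem hc h1
  obtain ⟨r, rfl⟩ : ∃ r, i = k + r + 1 := ⟨i - k - 1, by omega⟩
  have h2 := hi2 (k + r) (by omega)
  push Not at h2
  obtain ⟨x, hx⟩ := h2
  refine ⟨h ^ (2 ^ r), H.pow_mem hh _, ?_, x, ?_⟩
  · intro y
    apply pow_two_pow_sub_mem (GG.lip (hH hh))
    have : k + 1 + r = k + r + 1 := by omega
    rw [this]; exact hi1 y
  · apply pow_two_pow_eq_e hA (GG.lip (hH hh))
    rcases hA.dich (hi1 x) with h3 | h3
    · exact absurd h3 hx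
    · exact h3

theorem exists_ind (hA : Pru A e) (hH : H ≤ GG A) (htr : ∀ x y : A, ∃ h ∈ H, h x = y) (hT : Tower e H T) (k : ℕ) :
    ∃ N, ind e N ∈ J H k N := by
  obtain ⟨h, hh, hd, x0, hx0⟩ := exists_layer hA hH htr k
  obtain ⟨N, hN⟩ := hA.finite_sub (F := {x | h x ≠ x}) (hH hh).1
  refine ⟨N, ?_⟩
  have hu : (fun x => (2 ^ k : ℕ) • (h x - x)) ∈ J H k N := by
    refine ⟨h, hh, ?_, hd, fun x => rfl⟩
    intro x hx
    by_contra hc
    exact hx (hN x hc)
  apply ind_mem_of_ne hA hT (J_isMod hA hH hT k N) hu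
  intro hc
  have := congrFun hc x0
  simp only [Pi.zero_apply] at this
  rw [hx0] at this
  exact hA.ne this

/-- (ii) -/
theorem exists_Ap (hA : Pru A e) (hH : H ≤ GG A) (htr : ∀ x y : A, ∃ h ∈ H, h x = y) (hT : Tower e H T) (k : ℕ) :
    ∃ N, k + 1 ≤ N ∧ Ap H T (k + 1) N k := by
  obtain ⟨N0, hN0⟩ := exists_ind hA hH htr hT k
  have hN1 : ∃ N, k + 1 ≤ N ∧ ind e N ∈ J H k N := by
    refine ⟨max (k + 1) N0, le_max_left _ _, ?_⟩
    have h1 := J_mono (le_max_right (k + 1) N0) hN0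
    apply ind_mem_of_ne hA hT (J_isMod hA hH hT k _) h1
    intro hc
    have := congrFun hc 0
    rw [ind_mem (zero_mem _)] at this
    exact hA.ne this
  obtain ⟨N, hkN, h, hh, hs, hd, hf⟩ := hN1
  refine ⟨N, hkN, h, hh, hs, ?_⟩
  intro x hx
  rw [mem_D]
  have h1 := hf x
  rw [ind_mem hx] at h1
  have h2 : h x - T (k + 1) x = (h x - x) - (T (k + 1) x - x) := by abel
  rw [h2, smul_sub, ← h1, hT.val, sub_self]

end Pool.Agent.Helper912.FC
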