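import Mathlib
import Pool.Agent.Helper912.FCApprox

set_option autoImplicit false

namespace Pool.Agent.Helper912.FC

open Equiv

variable {A : Type} [AddCommGroup A] {e : A} {H : Subgroup (Perm A)} {T : ℕ → Perm A}

/-- the layers cannot be eventually increasing -/
theorem no_increase (hA : Pru A e) (hH : H ≤ GG A) (htr : ∀ x y : A, ∃ h ∈ H, h x = y) (hT : Tower e H T)
    (k0 : ℕ) (hinc : ∀ k, k0 ≤ k → ∃ N', ∀ N, N' ≤ N → J H k N ⊆ J H (k + 1) N) : False := by
  obtain ⟨N1, hN1⟩ := exists_ind hA hH htr hT k0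
  have key : ∀ k, k0 ≤ k → ∃ N', ∀ N, N' ≤ N → ind e N1 ∈ J H k N := by
    intro k hk
    induction k, hk using Nat.le_induction with
    | base => exact ⟨N1, fun N hN => J_mono hN hN1⟩
    | succ k hk ih =>
      obtain ⟨N2, hN2⟩ := ih
      obtain ⟨N3, hN3⟩ := hinc k hk
      refine ⟨max N2 N3, fun N hN => hN3 N (le_trans (le_max_right _ _) hN) (hN2 N (le_trans (le_max_left _ _) hN))⟩
  obtain ⟨N', hN'⟩ := key (max k0 N1) (le_max_left _ _)
  obtain ⟨h, hh, _, _, hf⟩ := hN' N' le_rfl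
  obtain ⟨a, ha⟩ := hA.exists_e N1
  have ha1 : a ∈ (D (N1 + 1) : AddSubgroup A) := hA.mem_of_eq_e ha
  have ha2 : a ∉ (D N1 : AddSubgroup A) := hA.not_mem ha
  have h1 := (GG.lip (hH hh)).smul (k := max k0 N1) (x := a) (y := 0) (i := N1 + 1) (by simpa using ha1) (by
    have := le_max_right k0 N1
    omega)
  have h2 := hf a
  have h3 := hf 0
  rw [ind_not_mem ha2] at h2
  rw [ind_mem (zero_mem _)] at h3
  apply hA.ne
  rw [h3]
  have h4 : h 0 - 0 = (h a - a) - ((h a - h 0) - (a - 0)) := by abel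
  rw [h4, smul_sub, ← h2, smul_sub, h1, sub_self, sub_zero]

/-- `U(n)` for all `n` -/
theorem all_U (hA : Pru A e) (hH : H ≤ GG A) (htr : ∀ x y : A, ∃ h ∈ H, h x = y) (hT : Tower e H T) :
    ∀ n, ∃ N, n ≤ N ∧ Ap H T n N 0 := by
  classical
  by_contra hno
  push Not at hno
  obtain ⟨n0, hn0⟩ := hno
  -- P n j
  have hP : ∀ n, ∃ j, ∃ N, n ≤ N ∧ Ap H T n N j := by
    intro n
    refine ⟨n, n, le_rfl, 1, H.one_mem, fun x _ => rfl, ?_⟩
    intro x _
    have := hT.sub_mem hA n x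
    rw [Perm.one_apply]
    have := (D n).neg_mem this
    rwa [neg_sub] at this
  choose! jj hjj using fun n => (⟨Nat.find (hP n), Nat.find_spec (hP n), fun m hm => Nat.find_min (hP n) hm⟩ :
    ∃ j, (∃ N, n ≤ N ∧ Ap H T n N j) ∧ ∀ m < j, ¬ ∃ N, n ≤ N ∧ Ap H T n N m)
  have hj1 : ∀ n, ∃ N, n ≤ N ∧ Ap H T n N (jj n) := fun n => (hjj n).1
  have hj2 : ∀ n m, (∃ N, n ≤ N ∧ Ap H T n N m) → jj n ≤ m := by
    intro n m h
    by_contra hlt
    exact (hjj n).2 m (by omega) h
  -- positivity for n ≥ n0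
  have hdown : ∀ n, jj (n + 1) = 0 → jj n = 0 := by
    intro n h
    obtain ⟨N, hN, hap⟩ := hj1 (n + 1)
    rw [h] at hap
    have := hj2 n 0 ⟨N, by omega, hap.zero_down hA hH hT hN⟩
    omega
  have hpos0 : jj n0 ≠ 0 := by
    intro h
    obtain ⟨N, hN, hap⟩ := hj1 n0
    rw [h] at hap
    exact hn0 N hN hap
  have hpos : ∀ n, n0 ≤ n → jj n ≠ 0 := by
    intro n hn
    induction n, hn using Nat.le_induction with
    | base => exact hpos0
    | succ m hm ih => exact fun h => ih (hdown m h)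
  have hstep : ∀ n, jj (n + 1) ≠ 0 → jj n + 1 ≤ jj (n + 1) := by
    intro n h
    obtain ⟨k, hk⟩ := Nat.exists_eq_succ_of_ne_zero h
    obtain ⟨N, hN, hap⟩ := hj1 (n + 1)
    rw [hk] at hap
    have := hj2 n k ⟨N, by omega, hap.down hA hH hT hN⟩
    omega
  have hupper : ∀ n, jj (n + 1) ≤ n := fun n => hj2 _ _ (exists_Ap hA hH htr hT n)
  -- eventually constant difference
  have hex : ∃ v, ∃ n, n0 + 1 ≤ n ∧ n - jj n = v := ⟨_, n0 + 1, le_rfl, rfl⟩
  obtain ⟨v, hv1, hv2⟩ : ∃ v, (∃ n, n0 + 1 ≤ n ∧ n - jj n = v) ∧ ∀ w < v, ¬ ∃ n, n0 + 1 ≤ n ∧ n - jj n = w :=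
    ⟨Nat.find hex, Nat.find_spec hex, fun m hm => Nat.find_min hex hm⟩
  obtain ⟨n1, hn1, hn1v⟩ := hv1
  have hle : ∀ n, n0 + 1 ≤ n → jj n + 1 ≤ n := by
    intro n hn
    obtain ⟨m, rfl⟩ : ∃ m, n = m + 1 := ⟨n - 1, by omega⟩
    have := hupper m
    omega
  have hconst : ∀ n, n1 ≤ n → n - jj n = v := by
    intro n hn
    induction n, hn using Nat.le_induction with
    | base => exact hn1v
    | succ m hm ih =>
      have h1 := hstep m (hpos (m + 1) (by omega))
      have h2 := hle (m + 1) (by omega)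
      have h3 := hle m (by omega)
      have h4 : ¬ ((m + 1) - jj (m + 1) < v) := by
        intro hlt
        exact hv2 _ hlt ⟨m + 1, by omega, rfl⟩
      omega
  apply no_increase hA hH htr hT (n1 + v + 1)
  intro k hk
  -- n = k + v + 1
  obtain ⟨n, hn⟩ : ∃ n, n = k + v + 1 := ⟨_, rfl⟩
  have hc1 := hconst n (by omega)
  have hc2 := hconst (n + 1) (by omega)
  have hl1 := hle n (by omega)
  have hl2 := hle (n + 1) (by omega)
  have hj3 : jj n = k + 1 := by omega
  have hj4 : jj (n + 1) = k + 2 := by omega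
  obtain ⟨N', hN', hap⟩ := hj1 (n + 1)
  rw [hj4] at hap
  refine ⟨N', fun N hN => ?_⟩
  apply J_sub hA hH hT (n := n) (by omega) (by omega) (hap.mono_N hA hH hT hN)
  intro hc
  have := hj2 n k ⟨N, by omega, hc⟩
  omega

theorem all_U' (hA : Pru A e) (hH : H ≤ GG A) (htr : ∀ x y : A, ∃ h ∈ H, h x = y) (hT : Tower e H T) :
    ∀ n L, ∃ N, n ≤ N ∧ L ≤ N ∧ ∃ h ∈ H, (∀ x, x ∉ (D N : AddSubgroup A) → h x = x) ∧
      ∀ x ∈ (D N : AddSubgroup A), h x = T n x := by
  intro n L
  obtain ⟨N, hN, hap⟩ := all_U hA hH htr hT n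
  have h2 := hap.mono_N hA hH hT (le_max_left N L)
  obtain ⟨h, hh, hs, hd⟩ := h2
  refine ⟨max N L, le_trans hN (le_max_left _ _), le_max_right _ _, h, hh, hs, ?_⟩
  intro x hx
  have := hd x hx
  rw [mem_D_zero, sub_eq_zero] at this
  exact this

/-- Every transitive subgroup of `GG` has a proper transitive subgroup. -/
theorem exists_proper (hA : Pru A e) (hH : H ≤ GG A) (htr : ∀ x y : A, ∃ h ∈ H, h x = y) :
    ∃ K : Subgroup (Perm A), K < H ∧ ∀ x y : A, ∃ h ∈ K, h x = y := by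
  obtain ⟨T, hT⟩ := exists_tower hA hH htr
  obtain ⟨N0, hN01, -, b, hbH, hbs, hbT⟩ := all_U' hA hH htr hT 1 0
  choose N hnN hLN r hrH hrs hrT using fun n => all_U' hA hH htr hT n (N0 + 1)
  -- the centraliser of the tower
  let C : Subgroup (Perm A) := Subgroup.centralizer (Set.range T)
  have hTC : ∀ n, T n ∈ C := by
    intro n
    rw [Subgroup.mem_centralizer_iff]
    rintro _ ⟨m, rfl⟩
    exact hT.comm m n
  have hCpow : ∀ t ∈ C, ∀ (n i : ℕ) (x : A), t (((T n) ^ i) x) = ((T n) ^ i) (t x) := by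
    intro t ht n i x
    rw [Subgroup.mem_centralizer_iff] at ht
    have h1 : T n * t = t * T n := ht (T n) ⟨n, rfl⟩
    have h2 : Commute (T n) t := h1
    have h3 := (h2.pow_left i).eq
    have h4 := congrArg (fun s : Perm A => s x) h3
    simp only [Perm.mul_apply] at h4
    exact h4.symm
  have hC1 : ∀ t ∈ C, ∀ x, t x = x → ∀ y, t y = y := by
    intro t ht x hx y
    obtain ⟨n, hn⟩ := hA.exists_D (y - x)
    obtain ⟨i, hi⟩ := hT.orbit hA n x y hn
    rw [← hi, hCpow t ht, hx]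
  have hC2 : ∀ t ∈ C, ∀ (L : ℕ) (x y : A), y - x ∈ (D L : AddSubgroup A) → t y - t x ∈ (D L : AddSubgroup A) := by
    intro t ht L x y h
    obtain ⟨i, hi⟩ := hT.orbit hA L x y h
    rw [← hi, hCpow t ht]
    have h1 : ∀ (i : ℕ) (z : A), ((T L) ^ i) z - z ∈ (D L : AddSubgroup A) := by
      intro i z
      induction i with
      | zero => simp [(D L : AddSubgroup A).zero_mem]
      | succ i ih =>
        rw [pow_succ', Perm.mul_apply]
        have := (D L).add_mem (hT.sub_mem hA L (((T L) ^ i) z)) ih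
        simpa using this
    exact h1 i (t x)
  let K : Subgroup (Perm A) := Subgroup.closure (Set.range r)
  have hKH : K ≤ H := by
    rw [Subgroup.closure_le]
    rintro _ ⟨n, rfl⟩
    exact hrH n
  -- local translations
  have hQ : ∀ k ∈ K, ∀ x, ∃ t ∈ C, ∀ y, y - x ∈ (D (N0 + 1) : AddSubgroup A) → k y = t y := by
    intro k hk
    induction hk using Subgroup.closure_induction with
    | mem k hk =>
      obtain ⟨n, rfl⟩ := hk
      intro x
      by_cases hx : x ∈ (D (N n) : AddSubgroup A)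
      · refine ⟨T n, hTC n, ?_⟩
        intro y hy
        apply hrT
        have := (D (N n)).add_mem (D_mono (hLN n) hy) hx
        simpa using this
      · refine ⟨1, C.one_mem, ?_⟩
        intro y hy
        rw [hrs n y, Perm.one_apply]
        intro hc
        apply hx
        have := (D (N n)).sub_mem hc (D_mono (hLN n) hy)
        simpa using this
    | one =>
      intro x
      exact ⟨1, C.one_mem, fun y _ => rfl⟩
    | mul a b _ _ iha ihb =>
      intro x
      obtain ⟨t, ht, htx⟩ := ihb x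
      obtain ⟨s, hs, hsx⟩ := iha (t x)
      refine ⟨s * t, C.mul_mem hs ht, ?_⟩
      intro y hy
      rw [Perm.mul_apply, Perm.mul_apply, htx y hy, hsx]
      exact hC2 t ht _ x y hy
    | inv a _ iha =>
      intro x
      obtain ⟨t, ht, htx⟩ := iha (a⁻¹ x)
      refine ⟨t⁻¹, C.inv_mem ht, ?_⟩
      intro y hy
      have h1 : t (a⁻¹ x) = x := by
        rw [← htx (a⁻¹ x) (by rw [sub_self]; exact zero_mem _), app_inv]
      have h2 : t⁻¹ x = a⁻¹ x := by
        rw [Perm.inv_eq_iff_eq]; exact h1.symm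
      have h3 := hC2 t⁻¹ (C.inv_mem ht) _ x y hy
      rw [h2] at h3
      have h4 := htx _ h3
      rw [app_inv] at h4
      rw [Perm.inv_eq_iff_eq]
      exact h4.symm
  refine ⟨K, lt_of_le_of_ne hKH ?_, ?_⟩
  · intro hKe
    have hbK : b ∈ K := by rw [hKe]; exact hbH
    obtain ⟨t, ht, htb⟩ := hQ b hbK 0
    obtain ⟨a, ha⟩ := hA.exists_e N0
    have ha1 : a ∈ (D (N0 + 1) : AddSubgroup A) := hA.mem_of_eq_e ha
    have ha2 : a ∉ (D N0 : AddSubgroup A) := hA.not_mem ha
    have h1 : t a = a := by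
      rw [← htb a (by simpa using ha1)]
      exact hbs a ha2
    have h2 : t 0 = 0 := hC1 t ht a h1 0
    have h3 : b 0 = T 1 0 := hbT 0 (zero_mem _)
    have h4 : b 0 = t 0 := htb 0 (by simp [(D (N0 + 1) : AddSubgroup A).zero_mem])
    have h5 := hT.val 0 0
    rw [← h3, h4, h2] at h5
    simp only [pow_zero, sub_self, smul_zero] at h5
    exact hA.ne h5.symm
  · intro x y
    obtain ⟨n, hn⟩ := hA.finite_sub (F := {x, y}) (by simp)
    have hx := hn x (by simp)
    have hy := hn y (by simp)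
    obtain ⟨i, hi⟩ := hT.orbit hA n x y ((D n).sub_mem hy hx)
    refine ⟨(r n) ^ i, K.pow_mem (Subgroup.subset_closure ⟨n, rfl⟩) i, ?_⟩
    rw [← hi]
    have hxN : x ∈ (D (N n) : AddSubgroup A) := D_mono (hnN n) hx
    clear hi
    have hcl : ((r n) ^ i) x = ((T n) ^ i) x ∧ ((T n) ^ i) x ∈ (D (N n) : AddSubgroup A) := by
      induction i with
      | zero => simpa using hxN
      | succ i ih =>
        rw [pow_succ', pow_succ', Perm.mul_apply, Perm.mul_apply, ih.1, hrT n _ ih.2]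
        exact ⟨rfl, (hT.mem_iff hA (hnN n) _).2 ih.2⟩
    exact hcl.1

end Pool.Agent.Helper912.FC
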