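import Mathlib
import Pool.Agent.Helper912.FCFinal

set_option autoImplicit false

namespace Pool.Agent.Helper912.FC

open Equiv

variable {A : Type} [AddCommGroup A] {e : A} {H : Subgroup (Perm A)}

theorem finite_perms {A : Type} {O : Set A} (hO : O.Finite) : {b : Perm A | ∀ x, x ∉ O → b x = x}.Finite := by
  classical
  have : Finite {x // x ∈ O} := hO
  have h1 : Finite {f : Perm A // ∀ a, ¬ (a ∈ O) → f a = a} :=
    Finite.of_equiv _ (Equiv.Perm.subtypeEquivSubtypePerm (fun x => x ∈ O))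
  exact h1

theorem trans_of_not_FC (hA : Pru A e) (hH : H ≤ GG A)
    (hn : ¬ ∀ a ∈ H, {b : Perm A | ∃ c ∈ H, b = c * a * c⁻¹}.Finite) : ∀ x y : A, ∃ h ∈ H, h x = y := by
  push Not at hn
  obtain ⟨a, ha, hinf⟩ := hn
  have hF := (hH ha).1
  have hx : ∃ x, {y | ∃ h ∈ H, h x = y}.Infinite := by
    by_contra hno
    push Not at hno
    apply hinf
    have hO : (⋃ x ∈ {x : A | a x ≠ x}, {y | ∃ h ∈ H, h x = y}).Finite := hF.biUnion (fun x _ => hno x)
    apply (finite_perms hO).subset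
    rintro b ⟨c, hc, rfl⟩ x hx
    simp only [Set.mem_iUnion, not_exists] at hx
    rw [Perm.mul_apply, Perm.mul_apply]
    have h1 : a (c⁻¹ x) = c⁻¹ x := by
      by_contra hne
      exact hx (c⁻¹ x) hne ⟨c, hc, app_inv c x⟩
    rw [h1, app_inv]
  obtain ⟨x, hx⟩ := hx
  have key : ∀ y, ∃ h ∈ H, h x = y := by
    intro y
    obtain ⟨n, hn⟩ := hA.exists_D (y - x)
    have h1 : ∃ z ∈ {y | ∃ h ∈ H, h x = y}, z ∉ (fun d => d + x) '' ((D n : AddSubgroup A) : Set A) := by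
      by_contra hno
      push Not at hno
      exact hx (((hA.finite_D n).image _).subset hno)
    obtain ⟨z, ⟨h, hh, rfl⟩, hz⟩ := h1
    have hz2 : h x - x ∉ (D n : AddSubgroup A) := by
      intro hc
      exact hz ⟨h x - x, hc, by simp⟩
    obtain ⟨j, hj, hj2⟩ := cycle_eq hA (hH hh) x
    have hnj : n ≤ j := by
      by_contra hlt
      exact hz2 (D_mono (by omega) hj2)
    have hy : y ∈ Set.range (fun n : ℤ => (h ^ n) x) := by
      rw [hj]; exact D_mono hnj hn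
    obtain ⟨m, hm⟩ := hy
    exact ⟨h ^ m, H.zpow_mem hh m, hm⟩
  intro x' y'
  obtain ⟨h1, hh1, hx1⟩ := key x'
  obtain ⟨h2, hh2, hx2⟩ := key y'
  refine ⟨h2 * h1⁻¹, H.mul_mem hh2 (H.inv_mem hh1), ?_⟩
  rw [Perm.mul_apply, ← hx1, inv_app, hx2]

theorem not_FC_of_trans (hA : Pru A e) (hH : H ≤ GG A) (htr : ∀ x y : A, ∃ h ∈ H, h x = y) :
    ¬ ∀ a ∈ H, {b : Perm A | ∃ c ∈ H, b = c * a * c⁻¹}.Finite := by
  intro hFC
  obtain ⟨a, ha, ha0⟩ := htr 0 e
  have h1 := hFC a ha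
  have h2 : (⋃ b ∈ {b : Perm A | ∃ c ∈ H, b = c * a * c⁻¹}, {x : A | b x ≠ x}).Finite := by
    apply h1.biUnion
    rintro b ⟨c, hc, rfl⟩
    exact (hH (H.mul_mem (H.mul_mem hc ha) (H.inv_mem hc))).1
  have := hA.infinite
  apply Set.infinite_univ (α := A)
  apply h2.subset
  intro y _
  obtain ⟨c, hc, hcy⟩ := htr 0 y
  simp only [Set.mem_iUnion]
  refine ⟨c * a * c⁻¹, ⟨c, hc, rfl⟩, ?_⟩
  change (c * a * c⁻¹) y ≠ y
  rw [Perm.mul_apply, Perm.mul_apply, ← hcy, inv_app, ha0]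
  intro h
  exact hA.ne (c.injective h)

end Pool.Agent.Helper912.FC
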