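import Mathlib
import Pool.Agent.Helper912.FCFinal

set_option autoImplicit false

namespace Pool.Agent.Helper912.FC

open Equiv

/-- complex roots of unity of 2-power order -/
def P2 : Subgroup ℂˣ where
  carrier := {z | ∃ n : ℕ, z ^ (2 ^ n) = 1}
  one_mem' := ⟨0, by simp⟩
  mul_mem' := by
    rintro a b ⟨m, hm⟩ ⟨n, hn⟩
    refine ⟨m + n, ?_⟩
    rw [mul_pow, pow_add]
    have h1 : a ^ (2 ^ m * 2 ^ n) = 1 := by rw [pow_mul, hm, one_pow]
    have h2 : b ^ (2 ^ m * 2 ^ n) = 1 := by rw [mul_comm, pow_mul, hn, one_pow]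
    rw [h1, h2, one_mul]
  inv_mem' := by
    rintro a ⟨m, hm⟩
    exact ⟨m, by rw [inv_pow, hm, inv_one]⟩

abbrev PA : Type := Additive P2

def pe : PA := Additive.ofMul ⟨-1, ⟨1, by simp⟩⟩

theorem PA_pru : Pru PA pe where
  tors := by
    intro a
    obtain ⟨n, hn⟩ := a.toMul.2
    refine ⟨n, ?_⟩
    apply Additive.toMul.injective
    apply Subtype.ext
    simpa using hn
  ne := by
    intro h
    have h1 := congrArg (fun a : PA => ((a.toMul : P2) : ℂˣ)) h
    have h2 := congrArg (fun a : ℂˣ => (a : ℂ)) h1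
    simp only [pe] at h2
    have h3 : (-1 : ℂ) = 1 := by simpa using h2
    norm_num at h3
  two_e := by
    apply Additive.toMul.injective
    apply Subtype.ext
    simp [pe]
  two := by
    intro a ha
    have h1 := congrArg (fun a : PA => ((a.toMul : P2) : ℂˣ)) ha
    have h2 := congrArg (fun a : ℂˣ => (a : ℂ)) h1
    have h3 : (((a.toMul : P2) : ℂˣ) : ℂ) ^ 2 = 1 := by simpa using h2
    have h5 : (((a.toMul : P2) : ℂˣ) : ℂ) * (((a.toMul : P2) : ℂˣ) : ℂ) = 1 := by rw [← pow_two]; exact h3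
    rcases mul_self_eq_one_iff.1 h5 with h4 | h4
    · left
      apply Additive.toMul.injective
      apply Subtype.ext
      apply Units.ext
      simpa using h4
    · right
      apply Additive.toMul.injective
      apply Subtype.ext
      apply Units.ext
      simpa [pe] using h4
  div := by
    intro a
    obtain ⟨n, hn⟩ := a.toMul.2
    obtain ⟨w, hw⟩ := IsAlgClosed.exists_pow_nat_eq (((a.toMul : P2) : ℂˣ) : ℂ) (by norm_num : 0 < 2)
    have hw0 : w ≠ 0 := by
      rintro rfl
      have : (((a.toMul : P2) : ℂˣ) : ℂ) ≠ 0 := Units.ne_zero _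
      apply this
      rw [← hw]; norm_num
    have hsq : (Units.mk0 w hw0) ^ 2 = ((a.toMul : P2) : ℂˣ) := by
      apply Units.ext
      simpa using hw
    refine ⟨Additive.ofMul ⟨Units.mk0 w hw0, ⟨n + 1, ?_⟩⟩, ?_⟩
    · rw [pow_succ, mul_comm, pow_mul, hsq]; exact hn
    · apply Additive.toMul.injective
      apply Subtype.ext
      simpa using hsq

end Pool.Agent.Helper912.FC
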