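import Pool.Agent.Helper912.KRLow2

set_option autoImplicit false
set_option linter.unusedVariables false
set_option linter.unusedSectionVars false
set_option linter.deprecated false

namespace Pool.Agent.Helper912

open Finset Classical

section

variable {W : Type} [Fintype W]

/-- add a new point above the down-set generated by `S` -/
def addrel (P : Pos W) (S : Finset W) : Option W → Option W → Prop
  | some a, some b => P.1 a b
  | some a, none => ∃ s ∈ S, a = s ∨ P.1 a s
  | none, _ => False

theorem addrel_pos (P : Pos W) (S : Finset W) : IsPos (addrel P S) := by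
  constructor
  · intro x
    cases x with
    | none => exact fun h => h
    | some a => exact P.irr a
  · intro x y z h1 h2
    cases x with
    | none => exact h1
    | some a =>
      cases y with
      | none => exact h2.elim
      | some b =>
        cases z with
        | none =>
          obtain ⟨s, hs, h⟩ := h2
          refine ⟨s, hs, Or.inr ?_⟩
          rcases h with h | h
          · rw [← h]; exact h1
          · exact P.trans h1 h
        | some c => exact P.trans h1 h2

def addtop (P : Pos W) (S : Finset W) : Pos (Option W) := Pos.mk' (addrel P S) (addrel_pos P S)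

theorem addtop_some (P : Pos W) (S : Finset W) (a b : W) :
    (addtop P S).1 (some a) (some b) ↔ P.1 a b := Iff.rfl
theorem addtop_none (P : Pos W) (S : Finset W) (a : W) :
    (addtop P S).1 (some a) none ↔ ∃ s ∈ S, a = s ∨ P.1 a s := Iff.rfl
theorem addtop_top (P : Pos W) (S : Finset W) (x : Option W) :
    ¬ (addtop P S).1 none x := fun h => h

/-- antichain pairs -/
def AP (W : Type) : Type := {p : Pos W × Finset W // ∀ x ∈ p.2, ∀ y ∈ p.2, ¬ p.1.1 x y}

noncomputable def eqAP (W : Type) [Fintype W] : AP W ≃ {Q : Pos (Option W) // Q ∈ MX W} where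
  toFun p := ⟨addtop p.1.1 p.1.2, by
    simp only [MX, mem_filter, mem_univ, true_and]
    exact addtop_top _ _⟩
  invFun Q := ⟨(Q.1.comap some, univ.filter (fun s => cov Q.1 (some s) none)), by
    intro x hx y hy h
    simp only [mem_filter, mem_univ, true_and] at hx hy
    exact hx.2 (some y) ⟨h, hy.1⟩⟩
  left_inv := by
    rintro ⟨⟨P, S⟩, h⟩
    apply Subtype.ext
    apply Prod.ext
    · apply Pos.ext'
      intro a b
      exact Iff.rfl
    · ext s
      simp only [mem_filter, mem_univ, true_and]
      constructor
      · rintro ⟨h1, h2⟩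
        rw [addtop_none] at h1
        obtain ⟨t, ht, h3⟩ := h1
        rcases h3 with rfl | h3
        · exact ht
        · exact absurd ⟨(addtop_some P S s t).2 h3, (addtop_none P S t).2 ⟨t, ht, Or.inl rfl⟩⟩ (h2 (some t))
      · intro hs
        refine ⟨(addtop_none P S s).2 ⟨s, hs, Or.inl rfl⟩, ?_⟩
        rintro c ⟨h1, h2⟩
        cases c with
        | none => exact addtop_top P S _ h2
        | some c =>
          rw [addtop_some] at h1
          rw [addtop_none] at h2
          obtain ⟨t, ht, h3⟩ := h2
          rcases h3 with rfl | h3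
          · exact h s hs c ht h1
          · exact h s hs t ht (P.trans h1 h3)
  right_inv := by
    rintro ⟨Q, hQ⟩
    simp only [MX, mem_filter, mem_univ, true_and] at hQ
    apply Subtype.ext
    apply Pos.ext'
    intro a b
    cases a with
    | none =>
      constructor
      · intro h; exact absurd h (addtop_top _ _ b)
      · intro h; exact absurd h (hQ b)
    | some a =>
      cases b with
      | some b => exact Iff.rfl
      | none =>
        rw [addtop_none]
        constructor
        · rintro ⟨s, hs, h⟩
          simp only [mem_filter, mem_univ, true_and] at hs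
          rcases h with rfl | h
          · exact hs.1
          · exact Q.trans h hs.1
        · intro h
          obtain ⟨c, h1, h2⟩ := exists_cov_right Q h
          cases c with
          | none => exact absurd h2.1 (hQ none)
          | some c =>
            refine ⟨c, by simp only [mem_filter, mem_univ, true_and]; exact h2, ?_⟩
            rcases h1 with h1 | h1
            · left; exact Option.some_injective _ h1
            · right; exact h1

end

/-- boolean partial orders -/
def IsBPO {n : ℕ} (r : Fin n → Fin n → Bool) : Prop :=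
  (∀ x, r x x = true) ∧ (∀ x y, r x y = true → r y x = true → x = y) ∧
    (∀ x y z, r x y = true → r y z = true → r x z = true)

def toPos {n : ℕ} (r : Fin n → Fin n → Bool) (h : IsBPO r) : Pos (Fin n) :=
  Pos.mk' (fun x y => r x y = true ∧ x ≠ y) ⟨fun x h => h.2 rfl, fun x y z h1 h2 =>
    ⟨h.2.2 x y z h1.1 h2.1, fun hxz => by
      subst hxz
      exact h1.2 (h.2.1 x y h1.1 h2.1)⟩⟩

theorem toPos_rel {n : ℕ} (r : Fin n → Fin n → Bool) (h : IsBPO r) (x y : Fin n) :
    (toPos r h).1 x y ↔ (r x y = true ∧ x ≠ y) := Iff.rfl

noncomputable def ofPos {n : ℕ} (P : Pos (Fin n)) : Fin n → Fin n → Bool :=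
  fun x y => decide (x = y ∨ P.1 x y)

theorem ofPos_true {n : ℕ} (P : Pos (Fin n)) (x y : Fin n) :
    ofPos P x y = true ↔ (x = y ∨ P.1 x y) := by simp [ofPos]

theorem ofPos_bpo {n : ℕ} (P : Pos (Fin n)) : IsBPO (ofPos P) := by
  refine ⟨fun x => ?_, fun x y h1 h2 => ?_, fun x y z h1 h2 => ?_⟩
  · rw [ofPos_true]; exact Or.inl rfl
  · rw [ofPos_true] at h1 h2
    rcases h1 with h1 | h1
    · exact h1
    · rcases h2 with h2 | h2
      · exact h2.symm
      · exact (P.asymm h1 h2).elim
  · rw [ofPos_true] at h1 h2 ⊢
    rcases h1 with rfl | h1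
    · exact h2
    · rcases h2 with rfl | h2
      · exact Or.inr h1
      · exact Or.inr (P.trans h1 h2)

noncomputable def eqB (n : ℕ) : {r : Fin n → Fin n → Bool // IsBPO r} ≃ Pos (Fin n) where
  toFun r := toPos r.1 r.2
  invFun P := ⟨ofPos P, ofPos_bpo P⟩
  left_inv := by
    rintro ⟨r, hr⟩
    apply Subtype.ext
    funext x y
    rw [Bool.eq_iff_iff, ofPos_true, toPos_rel]
    constructor
    · rintro (rfl | h)
      · exact hr.1 x
      · exact h.1
    · intro h
      by_cases hxy : x = y
      · exact Or.inl hxy
      · exact Or.inr ⟨h, hxy⟩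
  right_inv := by
    intro P
    apply Pos.ext'
    intro x y
    rw [toPos_rel, ofPos_true]
    constructor
    · rintro ⟨h1, h2⟩
      exact h1.resolve_left h2
    · intro h
      exact ⟨Or.inr h, P.ne h⟩

theorem card_B (n : ℕ) : Nat.card {r : Fin n → Fin n → Bool //
            (∀ x, r x x = true) ∧
              (∀ x y, r x y = true → r y x = true → x = y) ∧
              (∀ x y z, r x y = true → r y z = true → r x z = true)} = pn n := by
  rw [pn, ← Nat.card_eq_fintype_card]
  exact Nat.card_congr (eqB n)

noncomputable def eqC (n : ℕ) : {p : (Fin n → Fin n → Bool) × Finset (Fin n) //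
            ((∀ x, p.1 x x = true) ∧
              (∀ x y, p.1 x y = true → p.1 y x = true → x = y) ∧
              (∀ x y z, p.1 x y = true → p.1 y z = true → p.1 x z = true)) ∧
            (∀ x ∈ p.2, ∀ y ∈ p.2, p.1 x y = true → x = y)} ≃ AP (Fin n) where
  toFun p := ⟨(toPos p.1.1 p.2.1, p.1.2), fun x hx y hy h =>
    h.2 (p.2.2 x hx y hy h.1)⟩
  invFun p := ⟨(ofPos p.1.1, p.1.2), ofPos_bpo p.1.1, fun x hx y hy h => by
    rw [ofPos_true] at h
    rcases h with h | h
    · exact h
    · exact absurd h (p.2 x hx y hy)⟩
  left_inv := by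
    rintro ⟨⟨r, S⟩, h⟩
    apply Subtype.ext
    apply Prod.ext
    · have := (eqB n).left_inv ⟨r, h.1⟩
      exact congrArg Subtype.val this
    · rfl
  right_inv := by
    rintro ⟨⟨P, S⟩, h⟩
    apply Subtype.ext
    apply Prod.ext
    · exact (eqB n).right_inv P
    · rfl

theorem card_C (n : ℕ) : Nat.card {p : (Fin n → Fin n → Bool) × Finset (Fin n) //
            ((∀ x, p.1 x x = true) ∧
              (∀ x y, p.1 x y = true → p.1 y x = true → x = y) ∧
              (∀ x y z, p.1 x y = true → p.1 y z = true → p.1 x z = true)) ∧
            (∀ x ∈ p.2, ∀ y ∈ p.2, p.1 x y = true → x = y)} = (MX (Fin n)).card := by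
  rw [Nat.card_congr ((eqC n).trans (eqAP (Fin n))), Nat.card_eq_fintype_card, Fintype.card_coe]

end Pool.Agent.Helper912
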