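import Pool.Agent.Helper912.KRAnti

set_option autoImplicit false
set_option linter.unusedVariables false
set_option linter.unusedSectionVars false
set_option linter.deprecated false

namespace Pool.Agent.Helper912

open Finset Classical Filter Asymptotics Topology

theorem err1_mid (n j : ℕ) (h : 1 ≤ n) (hj : j ≤ n) (h1 : 2 * n ≤ 5 * j) (h2 : 5 * j ≤ 3 * n) :
    (j : ℝ) * (3 / 2) ^ (n - j) + (n : ℝ) * (1 / 2) ^ j * 2 ^ (n - j) ≤ 2 * ((n : ℝ) ^ 1 * 1.4 ^ n) := by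
  have e1 : (3 / 2 : ℝ) ^ (n - j) ≤ (1.4 : ℝ) ^ n :=
    mid_pow _ _ (by norm_num) (by norm_num) (by norm_num) _ _ (by omega)
  have e2 : (1 / 2 : ℝ) ^ j * 2 ^ (n - j) ≤ (1.4 : ℝ) ^ n := by
    have e3 : (1 / 2 : ℝ) ^ j * 2 ^ (n - j) * 4 ^ j = 2 ^ n := by
      obtain ⟨i, rfl⟩ : ∃ i, n = j + i := ⟨n - j, by omega⟩
      rw [show j + i - j = i by omega, pow_add, show (4 : ℝ) = 2 * 2 by norm_num, mul_pow]
      have : (1 / 2 : ℝ) ^ j * 2 ^ j = 1 := by rw [← mul_pow]; norm_num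
      linear_combination (2 ^ j * 2 ^ i : ℝ) * this
    have e4 : (2 : ℝ) ^ n ≤ 1.4 ^ n * 4 ^ j := by
      have e5 : ((2 : ℝ) ^ n) ^ 5 ≤ (1.4 ^ n * 4 ^ j) ^ 5 := by
        have e6 : (16 : ℝ) ^ n ≤ (4 ^ j) ^ 5 := by
          rw [show (16 : ℝ) = 4 ^ 2 by norm_num, ← pow_mul, ← pow_mul]
          exact pow_le_pow_right₀ (by norm_num) (by omega)
        calc ((2 : ℝ) ^ n) ^ 5 = 32 ^ n := by
              rw [← pow_mul, mul_comm, pow_mul]; norm_num
          _ ≤ (1.4 ^ 5 * 16) ^ n := pow_le_pow_left₀ (by norm_num) (by norm_num) n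
          _ = (1.4 ^ n) ^ 5 * 16 ^ n := by rw [mul_pow, ← pow_mul, ← pow_mul, mul_comm 5 n]
          _ ≤ (1.4 ^ n) ^ 5 * (4 ^ j) ^ 5 := mul_le_mul_of_nonneg_left e6 (by positivity)
          _ = _ := by rw [mul_pow]
      exact le_of_pow_le_pow_left₀ (by norm_num) (by positivity) e5
    rw [← e3] at e4
    exact le_of_mul_le_mul_right e4 (by positivity)
  have e4 : (1 : ℝ) ≤ n := by exact_mod_cast h
  have e5 : (j : ℝ) ≤ n := by exact_mod_cast hj
  have e7 : (0 : ℝ) < (1.4 : ℝ) ^ n := by positivity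
  rw [pow_one]
  calc (j : ℝ) * (3 / 2) ^ (n - j) + (n : ℝ) * (1 / 2) ^ j * 2 ^ (n - j)
      ≤ n * 1.4 ^ n + n * 1.4 ^ n := by
        apply add_le_add
        · exact mul_le_mul e5 e1 (by positivity) (by positivity)
        · rw [mul_assoc]; exact mul_le_mul_of_nonneg_left e2 (by positivity)
    _ = 2 * (n * 1.4 ^ n) := by ring

theorem err1_all (n j : ℕ) (h : 1 ≤ n) (hj : j ≤ n) :
    (j : ℝ) * (3 / 2) ^ (n - j) + (n : ℝ) * (1 / 2) ^ j * 2 ^ (n - j) ≤ 2 * ((n : ℝ) ^ 1 * 2 ^ n) := by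
  have e1 : (3 / 2 : ℝ) ^ (n - j) ≤ 2 ^ n :=
    (pow_le_pow_right₀ (by norm_num) (Nat.sub_le n j)).trans
      (pow_le_pow_left₀ (by norm_num) (by norm_num) n)
  have e2 : (1 / 2 : ℝ) ^ j * 2 ^ (n - j) ≤ 2 ^ n := by
    have h1 : (1 / 2 : ℝ) ^ j ≤ 1 := pow_le_one₀ (by norm_num) (by norm_num)
    have h2 : (2 : ℝ) ^ (n - j) ≤ 2 ^ n := pow_le_pow_right₀ (by norm_num) (Nat.sub_le n j)
    calc (1 / 2 : ℝ) ^ j * 2 ^ (n - j) ≤ 1 * 2 ^ n := mul_le_mul h1 h2 (by positivity) (by norm_num)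
      _ = _ := one_mul _
  have e4 : (1 : ℝ) ≤ n := by exact_mod_cast h
  have e5 : (j : ℝ) ≤ n := by exact_mod_cast hj
  rw [pow_one]
  calc (j : ℝ) * (3 / 2) ^ (n - j) + (n : ℝ) * (1 / 2) ^ j * 2 ^ (n - j)
      ≤ n * 2 ^ n + n * 2 ^ n := by
        apply add_le_add
        · exact mul_le_mul e5 e1 (by positivity) (by positivity)
        · rw [mul_assoc]; exact mul_le_mul_of_nonneg_left e2 (by positivity)
    _ = 2 * (n * 2 ^ n) := by ring

theorem err2_mid (n j : ℕ) (h : 1 ≤ n) (hj : j ≤ n) (h1 : 2 * n ≤ 5 * j) (h2 : 5 * j ≤ 3 * n) :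
    (j : ℝ) * 2 ^ j * (3 / 2) ^ (n - j) + ((n : ℝ) + 1) * 2 ^ (n - j) ≤ 3 * ((n : ℝ) ^ 1 * 1.8 ^ n) := by
  have e1 : (2 : ℝ) ^ j * (3 / 2) ^ (n - j) ≤ (1.8 : ℝ) ^ n := by
    have e3 : (2 : ℝ) ^ j * (3 / 2) ^ (n - j) = (3 / 2) ^ n * (4 / 3) ^ j := by
      obtain ⟨i, rfl⟩ : ∃ i, n = j + i := ⟨n - j, by omega⟩
      rw [show j + i - j = i by omega, pow_add, show (2 : ℝ) = 3 / 2 * (4 / 3) by norm_num, mul_pow]
      norm_num
      ring
    have e4 : (4 / 3 : ℝ) ^ j ≤ (1.2 : ℝ) ^ n :=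
      mid_pow _ _ (by norm_num) (by norm_num) (by norm_num) _ _ h2
    rw [e3, show (1.8 : ℝ) = 3 / 2 * 1.2 by norm_num, mul_pow]
    exact mul_le_mul_of_nonneg_left e4 (by positivity)
  have e2 : (2 : ℝ) ^ (n - j) ≤ (1.8 : ℝ) ^ n :=
    mid_pow _ _ (by norm_num) (by norm_num) (by norm_num) _ _ (by omega)
  have e4 : (1 : ℝ) ≤ n := by exact_mod_cast h
  have e5 : (j : ℝ) ≤ n := by exact_mod_cast hj
  have e7 : (0 : ℝ) < (1.8 : ℝ) ^ n := by positivity
  rw [pow_one]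
  calc (j : ℝ) * 2 ^ j * (3 / 2) ^ (n - j) + ((n : ℝ) + 1) * 2 ^ (n - j)
      ≤ n * 1.8 ^ n + (2 * n) * 1.8 ^ n := by
        apply add_le_add
        · rw [mul_assoc]; exact mul_le_mul e5 e1 (by positivity) (by positivity)
        · exact mul_le_mul (by linarith) e2 (by positivity) (by positivity)
    _ = 3 * (n * 1.8 ^ n) := by ring

theorem err2_all (n j : ℕ) (h : 1 ≤ n) (hj : j ≤ n) :
    (j : ℝ) * 2 ^ j * (3 / 2) ^ (n - j) + ((n : ℝ) + 1) * 2 ^ (n - j) ≤ 3 * ((n : ℝ) ^ 1 * 3 ^ n) := by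
  have e1 : (2 : ℝ) ^ j * (3 / 2) ^ (n - j) ≤ 3 ^ n := by
    have h1 : (2 : ℝ) ^ j ≤ 2 ^ n := pow_le_pow_right₀ (by norm_num) hj
    have h2 : (3 / 2 : ℝ) ^ (n - j) ≤ (3 / 2) ^ n := pow_le_pow_right₀ (by norm_num) (Nat.sub_le n j)
    calc (2 : ℝ) ^ j * (3 / 2) ^ (n - j) ≤ 2 ^ n * (3 / 2) ^ n :=
          mul_le_mul h1 h2 (by positivity) (by positivity)
      _ = _ := by rw [← mul_pow]; norm_num
  have e2 : (2 : ℝ) ^ (n - j) ≤ 3 ^ n :=
    (pow_le_pow_right₀ (by norm_num) (Nat.sub_le n j)).trans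
      (pow_le_pow_left₀ (by norm_num) (by norm_num) n)
  have e4 : (1 : ℝ) ≤ n := by exact_mod_cast h
  have e5 : (j : ℝ) ≤ n := by exact_mod_cast hj
  rw [pow_one]
  calc (j : ℝ) * 2 ^ j * (3 / 2) ^ (n - j) + ((n : ℝ) + 1) * 2 ^ (n - j)
      ≤ n * 3 ^ n + (2 * n) * 3 ^ n := by
        apply add_le_add
        · rw [mul_assoc]; exact mul_le_mul e5 e1 (by positivity) (by positivity)
        · exact mul_le_mul (by linarith) e2 (by positivity) (by positivity)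
    _ = 3 * (n * 3 ^ n) := by ring

theorem err3_mid (n j : ℕ) (h : 1 ≤ n) (hj : j ≤ n) (h1 : 2 * n ≤ 5 * j) (h2 : 5 * j ≤ 3 * n) :
    (3 : ℝ) ^ (n - j) + 2 ^ (n - j) ≤ 2 * ((n : ℝ) ^ 1 * 1.95 ^ n) := by
  have e1 : (3 : ℝ) ^ (n - j) ≤ (1.95 : ℝ) ^ n :=
    mid_pow _ _ (by norm_num) (by norm_num) (by norm_num) _ _ (by omega)
  have e2 : (2 : ℝ) ^ (n - j) ≤ (1.95 : ℝ) ^ n :=
    mid_pow _ _ (by norm_num) (by norm_num) (by norm_num) _ _ (by omega)
  have e4 : (1 : ℝ) ≤ n := by exact_mod_cast h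
  have e7 : (0 : ℝ) < (1.95 : ℝ) ^ n := by positivity
  rw [pow_one]
  nlinarith

theorem err3_all (n j : ℕ) (h : 1 ≤ n) (hj : j ≤ n) :
    (3 : ℝ) ^ (n - j) + 2 ^ (n - j) ≤ 2 * ((n : ℝ) ^ 1 * 3 ^ n) := by
  have e1 : (3 : ℝ) ^ (n - j) ≤ 3 ^ n := pow_le_pow_right₀ (by norm_num) (Nat.sub_le n j)
  have e2 : (2 : ℝ) ^ (n - j) ≤ 3 ^ n :=
    (pow_le_pow_right₀ (by norm_num) (Nat.sub_le n j)).trans
      (pow_le_pow_left₀ (by norm_num) (by norm_num) n)
  have e4 : (1 : ℝ) ≤ n := by exact_mod_cast h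
  have e7 : (0 : ℝ) < (3 : ℝ) ^ n := by positivity
  rw [pow_one]
  nlinarith

/-- main term for antichains -/
noncomputable def T3 (n : ℕ) : ℝ := US n (fun _ => 2 ^ n)

theorem T3_eq (n : ℕ) : T3 n = 2 ^ n * US n (fun _ => 1) := by
  unfold T3
  rw [← US_mul]
  simp

theorem T3_pos (n : ℕ) : 0 < T3 n := by
  rw [T3_eq]; have := US_one_pos n; positivity

theorem one_le_T3 (n : ℕ) : 1 ≤ T3 n := by
  rw [T3_eq]
  have h1 := US_one_lower n
  have h2 : (1 : ℝ) ≤ 2 ^ ((n / 2) * (n - n / 2)) := one_le_pow₀ (by norm_num)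
  have h3 : (1 : ℝ) ≤ 2 ^ n := one_le_pow₀ (by norm_num)
  nlinarith

theorem TT_succ_le (n : ℕ) : (TT (n + 1) : ℝ) ≤ (2 * (n : ℝ) + 3) * T3 n := by
  have h1 : (TT (n + 1) : ℝ) = ∑ j ∈ range (n + 1 + 1), ((n + 1).choose j : ℝ) *
      2 ^ ((n + 1 - j) + j * (n + 1 - j)) := by
    unfold TT; push_cast; rfl
  rw [h1, Finset.sum_range_succ]
  have h2 : ((n + 1).choose (n + 1) : ℝ) * 2 ^ ((n + 1 - (n + 1)) + (n + 1) * (n + 1 - (n + 1))) = 1 := by
    simp
  rw [h2]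
  have h3 : ∑ j ∈ range (n + 1), ((n + 1).choose j : ℝ) * 2 ^ ((n + 1 - j) + j * (n + 1 - j))
      ≤ (2 * (n : ℝ) + 2) * T3 n := by
    unfold T3 US
    rw [Finset.mul_sum]
    apply Finset.sum_le_sum
    intro j hj
    rw [Finset.mem_range] at hj
    have h4 : (n + 1).choose j ≤ (n + 1) * n.choose j := by
      have := Nat.choose_mul_succ_eq n j
      calc (n + 1).choose j ≤ (n + 1).choose j * (n + 1 - j) :=
            Nat.le_mul_of_pos_right _ (by omega)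
        _ = n.choose j * (n + 1) := this.symm
        _ = _ := by ring
    have h5 : ((n + 1).choose j : ℝ) ≤ ((n : ℝ) + 1) * n.choose j := by exact_mod_cast h4
    have h6 : (2 : ℝ) ^ ((n + 1 - j) + j * (n + 1 - j)) = 2 * (2 ^ (j * (n - j)) * 2 ^ n) := by
      obtain ⟨i, rfl⟩ : ∃ i, n = j + i := ⟨n - j, by omega⟩
      rw [show j + i + 1 - j = i + 1 by omega, show j + i - j = i by omega, ← pow_add, ← pow_succ']
      congr 1; ring
    rw [h6]
    calc ((n + 1).choose j : ℝ) * (2 * (2 ^ (j * (n - j)) * 2 ^ n))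
        ≤ (((n : ℝ) + 1) * n.choose j) * (2 * (2 ^ (j * (n - j)) * 2 ^ n)) :=
          mul_le_mul_of_nonneg_right h5 (by positivity)
      _ = _ := by ring
  have := one_le_T3 n
  nlinarith

theorem pn_asymp : Tendsto (fun n => (pn n : ℝ) / TT n) atTop (𝓝 1) := by
  obtain ⟨τ, h1, h2, h3⟩ := rest_small
  obtain ⟨η, k1, k2, k3⟩ := US_small (fun n j => (j : ℝ) * (3 / 2) ^ (n - j) +
    (n : ℝ) * (1 / 2) ^ j * 2 ^ (n - j)) s2 (1.4) 2 2 1 one_le_s2 (by norm_num)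
    (by have := lt_s2; norm_num at this ⊢; linarith) (by norm_num) (by norm_num) err1_mid err1_all
  have hl : Tendsto (fun n => 1 - η n) atTop (𝓝 1) := by
    simpa using (tendsto_const_nhds (x := (1 : ℝ))).sub k1.tendsto
  have hu : Tendsto (fun n => 1 + τ n) atTop (𝓝 1) := by
    simpa using (tendsto_const_nhds (x := (1 : ℝ))).add h1.tendsto
  refine tendsto_of_tendsto_of_tendsto_of_le_of_le' hl hu ?_ ?_
  · filter_upwards [eventually_ge_atTop 1] with n hn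
    have hT := TT_pos n
    rw [le_div_iff₀ hT]
    have h4 := low1 (V := Fin n)
    rw [Fintype.card_fin] at h4
    have h5 := k3 n hn
    have h6 := mul_le_mul_of_nonneg_left (TT_lower n) (k2 n)
    have h7 := h5.trans h6
    linarith
  · filter_upwards [h3] with n hn
    have hT := TT_pos n
    rw [div_le_iff₀ hT]
    have h4 := hn (Fin n) (Fintype.card_fin n)
    have h5 := card_rest3 (Fin n)
    have h6 := card_lay3 (V := Fin n)
    rw [Fintype.card_fin] at h5 h6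
    have h5' : (pn n : ℝ) ≤ ((rest3 (Fin n)).card : ℝ) + ((lay3 (Fin n)).card : ℝ) := by
      exact_mod_cast h5
    have h6' : ((lay3 (Fin n)).card : ℝ) ≤ TT n := by exact_mod_cast h6
    linarith

theorem MX_asymp : Tendsto (fun n => ((MX (Fin n)).card : ℝ) / T3 n) atTop (𝓝 1) := by
  obtain ⟨τ, h1, h2, h3⟩ := rest_small
  obtain ⟨η, k1, k2, k3⟩ := US_small (fun n j => (j : ℝ) * 2 ^ j * (3 / 2) ^ (n - j) +
    ((n : ℝ) + 1) * 2 ^ (n - j)) 2 (1.8) 3 3 1 (by norm_num) (by norm_num)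
    (by norm_num) (by norm_num) (by norm_num) err2_mid err2_all
  obtain ⟨ξ, l1, l2, l3⟩ := US_small (fun n j => (3 : ℝ) ^ (n - j) + 2 ^ (n - j)) 2 (1.95) 3 2 1
    (by norm_num) (by norm_num) (by norm_num) (by norm_num) (by norm_num) err3_mid err3_all
  have hl : Tendsto (fun n => 1 - η n) atTop (𝓝 1) := by
    simpa using (tendsto_const_nhds (x := (1 : ℝ))).sub k1.tendsto
  have hu : Tendsto (fun n => 1 + ξ n + (2 * ((n : ℝ) * τ (n + 1)) + 3 * τ (n + 1))) atTop (𝓝 1) := by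
    have a1 := (tendsto_const_nhds (x := (1 : ℝ))).add l1.tendsto
    have a2 := ((h1.shift.nat_mul.const_mul 2).add (h1.shift.const_mul 3)).tendsto
    have a3 := a1.add a2
    simpa using a3
  refine tendsto_of_tendsto_of_tendsto_of_le_of_le' hl hu ?_ ?_
  · filter_upwards [eventually_ge_atTop 1] with n hn
    have hT := T3_pos n
    rw [le_div_iff₀ hT]
    have h4 := low2 (W := Fin n)
    rw [Fintype.card_fin] at h4
    have h5 := k3 n hn
    rw [← T3_eq] at h5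
    have h6 : US n (fun j => (2 : ℝ) ^ n) = T3 n := rfl
    rw [h6] at h4
    linarith
  · filter_upwards [(tendsto_add_atTop_nat 1).eventually h3, eventually_ge_atTop 1] with n hn hn1
    have hT := T3_pos n
    rw [div_le_iff₀ hT]
    have h4 := hn (Option (Fin n)) (by rw [Fintype.card_option, Fintype.card_fin])
    have h5 : (MX (Fin n)).card ≤ (rest3 (Option (Fin n))).card +
        ((MX (Fin n)).filter (fun P => P ∈ lay3 (Option (Fin n)))).card := by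
      refine (card_le_card (fun P hP => ?_)).trans (card_union_le _ _)
      rw [mem_union]
      by_cases h : P ∈ lay3 (Option (Fin n))
      · right; rw [mem_filter]; exact ⟨hP, h⟩
      · left
        simp only [rest3, mem_filter, mem_univ, true_and]
        exact h
    have h6 := lay3_opt ((MX (Fin n)).filter (fun P => P ∈ lay3 (Option (Fin n))))
      (fun P hP => (mem_filter.1 hP).2) (fun P hP => by
        have := (mem_filter.1 hP).1
        simpa [MX] using this)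
    rw [Fintype.card_fin] at h6
    have h7 : ((MX (Fin n)).card : ℝ) ≤ (rest3 (Option (Fin n))).card +
        ((MX (Fin n)).filter (fun P => P ∈ lay3 (Option (Fin n)))).card := by exact_mod_cast h5
    have h8 : US n (fun j => (2 : ℝ) ^ n) = T3 n := rfl
    have h9 := l3 n hn1
    rw [US_add, ← T3_eq] at h9
    rw [h8] at h6
    have h10 := mul_le_mul_of_nonneg_left (TT_succ_le n) (h2 (n + 1))
    have h11 := h4.trans h10
    nlinarith

end Pool.Agent.Helper912
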