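import Pool.Agent.Helper912.KRLayer3

set_option autoImplicit false
set_option linter.unusedVariables false
set_option linter.unusedSectionVars false
set_option linter.deprecated false

namespace Pool.Agent.Helper912

open Finset Classical

section

variable (V : Type) [Fintype V]

noncomputable def bad1 (k e : ℕ) : Finset (Pos V) :=
  univ.filter (fun P => ∃ Q : Finset V, Q.card = k ∧ (∀ a ∈ Q, ∀ b ∈ Q, ¬ P.1 a b) ∧
    2 * (NN P Q).card + 2 * e < Fintype.card V)

noncomputable def bad2 (e : ℕ) : Finset (Pos V) :=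
  univ.filter (fun P => ∃ x, (gam P x).card < 1000 * e)

noncomputable def bad3 (k e : ℕ) : Finset (Pos V) :=
  univ.filter (fun P => ∃ x y Qx Qy, Qx.card = k ∧ Qy.card = k ∧ P ∈ B3 x y Qx Qy e)

noncomputable def bad4 (k e : ℕ) : Finset (Pos V) :=
  univ.filter (fun P => ∃ x v v' Q, Q.card = k ∧ P ∈ B4 x v v' Q e)

variable {V}

theorem good_or_bad {k e : ℕ} (hk : 1 ≤ k) (hke : 6 * k + 4 ≤ 1000 * e)
    (hn : 400 * e ≤ Fintype.card V) (P : Pos V) (h1 : P ∉ bad1 V k e) (h2 : P ∉ bad2 V e)
    (h3 : P ∉ bad3 V k e) (h4 : P ∉ bad4 V k e) : P ∈ lay3 V ∨ P ∈ lay4 V := by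
  simp only [bad1, bad2, bad3, bad4, mem_filter, mem_univ, true_and] at h1 h2 h3 h4
  push Not at h1 h2 h3 h4
  have hG : GoodHyp P k e := by
    refine ⟨fun Q hQ hA => ?_, fun x => h2 x, fun x y Qx Qy a b => h3 x y Qx Qy a b,
      fun x v v' Q a => h4 x v v' Q a, hk, hke, by omega, hn⟩
    exact h1 Q hQ hA
  rcases hG.layered with h | h
  · left; simp only [lay3, mem_filter, mem_univ, true_and]; exact h
  · right; simp only [lay4, mem_filter, mem_univ, true_and]; exact h

theorem card_bad1 (k e : ℕ) :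
    (bad1 V k e).card ≤ 2 ^ Fintype.card V * (2 ^ (k * ((Fintype.card V - 2 * e) / 2)) *
      (pn (Fintype.card V - k) * (2 ^ Fintype.card V * 3 ^ Fintype.card V))) := by
  have h1 : bad1 V k e ⊆ (powersetCard k (univ : Finset V)).biUnion (fun Q =>
      univ.filter (fun P : Pos V => (∀ a ∈ Q, ∀ b ∈ Q, ¬ P.1 a b) ∧
        (NN P Q).card ≤ (Fintype.card V - 2 * e) / 2)) := by
    intro P hP
    simp only [bad1, mem_filter, mem_univ, true_and] at hP
    obtain ⟨Q, hQ, hA, hN⟩ := hP
    rw [mem_biUnion]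
    refine ⟨Q, mem_powersetCard.2 ⟨subset_univ _, hQ⟩, ?_⟩
    simp only [mem_filter, mem_univ, true_and]
    exact ⟨hA, by omega⟩
  refine (card_le_card h1).trans ((card_biUnion_le_card_mul _ _
    (2 ^ (k * ((Fintype.card V - 2 * e) / 2)) *
      (pn (Fintype.card V - k) * (2 ^ Fintype.card V * 3 ^ Fintype.card V))) ?_).trans ?_)
  · intro Q hQ
    rw [mem_powersetCard] at hQ
    have := count_B1 Q ((Fintype.card V - 2 * e) / 2)
    rw [hQ.2] at this
    exact this
  · apply Nat.mul_le_mul_right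
    rw [card_powersetCard, card_univ]
    exact Nat.choose_le_two_pow _ _

theorem card_bad2 (e : ℕ) :
    (bad2 V e).card * 8 ^ Fintype.card V ≤ Fintype.card V * (16 ^ (1000 * e) *
      (pn (Fintype.card V - 1) * 9 ^ Fintype.card V)) := by
  have h1 : bad2 V e ⊆ (univ : Finset V).biUnion (fun x =>
      univ.filter (fun P : Pos V => (gam P x).card ≤ 1000 * e)) := by
    intro P hP
    simp only [bad2, mem_filter, mem_univ, true_and] at hP
    obtain ⟨x, hx⟩ := hP
    rw [mem_biUnion]
    exact ⟨x, mem_univ _, by simp only [mem_filter, mem_univ, true_and]; omega⟩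
  have h2 := (card_le_card h1).trans (card_biUnion_le_card_mul _ _ _
    (fun x _ => count_B2 (V := V) x (1000 * e)))
  rw [card_univ] at h2
  have h3 := small_count (univ : Finset V) (1000 * e)
  rw [Finset.powerset_univ, card_univ] at h3
  calc (bad2 V e).card * 8 ^ Fintype.card V
      ≤ Fintype.card V * (2 ^ (1000 * e) * (pn (Fintype.card V - 1) *
        (univ.filter (fun A : Finset V => A.card ≤ 1000 * e)).card)) * 8 ^ Fintype.card V :=
        Nat.mul_le_mul_right _ h2
    _ = Fintype.card V * (2 ^ (1000 * e) * (pn (Fintype.card V - 1) *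
        ((univ.filter (fun A : Finset V => A.card ≤ 1000 * e)).card * 8 ^ Fintype.card V))) := by ring
    _ ≤ Fintype.card V * (2 ^ (1000 * e) * (pn (Fintype.card V - 1) *
        (9 ^ Fintype.card V * 8 ^ (1000 * e)))) := by
        apply Nat.mul_le_mul_left
        apply Nat.mul_le_mul_left
        apply Nat.mul_le_mul_left
        exact h3
    _ = Fintype.card V * ((2 ^ (1000 * e) * 8 ^ (1000 * e)) *
      (pn (Fintype.card V - 1) * 9 ^ Fintype.card V)) := by ring
    _ = _ := by
        rw [← mul_pow, show (2 * 8 : ℕ) = 16 from rfl]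

theorem card_bad3 (k e : ℕ) :
    ((bad3 V k e).card : ℝ) ≤ (Fintype.card V : ℝ) ^ (2 * k + 2) *
      (((2 : ℝ) ^ (Fintype.card V) * (729 / 1024) ^ e) * (8 * pn (Fintype.card V - 2))) := by
  let I : Finset ((V × V) × (Finset V × Finset V)) :=
    univ ×ˢ (powersetCard k (univ : Finset V) ×ˢ powersetCard k (univ : Finset V))
  have h1 : bad3 V k e ⊆ I.biUnion (fun i => B3 i.1.1 i.1.2 i.2.1 i.2.2 e) := by
    intro P hP
    simp only [bad3, mem_filter, mem_univ, true_and] at hP
    obtain ⟨x, y, Qx, Qy, hx, hy, hP⟩ := hP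
    rw [mem_biUnion]
    refine ⟨((x, y), (Qx, Qy)), ?_, hP⟩
    simp [I, mem_powersetCard, hx, hy]
  have h2 : ((bad3 V k e).card : ℝ) ≤ ∑ i ∈ I, ((B3 i.1.1 i.1.2 i.2.1 i.2.2 e).card : ℝ) := by
    exact_mod_cast (card_le_card h1).trans card_biUnion_le
  refine h2.trans ((Finset.sum_le_sum (fun i _ => count_B3 _ _ _ _ e)).trans ?_)
  rw [Finset.sum_const, nsmul_eq_mul]
  apply mul_le_mul_of_nonneg_right _ (by positivity)
  have h3 : I.card ≤ Fintype.card V ^ (2 * k + 2) := by
    simp only [I, card_product, card_univ, card_powersetCard, Fintype.card_prod]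
    have h4 := Nat.choose_le_pow (Fintype.card V) k
    calc Fintype.card V * Fintype.card V * ((Fintype.card V).choose k * (Fintype.card V).choose k)
        ≤ Fintype.card V * Fintype.card V * (Fintype.card V ^ k * Fintype.card V ^ k) :=
          Nat.mul_le_mul_left _ (Nat.mul_le_mul h4 h4)
      _ = Fintype.card V ^ (2 * k + 2) := by ring
  exact_mod_cast h3

theorem card_bad4 (k e : ℕ) :
    ((bad4 V k e).card : ℝ) ≤ (Fintype.card V : ℝ) ^ (k + 3) *
      (((2 : ℝ) ^ ((Fintype.card V : ℝ) / 2) * (2 * (81 / 256)) ^ e)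
      * (2 * pn (Fintype.card V - 1))) := by
  let I : Finset ((V × V × V) × Finset V) :=
    univ ×ˢ (powersetCard k (univ : Finset V))
  have h1 : bad4 V k e ⊆ I.biUnion (fun i => B4 i.1.1 i.1.2.1 i.1.2.2 i.2 e) := by
    intro P hP
    simp only [bad4, mem_filter, mem_univ, true_and] at hP
    obtain ⟨x, v, v', Q, hQ, hP⟩ := hP
    rw [mem_biUnion]
    refine ⟨((x, v, v'), Q), ?_, hP⟩
    simp [I, mem_powersetCard, hQ]
  have h2 : ((bad4 V k e).card : ℝ) ≤ ∑ i ∈ I, ((B4 i.1.1 i.1.2.1 i.1.2.2 i.2 e).card : ℝ) := by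
    exact_mod_cast (card_le_card h1).trans card_biUnion_le
  refine h2.trans ((Finset.sum_le_sum (fun i _ => count_B4 _ _ _ _ e)).trans ?_)
  rw [Finset.sum_const, nsmul_eq_mul]
  apply mul_le_mul_of_nonneg_right _ (by positivity)
  have h3 : I.card ≤ Fintype.card V ^ (k + 3) := by
    simp only [I, card_product, card_univ, card_powersetCard, Fintype.card_prod]
    have h4 := Nat.choose_le_pow (Fintype.card V) k
    calc Fintype.card V * (Fintype.card V * Fintype.card V) * ((Fintype.card V).choose k)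
        ≤ Fintype.card V * (Fintype.card V * Fintype.card V) * (Fintype.card V ^ k) :=
          Nat.mul_le_mul_left _ h4
      _ = Fintype.card V ^ (k + 3) := by ring
  exact_mod_cast h3

end

end Pool.Agent.Helper912
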