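import Mathlib

set_option autoImplicit false
set_option linter.unusedVariables false
set_option linter.unusedSectionVars false
set_option linter.deprecated false

namespace Pool.Agent.Helper912

open Finset Classical

/-- strict partial order relation -/
structure IsPos {V : Type} (r : V → V → Prop) : Prop where
  irr : ∀ x, ¬ r x x
  trans : ∀ x y z, r x y → r y z → r x z

/-- the type of strict partial orders on `V` -/
def Pos (V : Type) : Type := {r : V → V → Prop // IsPos r}

instance {V : Type} [Finite V] : Finite (Pos V) := by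
  unfold Pos; infer_instance

noncomputable instance {V : Type} [Finite V] : Fintype (Pos V) := Fintype.ofFinite _

/-- number of strict partial orders on `n` labelled points -/
noncomputable def pn (n : ℕ) : ℕ := Fintype.card (Pos (Fin n))

section basic

variable {V : Type}

theorem Pos.ext' {P Q : Pos V} (h : ∀ a b, P.1 a b ↔ Q.1 a b) : P = Q := by
  apply Subtype.ext
  funext a b
  exact propext (h a b)

theorem Pos.irr (P : Pos V) (x : V) : ¬ P.1 x x := P.2.irr x

theorem Pos.trans (P : Pos V) {x y z : V} (h1 : P.1 x y) (h2 : P.1 y z) : P.1 x z :=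
  P.2.trans x y z h1 h2

theorem Pos.asymm (P : Pos V) {x y : V} (h1 : P.1 x y) (h2 : P.1 y x) : False :=
  P.irr x (P.trans h1 h2)

theorem Pos.ne (P : Pos V) {x y : V} (h1 : P.1 x y) : x ≠ y := by
  rintro rfl; exact P.irr _ h1

/-- transport along an injection -/
def Pos.comap {W : Type} (f : W → V) (P : Pos V) : Pos W :=
  ⟨fun a b => P.1 (f a) (f b), ⟨fun x => P.irr _, fun _ _ _ h1 h2 => P.trans h1 h2⟩⟩

def Pos.congr {W : Type} (e : V ≃ W) : Pos V ≃ Pos W where
  toFun P := P.comap e.symm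
  invFun P := P.comap e
  left_inv P := by apply Pos.ext'; intro a b; simp [Pos.comap]
  right_inv P := by apply Pos.ext'; intro a b; simp [Pos.comap]

theorem card_Pos [Fintype V] : Fintype.card (Pos V) = pn (Fintype.card V) := by
  unfold pn
  exact Fintype.card_congr (Pos.congr (Fintype.equivFin V))

/-- dual -/
def Pos.op (P : Pos V) : Pos V :=
  ⟨fun a b => P.1 b a, ⟨fun x => P.irr _, fun _ _ _ h1 h2 => P.trans h2 h1⟩⟩

@[simp] theorem op_rel (P : Pos V) (a b : V) : P.op.1 a b ↔ P.1 b a := Iff.rfl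

/-- cover relation -/
def cov (P : Pos V) (a b : V) : Prop := P.1 a b ∧ ∀ c, ¬ (P.1 a c ∧ P.1 c b)

theorem cov_op (P : Pos V) (a b : V) : cov P.op a b ↔ cov P b a := by
  unfold cov
  simp only [op_rel]
  constructor
  · rintro ⟨h1, h2⟩; exact ⟨h1, fun c hc => h2 c ⟨hc.2, hc.1⟩⟩
  · rintro ⟨h1, h2⟩; exact ⟨h1, fun c hc => h2 c ⟨hc.2, hc.1⟩⟩

variable [Fintype V]

theorem exists_cov_right (P : Pos V) {a b : V} (h : P.1 a b) :
    ∃ c, (a = c ∨ P.1 a c) ∧ cov P c b := by
  classical
  let S : Finset V := univ.filter (fun c => (a = c ∨ P.1 a c) ∧ P.1 c b)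
  have hS : S.Nonempty := ⟨a, by simp [S, h]⟩
  obtain ⟨c, hcS, hmax⟩ := S.exists_max_image (fun c => (univ.filter (fun d => P.1 d c)).card) hS
  have hc : (a = c ∨ P.1 a c) ∧ P.1 c b := by simpa [S] using hcS
  refine ⟨c, hc.1, hc.2, ?_⟩
  rintro d ⟨h1, h2⟩
  have hd : d ∈ S := by
    simp only [S, mem_filter, mem_univ, true_and]
    refine ⟨Or.inr ?_, h2⟩
    rcases hc.1 with rfl | h3
    · exact h1
    · exact P.trans h3 h1
  have h4 := hmax d hd
  have h5 : (univ.filter (fun x => P.1 x c)) ⊂ (univ.filter (fun x => P.1 x d)) := by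
    rw [Finset.ssubset_iff_of_subset]
    · exact ⟨c, by simp [h1], by simp [P.irr]⟩
    · intro x hx
      simp only [mem_filter, mem_univ, true_and] at hx ⊢
      exact P.trans hx h1
  have h6 := Finset.card_lt_card h5
  omega

theorem exists_cov_left (P : Pos V) {a b : V} (h : P.1 a b) :
    ∃ c, cov P a c ∧ (c = b ∨ P.1 c b) := by
  obtain ⟨c, h1, h2⟩ := exists_cov_right P.op (a := b) (b := a) h
  refine ⟨c, (cov_op P c a).1 h2, ?_⟩
  rcases h1 with h1 | h1
  · left; exact h1.symm
  · right; exact h1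

/-- reconstruction of a poset from its restriction off `Q` and covers at `Q` -/
theorem recon (Q : Finset V) (P1 P2 : Pos V)
    (hres : ∀ a b, a ∉ Q → b ∉ Q → (P1.1 a b → P2.1 a b))
    (hc1 : ∀ q ∈ Q, ∀ a, cov P1 q a → cov P2 q a)
    (hc2 : ∀ q ∈ Q, ∀ a, cov P1 a q → cov P2 a q) :
    ∀ a b, P1.1 a b → P2.1 a b := by
  classical
  have key : ∀ n : ℕ, ∀ a b, (univ.filter (fun c => P1.1 a c ∧ P1.1 c b)).card = n →
      P1.1 a b → P2.1 a b := by
    intro n
    induction n using Nat.strong_induction_on with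
    | _ n ih =>
      intro a b hn hab
      by_cases ha : a ∈ Q
      · obtain ⟨c, h1, h2⟩ := exists_cov_left P1 hab
        have h3 := hc1 a ha c h1
        rcases h2 with rfl | h2
        · exact h3.1
        · refine P2.trans h3.1 (ih _ ?_ c b rfl h2)
          rw [← hn]
          apply Finset.card_lt_card
          rw [Finset.ssubset_iff_of_subset]
          · exact ⟨c, by simp [h1.1, h2], by simp [P1.irr]⟩
          · intro x hx
            simp only [mem_filter, mem_univ, true_and] at hx ⊢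
            exact ⟨P1.trans h1.1 hx.1, hx.2⟩
      · by_cases hb : b ∈ Q
        · obtain ⟨c, h1, h2⟩ := exists_cov_right P1 hab
          have h3 := hc2 b hb c h2
          rcases h1 with rfl | h1
          · exact h3.1
          · refine P2.trans (ih _ ?_ a c rfl h1) h3.1
            rw [← hn]
            apply Finset.card_lt_card
            rw [Finset.ssubset_iff_of_subset]
            · exact ⟨c, by simp [h2.1, h1], by simp [P1.irr]⟩
            · intro x hx
              simp only [mem_filter, mem_univ, true_and] at hx ⊢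
              exact ⟨hx.1, P1.trans hx.2 h2.1⟩
        · exact hres a b ha hb hab
  intro a b h
  exact key _ a b rfl h

/-- a poset is determined by its covers -/
theorem recon_all (P1 P2 : Pos V) (h : ∀ a b, cov P1 a b ↔ cov P2 a b) : P1 = P2 := by
  apply Pos.ext'
  intro a b
  constructor
  · exact recon univ P1 P2 (fun a b ha => absurd (mem_univ a) ha)
      (fun q _ a => (h q a).1) (fun q _ a => (h a q).1) a b
  · exact recon univ P2 P1 (fun a b ha => absurd (mem_univ a) ha)
      (fun q _ a => (h q a).2) (fun q _ a => (h a q).2) a b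

/-- upper covers -/
noncomputable def gp (P : Pos V) (x : V) : Finset V := univ.filter (fun y => cov P x y)
/-- lower covers -/
noncomputable def gm (P : Pos V) (x : V) : Finset V := univ.filter (fun y => cov P y x)
/-- cover neighbours -/
noncomputable def gam (P : Pos V) (x : V) : Finset V := gp P x ∪ gm P x

@[simp] theorem mem_gp (P : Pos V) (x y : V) : y ∈ gp P x ↔ cov P x y := by simp [gp]
@[simp] theorem mem_gm (P : Pos V) (x y : V) : y ∈ gm P x ↔ cov P y x := by simp [gm]
theorem mem_gam (P : Pos V) (x y : V) : y ∈ gam P x ↔ cov P x y ∨ cov P y x := by simp [gam]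

theorem gam_symm (P : Pos V) (x y : V) : y ∈ gam P x ↔ x ∈ gam P y := by
  rw [mem_gam, mem_gam]; tauto

theorem gp_op (P : Pos V) (x : V) : gp P.op x = gm P x := by
  ext y; simp [cov_op]
theorem gm_op (P : Pos V) (x : V) : gm P.op x = gp P x := by
  ext y; simp [cov_op]
theorem gam_op (P : Pos V) (x : V) : gam P.op x = gam P x := by
  ext y; rw [mem_gam, mem_gam, cov_op, cov_op]; tauto

theorem gp_gm_disj (P : Pos V) (x : V) : Disjoint (gp P x) (gm P x) := by
  rw [Finset.disjoint_left]
  intro y h1 h2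
  simp only [mem_gp, mem_gm] at h1 h2
  exact P.asymm h1.1 h2.1

theorem not_mem_gam_self (P : Pos V) (x : V) : x ∉ gam P x := by
  rw [mem_gam]; rintro (h | h) <;> exact P.irr _ h.1

/-- the cover graph is triangle free -/
theorem gam_tri (P : Pos V) {x y : V} (h : y ∈ gam P x) : Disjoint (gam P x) (gam P y) := by
  rw [Finset.disjoint_left]
  intro z h1 h2
  rw [mem_gam] at h h1 h2
  rcases h with h | h <;> rcases h1 with h1 | h1 <;> rcases h2 with h2 | h2
  · exact h1.2 y ⟨h.1, h2.1⟩
  · exact h.2 z ⟨h1.1, h2.1⟩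
  · exact P.asymm (P.trans h.1 h2.1) h1.1
  · exact h2.2 x ⟨h1.1, h.1⟩
  · exact h2.2 x ⟨h.1, h1.1⟩
  · exact P.asymm (P.trans h.1 h1.1) h2.1
  · exact h.2 z ⟨h2.1, h1.1⟩
  · exact h1.2 y ⟨h2.1, h.1⟩

/-- relation of `r` to the members of `Q` is uniform -/
def unif (P : Pos V) (Q : Finset V) (r : V) : Prop :=
  (∀ q ∈ Q, P.1 q r) ∨ (∀ q ∈ Q, P.1 r q) ∨ (∀ q ∈ Q, ¬ P.1 q r ∧ ¬ P.1 r q)

/-- the set of vertices whose relation to `Q` is not uniform -/
noncomputable def NN (P : Pos V) (Q : Finset V) : Finset V :=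
  univ.filter (fun r => r ∉ Q ∧ ¬ unif P Q r)

theorem mem_NN (P : Pos V) (Q : Finset V) (r : V) : r ∈ NN P Q ↔ r ∉ Q ∧ ¬ unif P Q r := by
  simp [NN]

theorem unif_op (P : Pos V) (Q : Finset V) (r : V) : unif P.op Q r ↔ unif P Q r := by
  unfold unif
  simp only [op_rel]
  constructor
  · rintro (h | h | h)
    · exact Or.inr (Or.inl h)
    · exact Or.inl h
    · exact Or.inr (Or.inr fun q hq => ⟨(h q hq).2, (h q hq).1⟩)
  · rintro (h | h | h)
    · exact Or.inr (Or.inl h)
    · exact Or.inl h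
    · exact Or.inr (Or.inr fun q hq => ⟨(h q hq).2, (h q hq).1⟩)

theorem NN_op (P : Pos V) (Q : Finset V) : NN P.op Q = NN P Q := by
  ext r; rw [mem_NN, mem_NN, unif_op]

/-- cover neighbours of `x` are not in `NN Q` if `Q` consists of upper covers of `x` -/
theorem gam_NN_up (P : Pos V) {x : V} {Q : Finset V} (hQ : Q ⊆ gp P x) :
    Disjoint (gam P x) (NN P Q) := by
  rw [Finset.disjoint_left]
  intro r h1 h2
  rw [mem_NN] at h2
  apply h2.2
  rw [mem_gam] at h1
  rcases h1 with h1 | h1
  · refine Or.inr (Or.inr ?_)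
    intro q hq
    have hq' := hQ hq
    rw [mem_gp] at hq'
    exact ⟨fun h => h1.2 q ⟨hq'.1, h⟩, fun h => hq'.2 r ⟨h1.1, h⟩⟩
  · refine Or.inr (Or.inl ?_)
    intro q hq
    have hq' := hQ hq
    rw [mem_gp] at hq'
    exact P.trans h1.1 hq'.1

/-- restriction of a poset off `Q` (elements of `Q` become isolated) -/
def res (P : Pos V) (Q : Finset V) : Pos V :=
  ⟨fun a b => a ∉ Q ∧ b ∉ Q ∧ P.1 a b,
    ⟨fun x h => P.irr _ h.2.2, fun _ _ _ h1 h2 => ⟨h1.1, h2.2.1, P.trans h1.2.2 h2.2.2⟩⟩⟩

@[simp] theorem res_rel (P : Pos V) (Q : Finset V) (a b : V) :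
    (res P Q).1 a b ↔ a ∉ Q ∧ b ∉ Q ∧ P.1 a b := Iff.rfl

theorem res_eq_iff {P1 P2 : Pos V} {Q : Finset V} :
    res P1 Q = res P2 Q ↔ ∀ a b, a ∉ Q → b ∉ Q → (P1.1 a b ↔ P2.1 a b) := by
  constructor
  · intro h a b ha hb
    have h1 : (res P1 Q).1 a b ↔ (res P2 Q).1 a b := by rw [h]
    simpa [ha, hb] using h1
  · intro h
    apply Pos.ext'
    intro a b
    simp only [res_rel]
    constructor
    · rintro ⟨ha, hb, h1⟩; exact ⟨ha, hb, (h a b ha hb).1 h1⟩
    · rintro ⟨ha, hb, h1⟩; exact ⟨ha, hb, (h a b ha hb).2 h1⟩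

/-- posets supported off `Q` -/
noncomputable def offs (Q : Finset V) : Finset (Pos V) :=
  univ.filter (fun R => ∀ a b, R.1 a b → a ∉ Q ∧ b ∉ Q)

theorem res_mem_offs (P : Pos V) (Q : Finset V) : res P Q ∈ offs Q := by
  simp only [offs, mem_filter, mem_univ, true_and]
  intro a b h
  exact ⟨h.1, h.2.1⟩

theorem card_offs (Q : Finset V) : (offs Q).card ≤ pn (Fintype.card V - Q.card) := by
  classical
  have h1 : Fintype.card {v : V // v ∉ Q} = Fintype.card V - Q.card := by
    rw [Fintype.card_subtype_compl (fun v => v ∈ Q)]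
    simp
  rw [← h1, ← card_Pos]
  let f : Pos V → Pos {v : V // v ∉ Q} := fun P => P.comap Subtype.val
  have h2 : Set.InjOn f (offs Q : Set (Pos V)) := by
    intro P1 h1 P2 h2 h
    simp only [offs, coe_filter, mem_univ, true_and, Set.mem_setOf_eq] at h1 h2
    apply Pos.ext'
    intro a b
    constructor
    · intro hab
      obtain ⟨ha, hb⟩ := h1 a b hab
      have h3 : (f P1).1 ⟨a, ha⟩ ⟨b, hb⟩ := hab
      rw [h] at h3
      exact h3
    · intro hab
      obtain ⟨ha, hb⟩ := h2 a b hab
      have h3 : (f P2).1 ⟨a, ha⟩ ⟨b, hb⟩ := hab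
      rw [← h] at h3
      exact h3
  rw [← Finset.card_image_of_injOn h2]
  exact Finset.card_le_univ _

end basic

end Pool.Agent.Helper912
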