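import Pool.Agent.Helper912.KRBasic

set_option autoImplicit false
set_option linter.unusedVariables false
set_option linter.unusedSectionVars false
set_option linter.deprecated false

namespace Pool.Agent.Helper912

open Finset Classical

section count

variable {V : Type} [Fintype V]

/-- functions supported on `N` with values subsets of `Q` -/
theorem card_pi_powerset (Q N : Finset V) :
    (Fintype.piFinset (fun r : V => if r ∈ N then Q.powerset else ({∅} : Finset (Finset V)))).card
      = (2 ^ Q.card) ^ N.card := by
  rw [Fintype.card_piFinset]
  have h : ∀ r : V, (if r ∈ N then Q.powerset else ({∅} : Finset (Finset V))).card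
      = if r ∈ N then 2 ^ Q.card else 1 := by
    intro r
    split_ifs with h
    · exact card_powerset Q
    · simp
  rw [Finset.prod_congr rfl (fun r _ => h r), Finset.prod_ite]
  simp

theorem count_B1 (Q : Finset V) (m : ℕ) :
    (univ.filter (fun P : Pos V => (∀ a ∈ Q, ∀ b ∈ Q, ¬ P.1 a b) ∧ (NN P Q).card ≤ m)).card
      ≤ 2 ^ (Q.card * m) *
        (pn (Fintype.card V - Q.card) * (2 ^ Fintype.card V * 3 ^ Fintype.card V)) := by
  classical
  set S := univ.filter (fun P : Pos V => (∀ a ∈ Q, ∀ b ∈ Q, ¬ P.1 a b) ∧ (NN P Q).card ≤ m) with hS
  let u : Pos V → V → Fin 3 := fun P r =>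
    if ∃ q ∈ Q, P.1 q r then 1 else if ∃ q ∈ Q, P.1 r q then 2 else 0
  let f : Pos V → Pos V × (Finset V × (V → Fin 3)) := fun P => (res P Q, (NN P Q, u P))
  let T : Finset (Pos V × (Finset V × (V → Fin 3))) := offs Q ×ˢ (univ ×ˢ univ)
  have hT : T.card ≤ pn (Fintype.card V - Q.card) * (2 ^ Fintype.card V * 3 ^ Fintype.card V) := by
    simp only [T, card_product]
    refine Nat.mul_le_mul (card_offs Q) (le_of_eq ?_)
    rw [card_univ, card_univ]
    simp
  refine le_trans (Finset.card_le_mul_card_image_of_maps_to (f := f) (t := T) ?_ (2 ^ (Q.card * m)) ?_)
    (Nat.mul_le_mul_left _ hT)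
  · intro P hP
    simp only [T, f, mem_product, mem_univ, and_true]
    exact res_mem_offs P Q
  · rintro ⟨R, N, w⟩ _
    by_cases hN : N.card ≤ m
    · let g : Pos V → V → Finset V := fun P r =>
        if r ∈ N then Q.filter (fun q => P.1 q r ∨ P.1 r q) else ∅
      have h1 : (S.filter (fun P => f P = (R, N, w))).card
          ≤ (Fintype.piFinset (fun r : V => if r ∈ N then Q.powerset else ({∅} : Finset (Finset V)))).card := by
        apply Finset.card_le_card_of_injOn g
        · intro P hP
          simp only [coe_filter, Set.mem_setOf_eq] at hP
          rw [Finset.mem_coe, Fintype.mem_piFinset]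
          intro r
          simp only [g]
          split_ifs
          · exact mem_powerset.2 (filter_subset _ _)
          · simp
        · intro P1 hP1 P2 hP2 hg
          simp only [coe_filter, Set.mem_setOf_eq, hS, mem_filter, mem_univ, true_and, f,
            Prod.mk.injEq] at hP1 hP2
          obtain ⟨⟨hA1, _⟩, hR1, hN1, hu1⟩ := hP1
          obtain ⟨⟨hA2, _⟩, hR2, hN2, hu2⟩ := hP2
          -- symmetric claim
          have claim : ∀ P1 P2 : Pos V, (∀ a ∈ Q, ∀ b ∈ Q, ¬ P1.1 a b) →
              (∀ a ∈ Q, ∀ b ∈ Q, ¬ P2.1 a b) → res P1 Q = res P2 Q → NN P1 Q = N → NN P2 Q = N →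
              u P1 = u P2 → g P1 = g P2 → ∀ a b, P1.1 a b → P2.1 a b := by
            intro P1 P2 hA1 hA2 hR hN1 hN2 hu hg a b hab
            by_cases ha : a ∈ Q
            · by_cases hb : b ∈ Q
              · exact absurd hab (hA1 a ha b hb)
              · -- a in Q below b
                have hu1 : u P1 b = 1 := by
                  simp only [u]; rw [if_pos ⟨a, ha, hab⟩]
                have hu2 : u P2 b = 1 := by rw [← hu]; exact hu1
                have hex : ∃ q ∈ Q, P2.1 q b := by
                  by_contra hcon
                  simp only [u] at hu2
                  rw [if_neg hcon] at hu2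
                  split_ifs at hu2 <;> exact absurd hu2 (by decide)
                obtain ⟨q, hq, hqb⟩ := hex
                by_cases hbN : b ∈ N
                · have hga : a ∈ g P1 b := by
                    simp only [g]; rw [if_pos hbN]; simp [ha, hab]
                  rw [hg] at hga
                  simp only [g] at hga
                  rw [if_pos hbN, mem_filter] at hga
                  rcases hga.2 with h | h
                  · exact h
                  · exact absurd (P2.trans hqb h) (hA2 q hq a ha)
                · have hb2 : b ∉ NN P2 Q := by rw [hN2]; exact hbN
                  rw [mem_NN] at hb2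
                  have hun : unif P2 Q b := by
                    by_contra hcon; exact hb2 ⟨hb, hcon⟩
                  rcases hun with h | h | h
                  · exact h a ha
                  · exact absurd (h q hq) (fun h' => P2.asymm hqb h')
                  · exact absurd hqb (h q hq).1
            · by_cases hb : b ∈ Q
              · -- a below b in Q
                have hn1 : ¬ ∃ q ∈ Q, P1.1 q a := by
                  rintro ⟨q, hq, hqa⟩
                  exact hA1 q hq b hb (P1.trans hqa hab)
                have hu1 : u P1 a = 2 := by
                  simp only [u]; rw [if_neg hn1, if_pos ⟨b, hb, hab⟩]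
                have hu2 : u P2 a = 2 := by rw [← hu]; exact hu1
                have hn2 : ¬ ∃ q ∈ Q, P2.1 q a := by
                  intro hcon
                  simp only [u] at hu2
                  rw [if_pos hcon] at hu2
                  exact absurd hu2 (by decide)
                have hex : ∃ q ∈ Q, P2.1 a q := by
                  by_contra hcon
                  simp only [u] at hu2
                  rw [if_neg hn2, if_neg hcon] at hu2
                  exact absurd hu2 (by decide)
                obtain ⟨q, hq, hqa⟩ := hex
                by_cases haN : a ∈ N
                · have hga : b ∈ g P1 a := by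
                    simp only [g]; rw [if_pos haN]; simp [hb, hab]
                  rw [hg] at hga
                  simp only [g] at hga
                  rw [if_pos haN, mem_filter] at hga
                  rcases hga.2 with h | h
                  · exact absurd (P2.trans h hqa) (hA2 b hb q hq)
                  · exact h
                · have hb2 : a ∉ NN P2 Q := by rw [hN2]; exact haN
                  rw [mem_NN] at hb2
                  have hun : unif P2 Q a := by
                    by_contra hcon; exact hb2 ⟨ha, hcon⟩
                  rcases hun with h | h | h
                  · exact absurd (h q hq) (fun h' => P2.asymm hqa h')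
                  · exact h b hb
                  · exact absurd hqa (h q hq).2
              · exact ((res_eq_iff.1 hR) a b ha hb).1 hab
          apply Pos.ext'
          intro a b
          exact ⟨claim P1 P2 hA1 hA2 (hR1.trans hR2.symm) hN1 hN2 (hu1.trans hu2.symm) hg a b,
            claim P2 P1 hA2 hA1 (hR2.trans hR1.symm) hN2 hN1 (hu2.trans hu1.symm) hg.symm a b⟩
      refine h1.trans ?_
      rw [card_pi_powerset, ← pow_mul]
      exact Nat.pow_le_pow_right (by norm_num) (Nat.mul_le_mul_left _ hN)
    · have : S.filter (fun P => f P = (R, N, w)) = ∅ := by
        rw [Finset.filter_eq_empty_iff]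
        intro P hP hf
        simp only [hS, mem_filter, mem_univ, true_and] at hP
        simp only [f, Prod.mk.injEq] at hf
        apply hN
        rw [← hf.2.1]
        exact hP.2
      rw [this]
      simp

end count

end Pool.Agent.Helper912
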