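import Pool.Agent.Helper912.KRBasic

set_option autoImplicit false
set_option linter.unusedVariables false
set_option linter.unusedSectionVars false
set_option linter.deprecated false

namespace Pool.Agent.Helper912

open Finset Classical

section count

variable {V : Type} [Fintype V]

theorem small_count (W : Finset V) (j : ℕ) :
    (W.powerset.filter (fun B => B.card ≤ j)).card * 8 ^ W.card ≤ 9 ^ W.card * 8 ^ j := by
  have h1 : ∑ t ∈ W.powerset, (1 : ℕ) ^ t.card * 8 ^ (W.card - t.card) = (1 + 8) ^ W.card :=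
    Finset.sum_pow_mul_eq_add_pow 1 8 W
  have h2 : (W.powerset.filter (fun B => B.card ≤ j)).card * 8 ^ W.card
      ≤ ∑ t ∈ W.powerset.filter (fun B => B.card ≤ j), 8 ^ (W.card - t.card) * 8 ^ j := by
    rw [Finset.card_eq_sum_ones, Finset.sum_mul]
    apply Finset.sum_le_sum
    intro t ht
    rw [mem_filter, mem_powerset] at ht
    rw [one_mul, ← pow_add]
    apply Nat.pow_le_pow_right (by norm_num)
    have := Finset.card_le_card ht.1
    omega
  refine h2.trans ?_
  rw [← Finset.sum_mul]
  apply Nat.mul_le_mul_right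
  calc ∑ t ∈ W.powerset.filter (fun B => B.card ≤ j), 8 ^ (W.card - t.card)
      ≤ ∑ t ∈ W.powerset, 8 ^ (W.card - t.card) :=
        Finset.sum_le_sum_of_subset (filter_subset _ _)
    _ = 9 ^ W.card := by
        simpa using h1

theorem small_count2 (U W : Finset V) (hW : W ⊆ U) (j : ℕ) :
    (U.powerset.filter (fun A => (A ∩ W).card ≤ j)).card * 8 ^ W.card
      ≤ 2 ^ (U.card - W.card) * (9 ^ W.card * 8 ^ j) := by
  have h1 : (U.powerset.filter (fun A => (A ∩ W).card ≤ j)).card
      ≤ ((U \ W).powerset ×ˢ (W.powerset.filter (fun B => B.card ≤ j))).card := by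
    apply Finset.card_le_card_of_injOn (fun A => (A \ W, A ∩ W))
    · intro A hA
      simp only [coe_filter, Set.mem_setOf_eq, mem_powerset] at hA
      simp only [Finset.mem_coe, mem_product, mem_powerset, mem_filter]
      exact ⟨Finset.sdiff_subset_sdiff hA.1 (le_refl _), inter_subset_right, hA.2⟩
    · intro A hA B hB h
      simp only [Prod.mk.injEq] at h
      rw [← Finset.sdiff_union_inter A W, ← Finset.sdiff_union_inter B W, h.1, h.2]
  rw [card_product, card_powerset, card_sdiff_of_subset hW] at h1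
  calc _ ≤ (2 ^ (U.card - W.card) * (W.powerset.filter (fun B => B.card ≤ j)).card) * 8 ^ W.card :=
        Nat.mul_le_mul_right _ h1
    _ = 2 ^ (U.card - W.card) * ((W.powerset.filter (fun B => B.card ≤ j)).card * 8 ^ W.card) := by
        ring
    _ ≤ _ := Nat.mul_le_mul_left _ (small_count W j)

theorem mem_gm_of_gam (P : Pos V) {x a : V} (h : a ∈ gam P x) (h2 : a ∉ gp P x) : a ∈ gm P x := by
  rw [gam, mem_union] at h; tauto

/-- count of posets in which `x` has small degree -/
theorem count_B2 (x : V) (s : ℕ) :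
    (univ.filter (fun P : Pos V => (gam P x).card ≤ s)).card
      ≤ 2 ^ s * (pn (Fintype.card V - 1) * (univ.filter (fun A : Finset V => A.card ≤ s)).card) := by
  set S := univ.filter (fun P : Pos V => (gam P x).card ≤ s) with hS
  let f : Pos V → Pos V × Finset V := fun P => (res P {x}, gam P x)
  let T : Finset (Pos V × Finset V) := offs {x} ×ˢ (univ.filter (fun A : Finset V => A.card ≤ s))
  have hT : T.card ≤ pn (Fintype.card V - 1) * (univ.filter (fun A : Finset V => A.card ≤ s)).card := by
    simp only [T, card_product]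
    refine Nat.mul_le_mul_right _ ?_
    have := card_offs ({x} : Finset V)
    simpa using this
  refine le_trans (Finset.card_le_mul_card_image_of_maps_to (f := f) (t := T) ?_ (2 ^ s) ?_)
    (Nat.mul_le_mul_left _ hT)
  · intro P hP
    simp only [hS, mem_filter, mem_univ, true_and] at hP
    simp only [T, f, mem_product, mem_filter, mem_univ, true_and]
    exact ⟨res_mem_offs P _, hP⟩
  · rintro ⟨R, A⟩ hRA
    simp only [T, mem_product, mem_filter, mem_univ, true_and] at hRA
    have h1 : (S.filter (fun P => f P = (R, A))).card ≤ A.powerset.card := by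
      apply Finset.card_le_card_of_injOn (fun P => gp P x)
      · intro P hP
        simp only [coe_filter, Set.mem_setOf_eq, f, Prod.mk.injEq] at hP
        simp only [Finset.mem_coe, mem_powerset]
        rw [← hP.2.2]
        exact subset_union_left
      · intro P1 hP1 P2 hP2 hg
        simp only [coe_filter, Set.mem_setOf_eq, f, Prod.mk.injEq] at hP1 hP2
        simp only at hg
        have claim : ∀ P1 P2 : Pos V, res P1 {x} = res P2 {x} → gam P1 x = gam P2 x →
            gp P1 x = gp P2 x → ∀ a b, P1.1 a b → P2.1 a b := by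
          intro P1 P2 hR hA hg
          apply recon {x}
          · intro a b ha hb
            exact ((res_eq_iff.1 hR) a b ha hb).1
          · intro q hq a h
            rw [mem_singleton] at hq
            subst hq
            rw [← mem_gp, ← hg, mem_gp]; exact h
          · intro q hq a h
            rw [mem_singleton] at hq
            subst hq
            rw [← mem_gm]
            apply mem_gm_of_gam
            · rw [← hA, mem_gam]; exact Or.inr h
            · rw [← hg]
              intro h3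
              exact (Finset.disjoint_left.1 (gp_gm_disj P1 q)) h3 ((mem_gm _ _ _).2 h)
        apply Pos.ext'
        intro a b
        have hR := hP1.2.1.trans hP2.2.1.symm
        have hA := hP1.2.2.trans hP2.2.2.symm
        exact ⟨claim P1 P2 hR hA hg a b, claim P2 P1 hR.symm hA.symm hg.symm a b⟩
    refine h1.trans ?_
    rw [card_powerset]
    exact Nat.pow_le_pow_right (by norm_num) hRA.2

/-- witness sets -/
def wit (P : Pos V) (x : V) (Q : Finset V) : Prop := Q.Nonempty ∧ (Q ⊆ gp P x ∨ Q ⊆ gm P x)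

theorem wit_not_mem (P : Pos V) {x : V} {Q : Finset V} (h : wit P x Q) : x ∉ Q := by
  intro hx
  rcases h.2 with h | h
  · have := h hx; rw [mem_gp] at this; exact P.irr _ this.1
  · have := h hx; rw [mem_gm] at this; exact P.irr _ this.1

theorem wit_op (P : Pos V) {x : V} {Q : Finset V} (h : wit P x Q) : wit P.op x Q := by
  refine ⟨h.1, ?_⟩
  rw [gp_op, gm_op]; exact h.2.symm

theorem gam_NN (P : Pos V) {x : V} {Q : Finset V} (hQ : wit P x Q) :
    Disjoint (gam P x) (NN P Q) := by
  rcases hQ.2 with h | h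
  · exact gam_NN_up P h
  · have := gam_NN_up P.op (x := x) (Q := Q) (by rw [gp_op]; exact h)
    rwa [gam_op, NN_op] at this

theorem self_not_mem_NN (P : Pos V) {x : V} {Q : Finset V} (hQ : wit P x Q) : x ∉ NN P Q := by
  intro hx
  rw [mem_NN] at hx
  apply hx.2
  rcases hQ.2 with h | h
  · exact Or.inr (Or.inl fun q hq => ((mem_gp _ _ _).1 (h hq)).1)
  · exact Or.inl fun q hq => ((mem_gm _ _ _).1 (h hq)).1

/-- the uncertainty set is computed in the restricted poset -/
theorem NN_res (P : Pos V) {Q F : Finset V} (h1 : Disjoint F Q) (h2 : ∀ x ∈ F, x ∉ NN P Q) :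
    NN (res P F) Q = NN P Q := by
  ext r
  by_cases hr : r ∈ F
  · have h3 : r ∉ NN (res P F) Q := by
      rw [mem_NN]
      rintro ⟨_, h⟩
      apply h
      refine Or.inr (Or.inr ?_)
      intro q hq
      simp [hr]
    exact ⟨fun h => absurd h h3, fun h => absurd h (h2 r hr)⟩
  · rw [mem_NN, mem_NN]
    have h3 : ∀ q ∈ Q, q ∉ F := fun q hq hqF => (Finset.disjoint_left.1 h1) hqF hq
    have h4 : unif (res P F) Q r ↔ unif P Q r := by
      unfold unif
      simp only [res_rel]
      constructor
      · rintro (h | h | h)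
        · exact Or.inl fun q hq => (h q hq).2.2
        · exact Or.inr (Or.inl fun q hq => (h q hq).2.2)
        · exact Or.inr (Or.inr fun q hq => ⟨fun h' => (h q hq).1 ⟨h3 q hq, hr, h'⟩,
            fun h' => (h q hq).2 ⟨hr, h3 q hq, h'⟩⟩)
      · rintro (h | h | h)
        · exact Or.inl fun q hq => ⟨h3 q hq, hr, h q hq⟩
        · exact Or.inr (Or.inl fun q hq => ⟨hr, h3 q hq, h q hq⟩)
        · exact Or.inr (Or.inr fun q hq => ⟨fun h' => (h q hq).1 h'.2.2,
            fun h' => (h q hq).2 h'.2.2⟩)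
    rw [h4]

/-- cover sets of a vertex not adjacent to the removed vertex do not change -/
theorem cov_res_iff (P : Pos V) {x v r : V} (hv : v ≠ x) (hr : r ≠ x) (hx : x ∉ gam P v) :
    (cov (res P {x}) v r ↔ cov P v r) := by
  constructor
  · rintro ⟨h1, h2⟩
    simp only [res_rel, mem_singleton] at h1 h2
    refine ⟨h1.2.2, ?_⟩
    rintro c ⟨h3, h4⟩
    by_cases hc : c = x
    · subst hc
      obtain ⟨d, hd1, hd2⟩ := exists_cov_left P h3
      rcases hd2 with rfl | hd2
      · exact hx ((mem_gam _ _ _).2 (Or.inl hd1))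
      · have hdne : d ≠ c := P.ne hd2
        exact h2 d ⟨⟨hv, hdne, hd1.1⟩, ⟨hdne, hr, P.trans hd2 h4⟩⟩
    · exact h2 c ⟨⟨hv, hc, h3⟩, ⟨hc, hr, h4⟩⟩
  · rintro ⟨h1, h2⟩
    refine ⟨by simp [hv, hr, h1], ?_⟩
    rintro c ⟨h3, h4⟩
    exact h2 c ⟨h3.2.2, h4.2.2⟩

theorem res_op (P : Pos V) (F : Finset V) : res P.op F = (res P F).op := by
  apply Pos.ext'; intro a b; simp only [res_rel, op_rel]; tauto

theorem gam_res (P : Pos V) {x v : V} (hv : v ≠ x) (hx : x ∉ gam P v) :
    gam (res P {x}) v = gam P v := by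
  ext r
  by_cases hr : r = x
  · subst hr
    have h1 : r ∉ gam (res P {r}) v := by
      rw [mem_gam]
      rintro (h | h)
      · have := h.1; simp at this
      · have := h.1; simp at this
    exact ⟨fun h => absurd h h1, fun h => absurd h hx⟩
  · rw [mem_gam, mem_gam, cov_res_iff P hv hr hx]
    have h2 : cov (res P {x}) r v ↔ cov P r v := by
      rw [← cov_op, ← res_op, cov_res_iff P.op hv hr (by rw [gam_op]; exact hx), cov_op]
    rw [h2]

/-- side of a cover neighbour is determined by its relation to a witness set -/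
theorem sign_up (P : Pos V) {x a : V} {Q : Finset V} (hne : Q.Nonempty) (hQ : Q ⊆ gp P x)
    (ha : a ∈ gam P x) : cov P a x ↔ ∀ q ∈ Q, P.1 a q := by
  constructor
  · intro h q hq
    exact P.trans h.1 ((mem_gp _ _ _).1 (hQ hq)).1
  · intro h
    rw [mem_gam] at ha
    rcases ha with ha | ha
    · obtain ⟨q, hq⟩ := hne
      exact absurd ⟨ha.1, h q hq⟩ (((mem_gp _ _ _).1 (hQ hq)).2 a)
    · exact ha

theorem sign_down (P : Pos V) {x a : V} {Q : Finset V} (hne : Q.Nonempty) (hQ : Q ⊆ gm P x)
    (ha : a ∈ gam P x) : cov P x a ↔ ∀ q ∈ Q, P.1 q a := by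
  have := sign_up P.op (x := x) (a := a) (Q := Q) hne (by rw [gp_op]; exact hQ)
    (by rw [gam_op]; exact ha)
  rw [cov_op] at this
  exact this

theorem not_cov_rev (P : Pos V) {x a : V} (ha : a ∈ gam P x) : cov P x a ↔ ¬ cov P a x := by
  rw [mem_gam] at ha
  constructor
  · intro h1 h2; exact P.asymm h1.1 h2.1
  · intro h; tauto

/-- two posets agreeing off `F ∋ x` with the same neighbourhood of `x` and compatible witness
have the same covers at `x` (for neighbours off `F`) -/
theorem cov_same (P1 P2 : Pos V) {x : V} {Q F : Finset V} (hx : x ∈ F) (hF : Disjoint F Q)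
    (hne : Q.Nonempty) (hR : res P1 F = res P2 F)
    (hw : (Q ⊆ gp P1 x ∧ Q ⊆ gp P2 x) ∨ (Q ⊆ gm P1 x ∧ Q ⊆ gm P2 x))
    {a : V} (haF : a ∉ F) (h1 : a ∈ gam P1 x) (h2 : a ∈ gam P2 x) :
    (cov P1 x a ↔ cov P2 x a) ∧ (cov P1 a x ↔ cov P2 a x) := by
  have hq : ∀ q ∈ Q, q ∉ F := fun q hq hqF => (Finset.disjoint_left.1 hF) hqF hq
  have hR' := res_eq_iff.1 hR
  rcases hw with ⟨hw1, hw2⟩ | ⟨hw1, hw2⟩
  · have e1 := sign_up P1 hne hw1 h1
    have e2 := sign_up P2 hne hw2 h2
    have e3 : (∀ q ∈ Q, P1.1 a q) ↔ (∀ q ∈ Q, P2.1 a q) :=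
      ⟨fun h q hqQ => (hR' a q haF (hq q hqQ)).1 (h q hqQ),
       fun h q hqQ => (hR' a q haF (hq q hqQ)).2 (h q hqQ)⟩
    have e4 : cov P1 a x ↔ cov P2 a x := by rw [e1, e2, e3]
    exact ⟨by rw [not_cov_rev P1 h1, not_cov_rev P2 h2, e4], e4⟩
  · have e1 := sign_down P1 hne hw1 h1
    have e2 := sign_down P2 hne hw2 h2
    have e3 : (∀ q ∈ Q, P1.1 q a) ↔ (∀ q ∈ Q, P2.1 q a) :=
      ⟨fun h q hqQ => (hR' q a (hq q hqQ) haF).1 (h q hqQ),
       fun h q hqQ => (hR' q a (hq q hqQ) haF).2 (h q hqQ)⟩
    have e4 : cov P1 x a ↔ cov P2 x a := by rw [e1, e2, e3]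
    refine ⟨e4, ?_⟩
    have e5 := not_cov_rev P1 h1
    have e6 := not_cov_rev P2 h2
    tauto

end count

end Pool.Agent.Helper912
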