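import Pool.Agent.Helper912.KRCount2

set_option autoImplicit false
set_option linter.unusedVariables false
set_option linter.unusedSectionVars false
set_option linter.deprecated false

namespace Pool.Agent.Helper912

open Finset Classical

section count

variable {V : Type} [Fintype V]

/-- the class B4 for fixed data -/
noncomputable def B4 (x v v' : V) (Q : Finset V) (e : ℕ) : Finset (Pos V) :=
  univ.filter (fun P : Pos V => wit P x Q ∧ Fintype.card V ≤ 2 * (NN P Q).card + 2 * e ∧
    v ≠ x ∧ v' ≠ x ∧ v ∉ gam P x ∧ v' ∉ gam P x ∧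
    4 * (gam P x ∩ ((gam P v ∩ gam P v') \ NN P Q)).card + 2 * e
      ≤ ((gam P v ∩ gam P v') \ NN P Q).card)

/-- bound on number of admissible neighbourhoods -/
theorem count_sets (U W : Finset V) (hW : W ⊆ U) (e n : ℕ) (hU : 2 * U.card ≤ n + 2 * e) :
    ((U.powerset.filter (fun A => 4 * (A ∩ W).card + 2 * e ≤ W.card)).card : ℝ)
      ≤ (2 : ℝ) ^ ((n : ℝ) / 2) * (2 * (81 / 256)) ^ e := by
  rcases (U.powerset.filter (fun A => 4 * (A ∩ W).card + 2 * e ≤ W.card)).eq_empty_or_nonempty with h | h
  · rw [h]; simp; positivity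
  · obtain ⟨A0, hA0⟩ := h
    rw [mem_filter] at hA0
    have he : 2 * e ≤ W.card := by omega
    set j := (W.card - 2 * e) / 4 with hj
    have hj2 : 4 * j + 2 * e ≤ W.card := by omega
    have h1 : (U.powerset.filter (fun A => 4 * (A ∩ W).card + 2 * e ≤ W.card)).card
        ≤ (U.powerset.filter (fun A => (A ∩ W).card ≤ j)).card := by
      apply Finset.card_le_card
      intro A hA
      rw [mem_filter] at hA ⊢
      refine ⟨hA.1, ?_⟩
      omega
    have h2 := small_count2 U W hW j
    set c := (U.powerset.filter (fun A => (A ∩ W).card ≤ j)).card with hc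
    have h3 : (c : ℝ) * 8 ^ W.card ≤ 2 ^ (U.card - W.card) * (9 ^ W.card * 8 ^ j) := by
      exact_mod_cast h2
    have hWU : W.card ≤ U.card := Finset.card_le_card hW
    have h4 : (c : ℝ) ≤ 2 ^ U.card * (9 / 16) ^ W.card * 8 ^ j := by
      have e1 : (2 : ℝ) ^ U.card = 2 ^ (U.card - W.card) * 2 ^ W.card := by
        rw [← pow_add]; congr 1; omega
      have e2 : (9 / 16 : ℝ) ^ W.card * (2 ^ W.card * 8 ^ W.card) = 9 ^ W.card := by
        rw [← mul_pow, ← mul_pow]; norm_num
      have e3 : (0 : ℝ) < 8 ^ W.card := by positivity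
      rw [← mul_le_mul_iff_left₀ e3]
      refine h3.trans (le_of_eq ?_)
      rw [e1, ← e2]; ring
    have h5 : (9 / 16 : ℝ) ^ W.card ≤ (9 / 16) ^ (4 * j + 2 * e) :=
      pow_le_pow_of_le_one (by norm_num) (by norm_num) hj2
    have h6 : (9 / 16 : ℝ) ^ (4 * j + 2 * e) * 8 ^ j ≤ (81 / 256) ^ e := by
      rw [pow_add, pow_mul, pow_mul]
      have : ((9 / 16 : ℝ) ^ 4) ^ j * 8 ^ j ≤ 1 := by
        rw [← mul_pow]
        apply pow_le_one₀ <;> norm_num
      have e7 : ((9 / 16 : ℝ) ^ 2) ^ e = (81 / 256) ^ e := by norm_num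
      rw [e7]
      have : ((9 / 16 : ℝ) ^ 4) ^ j * (81 / 256) ^ e * 8 ^ j
          = (((9 / 16 : ℝ) ^ 4) ^ j * 8 ^ j) * (81 / 256) ^ e := by ring
      rw [this]
      have h8 : (0 : ℝ) ≤ (81 / 256) ^ e := by positivity
      nlinarith
    have h7 : (c : ℝ) ≤ 2 ^ U.card * (81 / 256) ^ e := by
      refine h4.trans ?_
      have e8 : (0 : ℝ) ≤ 2 ^ U.card := by positivity
      have e9 : (9 / 16 : ℝ) ^ W.card * 8 ^ j ≤ (81 / 256) ^ e := by
        refine le_trans ?_ h6
        exact mul_le_mul_of_nonneg_right h5 (by positivity)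
      calc (2 : ℝ) ^ U.card * (9 / 16) ^ W.card * 8 ^ j = 2 ^ U.card * ((9 / 16) ^ W.card * 8 ^ j) := by ring
        _ ≤ 2 ^ U.card * (81 / 256) ^ e := mul_le_mul_of_nonneg_left e9 e8
    have h8 : (2 : ℝ) ^ U.card ≤ 2 ^ ((n : ℝ) / 2) * 2 ^ e := by
      rw [← Real.rpow_natCast, ← Real.rpow_natCast, ← Real.rpow_add (by norm_num)]
      apply Real.rpow_le_rpow_of_exponent_le (by norm_num)
      have : (2 * U.card : ℝ) ≤ n + 2 * e := by exact_mod_cast hU
      linarith
    calc ((U.powerset.filter (fun A => 4 * (A ∩ W).card + 2 * e ≤ W.card)).card : ℝ) ≤ c := by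
          exact_mod_cast h1
      _ ≤ 2 ^ U.card * (81 / 256) ^ e := h7
      _ ≤ (2 ^ ((n : ℝ) / 2) * 2 ^ e) * (81 / 256) ^ e :=
          mul_le_mul_of_nonneg_right h8 (by positivity)
      _ = (2 : ℝ) ^ ((n : ℝ) / 2) * (2 * (81 / 256)) ^ e := by rw [mul_pow]; ring

/-- fibre counting in real numbers -/
theorem card_fiber_real {α β : Type*} [DecidableEq β] (S : Finset α) (T : Finset β) (f : α → β) (M : ℝ)
    (hf : ∀ a ∈ S, f a ∈ T) (h : ∀ b ∈ T, ((S.filter (fun a => f a = b)).card : ℝ) ≤ M) :
    (S.card : ℝ) ≤ M * T.card := by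
  rw [Finset.card_eq_sum_card_fiberwise (f := f) (t := T) (fun a ha => hf a ha)]
  push_cast
  calc ∑ b ∈ T, ((S.filter (fun a => f a = b)).card : ℝ) ≤ ∑ b ∈ T, M := Finset.sum_le_sum h
    _ = M * T.card := by rw [Finset.sum_const, nsmul_eq_mul, mul_comm]

theorem count_B4 (x v v' : V) (Q : Finset V) (e : ℕ) :
    ((B4 x v v' Q e).card : ℝ) ≤ ((2 : ℝ) ^ ((Fintype.card V : ℝ) / 2) * (2 * (81 / 256)) ^ e)
      * (2 * pn (Fintype.card V - 1)) := by
  let f : Pos V → Pos V × Prop := fun P => (res P {x}, Q ⊆ gp P x)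
  let T : Finset (Pos V × Prop) := offs {x} ×ˢ univ
  have hT : (T.card : ℝ) ≤ 2 * pn (Fintype.card V - 1) := by
    have h0 : T.card ≤ 2 * pn (Fintype.card V - 1) := by
      simp only [T, card_product]
      rw [mul_comm]
      have := card_offs ({x} : Finset V)
      refine Nat.mul_le_mul ?_ (by simpa using this)
      rw [card_univ, Fintype.card_prop]
    exact_mod_cast h0
  refine (card_fiber_real (B4 x v v' Q e) T f _ ?_ ?_).trans
    (mul_le_mul_of_nonneg_left hT (by positivity))
  · intro P hP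
    simp only [T, f, mem_product, mem_univ, and_true]
    exact res_mem_offs P _
  · rintro ⟨R, σ⟩ hRA
    set U : Finset V := univ \ NN R Q with hU
    set W : Finset V := (gam R v ∩ gam R v') \ NN R Q with hW
    -- facts about members of the fibre
    have facts : ∀ P ∈ (B4 x v v' Q e).filter (fun P => f P = (R, σ)),
        wit P x Q ∧ NN P Q = NN R Q ∧ (gam P v ∩ gam P v') \ NN P Q = W ∧ res P {x} = R ∧
        ((Q ⊆ gp P x) = σ) ∧ Fintype.card V ≤ 2 * (NN R Q).card + 2 * e ∧
        4 * (gam P x ∩ W).card + 2 * e ≤ W.card ∧ gam P x ⊆ U := by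
      intro P hP
      simp only [B4, mem_filter, mem_univ, true_and, f, Prod.mk.injEq] at hP
      obtain ⟨⟨hwit, hn, hvx, hvx', hg, hg', hcard⟩, hR, hσ⟩ := hP
      have hN : NN R Q = NN P Q := by
        rw [← hR]
        apply NN_res
        · rw [Finset.disjoint_singleton_left]; exact wit_not_mem P hwit
        · intro y hy; rw [mem_singleton] at hy; subst hy; exact self_not_mem_NN P hwit
      have hgv : gam R v = gam P v := by
        rw [← hR]; apply gam_res P hvx; rw [gam_symm]; exact hg
      have hgv' : gam R v' = gam P v' := by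
        rw [← hR]; apply gam_res P hvx'; rw [gam_symm]; exact hg'
      have hWe : (gam P v ∩ gam P v') \ NN P Q = W := by rw [hW, hN, hgv, hgv']
      refine ⟨hwit, hN.symm, hWe, hR, hσ, by rw [hN]; exact hn, by rw [← hWe]; exact hcard, ?_⟩
      rw [hU, hN]
      intro r hr
      rw [mem_sdiff]
      exact ⟨mem_univ _, fun h => (Finset.disjoint_left.1 (gam_NN P hwit)) hr h⟩
    rcases ((B4 x v v' Q e).filter (fun P => f P = (R, σ))).eq_empty_or_nonempty with h | h
    · rw [h]; simp; positivity
    · obtain ⟨P0, hP0⟩ := h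
      have hF0 := facts P0 hP0
      have hcU : 2 * U.card ≤ Fintype.card V + 2 * e := by
        rw [hU, card_sdiff_of_subset (subset_univ _), card_univ]
        have : (NN R Q).card ≤ Fintype.card V := Finset.card_le_univ _
        have := hF0.2.2.2.2.2.1
        omega
      refine le_trans ?_ (count_sets U W (Finset.sdiff_subset_sdiff (subset_univ _) (le_refl _)) e
        (Fintype.card V) hcU)
      norm_cast
      apply Finset.card_le_card_of_injOn (fun P => gam P x)
      · intro P hP
        have hF := facts P (Finset.mem_coe.1 hP)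
        simp only [Finset.mem_coe, mem_filter, mem_powerset]
        exact ⟨hF.2.2.2.2.2.2.2, hF.2.2.2.2.2.2.1⟩
      · intro P1 hP1 P2 hP2 hg
        have hF1 := facts P1 (Finset.mem_coe.1 hP1)
        have hF2 := facts P2 (Finset.mem_coe.1 hP2)
        simp only at hg
        have claim : ∀ P1 P2 : Pos V, wit P1 x Q → wit P2 x Q → res P1 {x} = res P2 {x} →
            ((Q ⊆ gp P1 x) = (Q ⊆ gp P2 x)) → gam P1 x = gam P2 x →
            ∀ a b, P1.1 a b → P2.1 a b := by
          intro P1 P2 hw1 hw2 hR hs hg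
          have hw : (Q ⊆ gp P1 x ∧ Q ⊆ gp P2 x) ∨ (Q ⊆ gm P1 x ∧ Q ⊆ gm P2 x) := by
            by_cases hc : Q ⊆ gp P1 x
            · left; exact ⟨hc, by rw [← hs]; exact hc⟩
            · right
              refine ⟨hw1.2.resolve_left hc, hw2.2.resolve_left ?_⟩
              rw [← hs]; exact hc
          have hFQ : Disjoint ({x} : Finset V) Q := by
            rw [Finset.disjoint_singleton_left]; exact wit_not_mem P1 hw1
          apply recon {x}
          · intro a b ha hb
            exact ((res_eq_iff.1 hR) a b ha hb).1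
          · intro q hq a h
            rw [mem_singleton] at hq
            subst hq
            have ha1 : a ∈ gam P1 q := (mem_gam _ _ _).2 (Or.inl h)
            have ha2 : a ∈ gam P2 q := by rw [← hg]; exact ha1
            have hane : a ∉ ({q} : Finset V) := by
              rw [mem_singleton]; rintro rfl; exact not_mem_gam_self P1 _ ha1
            exact (cov_same P1 P2 (mem_singleton_self q) hFQ hw1.1 hR hw hane ha1 ha2).1.1 h
          · intro q hq a h
            rw [mem_singleton] at hq
            subst hq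
            have ha1 : a ∈ gam P1 q := (mem_gam _ _ _).2 (Or.inr h)
            have ha2 : a ∈ gam P2 q := by rw [← hg]; exact ha1
            have hane : a ∉ ({q} : Finset V) := by
              rw [mem_singleton]; rintro rfl; exact not_mem_gam_self P1 _ ha1
            exact (cov_same P1 P2 (mem_singleton_self q) hFQ hw1.1 hR hw hane ha1 ha2).2.1 h
        apply Pos.ext'
        intro a b
        have hR := hF1.2.2.2.1.trans hF2.2.2.2.1.symm
        have hs := hF1.2.2.2.2.1.trans hF2.2.2.2.2.1.symm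
        exact ⟨claim P1 P2 hF1.1 hF2.1 hR hs hg a b, claim P2 P1 hF2.1 hF1.1 hR.symm hs.symm hg.symm a b⟩

end count

end Pool.Agent.Helper912
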