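import Pool.Agent.Helper912.KRCount3

set_option autoImplicit false
set_option linter.unusedVariables false
set_option linter.unusedSectionVars false
set_option linter.deprecated false

namespace Pool.Agent.Helper912

open Finset Classical

section count

variable {V : Type} [Fintype V]

/-- the class B3 for fixed data -/
noncomputable def B3 (x y : V) (Qx Qy : Finset V) (e : ℕ) : Finset (Pos V) :=
  univ.filter (fun P : Pos V => wit P x Qx ∧ wit P y Qy ∧ y ∈ gam P x ∧ y ∉ Qx ∧ x ∉ Qy ∧
    Fintype.card V ≤ 2 * (NN P Qx).card + 2 * e ∧ Fintype.card V ≤ 2 * (NN P Qy).card + 2 * e ∧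
    4 * e ≤ (NN P Qx ∩ NN P Qy).card)

noncomputable def allowed (A B : Finset V) (r : V) : Finset (Fin 3) :=
  if r ∈ A then (if r ∈ B then {0} else {0, 2}) else (if r ∈ B then {0, 1} else {0, 1, 2})

theorem card_allowed_pi (A B : Finset V) :
    ((Fintype.piFinset (allowed A B)).card : ℝ) =
      2 ^ Fintype.card V * ((1 / 2) ^ (A ∩ B).card * (3 / 2) ^ (univ \ (A ∪ B)).card) := by
  rw [Fintype.card_piFinset]
  push_cast
  have h : ∀ r : V, ((allowed A B r).card : ℝ)
      = 2 * ((if r ∈ A ∩ B then 1 / 2 else 1) * (if r ∈ univ \ (A ∪ B) then 3 / 2 else 1)) := by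
    intro r
    unfold allowed
    by_cases h1 : r ∈ A <;> by_cases h2 : r ∈ B
    · rw [if_pos h1, if_pos h2, if_pos (mem_inter.2 ⟨h1, h2⟩), if_neg (by simp [h1])]
      simp
    · rw [if_pos h1, if_neg h2, if_neg (by simp [h2]), if_neg (by simp [h1])]
      have : ({0, 2} : Finset (Fin 3)).card = 2 := by decide
      rw [this]; norm_num
    · rw [if_neg h1, if_pos h2, if_neg (by simp [h1]), if_neg (by simp [h2])]
      have : ({0, 1} : Finset (Fin 3)).card = 2 := by decide
      rw [this]; norm_num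
    · rw [if_neg h1, if_neg h2, if_neg (by simp [h1]), if_pos (by simp [h1, h2])]
      have : ({0, 1, 2} : Finset (Fin 3)).card = 3 := by decide
      rw [this]; norm_num
  rw [Finset.prod_congr rfl (fun r _ => h r), Finset.prod_mul_distrib, Finset.prod_mul_distrib]
  congr 1
  · rw [Finset.prod_const, card_univ]
  · congr 1
    · rw [Finset.prod_ite]
      rw [Finset.prod_const, Finset.prod_const, one_pow, mul_one]
      congr 2
      ext r; simp
    · rw [Finset.prod_ite]
      rw [Finset.prod_const, Finset.prod_const, one_pow, mul_one]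
      congr 2
      ext r; simp

theorem allowed_bound (A B : Finset V) (e : ℕ) (hA : Fintype.card V ≤ 2 * A.card + 2 * e)
    (hB : Fintype.card V ≤ 2 * B.card + 2 * e) (hz : 4 * e ≤ (A ∩ B).card) :
    ((Fintype.piFinset (allowed A B)).card : ℝ) ≤ 2 ^ Fintype.card V * (729 / 1024) ^ e := by
  rw [card_allowed_pi]
  apply mul_le_mul_of_nonneg_left _ (by positivity)
  set z := (A ∩ B).card with hz'
  have h1 : (A ∪ B).card + z = A.card + B.card := Finset.card_union_add_card_inter A B
  have h2 : (univ \ (A ∪ B)).card = Fintype.card V - (A ∪ B).card := by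
    rw [card_sdiff_of_subset (subset_univ _), card_univ]
  have h3 : (A ∪ B).card ≤ Fintype.card V := Finset.card_le_univ _
  have h4 : (univ \ (A ∪ B)).card ≤ z + 2 * e := by omega
  have h5 : (3 / 2 : ℝ) ^ (univ \ (A ∪ B)).card ≤ (3 / 2) ^ (z + 2 * e) :=
    pow_le_pow_right₀ (by norm_num) h4
  calc (1 / 2 : ℝ) ^ z * (3 / 2) ^ (univ \ (A ∪ B)).card
      ≤ (1 / 2) ^ z * (3 / 2) ^ (z + 2 * e) := mul_le_mul_of_nonneg_left h5 (by positivity)
    _ = (3 / 4) ^ z * (9 / 4) ^ e := by
        rw [pow_add, ← mul_assoc, ← mul_pow, pow_mul]; norm_num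
    _ ≤ (3 / 4) ^ (4 * e) * (9 / 4) ^ e := by
        apply mul_le_mul_of_nonneg_right _ (by positivity)
        exact pow_le_pow_of_le_one (by norm_num) (by norm_num) hz
    _ = (729 / 1024) ^ e := by rw [pow_mul, ← mul_pow]; norm_num

theorem wit_disj (P : Pos V) {x y : V} {Q : Finset V} (hw : wit P x Q) (hy : y ∉ Q) :
    Disjoint ({x, y} : Finset V) Q := by
  rw [Finset.disjoint_left]
  intro z hz
  rw [mem_insert, mem_singleton] at hz
  rcases hz with rfl | rfl
  · exact wit_not_mem P hw
  · exact hy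

theorem wit_pair (P1 P2 : Pos V) {x : V} {Q : Finset V} (h1 : wit P1 x Q) (h2 : wit P2 x Q)
    (hs : (Q ⊆ gp P1 x) = (Q ⊆ gp P2 x)) :
    (Q ⊆ gp P1 x ∧ Q ⊆ gp P2 x) ∨ (Q ⊆ gm P1 x ∧ Q ⊆ gm P2 x) := by
  by_cases hc : Q ⊆ gp P1 x
  · left; exact ⟨hc, by rw [← hs]; exact hc⟩
  · right
    refine ⟨h1.2.resolve_left hc, h2.2.resolve_left ?_⟩
    rw [← hs]; exact hc

theorem claim_B3 (P1 P2 : Pos V) {x y : V} {Qx Qy : Finset V} (hyQ : y ∉ Qx) (hxQ : x ∉ Qy)
    (hwx1 : wit P1 x Qx) (hwy1 : wit P1 y Qy) (hwx2 : wit P2 x Qx) (hwy2 : wit P2 y Qy)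
    (hadj1 : y ∈ gam P1 x) (hadj2 : y ∈ gam P2 x)
    (hR : res P1 {x, y} = res P2 {x, y}) (hσ : (Qx ⊆ gp P1 x) = (Qx ⊆ gp P2 x))
    (hτ : (Qy ⊆ gp P1 y) = (Qy ⊆ gp P2 y)) (hρ : cov P1 x y = cov P2 x y)
    (gx : gam P1 x = gam P2 x) (gy : gam P1 y = gam P2 y) : ∀ a b, P1.1 a b → P2.1 a b := by
  have hwx := wit_pair P1 P2 hwx1 hwx2 hσ
  have hwy := wit_pair P1 P2 hwy1 hwy2 hτ
  have hFx : Disjoint ({x, y} : Finset V) Qx := wit_disj P1 hwx1 hyQ
  have hFy : Disjoint ({x, y} : Finset V) Qy := by
    rw [Finset.pair_comm]; exact wit_disj P1 hwy1 hxQ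
  have hrev : cov P1 y x ↔ cov P2 y x := by
    have e1 := not_cov_rev P1 hadj1
    have e2 := not_cov_rev P2 hadj2
    rw [hρ] at e1
    tauto
  -- covers at x
  have cx : ∀ a, a ∈ gam P1 x → (cov P1 x a ↔ cov P2 x a) ∧ (cov P1 a x ↔ cov P2 a x) := by
    intro a ha
    by_cases hay : a = y
    · subst hay; exact ⟨by rw [hρ], hrev⟩
    · have ha2 : a ∈ gam P2 x := by rw [← gx]; exact ha
      have haF : a ∉ ({x, y} : Finset V) := by
        rw [mem_insert, mem_singleton]
        rintro (h | h)
        · subst h; exact not_mem_gam_self P1 _ ha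
        · exact hay h
      exact cov_same P1 P2 (mem_insert_self x {y}) hFx hwx1.1 hR hwx haF ha ha2
  have cy : ∀ a, a ∈ gam P1 y → (cov P1 y a ↔ cov P2 y a) ∧ (cov P1 a y ↔ cov P2 a y) := by
    intro a ha
    by_cases hay : a = x
    · subst hay; exact ⟨hrev, by rw [hρ]⟩
    · have ha2 : a ∈ gam P2 y := by rw [← gy]; exact ha
      have haF : a ∉ ({x, y} : Finset V) := by
        rw [mem_insert, mem_singleton]
        rintro (h | h)
        · exact hay h
        · subst h; exact not_mem_gam_self P1 _ ha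
      exact cov_same P1 P2 (mem_insert_of_mem (mem_singleton_self y)) hFy hwy1.1 hR hwy haF ha ha2
  apply recon {x, y}
  · intro a b ha hb
    exact ((res_eq_iff.1 hR) a b ha hb).1
  · intro q hq a h
    rw [mem_insert, mem_singleton] at hq
    rcases hq with rfl | rfl
    · exact (cx a ((mem_gam _ _ _).2 (Or.inl h))).1.1 h
    · exact (cy a ((mem_gam _ _ _).2 (Or.inl h))).1.1 h
  · intro q hq a h
    rw [mem_insert, mem_singleton] at hq
    rcases hq with rfl | rfl
    · exact (cx a ((mem_gam _ _ _).2 (Or.inr h))).2.1 h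
    · exact (cy a ((mem_gam _ _ _).2 (Or.inr h))).2.1 h

theorem count_B3 (x y : V) (Qx Qy : Finset V) (e : ℕ) :
    ((B3 x y Qx Qy e).card : ℝ) ≤ ((2 : ℝ) ^ (Fintype.card V) * (729 / 1024) ^ e)
      * (8 * pn (Fintype.card V - 2)) := by
  by_cases hxy : x = y
  · have : B3 x y Qx Qy e = ∅ := by
      unfold B3
      rw [Finset.filter_eq_empty_iff]
      rintro P _ ⟨_, _, h, _⟩
      rw [hxy] at h
      exact not_mem_gam_self P _ h
    rw [this]; simp; positivity
  let f : Pos V → Pos V × (Prop × (Prop × Prop)) :=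
    fun P => (res P {x, y}, (Qx ⊆ gp P x, (Qy ⊆ gp P y, cov P x y)))
  let T : Finset (Pos V × (Prop × (Prop × Prop))) := offs {x, y} ×ˢ univ
  have hT : (T.card : ℝ) ≤ 8 * pn (Fintype.card V - 2) := by
    have h0 : T.card ≤ 8 * pn (Fintype.card V - 2) := by
      simp only [T, card_product]
      rw [mul_comm]
      have := card_offs ({x, y} : Finset V)
      rw [Finset.card_pair hxy] at this
      refine Nat.mul_le_mul ?_ this
      rw [card_univ, Fintype.card_prod, Fintype.card_prod, Fintype.card_prop]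
    exact_mod_cast h0
  refine (card_fiber_real (B3 x y Qx Qy e) T f _ ?_ ?_).trans
    (mul_le_mul_of_nonneg_left hT (by positivity))
  · intro P hP
    simp only [T, f, mem_product, mem_univ, and_true]
    exact res_mem_offs P _
  · rintro ⟨R, σ, τ, ρ⟩ hRA
    set A : Finset V := NN R Qx with hA
    set B : Finset V := NN R Qy with hB
    have facts : ∀ P ∈ (B3 x y Qx Qy e).filter (fun P => f P = (R, (σ, (τ, ρ)))),
        wit P x Qx ∧ wit P y Qy ∧ y ∈ gam P x ∧ y ∉ Qx ∧ x ∉ Qy ∧ res P {x, y} = R ∧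
        ((Qx ⊆ gp P x) = σ) ∧ ((Qy ⊆ gp P y) = τ) ∧ ((cov P x y) = ρ) ∧
        Disjoint (gam P x) A ∧ Disjoint (gam P y) B ∧
        Fintype.card V ≤ 2 * A.card + 2 * e ∧ Fintype.card V ≤ 2 * B.card + 2 * e ∧
        4 * e ≤ (A ∩ B).card := by
      intro P hP
      simp only [B3, mem_filter, mem_univ, true_and, f, Prod.mk.injEq] at hP
      obtain ⟨⟨hwx, hwy, hadj, hyQ, hxQ, hn1, hn2, hz⟩, hR, hσ, hτ, hρ⟩ := hP
      have hA' : A = NN P Qx := by
        rw [hA, ← hR]
        apply NN_res _ (wit_disj P hwx hyQ)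
        intro w hw
        rw [mem_insert, mem_singleton] at hw
        rcases hw with rfl | rfl
        · exact self_not_mem_NN P hwx
        · exact fun h => (Finset.disjoint_left.1 (gam_NN P hwx)) hadj h
      have hB' : B = NN P Qy := by
        rw [hB, ← hR, Finset.pair_comm]
        apply NN_res _ (wit_disj P hwy hxQ)
        intro w hw
        rw [mem_insert, mem_singleton] at hw
        rcases hw with rfl | rfl
        · exact self_not_mem_NN P hwy
        · exact fun h => (Finset.disjoint_left.1 (gam_NN P hwy)) ((gam_symm _ _ _).1 hadj) h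
      rw [hA', hB']
      exact ⟨hwx, hwy, hadj, hyQ, hxQ, hR, hσ, hτ, hρ, gam_NN P hwx, gam_NN P hwy, hn1, hn2, hz⟩
    rcases ((B3 x y Qx Qy e).filter (fun P => f P = (R, (σ, (τ, ρ))))).eq_empty_or_nonempty with h | h
    · rw [h]; simp; positivity
    · obtain ⟨P0, hP0⟩ := h
      obtain ⟨_, _, _, _, _, _, _, _, _, _, _, hn1, hn2, hz⟩ := facts P0 hP0
      refine le_trans ?_ (allowed_bound A B e hn1 hn2 hz)
      norm_cast
      apply Finset.card_le_card_of_injOn
        (fun P r => if r ∈ gam P x then (1 : Fin 3) else if r ∈ gam P y then 2 else 0)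
      · intro P hP
        obtain ⟨_, _, _, _, _, _, _, _, _, hdA, hdB, _⟩ := facts P (Finset.mem_coe.1 hP)
        rw [Finset.mem_coe, Fintype.mem_piFinset]
        intro r
        unfold allowed
        by_cases h1 : r ∈ gam P x
        · have h2 : r ∉ A := fun h => (Finset.disjoint_left.1 hdA) h1 h
          simp only [h1, if_true, h2, if_false]
          split_ifs <;> simp
        · by_cases h3 : r ∈ gam P y
          · have h4 : r ∉ B := fun h => (Finset.disjoint_left.1 hdB) h3 h
            simp only [h1, if_true, h3, h4, if_false]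
            split_ifs <;> simp
          · simp only [h1, h3, if_false]
            split_ifs <;> simp
      · intro P1 hP1 P2 hP2 hg
        obtain ⟨hwx1, hwy1, hadj1, hyQ, hxQ, hR1, hσ1, hτ1, hρ1, _⟩ := facts P1 (Finset.mem_coe.1 hP1)
        obtain ⟨hwx2, hwy2, hadj2, _, _, hR2, hσ2, hτ2, hρ2, _⟩ := facts P2 (Finset.mem_coe.1 hP2)
        have gx : gam P1 x = gam P2 x := by
          ext r
          have h1 := congrFun hg r
          simp only at h1
          by_cases h2 : r ∈ gam P1 x <;> by_cases h3 : r ∈ gam P2 x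
          · simp [h2, h3]
          · rw [if_pos h2, if_neg h3] at h1
            exfalso
            split_ifs at h1 <;> exact absurd h1 (by decide)
          · rw [if_neg h2, if_pos h3] at h1
            exfalso
            split_ifs at h1 <;> exact absurd h1 (by decide)
          · simp [h2, h3]
        have gy : gam P1 y = gam P2 y := by
          ext r
          have h1 := congrFun hg r
          simp only at h1
          have t1 := gam_tri P1 hadj1
          have t2 := gam_tri P2 hadj2
          by_cases h2 : r ∈ gam P1 y <;> by_cases h3 : r ∈ gam P2 y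
          · simp [h2, h3]
          · have h4 : r ∉ gam P1 x := fun h => (Finset.disjoint_left.1 t1) h h2
            have h5 : r ∉ gam P2 x := by rw [← gx]; exact h4
            rw [if_neg h4, if_pos h2, if_neg h5, if_neg h3] at h1
            exact absurd h1 (by decide)
          · have h5 : r ∉ gam P2 x := fun h => (Finset.disjoint_left.1 t2) h h3
            have h4 : r ∉ gam P1 x := by rw [gx]; exact h5
            rw [if_neg h4, if_neg h2, if_neg h5, if_pos h3] at h1
            exact absurd h1 (by decide)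
          · simp [h2, h3]
        have hR := hR1.trans hR2.symm
        have hσ := hσ1.trans hσ2.symm
        have hτ := hτ1.trans hτ2.symm
        have hρ := hρ1.trans hρ2.symm
        apply Pos.ext'
        intro a b
        exact ⟨claim_B3 P1 P2 hyQ hxQ hwx1 hwy1 hwx2 hwy2 hadj1 hadj2 hR hσ hτ hρ gx gy a b,
          claim_B3 P2 P1 hyQ hxQ hwx2 hwy2 hwx1 hwy1 hadj2 hadj1 hR.symm hσ.symm hτ.symm hρ.symm gx.symm gy.symm a b⟩

end count

end Pool.Agent.Helper912
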