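import Pool.Agent.Helper912.KRTheta2

set_option autoImplicit false
set_option linter.unusedVariables false
set_option linter.unusedSectionVars false
set_option linter.deprecated false

namespace Pool.Agent.Helper912

open Finset Classical Filter Asymptotics Topology

/-- the basic conversion of powers of two -/
theorem two_pow_conv (a b : ℕ) (t : ℤ) (h : (a : ℤ) = b + t) : (2 : ℝ) ^ a = 2 ^ b * (2 : ℝ) ^ t := by
  rw [← zpow_natCast, h, zpow_add₀ (by norm_num), zpow_natCast]

theorem T3_even (N : ℕ) : T3 (2 * N) = 2 ^ (N * N + 2 * N) *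
    ∑ j ∈ range (2 * N + 0 + 1), ((2 * N + 0).choose j : ℝ) * hA ((j : ℤ) - N) := by
  unfold T3 US
  rw [Finset.mul_sum]
  apply Finset.sum_congr rfl
  intro j hj
  rw [Finset.mem_range] at hj
  unfold hA
  have h1 := two_pow_conv (j * (2 * N - j) + 2 * N) (N * N + 2 * N) (-(((j : ℤ) - N) * (j - N))) (by
    push_cast [Nat.cast_sub (show j ≤ 2 * N by omega)]; ring)
  rw [mul_assoc, ← pow_add, h1, Nat.add_zero]
  ring

theorem TT_even (N : ℕ) : (TT (2 * N) : ℝ) = 2 ^ (N * N + N) *
    ∑ j ∈ range (2 * N + 0 + 1), ((2 * N + 0).choose j : ℝ) * hB ((j : ℤ) - N) := by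
  unfold TT
  push_cast
  rw [Finset.mul_sum]
  apply Finset.sum_congr rfl
  intro j hj
  rw [Finset.mem_range] at hj
  unfold hB
  have h1 := two_pow_conv ((2 * N - j) + j * (2 * N - j)) (N * N + N)
    (-(((j : ℤ) - N) * (j - N)) - (j - N)) (by
    push_cast [Nat.cast_sub (show j ≤ 2 * N by omega)]; ring)
  rw [h1, Nat.add_zero]
  ring

theorem T3_odd (N : ℕ) : T3 (2 * N + 1) = 2 ^ (N * N + N + (2 * N + 1)) *
    ∑ j ∈ range (2 * N + 1 + 1), ((2 * N + 1).choose j : ℝ) * (fun t => hB (-t)) ((j : ℤ) - N) := by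
  unfold T3 US
  rw [Finset.mul_sum]
  apply Finset.sum_congr rfl
  intro j hj
  rw [Finset.mem_range] at hj
  simp only [hB]
  have h1 := two_pow_conv (j * (2 * N + 1 - j) + (2 * N + 1)) (N * N + N + (2 * N + 1))
    (-(-((j : ℤ) - N) * -(j - N)) - (-((j : ℤ) - N))) (by
    push_cast [Nat.cast_sub (show j ≤ 2 * N + 1 by omega)]; ring)
  rw [mul_assoc, ← pow_add, h1]
  ring

theorem TT_odd (N : ℕ) : (TT (2 * N + 1) : ℝ) = 2 ^ (N * N + N + (N + 1)) *
    ∑ j ∈ range (2 * N + 1 + 1), ((2 * N + 1).choose j : ℝ) * hA ((j : ℤ) - N) := by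
  unfold TT
  push_cast
  rw [Finset.mul_sum]
  apply Finset.sum_congr rfl
  intro j hj
  rw [Finset.mem_range] at hj
  unfold hA
  have h1 := two_pow_conv ((2 * N + 1 - j) + j * (2 * N + 1 - j)) (N * N + N + (N + 1))
    (-(((j : ℤ) - N) * (j - N))) (by
    push_cast [Nat.cast_sub (show j ≤ 2 * N + 1 by omega)]; ring)
  rw [h1]
  ring

theorem ratio_even : Tendsto (fun N : ℕ => T3 (2 * N) / (TT (2 * N) * s2 ^ (2 * N))) atTop
    (𝓝 (thA / thB)) := by
  have h1 := sum_lim 0 (by norm_num) hA (fun t => (hA_pos t).le) hA_summable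
  have h2 := sum_lim 0 (by norm_num) hB (fun t => (hB_pos t).le) hB_summable
  have h3 := h1.div h2 thB_pos.ne'
  refine h3.congr' ?_
  filter_upwards with N
  have hc : (0 : ℝ) < ((2 * N + 0).choose N : ℝ) := by exact_mod_cast Nat.choose_pos (by omega)
  have hT := TT_pos (2 * N)
  rw [TT_even] at hT
  have hS : (0 : ℝ) < ∑ j ∈ range (2 * N + 0 + 1), ((2 * N + 0).choose j : ℝ) * hB ((j : ℤ) - N) :=
    pos_of_mul_pos_right hT (by positivity)
  rw [T3_even, TT_even, s2_pow_two_mul, Pi.div_apply, div_div_div_cancel_right₀ hc.ne']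
  rw [div_eq_div_iff hS.ne' (by positivity)]
  have e1 : (2 : ℝ) ^ (N * N + 2 * N) = 2 ^ (N * N + N) * 2 ^ N := by
    rw [← pow_add]; congr 1; ring
  rw [e1]
  ring

theorem ratio_odd : Tendsto (fun N : ℕ => T3 (2 * N + 1) / (TT (2 * N + 1) * s2 ^ (2 * N + 1))) atTop
    (𝓝 (thB / thA / s2)) := by
  have hs := s2_pos
  have h1 := sum_lim 1 (le_refl _) (fun t => hB (-t)) (fun t => (hB_pos _).le) hBneg_summable
  have h2 := sum_lim 1 (le_refl _) hA (fun t => (hA_pos t).le) hA_summable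
  rw [thB_neg] at h1
  have h3 := (h1.div h2 thA_pos.ne').div_const s2
  refine h3.congr' ?_
  filter_upwards with N
  have hc : (0 : ℝ) < ((2 * N + 1).choose N : ℝ) := by exact_mod_cast Nat.choose_pos (by omega)
  have hT := TT_pos (2 * N + 1)
  rw [TT_odd] at hT
  have hS : (0 : ℝ) < ∑ j ∈ range (2 * N + 1 + 1), ((2 * N + 1).choose j : ℝ) * hA ((j : ℤ) - N) :=
    pos_of_mul_pos_right hT (by positivity)
  rw [T3_odd, TT_odd, pow_succ s2, s2_pow_two_mul, Pi.div_apply, div_div_div_cancel_right₀ hc.ne',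
    div_div]
  rw [div_eq_div_iff (by positivity) (by positivity)]
  have e1 : (2 : ℝ) ^ (N * N + N + (2 * N + 1)) = 2 ^ (N * N + N + (N + 1)) * 2 ^ N := by
    rw [← pow_add]; congr 1; ring
  rw [e1]
  ring

/-- the average number of antichains divided by `2^(n/2)` does not converge to a positive limit -/
theorem no_limit (C : ℝ) (hC : 0 < C)
    (h : Tendsto (fun n : ℕ => (((MX (Fin n)).card : ℝ) / (pn n : ℝ)) / (C * s2 ^ n)) atTop (𝓝 1)) :
    False := by
  have hs := s2_pos
  have h1 : Tendsto (fun n : ℕ => T3 n / (TT n * s2 ^ n)) atTop (𝓝 C) := by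
    have h2 := ((h.mul pn_asymp).div MX_asymp one_ne_zero).const_mul C
    rw [mul_one, div_one, mul_one] at h2
    refine h2.congr' ?_
    have hMX : ∀ᶠ n in atTop, ((MX (Fin n)).card : ℝ) ≠ 0 := by
      filter_upwards [MX_asymp.eventually (lt_mem_nhds (show (1 / 2 : ℝ) < 1 by norm_num))] with n hn
      intro h0
      rw [h0, zero_div] at hn
      norm_num at hn
    have hpn : ∀ᶠ n in atTop, (pn n : ℝ) ≠ 0 := by
      filter_upwards [pn_asymp.eventually (lt_mem_nhds (show (1 / 2 : ℝ) < 1 by norm_num))] with n hn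
      intro h0
      rw [h0, zero_div] at hn
      norm_num at hn
    filter_upwards [hMX, hpn] with n hn hn'
    have hT := TT_pos n
    have hT3 := T3_pos n
    simp only [Pi.div_apply]
    field_simp
  have hev : Tendsto (fun N : ℕ => 2 * N) atTop atTop := tendsto_id.const_mul_atTop' (by norm_num)
  have hod : Tendsto (fun N : ℕ => 2 * N + 1) atTop atTop := (tendsto_add_atTop_nat 1).comp hev
  have h3 := tendsto_nhds_unique ratio_even (h1.comp hev)
  have h4 := tendsto_nhds_unique ratio_odd (h1.comp hod)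
  have hA := thA_pos
  have hB := thB_pos
  have h5 : thA / thB = thB / thA / s2 := by rw [h3, h4]
  rw [div_div, div_eq_div_iff hB.ne' (by positivity)] at h5
  have h6 : thB ^ 4 = 2 * thA ^ 4 := by
    have h7 : thB * thB = thA * thA * s2 := by rw [← h5]; ring
    calc thB ^ 4 = (thB * thB) ^ 2 := by ring
      _ = (thA * thA * s2) ^ 2 := by rw [h7]
      _ = thA ^ 4 * s2 ^ 2 := by ring
      _ = _ := by rw [s2_sq]; ring
  have := theta_ne
  linarith

end Pool.Agent.Helper912
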