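import Mathlib

set_option autoImplicit false
set_option linter.unusedVariables false
set_option linter.unusedSectionVars false
set_option linter.deprecated false

namespace Pool.Agent.Helper912

open Finset Classical

section struct

variable {V : Type} [Fintype V]

theorem card_le_two {A B C : Finset V} (h : A ⊆ B ∪ C) : A.card ≤ B.card + C.card :=
  (card_le_card h).trans (card_union_le _ _)

theorem card_le_three {A B C D : Finset V} (h : A ⊆ B ∪ C ∪ D) :
    A.card ≤ B.card + C.card + D.card :=
  (card_le_card h).trans ((card_union_le _ _).trans (Nat.add_le_add_right (card_union_le _ _) _))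

theorem card_outside (A B : Finset V) :
    (univ \ (A ∪ B)).card + A.card + B.card = Fintype.card V + (A ∩ B).card := by
  have h1 : (A ∪ B).card + (A ∩ B).card = A.card + B.card := Finset.card_union_add_card_inter A B
  have h2 : (univ \ (A ∪ B)).card = Fintype.card V - (A ∪ B).card := by
    rw [card_sdiff_of_subset (subset_univ _), card_univ]
  have h3 : (A ∪ B).card ≤ Fintype.card V := Finset.card_le_univ _
  omega

/-- hypotheses of the abstract structure lemma -/
structure StrHyp (G S : V → Finset V) (e : ℕ) : Prop where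
  symm : ∀ x y, y ∈ G x → x ∈ G y
  irr : ∀ x, x ∉ G x
  big : ∀ x, Fintype.card V ≤ 2 * (S x).card + 2 * e
  disj : ∀ x, Disjoint (G x) (S x)
  adj : ∀ x y, y ∈ G x → (S x ∩ S y).card ≤ 24 * e
  hit : ∀ x v v', v ≠ x → v' ≠ x → v ∉ G x → v' ∉ G x →
    ((G v ∩ G v') \ S x).card < 4 * (G x ∩ ((G v ∩ G v') \ S x)).card + 2 * e
  deg : ∀ x, 1000 * e ≤ (G x).card
  epos : 1 ≤ e
  n_big : 400 * e ≤ Fintype.card V

variable {G S : V → Finset V} {e : ℕ}

theorem StrHyp.nonempty (h : StrHyp G S e) (x : V) : (G x).Nonempty := by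
  rw [← Finset.card_pos]
  have := h.deg x
  have := h.epos
  omega

theorem StrHyp.out_adj (h : StrHyp G S e) {x y : V} (hy : y ∈ G x) :
    (univ \ (S x ∪ S y)).card ≤ 26 * e := by
  have h1 := card_outside (S x) (S y)
  have h2 := h.big x
  have h3 := h.big y
  have h4 := h.adj x y hy
  omega

theorem StrHyp.common (h : StrHyp G S e) {x v y : V} (h1 : y ∈ G x) (h2 : y ∈ G v) :
    (S x \ S v).card ≤ 50 * e := by
  have h3 : S x \ S v ⊆ (S x ∩ S y) ∪ (univ \ (S v ∪ S y)) := by
    intro r hr
    simp only [mem_sdiff, mem_union, mem_inter, mem_univ, true_and] at hr ⊢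
    tauto
  have h4 := card_le_two h3
  have h5 := h.adj x y h1
  have h6 := h.out_adj h2
  omega

theorem StrHyp.main (h : StrHyp G S e) (v0 : V) :
    ∃ X : Finset V, (∀ x y, y ∈ G x → (x ∈ X ↔ y ∉ X)) ∧
      (∀ x x' x'', (x ∈ X ↔ x' ∈ X) → (x ∈ X ↔ x'' ∈ X) → ∃ z, z ∈ G x ∧ z ∈ G x' ∧ z ∈ G x'') := by
  have he := h.epos
  have hn := h.n_big
  set X : Finset V := univ.filter (fun x => (G x ∩ G v0).Nonempty) with hX
  have memX : ∀ x, x ∈ X ↔ (G x ∩ G v0).Nonempty := by intro x; simp [hX]
  have hv0 : v0 ∈ X := by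
    rw [memX, Finset.inter_self]; exact h.nonempty v0
  -- (i)
  have i1 : ∀ x, x ∈ X → (S x \ S v0).card ≤ 50 * e := by
    intro x hx
    obtain ⟨y, hy⟩ := (memX x).1 hx
    rw [mem_inter] at hy
    exact h.common hy.1 hy.2
  have i2 : ∀ x, x ∈ X → (S v0 \ S x).card ≤ 50 * e := by
    intro x hx
    obtain ⟨y, hy⟩ := (memX x).1 hx
    rw [mem_inter] at hy
    exact h.common hy.2 hy.1
  -- (ii)
  have ii : ∀ x, x ∉ X → (G v0 \ S x).card ≤ 26 * e := by
    intro x hx
    have hemp : G x ∩ G v0 = ∅ := by
      rw [memX] at hx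
      exact Finset.not_nonempty_iff_eq_empty.1 hx
    by_cases hadj : v0 ∈ G x
    · refine le_trans (card_le_card ?_) (h.out_adj (h.symm _ _ hadj))
      intro r hr
      simp only [mem_sdiff, mem_union, mem_univ, true_and] at hr ⊢
      rintro (h1 | h1)
      · exact (Finset.disjoint_left.1 (h.disj v0)) hr.1 h1
      · exact hr.2 h1
    · have hne : v0 ≠ x := by rintro rfl; exact hx hv0
      have h1 := h.hit x v0 v0 hne hne hadj hadj
      rw [Finset.inter_self] at h1
      have h2 : G x ∩ (G v0 \ S x) = ∅ := by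
        rw [← Finset.subset_empty, ← hemp]
        intro r hr
        simp only [mem_sdiff, mem_inter] at hr ⊢
        tauto
      rw [h2] at h1
      simp only [card_empty] at h1
      omega
  -- (iii)
  have iii : ∀ x y, x ∉ X → y ∈ G x → y ∈ X := by
    intro x y hx hy
    by_contra hyX
    have h1 := ii x hx
    have h2 := ii y hyX
    have h3 := h.adj x y hy
    have h4 : G v0 ⊆ (G v0 \ S x) ∪ (G v0 \ S y) ∪ (S x ∩ S y) := by
      intro r hr
      simp only [mem_sdiff, mem_union, mem_inter]
      tauto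
    have h5 := card_le_three h4
    have h6 := h.deg v0
    omega
  -- (iv)
  have iv : ∀ x y, x ∈ X → y ∈ G x → y ∉ X := by
    intro x y hx hy hyX
    have h1 := i1 x hx
    have h2 := i1 y hyX
    have h3 := h.out_adj hy
    obtain ⟨z, hz⟩ := h.nonempty v0
    have h4 := h.adj v0 z hz
    have h5 : S z ⊆ (S v0 ∩ S z) ∪ (univ \ (S x ∪ S y)) ∪ ((S x \ S v0) ∪ (S y \ S v0)) := by
      intro r hr
      simp only [mem_sdiff, mem_union, mem_inter, mem_univ, true_and]
      tauto
    have h6 := card_le_three h5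
    have h7 := card_union_le (S x \ S v0) (S y \ S v0)
    have h8 := h.big z
    omega
  -- (v)
  have v5 : ∀ x x', (x ∈ X ↔ x' ∈ X) → (S x \ S x').card ≤ 150 * e := by
    intro x x' hxx
    by_cases hx : x ∈ X
    · have hx' := hxx.1 hx
      have h1 : S x \ S x' ⊆ (S x \ S v0) ∪ (S v0 \ S x') := by
        intro r hr
        simp only [mem_sdiff, mem_union] at hr ⊢
        tauto
      have h2 := card_le_two h1
      have h3 := i1 x hx
      have h4 := i2 x' hx'
      omega
    · have hx' : x' ∉ X := fun h' => hx (hxx.2 h')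
      have key : ∀ x, x ∉ X → (S x ∩ S v0).card ≤ 74 * e := by
        intro x hx
        obtain ⟨y, hy⟩ := h.nonempty x
        have hyX := iii x y hx hy
        have h1 : S x ∩ S v0 ⊆ (S x ∩ S y) ∪ (S v0 \ S y) := by
          intro r hr
          simp only [mem_sdiff, mem_union, mem_inter] at hr ⊢
          tauto
        have h2 := card_le_two h1
        have h3 := h.adj x y hy
        have h4 := i2 y hyX
        omega
      have h1 := key x hx
      have h2 := key x' hx'
      have h3 : S x \ S x' ⊆ (S x ∩ S v0) ∪ (univ \ (S x' ∪ S v0)) := by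
        intro r hr
        simp only [mem_sdiff, mem_union, mem_inter, mem_univ, true_and] at hr ⊢
        tauto
      have h4 := card_le_two h3
      have h5 := card_outside (S x') (S v0)
      have h6 := h.big x'
      have h7 := h.big v0
      omega
  have bip : ∀ x y, y ∈ G x → (x ∈ X ↔ y ∉ X) := by
    intro x y hy
    constructor
    · intro hx; exact iv x y hx hy
    · intro hyX
      by_contra hx
      exact hyX (iii x y hx hy)
  have nonadj : ∀ x y, (x ∈ X ↔ y ∈ X) → y ∉ G x := by
    intro x y hxy hy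
    have := bip x y hy
    tauto
  have gs : ∀ x x', (x ∈ X ↔ x' ∈ X) → (G x ∩ S x').card ≤ 150 * e := by
    intro x x' hxx
    refine le_trans (card_le_card ?_) (v5 x' x hxx.symm)
    intro r hr
    simp only [mem_sdiff, mem_inter] at hr ⊢
    exact ⟨hr.2, fun h' => (Finset.disjoint_left.1 (h.disj x)) hr.1 h'⟩
  have pair : ∀ x x', (x ∈ X ↔ x' ∈ X) → 212 * e ≤ (G x ∩ G x').card := by
    intro x x' hxx
    by_cases hne : x = x'
    · subst hne
      rw [Finset.inter_self]
      have := h.deg x
      omega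
    · have h1 := h.hit x' x x hne hne (nonadj x' x hxx.symm) (nonadj x' x hxx.symm)
      rw [Finset.inter_self] at h1
      have h2 := gs x x' hxx
      have h3 : G x ⊆ (G x \ S x') ∪ (G x ∩ S x') := by
        intro r hr
        simp only [mem_sdiff, mem_union, mem_inter]
        tauto
      have h4 := card_le_two h3
      have h5 := h.deg x
      have h6 : (G x' ∩ (G x \ S x')).card ≤ (G x ∩ G x').card := by
        apply card_le_card
        intro r hr
        simp only [mem_sdiff, mem_inter] at hr ⊢
        tauto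
      omega
  refine ⟨X, bip, ?_⟩
  intro x x' x'' h1 h2
  by_cases hx1 : x'' = x
  · subst hx1
    have h3 := pair x'' x' h1
    have : (G x'' ∩ G x').Nonempty := by rw [← Finset.card_pos]; omega
    obtain ⟨z, hz⟩ := this
    rw [mem_inter] at hz
    exact ⟨z, hz.1, hz.2, hz.1⟩
  by_cases hx2 : x'' = x'
  · subst hx2
    have h3 := pair x x'' h1
    have : (G x ∩ G x'').Nonempty := by rw [← Finset.card_pos]; omega
    obtain ⟨z, hz⟩ := this
    rw [mem_inter] at hz
    exact ⟨z, hz.1, hz.2, hz.2⟩
  have h3 := h.hit x'' x x' (Ne.symm hx1) (Ne.symm hx2) (nonadj x'' x h2.symm)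
    (nonadj x'' x' (by tauto))
  have h4 := pair x x' h1
  have h5 := gs x x'' h2
  have h6 : G x ∩ G x' ⊆ ((G x ∩ G x') \ S x'') ∪ (G x ∩ S x'') := by
    intro r hr
    simp only [mem_sdiff, mem_union, mem_inter] at hr ⊢
    tauto
  have h7 := card_le_two h6
  have h8 : (G x'' ∩ ((G x ∩ G x') \ S x'')).Nonempty := by
    rw [← Finset.card_pos]; omega
  obtain ⟨z, hz⟩ := h8
  simp only [mem_sdiff, mem_inter] at hz
  exact ⟨z, hz.2.1.1, hz.2.1.2, hz.1⟩

end struct

end Pool.Agent.Helper912
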