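import Pool.Agent.Helper912.KRCount1
import Pool.Agent.Helper912.KRCount4
import Pool.Agent.Helper912.KRStruct

set_option autoImplicit false
set_option linter.unusedVariables false
set_option linter.unusedSectionVars false
set_option linter.deprecated false

namespace Pool.Agent.Helper912

open Finset Classical

section good

variable {V : Type} [Fintype V]

/-- posets avoiding all local bad classes -/
structure GoodHyp (P : Pos V) (k e : ℕ) : Prop where
  h1 : ∀ Q : Finset V, Q.card = k → (∀ a ∈ Q, ∀ b ∈ Q, ¬ P.1 a b) →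
    Fintype.card V ≤ 2 * (NN P Q).card + 2 * e
  h2 : ∀ x, 1000 * e ≤ (gam P x).card
  h3 : ∀ x y Qx Qy, Qx.card = k → Qy.card = k → P ∉ B3 x y Qx Qy e
  h4 : ∀ x v v' Q, Q.card = k → P ∉ B4 x v v' Q e
  hk : 1 ≤ k
  hke : 6 * k + 4 ≤ 1000 * e
  epos : 1 ≤ e
  n_big : 400 * e ≤ Fintype.card V

theorem wit_antichain (P : Pos V) {x : V} {Q : Finset V} (h : wit P x Q) :
    ∀ a ∈ Q, ∀ b ∈ Q, ¬ P.1 a b := by
  intro a ha b hb hab
  rcases h.2 with h | h
  · have h1 := (mem_gp _ _ _).1 (h ha)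
    have h2 := (mem_gp _ _ _).1 (h hb)
    exact h2.2 a ⟨h1.1, hab⟩
  · have h1 := (mem_gm _ _ _).1 (h ha)
    have h2 := (mem_gm _ _ _).1 (h hb)
    exact h1.2 b ⟨hab, h2.1⟩

variable {P : Pos V} {k e : ℕ}

theorem GoodHyp.big (h : GoodHyp P k e) {x : V} {Q : Finset V} (hw : wit P x Q) (hQ : Q.card = k) :
    Fintype.card V ≤ 2 * (NN P Q).card + 2 * e :=
  h.h1 Q hQ (wit_antichain P hw)

theorem GoodHyp.w_exists (h : GoodHyp P k e) (x : V) (F : Finset V) (hF : F.card ≤ 2 * k + 2) :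
    ∃ Q : Finset V, wit P x Q ∧ Q.card = k ∧ Disjoint Q F := by
  have h1 : (gam P x).card = (gp P x).card + (gm P x).card := by
    unfold gam; exact card_union_of_disjoint (gp_gm_disj P x)
  have h2 := h.h2 x
  have h3 := h.hke
  have key : ∀ A : Finset V, 500 * e ≤ A.card → ∃ Q : Finset V, Q ⊆ A ∧ Q.card = k ∧ Disjoint Q F := by
    intro A hA
    have h4 : A.card ≤ (A \ F).card + F.card := by
      apply card_le_two
      intro r hr
      simp only [mem_union, mem_sdiff]; tauto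
    have h5 : k ≤ (A \ F).card := by omega
    obtain ⟨Q, hQ1, hQ2⟩ := Finset.exists_subset_card_eq h5
    refine ⟨Q, hQ1.trans sdiff_subset, hQ2, ?_⟩
    exact Finset.disjoint_of_subset_left hQ1 Finset.sdiff_disjoint
  have hk := h.hk
  by_cases hc : 500 * e ≤ (gp P x).card
  · obtain ⟨Q, hQ1, hQ2, hQ3⟩ := key _ hc
    exact ⟨Q, ⟨by rw [← Finset.card_pos]; omega, Or.inl hQ1⟩, hQ2, hQ3⟩
  · obtain ⟨Q, hQ1, hQ2, hQ3⟩ := key (gm P x) (by omega)
    exact ⟨Q, ⟨by rw [← Finset.card_pos]; omega, Or.inr hQ1⟩, hQ2, hQ3⟩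

theorem GoodHyp.s1 (h : GoodHyp P k e) {x y : V} {Qx Qy : Finset V} (hx : wit P x Qx)
    (hy : wit P y Qy) (hkx : Qx.card = k) (hky : Qy.card = k) (hadj : y ∈ gam P x)
    (h1 : y ∉ Qx) (h2 : x ∉ Qy) : (NN P Qx ∩ NN P Qy).card < 4 * e := by
  by_contra hcon
  apply h.h3 x y Qx Qy hkx hky
  simp only [B3, mem_filter, mem_univ, true_and]
  exact ⟨hx, hy, hadj, h1, h2, h.big hx hkx, h.big hy hky, by omega⟩

theorem GoodHyp.s2 (h : GoodHyp P k e) {x : V} {Q Q' : Finset V} (hx : wit P x Q)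
    (hx' : wit P x Q') (hkx : Q.card = k) (hkx' : Q'.card = k) :
    (NN P Q \ NN P Q').card ≤ 10 * e := by
  have h0 : ((gam P x) \ (Q ∪ Q')).Nonempty := by
    rw [← Finset.card_pos]
    have h1 : (gam P x).card ≤ ((gam P x) \ (Q ∪ Q')).card + (Q ∪ Q').card := by
      apply card_le_two
      intro r hr
      simp only [mem_union, mem_sdiff]; tauto
    have h2 := card_union_le Q Q'
    have h3 := h.h2 x
    have h4 := h.hke
    omega
  obtain ⟨z, hz⟩ := h0
  simp only [mem_sdiff, mem_union] at hz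
  obtain ⟨Qz, hwz, hkz, hdz⟩ := h.w_exists z {x} (by simp)
  have hxz : x ∉ Qz := fun h' => (Finset.disjoint_left.1 hdz) h' (mem_singleton_self x)
  have a1 := h.s1 hx hwz hkx hkz hz.1 (fun h' => hz.2 (Or.inl h')) hxz
  have a2 := h.s1 hx' hwz hkx' hkz hz.1 (fun h' => hz.2 (Or.inr h')) hxz
  have a3 : NN P Q \ NN P Q' ⊆ (NN P Q ∩ NN P Qz) ∪ (univ \ (NN P Q' ∪ NN P Qz)) := by
    intro r hr
    simp only [mem_sdiff, mem_union, mem_inter, mem_univ, true_and] at hr ⊢
    tauto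
  have a4 := card_le_two a3
  have a5 := card_outside (NN P Q') (NN P Qz)
  have a6 := h.big hx' hkx'
  have a7 := h.big hwz hkz
  omega

theorem GoodHyp.str (h : GoodHyp P k e) : ∃ S : V → Finset V, StrHyp (gam P) S e := by
  have hex : ∀ x, ∃ Q : Finset V, wit P x Q ∧ Q.card = k := by
    intro x
    obtain ⟨Q, h1, h2, _⟩ := h.w_exists x ∅ (by simp)
    exact ⟨Q, h1, h2⟩
  choose Qc hQw hQk using hex
  refine ⟨fun x => NN P (Qc x), ⟨fun x y hy => (gam_symm P x y).1 hy, fun x => not_mem_gam_self P x,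
    fun x => h.big (hQw x) (hQk x), fun x => gam_NN P (hQw x), ?_, ?_, h.h2, h.epos, h.n_big⟩⟩
  · intro x y hy
    obtain ⟨Qx, hwx, hkx, hdx⟩ := h.w_exists x {y} (by simp)
    obtain ⟨Qy, hwy, hky, hdy⟩ := h.w_exists y {x} (by simp)
    have hyx : y ∉ Qx := fun h' => (Finset.disjoint_left.1 hdx) h' (mem_singleton_self y)
    have hxy : x ∉ Qy := fun h' => (Finset.disjoint_left.1 hdy) h' (mem_singleton_self x)
    have a1 := h.s1 hwx hwy hkx hky hy hyx hxy
    have a2 := h.s2 (hQw x) hwx (hQk x) hkx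
    have a3 := h.s2 (hQw y) hwy (hQk y) hky
    have a4 : NN P (Qc x) ∩ NN P (Qc y) ⊆ (NN P (Qc x) \ NN P Qx) ∪ (NN P (Qc y) \ NN P Qy)
        ∪ (NN P Qx ∩ NN P Qy) := by
      intro r hr
      simp only [mem_sdiff, mem_union, mem_inter] at hr ⊢
      tauto
    have a5 := card_le_three a4
    omega
  · intro x v v' hv hv' hg hg'
    by_contra hcon
    apply h.h4 x v v' (Qc x) (hQk x)
    simp only [B4, mem_filter, mem_univ, true_and]
    exact ⟨hQw x, h.big (hQw x) (hQk x), hv, hv', hg, hg', by simpa using hcon⟩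

end good

end Pool.Agent.Helper912
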