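import Pool.Agent.Helper912.KROrient

set_option autoImplicit false
set_option linter.unusedVariables false
set_option linter.unusedSectionVars false
set_option linter.deprecated false

namespace Pool.Agent.Helper912

open Finset Classical

section layer

variable {V : Type} [Fintype V]

theorem cov_count (E : Finset (V × V)) (S : Finset (Pos V))
    (hS : ∀ P ∈ S, ∀ a b, cov P a b → (a, b) ∈ E) : S.card ≤ 2 ^ E.card := by
  rw [← card_powerset]
  apply Finset.card_le_card_of_injOn (fun P => univ.filter (fun ab : V × V => cov P ab.1 ab.2))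
  · intro P hP
    rw [Finset.mem_coe, mem_powerset]
    rintro ⟨a, b⟩ hab
    simp only [mem_filter, mem_univ, true_and] at hab
    exact hS P (Finset.mem_coe.1 hP) a b hab
  · intro P1 _ P2 _ h
    apply recon_all
    intro a b
    have h1 := congrArg (fun s => (a, b) ∈ s) h
    simpa using h1

noncomputable def lay3 (V : Type) [Fintype V] : Finset (Pos V) :=
  univ.filter (fun P => ∃ l : V → ℕ, (∀ a b, cov P a b → l b = l a + 1) ∧ ∀ a, l a ≤ 2)

noncomputable def lay4 (V : Type) [Fintype V] : Finset (Pos V) :=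
  univ.filter (fun P => ∃ l : V → ℕ, (∀ a b, cov P a b → l b = l a + 1) ∧ (∀ a, l a ≤ 3) ∧
    (∃ a, l a = 0) ∧ (∃ a, l a = 3))

/-- pairs `(M, L)` of middle layer and bottom layer -/
noncomputable def ML (V : Type) [Fintype V] : Finset (Finset V × Finset V) :=
  univ.filter (fun q => Disjoint q.1 q.2)

/-- allowed covers for the layer structure `(M, L)` -/
noncomputable def E3 (q : Finset V × Finset V) : Finset (V × V) :=
  (q.2 ×ˢ q.1) ∪ (q.1 ×ˢ (univ \ (q.1 ∪ q.2)))

theorem card_E3 (q : Finset V × Finset V) (hq : Disjoint q.1 q.2) :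
    (E3 q).card = q.1.card * (Fintype.card V - q.1.card) := by
  unfold E3
  rw [card_union_of_disjoint, card_product, card_product, card_sdiff_of_subset (subset_univ _),
    card_union_of_disjoint hq, card_univ]
  · have h1 : q.1.card + q.2.card ≤ Fintype.card V := by
      rw [← card_union_of_disjoint hq]; exact card_le_univ _
    obtain ⟨c, hc⟩ := Nat.exists_eq_add_of_le h1
    have h2 : Fintype.card V - (q.1.card + q.2.card) = c := by omega
    have h3 : Fintype.card V - q.1.card = q.2.card + c := by omega
    rw [h2, h3]; ring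
  · rw [Finset.disjoint_left]
    rintro ⟨a, b⟩ h1 h2
    simp only [mem_product, mem_sdiff, mem_union, mem_univ, true_and] at h1 h2
    exact (Finset.disjoint_left.1 hq) h2.1 h1.1

/-- sum over `(M, L)` -/
theorem sum_ML {β : Type*} [AddCommMonoid β] (g : Finset V × Finset V → β) :
    ∑ q ∈ ML V, g q = ∑ M : Finset V, ∑ L ∈ (univ \ M).powerset, g (M, L) := by
  unfold ML
  rw [Finset.sum_filter, ← Finset.univ_product_univ, Finset.sum_product]
  apply Finset.sum_congr rfl
  intro M _
  rw [← Finset.sum_filter]
  apply Finset.sum_congr _ (fun _ _ => rfl)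
  ext L
  simp only [mem_filter, mem_univ, true_and, mem_powerset]
  rw [Finset.subset_sdiff]
  constructor
  · intro h; exact ⟨subset_univ _, h.symm⟩
  · intro h; exact h.2.symm

/-- generic bound for a family of 3-layered posets -/
theorem lay3_bound (S : Finset (Pos V)) (hS : S ⊆ lay3 V) (w : Option V)
    (hw : ∀ P ∈ S, ∀ v, w = some v → ∀ a, ¬ P.1 v a) :
    S.card ≤ ∑ q ∈ ML V, 2 ^ ((E3 q).filter (fun ab => w ≠ some ab.1)).card := by
  have hex : ∀ P : Pos V, ∃ l : V → ℕ, P ∈ S →
      ((∀ a b, cov P a b → l b = l a + 1) ∧ ∀ a, l a ≤ 2) := by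
    intro P
    by_cases hP : P ∈ S
    · have := hS hP
      simp only [lay3, mem_filter, mem_univ, true_and] at this
      obtain ⟨l, hl⟩ := this
      exact ⟨l, fun _ => hl⟩
    · exact ⟨fun _ => 0, fun h => absurd h hP⟩
  choose lf hlf using hex
  let f : Pos V → Finset V × Finset V := fun P =>
    (univ.filter (fun v => lf P v = 1), univ.filter (fun v => lf P v = 0))
  have hf : ∀ P ∈ S, f P ∈ ML V := by
    intro P hP
    simp only [ML, f, mem_filter, mem_univ, true_and]
    rw [Finset.disjoint_left]
    intro v h1 h2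
    simp only [mem_filter, mem_univ, true_and] at h1 h2
    omega
  rw [Finset.card_eq_sum_card_fiberwise (f := f) (t := ML V) (fun a ha => hf a ha)]
  apply Finset.sum_le_sum
  intro q _
  apply cov_count
  intro P hP a b hab
  rw [mem_filter] at hP
  obtain ⟨hP, hq⟩ := hP
  obtain ⟨h1, h2⟩ := hlf P hP
  have h3 := h1 a b hab
  have h4 := h2 b
  rw [mem_filter]
  constructor
  · rw [← hq]
    simp only [E3, f, mem_union, mem_product, mem_sdiff, mem_filter, mem_univ, true_and]
    have : lf P a = 0 ∨ lf P a = 1 := by omega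
    rcases this with h5 | h5
    · left; exact ⟨h5, by omega⟩
    · right; exact ⟨h5, by omega⟩
  · intro hwa
    exact hw P hP a hwa b hab.1

/-- the main sum `T(n)` -/
def TT (n : ℕ) : ℕ := ∑ j ∈ range (n + 1), n.choose j * 2 ^ ((n - j) + j * (n - j))

theorem sum_univ_powerset {β : Type*} [AddCommMonoid β] (g : ℕ → β) :
    ∑ M : Finset V, g M.card = ∑ j ∈ range (Fintype.card V + 1), (Fintype.card V).choose j • g j := by
  have := Finset.sum_powerset_apply_card (x := (univ : Finset V)) g
  rw [Finset.powerset_univ, card_univ] at this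
  exact this

theorem card_lay3 : (lay3 V).card ≤ TT (Fintype.card V) := by
  refine (lay3_bound (lay3 V) (le_refl _) none (by simp)).trans ?_
  rw [sum_ML]
  have h1 : ∀ M : Finset V, ∑ L ∈ (univ \ M).powerset,
      2 ^ ((E3 (M, L)).filter (fun ab => (none : Option V) ≠ some ab.1)).card
      = 2 ^ ((Fintype.card V - M.card) + M.card * (Fintype.card V - M.card)) := by
    intro M
    have h2 : ∀ L ∈ (univ \ M).powerset,
        2 ^ ((E3 (M, L)).filter (fun ab => (none : Option V) ≠ some ab.1)).card
        = 2 ^ (M.card * (Fintype.card V - M.card)) := by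
      intro L hL
      rw [mem_powerset, Finset.subset_sdiff] at hL
      have : ((E3 (M, L)).filter (fun ab => (none : Option V) ≠ some ab.1)) = E3 (M, L) := by
        apply Finset.filter_true_of_mem; intro _ _; simp
      rw [this, card_E3 (M, L) hL.2.symm]
    rw [Finset.sum_congr rfl h2, Finset.sum_const, card_powerset,
      card_sdiff_of_subset (subset_univ _), card_univ, smul_eq_mul, ← pow_add]
  rw [Finset.sum_congr rfl (fun M _ => h1 M)]
  rw [sum_univ_powerset (V := V) (fun m => 2 ^ ((Fintype.card V - m) + m * (Fintype.card V - m)))]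
  unfold TT
  simp only [smul_eq_mul, le_refl]

/-- 4-layer structure: `X` = odd layers (1 and 3), `A` = layer 3, `B` = layer 0 -/
noncomputable def E4 (X A B : Finset V) : Finset (V × V) :=
  (B ×ˢ (X \ A)) ∪ ((X \ A) ×ˢ ((univ \ X) \ B)) ∪ (((univ \ X) \ B) ×ˢ A)

theorem card_E4 (X A B : Finset V) (hA : A ⊆ X) (hB : B ⊆ univ \ X) :
    (E4 X A B).card + A.card * B.card ≤ X.card * (univ \ X).card := by
  have h1 : (E4 X A B).card ≤ B.card * (X \ A).card + (X \ A).card * ((univ \ X) \ B).card
      + ((univ \ X) \ B).card * A.card := by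
    unfold E4
    refine (card_union_le _ _).trans (Nat.add_le_add ((card_union_le _ _).trans ?_) ?_)
    · rw [card_product, card_product]
    · rw [card_product]
  have h2 : X.card = (X \ A).card + A.card := by
    rw [card_sdiff_of_subset hA]; have := card_le_card hA; omega
  have h3 : (univ \ X).card = ((univ \ X) \ B).card + B.card := by
    rw [card_sdiff_of_subset hB]; have := card_le_card hB; omega
  rw [h2, h3]
  nlinarith

theorem card_lay4 : (lay4 V).card ≤
    ∑ X : Finset V, ∑ A ∈ X.powerset.filter (fun A => A.Nonempty),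
      ∑ B ∈ (univ \ X).powerset.filter (fun B => B.Nonempty),
        2 ^ (X.card * (univ \ X).card - A.card * B.card) := by
  have hex : ∀ P : Pos V, ∃ l : V → ℕ, P ∈ lay4 V →
      ((∀ a b, cov P a b → l b = l a + 1) ∧ (∀ a, l a ≤ 3) ∧ (∃ a, l a = 0) ∧ (∃ a, l a = 3)) := by
    intro P
    by_cases hP : P ∈ lay4 V
    · have := hP
      simp only [lay4, mem_filter, mem_univ, true_and] at this
      obtain ⟨l, hl⟩ := this
      exact ⟨l, fun _ => hl⟩
    · exact ⟨fun _ => 0, fun h => absurd h hP⟩
  choose lf hlf using hex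
  let f : Pos V → (Σ _ : Finset V, Finset V × Finset V) := fun P =>
    ⟨univ.filter (fun v => lf P v = 1 ∨ lf P v = 3),
      (univ.filter (fun v => lf P v = 3), univ.filter (fun v => lf P v = 0))⟩
  let T : Finset (Σ _ : Finset V, Finset V × Finset V) :=
    (univ : Finset (Finset V)).sigma (fun X => (X.powerset.filter (fun A => A.Nonempty)) ×ˢ
      ((univ \ X).powerset.filter (fun B => B.Nonempty)))
  have hf : ∀ P ∈ lay4 V, f P ∈ T := by
    intro P hP
    obtain ⟨h1, h2, ⟨a, ha⟩, ⟨b, hb⟩⟩ := hlf P hP
    simp only [T, f, mem_sigma, mem_product, mem_powerset, mem_filter, mem_univ, true_and]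
    refine ⟨⟨?_, ⟨b, by simp [hb]⟩⟩, ⟨?_, ⟨a, by simp [ha]⟩⟩⟩
    · intro v hv
      simp only [mem_filter, mem_univ, true_and] at hv ⊢
      right; exact hv
    · intro v hv
      simp only [mem_filter, mem_univ, true_and, mem_sdiff] at hv ⊢
      omega
  rw [Finset.card_eq_sum_card_fiberwise (f := f) (t := T) (fun a ha => hf a ha)]
  have h1 : ∀ q ∈ T, ((lay4 V).filter (fun P => f P = q)).card
      ≤ 2 ^ (q.1.card * (univ \ q.1).card - q.2.1.card * q.2.2.card) := by
    rintro ⟨X, A, B⟩ hq
    simp only [T, mem_sigma, mem_product, mem_powerset, mem_filter, mem_univ, true_and] at hq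
    have h2 := card_E4 X A B hq.1.1 hq.2.1
    refine (cov_count (E4 X A B) _ ?_).trans (Nat.pow_le_pow_right (by norm_num) (by simp only; omega))
    intro P hP a b hab
    rw [mem_filter] at hP
    obtain ⟨hP, hf⟩ := hP
    obtain ⟨h1, h2, _, _⟩ := hlf P hP
    have h3 := h1 a b hab
    have h4 := h2 b
    simp only [f, Sigma.mk.injEq, heq_eq_eq, Prod.mk.injEq] at hf
    obtain ⟨rfl, rfl, rfl⟩ := hf
    simp only [E4, mem_union, mem_product, mem_sdiff, mem_filter, mem_univ, true_and]
    have : lf P a = 0 ∨ lf P a = 1 ∨ lf P a = 2 := by omega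
    rcases this with h5 | h5 | h5
    · left; left; exact ⟨h5, by omega, by omega⟩
    · left; right; exact ⟨⟨by omega, by omega⟩, by omega, by omega⟩
    · right; exact ⟨⟨by omega, by omega⟩, by omega⟩
  refine (Finset.sum_le_sum h1).trans (le_of_eq ?_)
  simp only [T]
  rw [Finset.sum_sigma]
  apply Finset.sum_congr rfl
  intro X _
  rw [Finset.sum_product]

end layer

end Pool.Agent.Helper912
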