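import Pool.Agent.Helper912.KRLayer

set_option autoImplicit false
set_option linter.unusedVariables false
set_option linter.unusedSectionVars false
set_option linter.deprecated false

namespace Pool.Agent.Helper912

open Finset Classical

/-- weighted sum -/
noncomputable def US (n : ℕ) (w : ℕ → ℝ) : ℝ :=
  ∑ j ∈ range (n + 1), (n.choose j : ℝ) * 2 ^ (j * (n - j)) * w j

theorem US_add (n : ℕ) (w1 w2 : ℕ → ℝ) : US n (fun j => w1 j + w2 j) = US n w1 + US n w2 := by
  unfold US
  rw [← Finset.sum_add_distrib]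
  apply Finset.sum_congr rfl
  intro j _; ring

theorem US_mul (n : ℕ) (c : ℝ) (w : ℕ → ℝ) : US n (fun j => c * w j) = c * US n w := by
  unfold US
  rw [Finset.mul_sum]
  apply Finset.sum_congr rfl
  intro j _; ring

theorem US_mono (n : ℕ) (w1 w2 : ℕ → ℝ) (h : ∀ j, j ≤ n → w1 j ≤ w2 j) : US n w1 ≤ US n w2 := by
  unfold US
  apply Finset.sum_le_sum
  intro j hj
  rw [Finset.mem_range] at hj
  apply mul_le_mul_of_nonneg_left (h j (by omega)) (by positivity)

theorem US_nonneg (n : ℕ) (w : ℕ → ℝ) (h : ∀ j, j ≤ n → 0 ≤ w j) : 0 ≤ US n w := by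
  unfold US
  apply Finset.sum_nonneg
  intro j hj
  rw [Finset.mem_range] at hj
  have := h j (by omega)
  positivity

theorem TT_eq (n : ℕ) : (TT n : ℝ) = US n (fun j => 2 ^ (n - j)) := by
  unfold TT US
  push_cast
  apply Finset.sum_congr rfl
  intro j _
  rw [pow_add]; ring

noncomputable def gg (a b : ℕ) : ℝ := (if a = 1 then (1 / 2 : ℝ) ^ b else 0)
      + (if b = 1 then (1 / 2 : ℝ) ^ a else 0) + 4 * ((3 / 8) ^ a * (3 / 8) ^ b)

theorem gg_nonneg (a b : ℕ) : 0 ≤ gg a b := by
  unfold gg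
  have : (0 : ℝ) ≤ (if a = 1 then (1 / 2 : ℝ) ^ b else 0) := by split_ifs <;> positivity
  have : (0 : ℝ) ≤ (if b = 1 then (1 / 2 : ℝ) ^ a else 0) := by split_ifs <;> positivity
  positivity

theorem two_pow_bound (a b : ℕ) (ha : 1 ≤ a) (hb : 1 ≤ b) :
    (1 / 2 : ℝ) ^ (a * b) ≤ gg a b := by
  unfold gg
  by_cases h1 : a = 1
  · subst h1
    rw [one_mul, if_pos rfl]
    have : (0 : ℝ) ≤ (if b = 1 then (1 / 2 : ℝ) ^ 1 else 0) := by split_ifs <;> norm_num
    have : (0 : ℝ) ≤ 4 * ((3 / 8) ^ 1 * (3 / 8) ^ b) := by positivity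
    linarith
  · by_cases h2 : b = 1
    · subst h2
      rw [mul_one, if_pos rfl, if_neg h1]
      have : (0 : ℝ) ≤ 4 * ((3 / 8) ^ a * (3 / 8) ^ 1) := by positivity
      linarith
    · rw [if_neg h1, if_neg h2, zero_add, zero_add]
      have ha2 : 2 ≤ a := by omega
      have hb2 : 2 ≤ b := by omega
      have h3 : 3 * (a + b) ≤ 2 * (a * b) + 4 := by
        obtain ⟨c, rfl⟩ := Nat.exists_eq_add_of_le ha2
        obtain ⟨d, rfl⟩ := Nat.exists_eq_add_of_le hb2
        nlinarith [Nat.zero_le (c * d)]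
      have h4 : ((1 / 2 : ℝ) ^ (a * b)) ^ 2 ≤ (4 * ((3 / 8) ^ a * (3 / 8) ^ b)) ^ 2 := by
        rw [← pow_add, ← pow_mul]
        have e1 : (1 / 2 : ℝ) ^ (a * b * 2) * (1 / 16) = (1 / 2) ^ (2 * (a * b) + 4) := by
          rw [pow_add, mul_comm (a * b) 2]; norm_num
        have e2 : (1 / 2 : ℝ) ^ (2 * (a * b) + 4) ≤ (1 / 2) ^ (3 * (a + b)) :=
          pow_le_pow_of_le_one (by norm_num) (by norm_num) h3
        have e3 : (1 / 2 : ℝ) ^ (3 * (a + b)) = (1 / 8) ^ (a + b) := by
          rw [pow_mul]; norm_num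
        have e4 : (1 / 8 : ℝ) ^ (a + b) ≤ (9 / 64) ^ (a + b) :=
          pow_le_pow_left₀ (by norm_num) (by norm_num) _
        have e5 : (4 * (3 / 8 : ℝ) ^ (a + b)) ^ 2 = 16 * (9 / 64) ^ (a + b) := by
          rw [mul_pow, ← pow_mul, mul_comm (a + b) 2, pow_mul]; norm_num
        rw [e5]
        linarith
      exact (sq_le_sq₀ (by positivity) (by positivity)).1 h4

section

variable {V : Type} [Fintype V]

theorem sum_pow_powerset (X : Finset V) (t : ℝ) :
    ∑ A ∈ X.powerset, t ^ A.card = (1 + t) ^ X.card := by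
  have := Finset.sum_pow_mul_eq_add_pow t (1 : ℝ) X
  simp only [one_pow, mul_one] at this
  rw [this, add_comm]

theorem inner4 (X Y : Finset V) :
    ∑ A ∈ X.powerset.filter (fun A => A.Nonempty), ∑ B ∈ Y.powerset.filter (fun B => B.Nonempty),
      (1 / 2 : ℝ) ^ (A.card * B.card)
      ≤ X.card * (3 / 2) ^ Y.card + Y.card * (3 / 2) ^ X.card + 4 * (11 / 8) ^ (X.card + Y.card) := by
  have h1 : ∑ A ∈ X.powerset.filter (fun A => A.Nonempty), ∑ B ∈ Y.powerset.filter (fun B => B.Nonempty),
      (1 / 2 : ℝ) ^ (A.card * B.card) ≤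
      ∑ A ∈ X.powerset, ∑ B ∈ Y.powerset, gg A.card B.card := by
    calc _ ≤ ∑ A ∈ X.powerset.filter (fun A => A.Nonempty),
          ∑ B ∈ Y.powerset.filter (fun B => B.Nonempty), gg A.card B.card := by
          apply Finset.sum_le_sum
          intro A hA
          apply Finset.sum_le_sum
          intro B hB
          rw [mem_filter] at hA hB
          exact two_pow_bound _ _ (Finset.card_pos.2 hA.2) (Finset.card_pos.2 hB.2)
      _ ≤ ∑ A ∈ X.powerset.filter (fun A => A.Nonempty), ∑ B ∈ Y.powerset, gg A.card B.card := by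
          apply Finset.sum_le_sum
          intro A _
          exact Finset.sum_le_sum_of_subset_of_nonneg (filter_subset _ _) (fun B _ _ => gg_nonneg _ _)
      _ ≤ _ := Finset.sum_le_sum_of_subset_of_nonneg (filter_subset _ _)
          (fun A _ _ => Finset.sum_nonneg (fun B _ => gg_nonneg _ _))
  refine h1.trans (le_of_eq ?_)
  have ones : ∀ Z : Finset V, ∀ c : ℝ, ∑ A ∈ Z.powerset, (if A.card = 1 then c else 0) = Z.card * c := by
    intro Z c
    rw [← Finset.sum_filter, Finset.sum_const, nsmul_eq_mul]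
    congr 1
    have : Z.powerset.filter (fun A => A.card = 1) = Z.powersetCard 1 := by
      ext A; simp [Finset.mem_powersetCard]
    rw [this, card_powersetCard, Nat.choose_one_right]
  have e1 : ∀ A : Finset V, ∑ B ∈ Y.powerset, gg A.card B.card
      = (if A.card = 1 then (3 / 2 : ℝ) ^ Y.card else 0) + Y.card * (1 / 2) ^ A.card
        + 4 * (11 / 8) ^ Y.card * (3 / 8) ^ A.card := by
    intro A
    unfold gg
    rw [Finset.sum_add_distrib, Finset.sum_add_distrib, ones]
    congr 1
    · congr 1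
      split_ifs
      · rw [sum_pow_powerset]; norm_num
      · simp
    · rw [← Finset.mul_sum, ← Finset.mul_sum, sum_pow_powerset]
      norm_num
      ring
  rw [Finset.sum_congr rfl (fun A _ => e1 A), Finset.sum_add_distrib, Finset.sum_add_distrib, ones,
    ← Finset.mul_sum, ← Finset.mul_sum, sum_pow_powerset, sum_pow_powerset, pow_add]
  norm_num
  ring

theorem sum_univ_real (g : ℕ → ℝ) :
    ∑ M : Finset V, g M.card = ∑ j ∈ range (Fintype.card V + 1), ((Fintype.card V).choose j : ℝ) * g j := by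
  rw [sum_univ_powerset]
  simp only [nsmul_eq_mul]

theorem card_lay4_real : ((lay4 V).card : ℝ) ≤ US (Fintype.card V) (fun j =>
    j * (3 / 2) ^ (Fintype.card V - j) + (Fintype.card V - j : ℕ) * (3 / 2) ^ j
      + 4 * (11 / 8) ^ (Fintype.card V)) := by
  have h0 : ((lay4 V).card : ℝ) ≤ ∑ X : Finset V, ∑ A ∈ X.powerset.filter (fun A => A.Nonempty),
      ∑ B ∈ (univ \ X).powerset.filter (fun B => B.Nonempty),
        (2 : ℝ) ^ (X.card * (univ \ X).card - A.card * B.card) := by
    exact_mod_cast (card_lay4 (V := V))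
  have hc : ∀ X : Finset V, (univ \ X).card = Fintype.card V - X.card := by
    intro X; rw [card_sdiff_of_subset (subset_univ _), card_univ]
  refine h0.trans ?_
  have h1 : ∀ X : Finset V, ∑ A ∈ X.powerset.filter (fun A => A.Nonempty),
      ∑ B ∈ (univ \ X).powerset.filter (fun B => B.Nonempty),
        (2 : ℝ) ^ (X.card * (univ \ X).card - A.card * B.card)
      ≤ 2 ^ (X.card * (Fintype.card V - X.card)) *
        (X.card * (3 / 2) ^ (Fintype.card V - X.card) +
          (Fintype.card V - X.card : ℕ) * (3 / 2) ^ X.card + 4 * (11 / 8) ^ (Fintype.card V)) := by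
    intro X
    have h2 := inner4 X (univ \ X)
    have h3 : X.card + (univ \ X).card = Fintype.card V := by
      rw [hc]; have := card_le_univ X; omega
    rw [h3, hc] at h2
    refine le_trans (le_of_eq ?_) (mul_le_mul_of_nonneg_left h2 (by positivity))
    rw [Finset.mul_sum]
    apply Finset.sum_congr rfl
    intro A hA
    rw [Finset.mul_sum]
    apply Finset.sum_congr rfl
    intro B hB
    rw [mem_filter, mem_powerset] at hA hB
    have h4 : A.card * B.card ≤ X.card * (univ \ X).card :=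
      Nat.mul_le_mul (card_le_card hA.1) (card_le_card hB.1)
    rw [← hc X]
    have h5 : (2 : ℝ) ^ (X.card * (univ \ X).card) =
        2 ^ (X.card * (univ \ X).card - A.card * B.card) * 2 ^ (A.card * B.card) := by
      rw [← pow_add]; congr 1; omega
    rw [h5, mul_assoc, ← mul_pow]
    norm_num
  refine (Finset.sum_le_sum (fun X _ => h1 X)).trans (le_of_eq ?_)
  rw [sum_univ_real (V := V) (fun m => 2 ^ (m * (Fintype.card V - m)) *
        (m * (3 / 2) ^ (Fintype.card V - m) +
          (Fintype.card V - m : ℕ) * (3 / 2) ^ m + 4 * (11 / 8) ^ (Fintype.card V)))]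
  unfold US
  apply Finset.sum_congr rfl
  intro j _
  ring

end

end Pool.Agent.Helper912
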