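import Pool.Agent.Helper912.KRLayer2

set_option autoImplicit false
set_option linter.unusedVariables false
set_option linter.unusedSectionVars false
set_option linter.deprecated false

namespace Pool.Agent.Helper912

open Finset Classical

section

variable {W : Type} [Fintype W]

noncomputable def EO (q : Finset W × Finset W) (c : ℕ) : Finset (Option W × Option W) :=
  (E3 q).image (fun ab => (some ab.1, some ab.2)) ∪
    (if c = 2 then q.1.image (fun a => (some a, none)) else
      if c = 1 then q.2.image (fun a => (some a, none)) else ∅)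

theorem card_EO (q : Finset W × Finset W) (hq : Disjoint q.1 q.2) (c : ℕ) :
    (EO q c).card ≤ q.1.card * (Fintype.card W - q.1.card) +
      (if c = 2 then q.1.card else if c = 1 then q.2.card else 0) := by
  unfold EO
  refine (card_union_le _ _).trans (Nat.add_le_add ?_ ?_)
  · refine card_image_le.trans (le_of_eq (card_E3 q hq))
  · split_ifs
    · exact card_image_le
    · exact card_image_le
    · simp

theorem lay3_opt (S : Finset (Pos (Option W))) (hS : S ⊆ lay3 (Option W))
    (hmax : ∀ P ∈ S, ∀ a, ¬ P.1 none a) :
    (S.card : ℝ) ≤ US (Fintype.card W) (fun j => 2 ^ (Fintype.card W)) +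
      US (Fintype.card W) (fun j => 3 ^ (Fintype.card W - j)) +
      US (Fintype.card W) (fun j => 2 ^ (Fintype.card W - j)) := by
  have hex : ∀ P : Pos (Option W), ∃ l : Option W → ℕ, P ∈ S →
      ((∀ a b, cov P a b → l b = l a + 1) ∧ ∀ a, l a ≤ 2) := by
    intro P
    by_cases hP : P ∈ S
    · have := hS hP
      simp only [lay3, mem_filter, mem_univ, true_and] at this
      obtain ⟨l, hl⟩ := this
      exact ⟨l, fun _ => hl⟩
    · exact ⟨fun _ => 0, fun h => absurd h hP⟩
  choose lf hlf using hex
  let f : Pos (Option W) → (Finset W × Finset W) × ℕ := fun P =>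
    ((univ.filter (fun v => lf P (some v) = 1), univ.filter (fun v => lf P (some v) = 0)), lf P none)
  have hf : ∀ P ∈ S, f P ∈ ML W ×ˢ range 3 := by
    intro P hP
    have h2 := (hlf P hP).2 none
    simp only [ML, f, mem_product, mem_range, mem_filter, mem_univ, true_and]
    refine ⟨?_, by omega⟩
    rw [Finset.disjoint_left]
    intro v h1 h2
    simp only [mem_filter, mem_univ, true_and] at h1 h2
    omega
  have h1 : ∀ qc ∈ ML W ×ˢ range 3, (S.filter (fun P => f P = qc)).card ≤
      2 ^ (qc.1.1.card * (Fintype.card W - qc.1.1.card) +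
      (if qc.2 = 2 then qc.1.1.card else if qc.2 = 1 then qc.1.2.card else 0)) := by
    rintro ⟨q, c⟩ hqc
    simp only [ML, mem_product, mem_range, mem_filter, mem_univ, true_and] at hqc
    refine (cov_count (EO q c) _ ?_).trans (Nat.pow_le_pow_right (by norm_num) (card_EO q hqc.1 c))
    intro P hP a b hab
    rw [mem_filter] at hP
    obtain ⟨hP, hf⟩ := hP
    obtain ⟨h1, h2⟩ := hlf P hP
    have h3 := h1 a b hab
    have h4 := h2 b
    simp only [f, Prod.mk.injEq] at hf
    obtain ⟨hq, hc⟩ := hf
    rcases a with _ | a
    · exact absurd hab.1 (hmax P hP b)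
    · unfold EO
      rw [mem_union]
      rcases b with _ | b
      · right
        have h5 : lf P (some a) = 0 ∨ lf P (some a) = 1 := by omega
        rcases h5 with h5 | h5
        · have hc1 : c = 1 := by omega
          rw [if_neg (by omega), if_pos hc1, ← hq]
          simp [h5]
        · have hc1 : c = 2 := by omega
          rw [if_pos hc1, ← hq]
          simp [h5]
      · left
        rw [mem_image]
        refine ⟨(a, b), ?_, rfl⟩
        rw [← hq]
        simp only [E3, mem_union, mem_product, mem_sdiff, mem_filter, mem_univ, true_and]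
        have : lf P (some a) = 0 ∨ lf P (some a) = 1 := by omega
        rcases this with h5 | h5
        · left; exact ⟨h5, by omega⟩
        · right; exact ⟨h5, by omega⟩
  have h2 : S.card ≤ ∑ qc ∈ ML W ×ˢ range 3, 2 ^ (qc.1.1.card * (Fintype.card W - qc.1.1.card) +
      (if qc.2 = 2 then qc.1.1.card else if qc.2 = 1 then qc.1.2.card else 0)) := by
    rw [Finset.card_eq_sum_card_fiberwise (f := f) (t := ML W ×ˢ range 3) (fun a ha => hf a ha)]
    exact Finset.sum_le_sum h1
  have h3 : (S.card : ℝ) ≤ ∑ q ∈ ML W, ((2 : ℝ) ^ (q.1.card * (Fintype.card W - q.1.card)) +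
      2 ^ (q.1.card * (Fintype.card W - q.1.card)) * 2 ^ q.2.card +
      2 ^ (q.1.card * (Fintype.card W - q.1.card)) * 2 ^ q.1.card) := by
    have h4 : (S.card : ℝ) ≤ ∑ qc ∈ ML W ×ˢ range 3,
        (2 : ℝ) ^ (qc.1.1.card * (Fintype.card W - qc.1.1.card) +
        (if qc.2 = 2 then qc.1.1.card else if qc.2 = 1 then qc.1.2.card else 0)) := by
      exact_mod_cast h2
    refine h4.trans (le_of_eq ?_)
    rw [Finset.sum_product]
    apply Finset.sum_congr rfl
    intro q _
    rw [Finset.sum_range_succ, Finset.sum_range_succ, Finset.sum_range_succ, Finset.sum_range_zero]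
    simp only [pow_add]
    norm_num
  refine h3.trans (le_of_eq ?_)
  rw [sum_ML]
  have h5 : ∀ M : Finset W, ∑ L ∈ (univ \ M).powerset,
      ((2 : ℝ) ^ (M.card * (Fintype.card W - M.card)) +
      2 ^ (M.card * (Fintype.card W - M.card)) * 2 ^ L.card +
      2 ^ (M.card * (Fintype.card W - M.card)) * 2 ^ M.card)
      = 2 ^ (M.card * (Fintype.card W - M.card)) * 2 ^ (Fintype.card W) +
        2 ^ (M.card * (Fintype.card W - M.card)) * 3 ^ (Fintype.card W - M.card) +
        2 ^ (M.card * (Fintype.card W - M.card)) * 2 ^ (Fintype.card W - M.card) := by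
    intro M
    have hc : (univ \ M).card = Fintype.card W - M.card := by
      rw [card_sdiff_of_subset (subset_univ _), card_univ]
    have hM := card_le_univ M
    rw [Finset.sum_add_distrib, Finset.sum_add_distrib, ← Finset.mul_sum, sum_pow_powerset, hc,
      Finset.sum_const, Finset.sum_const, card_powerset, hc, nsmul_eq_mul, nsmul_eq_mul]
    have e1 : (2 : ℝ) ^ (Fintype.card W) = 2 ^ (Fintype.card W - M.card) * 2 ^ M.card := by
      rw [← pow_add]; congr 1; omega
    rw [e1]
    push_cast
    norm_num
    ring
  rw [Finset.sum_congr rfl (fun M _ => h5 M), Finset.sum_add_distrib, Finset.sum_add_distrib]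
  rw [sum_univ_real (V := W) (fun m => 2 ^ (m * (Fintype.card W - m)) * 2 ^ (Fintype.card W)),
    sum_univ_real (V := W) (fun m => 2 ^ (m * (Fintype.card W - m)) * 3 ^ (Fintype.card W - m)),
    sum_univ_real (V := W) (fun m => 2 ^ (m * (Fintype.card W - m)) * 2 ^ (Fintype.card W - m))]
  unfold US
  congr 1
  · congr 1
    · apply Finset.sum_congr rfl; intro j _; ring
    · apply Finset.sum_congr rfl; intro j _; ring
  · apply Finset.sum_congr rfl; intro j _; ring

end

end Pool.Agent.Helper912
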