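import Pool.Agent.Helper912.KRUpper

set_option autoImplicit false
set_option linter.unusedVariables false
set_option linter.unusedSectionVars false
set_option linter.deprecated false

namespace Pool.Agent.Helper912

open Finset Classical

section

variable {V : Type} [Fintype V]

def mkrel (E : Finset (V × V)) (x y : V) : Prop := (x, y) ∈ E ∨ ∃ m, (x, m) ∈ E ∧ (m, y) ∈ E

def Pos.mk' (r : V → V → Prop) (h : IsPos r) : Pos V := ⟨r, h⟩

noncomputable def PE (E : Finset (V × V)) : Pos V :=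
  if h : IsPos (mkrel E) then Pos.mk' _ h else
    Pos.mk' (fun _ _ => False) ⟨fun _ h => h, fun _ _ _ h _ => h⟩

noncomputable def lf (q : Finset V × Finset V) (v : V) : ℕ :=
  if v ∈ q.2 then 0 else if v ∈ q.1 then 1 else 2

theorem mem_E3 {q : Finset V × Finset V} {a b : V} :
    (a, b) ∈ E3 q ↔ (a ∈ q.2 ∧ b ∈ q.1) ∨ (a ∈ q.1 ∧ b ∉ q.1 ∧ b ∉ q.2) := by
  unfold E3
  simp only [mem_union, mem_product, mem_sdiff, mem_univ, true_and, not_or]

theorem lf_E3 {q : Finset V × Finset V} (hq : Disjoint q.1 q.2) {a b : V} (h : (a, b) ∈ E3 q) :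
    lf q b = lf q a + 1 := by
  rw [mem_E3] at h
  rw [Finset.disjoint_left] at hq
  unfold lf
  rcases h with ⟨h1, h2⟩ | ⟨h1, h2, h3⟩
  · rw [if_pos h1, if_neg (hq h2), if_pos h2]
  · rw [if_neg (hq h1), if_pos h1, if_neg h3, if_neg h2]

theorem lf_le (q : Finset V × Finset V) (v : V) : lf q v ≤ 2 := by
  unfold lf; split_ifs <;> omega

theorem lf_rel {q : Finset V × Finset V} (hq : Disjoint q.1 q.2) {E : Finset (V × V)} (hE : E ⊆ E3 q)
    {a b : V} (h : mkrel E a b) : lf q a + 1 ≤ lf q b := by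
  rcases h with h | ⟨m, h1, h2⟩
  · rw [lf_E3 hq (hE h)]
  · rw [lf_E3 hq (hE h2), lf_E3 hq (hE h1)]; omega

theorem PE_rel {q : Finset V × Finset V} (hq : Disjoint q.1 q.2) {E : Finset (V × V)} (hE : E ⊆ E3 q)
    (a b : V) : (PE E).1 a b ↔ mkrel E a b := by
  have h : IsPos (mkrel E) := by
    refine ⟨fun x h => ?_, fun x y z h1 h2 => ?_⟩
    · have := lf_rel hq hE h; omega
    · have g1 := lf_rel hq hE h1
      have g2 := lf_rel hq hE h2
      have g3 := lf_le q z
      rcases h1 with h1 | ⟨m, h1, h1'⟩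
      · rcases h2 with h2 | ⟨m', h2, h2'⟩
        · exact Or.inr ⟨y, h1, h2⟩
        · exfalso
          have k1 := lf_E3 hq (hE h1)
          have k2 := lf_E3 hq (hE h2)
          have k3 := lf_E3 hq (hE h2')
          omega
      · exfalso
        have k1 := lf_E3 hq (hE h1)
        have k2 := lf_E3 hq (hE h1')
        omega
  unfold PE
  rw [dif_pos h]
  rfl

theorem PE_cov {q : Finset V × Finset V} (hq : Disjoint q.1 q.2) {E : Finset (V × V)} (hE : E ⊆ E3 q)
    (a b : V) : cov (PE E) a b ↔ (a, b) ∈ E := by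
  unfold cov
  simp only [PE_rel hq hE]
  constructor
  · rintro ⟨h1 | ⟨m, h1, h2⟩, h3⟩
    · exact h1
    · exact absurd ⟨Or.inl h1, Or.inl h2⟩ (h3 m)
  · intro h
    refine ⟨Or.inl h, fun c hc => ?_⟩
    have g1 := lf_rel hq hE hc.1
    have g2 := lf_rel hq hE hc.2
    have g3 := lf_E3 hq (hE h)
    omega

/-- nondegenerate edge sets -/
noncomputable def ND (q : Finset V × Finset V) : Finset (Finset (V × V)) :=
  (E3 q).powerset.filter (fun E => ∀ v, v ∉ q.2 → ∃ a, (a, v) ∈ E)

theorem ND_inj {q q' : Finset V × Finset V} (hq : Disjoint q.1 q.2) (hq' : Disjoint q'.1 q'.2)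
    {E : Finset (V × V)} (h : E ∈ ND q) (h' : E ∈ ND q') : q = q' := by
  simp only [ND, mem_filter, mem_powerset] at h h'
  have key : ∀ {q : Finset V × Finset V} (hq : Disjoint q.1 q.2)
      (h : E ⊆ E3 q ∧ ∀ v, v ∉ q.2 → ∃ a, (a, v) ∈ E) (v : V),
      (v ∈ q.2 ↔ ∀ a, (a, v) ∉ E) ∧ (v ∈ q.1 ↔ ∃ a, a ∈ q.2 ∧ (a, v) ∈ E) := by
    intro q hq h v
    have hd := Finset.disjoint_left.1 hq
    refine ⟨⟨fun hv a ha => ?_, fun hv => ?_⟩, ⟨fun hv => ?_, ?_⟩⟩
    · have := mem_E3.1 (h.1 ha)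
      rcases this with h1 | h1
      · exact hd h1.2 hv
      · exact h1.2.2 hv
    · by_contra hc
      obtain ⟨a, ha⟩ := h.2 v hc
      exact hv a ha
    · obtain ⟨a, ha⟩ := h.2 v (hd hv)
      refine ⟨a, ?_, ha⟩
      rcases mem_E3.1 (h.1 ha) with h1 | h1
      · exact h1.1
      · exact absurd hv h1.2.1
    · rintro ⟨a, ha, hav⟩
      rcases mem_E3.1 (h.1 hav) with h1 | h1
      · exact h1.2
      · exact absurd ha (hd h1.1)
  have h2 : q.2 = q'.2 := by
    ext v; rw [(key hq h v).1, (key hq' h' v).1]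
  have h1 : q.1 = q'.1 := by
    ext v; rw [(key hq h v).2, (key hq' h' v).2, h2]
  exact Prod.ext h1 h2

/-- counting edge sets avoiding all edges into `v` -/
theorem card_avoid (A D : Finset (V × V)) (hD : D ⊆ A) :
    ((A.powerset.filter (fun E => Disjoint E D)).card : ℝ) = 2 ^ A.card * (1 / 2) ^ D.card := by
  have h1 : A.powerset.filter (fun E => Disjoint E D) = (A \ D).powerset := by
    ext E
    simp only [mem_filter, mem_powerset, Finset.subset_sdiff]
  rw [h1, card_powerset, card_sdiff_of_subset hD]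
  have h2 := card_le_card hD
  push_cast
  have h3 : (2 : ℝ) ^ A.card = 2 ^ (A.card - D.card) * 2 ^ D.card := by
    rw [← pow_add]; congr 1; omega
  rw [h3, one_div, inv_pow]
  field_simp

theorem card_ND {q : Finset V × Finset V} (hq : Disjoint q.1 q.2) :
    (2 : ℝ) ^ (E3 q).card * (1 - q.1.card * (1 / 2) ^ q.2.card
      - (Fintype.card V : ℝ) * (1 / 2) ^ q.1.card) ≤ ((ND q).card : ℝ) := by
  have hd := Finset.disjoint_left.1 hq
  have h1 : (E3 q).powerset ⊆ ND q ∪ (q.1.biUnion (fun v => (E3 q).powerset.filter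
      (fun E => Disjoint E (q.2 ×ˢ {v}))) ∪ (univ \ (q.1 ∪ q.2)).biUnion (fun v =>
        (E3 q).powerset.filter (fun E => Disjoint E (q.1 ×ˢ {v})))) := by
    intro E hE
    by_cases h : E ∈ ND q
    · exact mem_union_left _ h
    · apply mem_union_right
      simp only [ND, mem_filter, not_and, not_forall] at h
      obtain ⟨v, hv, hv'⟩ := h hE
      push Not at hv'
      by_cases hvM : v ∈ q.1
      · apply mem_union_left
        rw [mem_biUnion]
        refine ⟨v, hvM, ?_⟩
        rw [mem_filter]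
        refine ⟨hE, ?_⟩
        rw [Finset.disjoint_left]
        rintro ⟨a, b⟩ h1 h2
        rw [mem_product, mem_singleton] at h2
        obtain ⟨_, rfl⟩ := h2
        exact hv' a h1
      · apply mem_union_right
        rw [mem_biUnion]
        refine ⟨v, by simp [hvM, hv], ?_⟩
        rw [mem_filter]
        refine ⟨hE, ?_⟩
        rw [Finset.disjoint_left]
        rintro ⟨a, b⟩ h1 h2
        rw [mem_product, mem_singleton] at h2
        obtain ⟨_, rfl⟩ := h2
        exact hv' a h1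
  have h2 := (card_le_card h1).trans ((card_union_le _ _).trans (Nat.add_le_add_left
    ((card_union_le _ _).trans (Nat.add_le_add card_biUnion_le card_biUnion_le)) _))
  have h3 : ((E3 q).powerset.card : ℝ) ≤ (ND q).card + (∑ v ∈ q.1, (((E3 q).powerset.filter
      (fun E => Disjoint E (q.2 ×ˢ {v}))).card : ℝ) + ∑ v ∈ univ \ (q.1 ∪ q.2),
        (((E3 q).powerset.filter (fun E => Disjoint E (q.1 ×ˢ {v}))).card : ℝ)) := by
    exact_mod_cast h2
  have h4 : ∀ v ∈ q.1, (((E3 q).powerset.filter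
      (fun E => Disjoint E (q.2 ×ˢ {v}))).card : ℝ) = 2 ^ (E3 q).card * (1 / 2) ^ q.2.card := by
    intro v hv
    rw [card_avoid]
    · rw [card_product, card_singleton, mul_one]
    · rintro ⟨a, b⟩ h
      rw [mem_product, mem_singleton] at h
      obtain ⟨h1, rfl⟩ := h
      exact mem_E3.2 (Or.inl ⟨h1, hv⟩)
  have h5 : ∀ v ∈ univ \ (q.1 ∪ q.2), (((E3 q).powerset.filter
      (fun E => Disjoint E (q.1 ×ˢ {v}))).card : ℝ) = 2 ^ (E3 q).card * (1 / 2) ^ q.1.card := by
    intro v hv
    simp only [mem_sdiff, mem_univ, true_and, mem_union, not_or] at hv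
    rw [card_avoid]
    · rw [card_product, card_singleton, mul_one]
    · rintro ⟨a, b⟩ h
      rw [mem_product, mem_singleton] at h
      obtain ⟨h1, rfl⟩ := h
      exact mem_E3.2 (Or.inr ⟨h1, hv⟩)
  rw [Finset.sum_congr rfl h4, Finset.sum_congr rfl h5, Finset.sum_const, Finset.sum_const,
    nsmul_eq_mul, nsmul_eq_mul, card_powerset] at h3
  have h6 : ((univ \ (q.1 ∪ q.2)).card : ℝ) ≤ Fintype.card V := by
    exact_mod_cast card_le_univ _
  have h7 : (0 : ℝ) ≤ 2 ^ (E3 q).card * (1 / 2) ^ q.1.card := by positivity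
  have h8 := mul_le_mul_of_nonneg_right h6 h7
  push_cast at h3
  nlinarith

/-- posets from nondegenerate structures -/
theorem low_bound (F : Finset (Finset V × Finset V)) (hF : F ⊆ ML V) (S : Finset (Pos V))
    (hS : ∀ q ∈ F, ∀ E ∈ ND q, PE E ∈ S) :
    ∑ q ∈ F, (2 : ℝ) ^ (E3 q).card * (1 - q.1.card * (1 / 2) ^ q.2.card
      - (Fintype.card V : ℝ) * (1 / 2) ^ q.1.card) ≤ (S.card : ℝ) := by
  have hd : ∀ q ∈ F, Disjoint q.1 q.2 := by
    intro q hq
    have := hF hq
    simpa [ML] using this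
  have h1 : ∑ q ∈ F, (ND q).card ≤ S.card := by
    rw [← Finset.card_sigma]
    apply Finset.card_le_card_of_injOn (fun x => PE x.2)
    · rintro ⟨q, E⟩ h
      rw [Finset.mem_coe, mem_sigma] at h
      exact hS q h.1 E h.2
    · rintro ⟨q, E⟩ h ⟨q', E'⟩ h' heq
      rw [Finset.mem_coe, mem_sigma] at h h'
      simp only at h h' heq
      have hE : E ⊆ E3 q := by
        have := h.2; simp only [ND, mem_filter, mem_powerset] at this; exact this.1
      have hE' : E' ⊆ E3 q' := by
        have := h'.2; simp only [ND, mem_filter, mem_powerset] at this; exact this.1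
      have h2 : E = E' := by
        ext ⟨a, b⟩
        rw [← PE_cov (hd q h.1) hE, ← PE_cov (hd q' h'.1) hE', heq]
      subst h2
      have h3 : q = q' := ND_inj (hd q h.1) (hd q' h'.1) h.2 h'.2
      subst h3
      rfl
  have h2 : ∑ q ∈ F, ((ND q).card : ℝ) ≤ (S.card : ℝ) := by exact_mod_cast h1
  exact (Finset.sum_le_sum (fun q hq => card_ND (hd q hq))).trans h2

end

end Pool.Agent.Helper912
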