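import Pool.Agent.Helper912.KRLow

set_option autoImplicit false
set_option linter.unusedVariables false
set_option linter.unusedSectionVars false
set_option linter.deprecated false

namespace Pool.Agent.Helper912

open Finset Classical

section

variable {V : Type} [Fintype V]

/-- summing over the bottom layer -/
theorem sum_bottom (N : ℝ) (M : Finset V) (c : ℝ) :
    ∑ L ∈ (univ \ M).powerset, c * (1 - M.card * (1 / 2) ^ L.card - N * (1 / 2) ^ M.card) =
      c * (2 ^ (Fintype.card V - M.card) - M.card * (3 / 2) ^ (Fintype.card V - M.card)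
        - N * (1 / 2) ^ M.card * 2 ^ (Fintype.card V - M.card)) := by
  have h1 : (univ \ M).card = Fintype.card V - M.card := by
    rw [card_sdiff_of_subset (subset_univ _), card_univ]
  have h2 := sum_pow_powerset (univ \ M) (1 / 2 : ℝ)
  rw [h1, show (1 + 1 / 2 : ℝ) = 3 / 2 by norm_num] at h2
  rw [← Finset.mul_sum, Finset.sum_sub_distrib, Finset.sum_sub_distrib, ← Finset.mul_sum, h2,
    Finset.sum_const, Finset.sum_const, card_powerset, h1]
  simp only [nsmul_eq_mul]
  push_cast
  ring

theorem low1 : (TT (Fintype.card V) : ℝ) - US (Fintype.card V) (fun j =>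
    j * (3 / 2) ^ (Fintype.card V - j) + (Fintype.card V : ℝ) * (1 / 2) ^ j * 2 ^ (Fintype.card V - j))
      ≤ pn (Fintype.card V) := by
  have h := low_bound (ML V) (le_refl _) univ (fun _ _ _ _ => mem_univ _)
  rw [card_univ, card_Pos] at h
  refine le_trans (le_of_eq ?_) h
  have h0 : ∑ q ∈ ML V, (2 : ℝ) ^ (E3 q).card * (1 - q.1.card * (1 / 2) ^ q.2.card
      - (Fintype.card V : ℝ) * (1 / 2) ^ q.1.card) = ∑ q ∈ ML V,
      (2 : ℝ) ^ (q.1.card * (Fintype.card V - q.1.card)) * (1 - q.1.card * (1 / 2) ^ q.2.card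
      - (Fintype.card V : ℝ) * (1 / 2) ^ q.1.card) := by
    apply Finset.sum_congr rfl
    intro q hq
    have : Disjoint q.1 q.2 := by simpa [ML] using hq
    rw [card_E3 q this]
  rw [h0, sum_ML]
  simp only [sum_bottom]
  have h1 := sum_univ_real (V := V) (fun j => (2 : ℝ) ^ (j * (Fintype.card V - j)) *
    (2 ^ (Fintype.card V - j) - j * (3 / 2) ^ (Fintype.card V - j)
        - (Fintype.card V : ℝ) * (1 / 2) ^ j * 2 ^ (Fintype.card V - j)))
  rw [h1, TT_eq]
  unfold US
  rw [← Finset.sum_sub_distrib]
  apply Finset.sum_congr rfl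
  intro j _
  ring

end

section

variable {W : Type} [Fintype W]

noncomputable def MX (W : Type) [Fintype W] : Finset (Pos (Option W)) :=
  univ.filter (fun P => ∀ a, ¬ P.1 none a)

noncomputable def upq (q : Finset W × Finset W) : Finset (Option W) × Finset (Option W) :=
  (q.1.map Function.Embedding.some, q.2.map Function.Embedding.some)

theorem low2 : US (Fintype.card W) (fun j => 2 ^ (Fintype.card W)) - US (Fintype.card W) (fun j =>
    j * 2 ^ j * (3 / 2) ^ (Fintype.card W - j) + ((Fintype.card W : ℝ) + 1) * 2 ^ (Fintype.card W - j))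
      ≤ ((MX W).card : ℝ) := by
  have hinj : Set.InjOn upq (ML W : Set (Finset W × Finset W)) := by
    intro a _ b _ h
    unfold upq at h
    rw [Prod.mk.injEq, Finset.map_inj, Finset.map_inj] at h
    exact Prod.ext h.1 h.2
  have hd : ∀ q ∈ ML W, Disjoint (upq q).1 (upq q).2 := by
    intro q hq
    have : Disjoint q.1 q.2 := by simpa [ML] using hq
    unfold upq
    rwa [Finset.disjoint_map]
  have h := low_bound ((ML W).image upq) ?_ (MX W) ?_
  · rw [Finset.sum_image hinj] at h
    refine le_trans (le_of_eq ?_) h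
    have hc : Fintype.card (Option W) = Fintype.card W + 1 := Fintype.card_option
    have h0 : ∑ q ∈ ML W, (2 : ℝ) ^ (E3 (upq q)).card * (1 - (upq q).1.card * (1 / 2) ^ (upq q).2.card
      - (Fintype.card (Option W) : ℝ) * (1 / 2) ^ (upq q).1.card) = ∑ q ∈ ML W,
      (2 : ℝ) ^ (q.1.card * (Fintype.card W + 1 - q.1.card)) * (1 - q.1.card * (1 / 2) ^ q.2.card
      - ((Fintype.card W : ℝ) + 1) * (1 / 2) ^ q.1.card) := by
      apply Finset.sum_congr rfl
      intro q hq
      rw [card_E3 (upq q) (hd q hq), hc]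
      simp only [upq, card_map]
      push_cast
      rfl
    rw [h0, sum_ML]
    simp only [sum_bottom]
    have h1 := sum_univ_real (V := W) (fun j => (2 : ℝ) ^ (j * (Fintype.card W + 1 - j)) *
      (2 ^ (Fintype.card W - j) - j * (3 / 2) ^ (Fintype.card W - j)
          - ((Fintype.card W : ℝ) + 1) * (1 / 2) ^ j * 2 ^ (Fintype.card W - j)))
    rw [h1]
    unfold US
    rw [← Finset.sum_sub_distrib]
    apply Finset.sum_congr rfl
    intro j hj
    rw [Finset.mem_range] at hj
    have e1 : (2 : ℝ) ^ (j * (Fintype.card W + 1 - j)) = 2 ^ (j * (Fintype.card W - j)) * 2 ^ j := by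
      rw [← pow_add]; congr 1
      rw [show Fintype.card W + 1 - j = (Fintype.card W - j) + 1 by omega]; ring
    have e2 : (2 : ℝ) ^ (Fintype.card W) = 2 ^ j * 2 ^ (Fintype.card W - j) := by
      rw [← pow_add]; congr 1; omega
    have e3 : (2 : ℝ) ^ j * (1 / 2) ^ j = 1 := by rw [← mul_pow]; norm_num
    rw [e1, e2]
    linear_combination (((Fintype.card W).choose j : ℝ) * 2 ^ (j * (Fintype.card W - j)) *
      ((Fintype.card W : ℝ) + 1) * 2 ^ (Fintype.card W - j)) * e3
  · intro q hq
    rw [mem_image] at hq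
    obtain ⟨q', hq', rfl⟩ := hq
    simp only [ML, mem_filter, mem_univ, true_and]
    exact hd q' hq'
  · intro q hq E hE
    rw [mem_image] at hq
    obtain ⟨q', hq', rfl⟩ := hq
    simp only [ND, mem_filter, mem_powerset] at hE
    simp only [MX, mem_filter, mem_univ, true_and]
    intro a ha
    rw [PE_rel (hd q' hq') hE.1] at ha
    have key : ∀ b, ((none : Option W), b) ∉ E := by
      intro b hb
      rcases mem_E3.1 (hE.1 hb) with h1 | h1
      · have := h1.1; simp [upq] at this
      · have := h1.1; simp [upq] at this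
    rcases ha with h1 | ⟨m, h1, h2⟩
    · exact key _ h1
    · exact key _ h1

end

end Pool.Agent.Helper912
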