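import Pool.Agent.Helper912.KRGood

set_option autoImplicit false
set_option linter.unusedVariables false
set_option linter.unusedSectionVars false
set_option linter.deprecated false

namespace Pool.Agent.Helper912

open Finset Classical

section orient

variable {V : Type} [Fintype V]

/-- `a` below `b` at cover distance two -/
def ll (P : Pos V) (a b : V) : Prop := ∃ y, cov P a y ∧ cov P y b

structure Bip (P : Pos V) (X : V → Prop) : Prop where
  bip : ∀ x y, y ∈ gam P x → (X x ↔ ¬ X y)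
  tri : ∀ x x' x'', (X x ↔ X x') → (X x ↔ X x'') →
    ∃ z, z ∈ gam P x ∧ z ∈ gam P x' ∧ z ∈ gam P x''

variable {P : Pos V} {X : V → Prop}

theorem Bip.compl (h : Bip P X) : Bip P (fun v => ¬ X v) := by
  refine ⟨fun x y hy => ?_, fun x x' x'' h1 h2 => h.tri x x' x'' (by tauto) (by tauto)⟩
  have := h.bip x y hy
  tauto

theorem Bip.cov (h : Bip P X) {x y : V} (hy : cov P x y) : X x ↔ ¬ X y :=
  h.bip x y ((mem_gam _ _ _).2 (Or.inl hy))

theorem Bip.ll_side (h : Bip P X) {a b : V} (hab : ll P a b) : X a ↔ X b := by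
  obtain ⟨y, h1, h2⟩ := hab
  have e1 := h.cov h1
  have e2 := h.cov h2
  tauto

theorem ll_lt {a b : V} (hab : ll P a b) : P.1 a b := by
  obtain ⟨y, h1, h2⟩ := hab
  exact P.trans h1.1 h2.1

/-- common neighbours of `a ≪ b` lie between -/
theorem ll_mid {a b z : V} (hab : ll P a b) (h1 : z ∈ gam P a) (h2 : z ∈ gam P b) :
    cov P a z ∧ cov P z b := by
  have hlt := ll_lt hab
  rw [mem_gam] at h1 h2
  rcases h1 with h1 | h1 <;> rcases h2 with h2 | h2
  · exact absurd ⟨hlt, h2.1⟩ (h1.2 b)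
  · exact ⟨h1, h2⟩
  · exact absurd (P.trans (P.trans h1.1 hlt) h2.1) (P.irr z)
  · exact absurd ⟨h1.1, hlt⟩ (h2.2 a)

theorem Bip.T (h : Bip P X) {a b c : V} (hab : ll P a b) (hc : X a ↔ X c) :
    ll P a c ∨ ll P c b := by
  obtain ⟨z, h1, h2, h3⟩ := h.tri a b c (h.ll_side hab) hc
  obtain ⟨m1, m2⟩ := ll_mid hab h1 h2
  rw [mem_gam] at h3
  rcases h3 with h3 | h3
  · right; exact ⟨z, h3, m2⟩
  · left; exact ⟨z, m1, h3⟩

theorem Bip.notboth (h : Bip P X) {a b c : V} (hab : ll P a b) (h1 : ll P a c) (h2 : ll P c b) :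
    False := by
  obtain ⟨z, z1, z2, z3⟩ := h.tri a b c (h.ll_side hab) (h.ll_side h1)
  have m1 := ll_mid h1 z1 z3
  have m2 := ll_mid h2 z3 z2
  exact P.asymm m1.2.1 m2.1.1

/-- case A: no `≪` pair on side `X` -/
theorem layer3 (h : Bip P X) (hno : ∀ a b, X a → ¬ ll P a b) :
    ∃ l : V → ℕ, (∀ a b, Pool.Agent.Helper912.cov P a b → l b = l a + 1) ∧ ∀ a, l a ≤ 2 := by
  refine ⟨fun v => if X v then 1 else if ∃ x, Pool.Agent.Helper912.cov P v x then 0 else 2, ?_, ?_⟩
  · intro a b hab
    have hs := h.cov hab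
    by_cases ha : X a
    · have hb : ¬ X b := hs.1 ha
      have hn : ¬ ∃ x, Pool.Agent.Helper912.cov P b x := by
        rintro ⟨x, hx⟩
        exact hno a x ha ⟨b, hab, hx⟩
      simp only [ha, hb, hn, if_true, if_false]
    · have hb : X b := by tauto
      have hn : ∃ x, Pool.Agent.Helper912.cov P a x := ⟨b, hab⟩
      simp only [ha, hb, hn, if_true, if_false]
  · intro a
    simp only
    split_ifs <;> norm_num

/-- case C1 -/
theorem layer4 (h : Bip P X) {a b c d x0 : V} (hXa : X a) (hab : ll P a b) (hXc : ¬ X c)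
    (hc0 : cov P c x0) (h0d : cov P x0 d) (hx0 : ll P x0 b) :
    ∃ l : V → ℕ, (∀ a b, cov P a b → l b = l a + 1) ∧ (∀ a, l a ≤ 3) ∧ (∃ a, l a = 0) ∧
      (∃ a, l a = 3) := by
  have hcd : ll P c d := ⟨x0, hc0, h0d⟩
  have hXb : X b := (h.ll_side hab).1 hXa
  have hXx0 : X x0 := by have := h.cov hc0; tauto
  have hXd : ¬ X d := by have := h.ll_side hcd; tauto
  -- low / up on X
  have lowup : ∀ x x', X x → X x' → ll P x b → ll P a x' → ll P x x' := by
    intro x x' hx hx' h1 h2
    rcases h.T h2 (by tauto : X a ↔ X x) with h3 | h3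
    · exact (h.notboth hab h3 h1).elim
    · exact h3
  have lowupY : ∀ y y', ¬ X y → ¬ X y' → ll P y d → ll P c y' → ll P y y' := by
    intro y y' hy hy' h1 h2
    rcases h.T h2 (by tauto : X c ↔ X y) with h3 | h3
    · exact (h.notboth hcd h3 h1).elim
    · exact h3
  have dich : ∀ x, X x → ll P x b ∨ ll P a x := by
    intro x hx; exact (h.T hab (by tauto : X a ↔ X x)).symm
  have dichY : ∀ y, ¬ X y → ll P y d ∨ ll P c y := by
    intro y hy; exact (h.T hcd (by tauto : X c ↔ X y)).symm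
  -- an ll pair goes from low to up
  have llX : ∀ x x', X x → ll P x x' → ll P x b ∧ ll P a x' := by
    intro x x' hx hxx
    have hx' : X x' := (h.ll_side hxx).1 hx
    rcases dich x hx with h1 | h1
    · refine ⟨h1, ?_⟩
      rcases dich x' hx' with h2 | h2
      · exact (h.notboth h1 hxx h2).elim
      · exact h2
    · rcases dich x' hx' with h2 | h2
      · have := lowup x' x hx' hx h2 h1
        exact (P.asymm (ll_lt this) (ll_lt hxx)).elim
      · exact (h.notboth h2 h1 hxx).elim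
  have llY : ∀ y y', ¬ X y → ll P y y' → ll P y d ∧ ll P c y' := by
    intro y y' hy hyy
    have hy' : ¬ X y' := by have := h.ll_side hyy; tauto
    rcases dichY y hy with h1 | h1
    · refine ⟨h1, ?_⟩
      rcases dichY y' hy' with h2 | h2
      · exact (h.notboth h1 hyy h2).elim
      · exact h2
    · rcases dichY y' hy' with h2 | h2
      · have := lowupY y' y hy' hy h2 h1
        exact (P.asymm (ll_lt this) (ll_lt hyy)).elim
      · exact (h.notboth h2 h1 hyy).elim
  -- edges low-low go from Y to X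
  have e1 : ∀ x y, X x → ¬ X y → ll P x b → ll P y d → ¬ cov P x y := by
    intro x y hx hy h1 h2 hxy
    -- common neighbour of y, c, d
    obtain ⟨z, z1, z2, z3⟩ := h.tri y c d (by tauto) (by tauto)
    have m1 := ll_mid h2 z1 z3
    have m2 := ll_mid hcd z2 z3
    have hz : ll P x z := ⟨y, hxy, m1.1⟩
    have hz2 := (llX x z hx hz).2
    have hXz : X z := (h.ll_side hz).1 hx
    have h3 := lowup x0 z hXx0 hXz hx0 hz2
    have m3 := ll_mid h3 (z := c) ((mem_gam _ _ _).2 (Or.inr hc0)) ((mem_gam _ _ _).2 (Or.inr m2.1))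
    exact P.asymm m3.1.1 hc0.1
  have e2 : ∀ x y, X x → ¬ X y → ll P x b → ll P c y → ¬ cov P y x := by
    intro x y hx hy h1 h2 hyx
    obtain ⟨x1, k1, k2⟩ := h2
    have hl : ll P x1 x := ⟨y, k2, hyx⟩
    have hX1 : X x1 := by have := h.cov k1; tauto
    have h3 := (llX x1 x hX1 hl)
    exact h.notboth hab h3.2 h1
  have e3 : ∀ x y, X x → ¬ X y → ll P a x → ll P c y → ¬ cov P x y := by
    intro x y hx hy h1 h2 hxy
    obtain ⟨y1, k1, k2⟩ := h1
    have hl : ll P y1 y := ⟨x, k2, hxy⟩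
    have hY1 : ¬ X y1 := by have := h.cov k1; tauto
    have h3 := llY y1 y hY1 hl
    exact e1 a y1 hXa hY1 hab h3.1 k1
  have e4 : ∀ x y, X x → ¬ X y → ll P a x → ll P y d → y ∉ gam P x := by
    intro x y hx hy h1 h2 hyx
    obtain ⟨z, z1, z2, z3⟩ := h.tri y c d (by tauto) (by tauto)
    have m1 := ll_mid h2 z1 z3
    have m2 := ll_mid hcd z2 z3
    have hXz : X z := by have := h.cov m1.1; tauto
    rcases dich z hXz with h3 | h3
    · have h4 := lowup z x hXz hx h3 h1
      have m3 := ll_mid h4 (z := y) ((mem_gam _ _ _).2 (Or.inr m1.1)) hyx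
      exact P.asymm m3.1.1 m1.1.1
    · have h4 := lowup x0 z hXx0 hXz hx0 h3
      have m3 := ll_mid h4 (z := c) ((mem_gam _ _ _).2 (Or.inr hc0)) ((mem_gam _ _ _).2 (Or.inr m2.1))
      exact P.asymm m3.1.1 hc0.1
  have nX : ∀ x, ll P x b → ¬ ll P a x := fun x h1 h2 => h.notboth hab h2 h1
  have nY : ∀ y, ll P y d → ¬ ll P c y := fun y h1 h2 => h.notboth hcd h2 h1
  refine ⟨fun v => if X v then (if ll P v b then 1 else 3) else (if ll P v d then 0 else 2),
    ?_, ?_, ⟨c, ?_⟩, ⟨b, ?_⟩⟩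
  · intro p q hpq
    have hs := h.cov hpq
    by_cases hp : X p
    · have hq : ¬ X q := hs.1 hp
      rcases dich p hp with h1 | h1
      · rcases dichY q hq with h2 | h2
        · exact (e1 p q hp hq h1 h2 hpq).elim
        · have h3 : ¬ ll P q d := fun h' => nY q h' h2
          simp only [hp, hq, h1, h3, if_true, if_false]
      · rcases dichY q hq with h2 | h2
        · exact (e4 p q hp hq h1 h2 ((mem_gam _ _ _).2 (Or.inl hpq))).elim
        · exact (e3 p q hp hq h1 h2 hpq).elim
    · have hq : X q := by tauto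
      rcases dich q hq with h1 | h1
      · rcases dichY p hp with h2 | h2
        · simp only [hp, hq, h1, h2, if_true, if_false]
        · exact (e2 q p hq hp h1 h2 hpq).elim
      · rcases dichY p hp with h2 | h2
        · exact (e4 q p hq hp h1 h2 ((mem_gam _ _ _).2 (Or.inr hpq))).elim
        · have h3 : ¬ ll P q b := fun h' => nX q h' h1
          have h4 : ¬ ll P p d := fun h' => nY p h' h2
          simp only [hp, hq, h3, h4, if_true, if_false]
  · intro v
    simp only
    split_ifs <;> norm_num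
  · simp only [hXc, hcd, if_true, if_false]
  · have h3 : ¬ ll P b b := fun h' => P.irr b (ll_lt h')
    simp only [hXb, h3, if_true, if_false]

theorem orient (h : Bip P X) :
    (∃ l : V → ℕ, (∀ a b, cov P a b → l b = l a + 1) ∧ ∀ a, l a ≤ 2) ∨
    (∃ l : V → ℕ, (∀ a b, cov P a b → l b = l a + 1) ∧ (∀ a, l a ≤ 3) ∧ (∃ a, l a = 0) ∧
      (∃ a, l a = 3)) := by
  by_cases hA : ∀ a b, X a → ¬ ll P a b
  · left; exact layer3 h hA
  by_cases hB : ∀ a b, ¬ X a → ¬ ll P a b
  · left; exact layer3 h.compl hB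
  right
  push Not at hA hB
  obtain ⟨a, b, hXa, hab⟩ := hA
  obtain ⟨c, d, hXc, hcd⟩ := hB
  obtain ⟨x0, hc0, h0d⟩ := hcd
  have hcd : ll P c d := ⟨x0, hc0, h0d⟩
  have hXx0 : X x0 := by have := h.cov hc0; tauto
  rcases h.T hab (by tauto : X a ↔ X x0) with h1 | h1
  · -- x0 is up
    obtain ⟨y0, ha0, h0b⟩ := hab
    have hab : ll P a b := ⟨y0, ha0, h0b⟩
    have hXy0 : ¬ X y0 := by have := h.cov ha0; tauto
    have hy0 : ll P y0 d := by
      rcases h.T hcd (by tauto : X c ↔ X y0) with h2 | h2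
      · exfalso
        obtain ⟨z, z1, z2, z3⟩ := h.tri c d y0 (h.ll_side hcd) (h.ll_side h2)
        have m1 := ll_mid hcd z1 z2
        have m2 := ll_mid h2 z1 z3
        have hXz : X z := by have := h.cov m1.1; tauto
        rcases h.T hab (by tauto : X a ↔ X z) with h3 | h3
        · -- z up : y0 between a and z
          have m3 := ll_mid h3 (z := y0) ((mem_gam _ _ _).2 (Or.inl ha0))
            ((mem_gam _ _ _).2 (Or.inl m2.2))
          exact P.asymm m3.2.1 m2.2.1
        · -- z low, x0 up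
          have h4 : ll P z x0 := by
            rcases h.T h1 (by tauto : X a ↔ X z) with h5 | h5
            · exact (h.notboth hab h5 h3).elim
            · exact h5
          have m3 := ll_mid h4 (z := c) ((mem_gam _ _ _).2 (Or.inr m1.1))
            ((mem_gam _ _ _).2 (Or.inr hc0))
          exact P.asymm m3.1.1 m1.1.1
      · exact h2
    exact layer4 h.compl hXc hcd (by tauto) ha0 h0b hy0
  · exact layer4 h hXa hab hXc hc0 h0d h1

/-- good posets are layered -/
theorem GoodHyp.layered {k e : ℕ} (h : GoodHyp P k e) :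
    (∃ l : V → ℕ, (∀ a b, cov P a b → l b = l a + 1) ∧ ∀ a, l a ≤ 2) ∨
    (∃ l : V → ℕ, (∀ a b, cov P a b → l b = l a + 1) ∧ (∀ a, l a ≤ 3) ∧ (∃ a, l a = 0) ∧
      (∃ a, l a = 3)) := by
  obtain ⟨S, hS⟩ := h.str
  have hne : Nonempty V := by
    rw [← Fintype.card_pos_iff]
    have h1 := h.n_big
    have h2 := h.epos
    omega
  obtain ⟨v0⟩ := hne
  obtain ⟨X, hX1, hX2⟩ := hS.main v0
  exact orient (P := P) (X := fun v => v ∈ X) ⟨fun x y hy => hX1 x y hy,
    fun x x' x'' h1 h2 => hX2 x x' x'' h1 h2⟩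

end orient

end Pool.Agent.Helper912
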