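import Pool.Agent.Helper912.KRBad

set_option autoImplicit false
set_option linter.unusedVariables false
set_option linter.unusedSectionVars false
set_option linter.deprecated false

namespace Pool.Agent.Helper912

open Finset Classical

/-- square root of two -/
noncomputable def s2 : ℝ := Real.sqrt 2

theorem s2_sq : s2 ^ 2 = 2 := Real.sq_sqrt (by norm_num)
theorem s2_pos : 0 < s2 := Real.sqrt_pos.2 (by norm_num)
theorem s2_lt : s2 < 3 / 2 := by
  have h1 := s2_sq
  have h2 := s2_pos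
  nlinarith
theorem lt_s2 : 1.41 < s2 := by
  have h1 := s2_sq
  have h2 := s2_pos
  nlinarith
theorem one_le_s2 : 1 ≤ s2 := by
  have := lt_s2
  linarith

theorem s2_pow_two_mul (a : ℕ) : s2 ^ (2 * a) = 2 ^ a := by
  rw [pow_mul, s2_sq]

theorem s2_amgm (a b : ℕ) : 2 * s2 ^ (a + b) ≤ 2 ^ a + 2 ^ b := by
  have h1 : (0 : ℝ) ≤ (s2 ^ a - s2 ^ b) ^ 2 := sq_nonneg _
  have h2 : (2 : ℝ) ^ a = (s2 ^ a) ^ 2 := by
    rw [← s2_pow_two_mul, ← pow_mul]; congr 1; ring
  have h3 : (2 : ℝ) ^ b = (s2 ^ b) ^ 2 := by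
    rw [← s2_pow_two_mul, ← pow_mul]; congr 1; ring
  rw [h2, h3, pow_add]
  nlinarith

theorem choose_sum_succ (n : ℕ) (g : ℕ → ℝ) :
    ∑ j ∈ range (n + 1 + 1), ((n + 1).choose j : ℝ) * g j =
      ∑ j ∈ range (n + 1), (n.choose j : ℝ) * (g j + g (j + 1)) := by
  rw [Finset.sum_range_succ']
  have h1 : ∀ j, (((n + 1).choose (j + 1) : ℕ) : ℝ) * g (j + 1) =
      (n.choose j : ℝ) * g (j + 1) + (n.choose (j + 1) : ℝ) * g (j + 1) := by
    intro j
    rw [Nat.choose_succ_succ]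
    push_cast; ring
  simp only [h1]
  rw [Finset.sum_add_distrib]
  have h2 : ∑ j ∈ range (n + 1), (n.choose (j + 1) : ℝ) * g (j + 1) + ((n + 1).choose 0 : ℝ) * g 0
      = ∑ j ∈ range (n + 1), (n.choose j : ℝ) * g j := by
    have h3 := Finset.sum_range_succ' (fun j => (n.choose j : ℝ) * g j) (n + 1)
    have h4 := Finset.sum_range_succ (fun j => (n.choose j : ℝ) * g j) (n + 1)
    simp only [Nat.choose_zero_right, Nat.cast_one, one_mul, Nat.choose_succ_self, Nat.cast_zero,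
      zero_mul, add_zero] at h3 h4 ⊢
    linarith
  rw [add_assoc, h2, ← Finset.sum_add_distrib]
  apply Finset.sum_congr rfl
  intro j _; ring

theorem TT_pos (n : ℕ) : 0 < (TT n : ℝ) := by
  have : 0 < TT n := by
    unfold TT
    refine Finset.sum_pos' (fun i _ => Nat.zero_le _) ⟨0, by simp, ?_⟩
    rw [Nat.choose_zero_right]; positivity
  exact_mod_cast this

theorem TT_succ (n : ℕ) : s2 ^ n * (TT n : ℝ) ≤ TT (n + 1) := by
  have h1 : (TT (n + 1) : ℝ) = ∑ j ∈ range (n + 1 + 1), ((n + 1).choose j : ℝ) *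
      2 ^ ((n + 1 - j) + j * (n + 1 - j)) := by
    unfold TT; push_cast; rfl
  rw [h1, choose_sum_succ n (fun j => 2 ^ ((n + 1 - j) + j * (n + 1 - j)))]
  unfold TT
  push_cast
  rw [Finset.mul_sum]
  apply Finset.sum_le_sum
  intro j hj
  rw [Finset.mem_range] at hj
  obtain ⟨i, rfl⟩ : ∃ i, n = j + i := ⟨n - j, by omega⟩
  have e1 : j + i + 1 - j = i + 1 := by omega
  have e2 : j + i + 1 - (j + 1) = i := by omega
  have e3 : j + i - j = i := by omega
  rw [e1, e3]
  have h2 := s2_amgm j i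
  have h3 : (2 : ℝ) ^ (i + 1 + j * (i + 1)) = 2 ^ (i + j * i) * (2 * 2 ^ j) := by
    rw [← pow_succ', ← pow_add]; congr 1; ring
  have h4 : (2 : ℝ) ^ (i + (j + 1) * i) = 2 ^ (i + j * i) * 2 ^ i := by
    rw [← pow_add]; congr 1; ring
  rw [h3, h4]
  have h5 : (0 : ℝ) < 2 ^ j := by positivity
  have h6 : 0 < s2 ^ (j + i) := pow_pos s2_pos _
  have h7 : s2 ^ (j + i) ≤ 2 * 2 ^ j + 2 ^ i := by linarith
  have h8 : (0 : ℝ) ≤ ((j + i).choose j : ℝ) * 2 ^ (i + j * i) := by positivity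
  calc s2 ^ (j + i) * (((j + i).choose j : ℝ) * 2 ^ (i + j * i))
      = (((j + i).choose j : ℝ) * 2 ^ (i + j * i)) * s2 ^ (j + i) := by ring
    _ ≤ (((j + i).choose j : ℝ) * 2 ^ (i + j * i)) * (2 * 2 ^ j + 2 ^ i) :=
        mul_le_mul_of_nonneg_left h7 h8
    _ = _ := by ring

theorem TT_add (m k : ℕ) : s2 ^ (k * m) * (TT m : ℝ) ≤ TT (m + k) := by
  induction k with
  | zero => simp
  | succ k ih =>
    have h1 := TT_succ (m + k)
    have h2 : s2 ^ m ≤ s2 ^ (m + k) := pow_le_pow_right₀ one_le_s2 (by omega)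
    calc s2 ^ ((k + 1) * m) * (TT m : ℝ) = s2 ^ m * (s2 ^ (k * m) * TT m) := by
          rw [← mul_assoc, ← pow_add]; congr 2; ring
      _ ≤ s2 ^ m * TT (m + k) := mul_le_mul_of_nonneg_left ih (pow_nonneg s2_pos.le _)
      _ ≤ s2 ^ (m + k) * TT (m + k) := mul_le_mul_of_nonneg_right h2 (TT_pos _).le
      _ ≤ _ := h1

theorem TT_lower (n : ℕ) : s2 ^ n * US n (fun _ => 1) ≤ (TT n : ℝ) := by
  rw [TT_eq]
  have h1 : US n (fun j => (2 : ℝ) ^ (n - j)) = US n (fun j => 2 ^ j) := by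
    unfold US
    rw [← Finset.sum_range_reflect]
    apply Finset.sum_congr rfl
    intro j hj
    rw [Finset.mem_range] at hj
    have e1 : n + 1 - 1 - j = n - j := by omega
    have e2 : n - (n - j) = j := by omega
    rw [e1, e2, Nat.choose_symm (by omega), mul_comm (n - j) j]
    simp only [e2]
  have h2 : 2 * US n (fun j => (2 : ℝ) ^ (n - j)) = US n (fun j => 2 ^ j + 2 ^ (n - j)) := by
    rw [US_add, ← h1]; ring
  have h3 : US n (fun j => 2 * s2 ^ n * 1) ≤ US n (fun j => 2 ^ j + 2 ^ (n - j)) := by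
    apply US_mono
    intro j hj
    have := s2_amgm j (n - j)
    rw [show j + (n - j) = n by omega] at this
    simpa using this
  rw [US_mul n (2 * s2 ^ n) (fun _ => 1)] at h3
  linarith

theorem US_one_lower (n : ℕ) : (2 : ℝ) ^ ((n / 2) * (n - n / 2)) ≤ US n (fun _ => 1) := by
  unfold US
  have h1 : (n / 2) ∈ range (n + 1) := by rw [Finset.mem_range]; omega
  refine le_trans ?_ (Finset.single_le_sum (f := fun j => (n.choose j : ℝ) * 2 ^ (j * (n - j)) * 1)
    (fun i _ => by positivity) h1)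
  simp only [mul_one]
  have h2 : (1 : ℝ) ≤ n.choose (n / 2) := by
    exact_mod_cast Nat.choose_pos (by omega)
  have h3 : (0 : ℝ) ≤ 2 ^ ((n / 2) * (n - n / 2)) := by positivity
  nlinarith

theorem US_one_pos (n : ℕ) : 0 < US n (fun _ => 1) :=
  lt_of_lt_of_le (by positivity) (US_one_lower n)

/-- main comparison of weighted sums -/
theorem US_mid (n : ℕ) (w : ℕ → ℝ) (B D : ℝ) (hB : 0 ≤ B)
    (h1 : ∀ j, j ≤ n → 2 * n ≤ 5 * j → 5 * j ≤ 3 * n → w j ≤ B)
    (h2 : ∀ j, j ≤ n → w j ≤ D) (hD : 0 ≤ D) :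
    US n w ≤ (B + 2 ^ n * D / 2 ^ (n ^ 2 / 100)) * US n (fun _ => 1) := by
  have key : ∀ j ∈ range (n + 1), (n.choose j : ℝ) * 2 ^ (j * (n - j)) * w j ≤
      B * ((n.choose j : ℝ) * 2 ^ (j * (n - j)) * 1) +
        (n.choose j : ℝ) * (D / 2 ^ (n ^ 2 / 100) * US n (fun _ => 1)) := by
    intro j hj
    rw [Finset.mem_range] at hj
    have hU := US_one_pos n
    by_cases hm : 2 * n ≤ 5 * j ∧ 5 * j ≤ 3 * n
    · have h3 := h1 j (by omega) hm.1 hm.2
      have h4 : (0 : ℝ) ≤ (n.choose j : ℝ) * (D / 2 ^ (n ^ 2 / 100) * US n (fun _ => 1)) := by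
        positivity
      have h5 : (0 : ℝ) ≤ (n.choose j : ℝ) * 2 ^ (j * (n - j)) := by positivity
      nlinarith [mul_le_mul_of_nonneg_left h3 h5]
    · have h3 := h2 j (by omega)
      have h5 : (0 : ℝ) ≤ (n.choose j : ℝ) := by positivity
      have h6 : (2 : ℝ) ^ (j * (n - j)) * 2 ^ (n ^ 2 / 100) ≤ US n (fun _ => 1) := by
        refine le_trans ?_ (US_one_lower n)
        rw [← pow_add]
        apply pow_le_pow_right₀ (by norm_num)
        have e1 : 4 * ((n / 2) * (n - n / 2)) + 1 ≥ n ^ 2 := by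
          rcases Nat.even_or_odd' n with ⟨c, rfl | rfl⟩
          · rw [show 2 * c / 2 = c by omega, show 2 * c - c = c by omega]; nlinarith
          · rw [show (2 * c + 1) / 2 = c by omega, show 2 * c + 1 - c = c + 1 by omega]; nlinarith
        have e2 : 25 * (j * (n - j)) ≤ 6 * n ^ 2 := by
          obtain ⟨i, rfl⟩ : ∃ i, n = j + i := ⟨n - j, by omega⟩
          rw [show j + i - j = i by omega]
          have : 3 * j < 2 * i ∨ 3 * i < 2 * j := by omega
          rcases this with h | h <;> nlinarith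
        have e3 : 100 * (n ^ 2 / 100) ≤ n ^ 2 := Nat.mul_div_le _ _
        omega
      have h7 : (2 : ℝ) ^ (j * (n - j)) ≤ US n (fun _ => 1) / 2 ^ (n ^ 2 / 100) := by
        rw [le_div_iff₀ (by positivity)]; exact h6
      have h8 : (2 : ℝ) ^ (j * (n - j)) * w j ≤ D / 2 ^ (n ^ 2 / 100) * US n (fun _ => 1) := by
        calc (2 : ℝ) ^ (j * (n - j)) * w j ≤ 2 ^ (j * (n - j)) * D :=
              mul_le_mul_of_nonneg_left h3 (by positivity)
          _ ≤ US n (fun _ => 1) / 2 ^ (n ^ 2 / 100) * D := mul_le_mul_of_nonneg_right h7 hD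
          _ = _ := by ring
      have h9 : (0 : ℝ) ≤ B * ((n.choose j : ℝ) * 2 ^ (j * (n - j)) * 1) := by positivity
      calc (n.choose j : ℝ) * 2 ^ (j * (n - j)) * w j = (n.choose j : ℝ) * (2 ^ (j * (n - j)) * w j) := by
            ring
        _ ≤ (n.choose j : ℝ) * (D / 2 ^ (n ^ 2 / 100) * US n (fun _ => 1)) :=
            mul_le_mul_of_nonneg_left h8 h5
        _ ≤ _ := by linarith
  have h3 := Finset.sum_le_sum key
  rw [Finset.sum_add_distrib, ← Finset.mul_sum, ← Finset.sum_mul (range (n + 1))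
    (fun i => (n.choose i : ℝ)) (D / 2 ^ (n ^ 2 / 100) * US n (fun _ => 1))] at h3
  have h4 : ∑ i ∈ range (n + 1), (n.choose i : ℝ) = 2 ^ n := by
    exact_mod_cast Nat.sum_range_choose n
  rw [h4] at h3
  have h5 : US n (fun _ => 1) = ∑ i ∈ range (n + 1), ((n.choose i : ℝ) * 2 ^ (i * (n - i)) * 1) := rfl
  rw [← h5] at h3
  unfold US at h3 ⊢
  refine h3.trans (le_of_eq ?_)
  ring

end Pool.Agent.Helper912
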