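import Pool.Agent.Helper912.KRRec

set_option autoImplicit false
set_option linter.unusedVariables false
set_option linter.unusedSectionVars false
set_option linter.deprecated false

namespace Pool.Agent.Helper912

open Finset Classical Filter Asymptotics Topology

/-- exponentially small sequences -/
def Sm (f : ℕ → ℝ) : Prop := ∃ ρ : ℝ, 0 < ρ ∧ ρ < 1 ∧ f =O[atTop] (fun n : ℕ => ρ ^ n)

theorem Sm.of_le {f g : ℕ → ℝ} (hg : Sm g) (h : ∀ᶠ n in atTop, |f n| ≤ g n) : Sm f := by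
  obtain ⟨ρ, h0, h1, h2⟩ := hg
  refine ⟨ρ, h0, h1, IsBigO.trans ?_ h2⟩
  apply IsBigO.of_bound 1
  filter_upwards [h] with n hn
  rw [one_mul, Real.norm_eq_abs, Real.norm_eq_abs]
  exact hn.trans (le_abs_self _)

theorem Sm.add {f g : ℕ → ℝ} (hf : Sm f) (hg : Sm g) : Sm (fun n => f n + g n) := by
  obtain ⟨r1, h0, h1, h2⟩ := hf
  obtain ⟨r2, k0, k1, k2⟩ := hg
  refine ⟨max r1 r2, lt_max_of_lt_left h0, max_lt h1 k1, IsBigO.add (h2.trans ?_) (k2.trans ?_)⟩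
  · apply IsBigO.of_bound 1
    filter_upwards with n
    rw [one_mul, Real.norm_eq_abs, Real.norm_eq_abs, abs_of_nonneg (by positivity),
      abs_of_nonneg (by positivity)]
    exact pow_le_pow_left₀ h0.le (le_max_left _ _) n
  · apply IsBigO.of_bound 1
    filter_upwards with n
    rw [one_mul, Real.norm_eq_abs, Real.norm_eq_abs, abs_of_nonneg (by positivity),
      abs_of_nonneg (by positivity)]
    exact pow_le_pow_left₀ k0.le (le_max_right _ _) n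

theorem Sm.const_mul {f : ℕ → ℝ} (hf : Sm f) (c : ℝ) : Sm (fun n => c * f n) := by
  obtain ⟨r1, h0, h1, h2⟩ := hf
  exact ⟨r1, h0, h1, h2.const_mul_left c⟩

theorem Sm.pow_mul {f : ℕ → ℝ} (hf : Sm f) (a : ℕ) : Sm (fun n => (n : ℝ) ^ a * f n) := by
  obtain ⟨r1, h0, h1, h2⟩ := hf
  have hr : 1 < Real.sqrt (1 / r1) := by
    rw [Real.lt_sqrt (by norm_num), one_pow, lt_div_iff₀ h0]; linarith
  have h3 := (isLittleO_pow_const_const_pow_of_one_lt (R := ℝ) a hr).isBigO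
  have h5 : (fun n : ℕ => Real.sqrt (1 / r1) ^ n * r1 ^ n) = fun n => Real.sqrt r1 ^ n := by
    funext n
    rw [← mul_pow]
    have : Real.sqrt (1 / r1) * r1 = Real.sqrt r1 := by
      rw [Real.sqrt_div (by norm_num), Real.sqrt_one, div_mul_eq_mul_div, one_mul]
      exact Real.div_sqrt
    rw [this]
  have h4 := h3.mul h2
  rw [h5] at h4
  refine ⟨Real.sqrt r1, Real.sqrt_pos.2 h0, ?_, h4⟩
  rw [Real.sqrt_lt' (by norm_num)]; linarith

theorem Sm.nat_mul {f : ℕ → ℝ} (hf : Sm f) : Sm (fun n => (n : ℝ) * f n) := by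
  simpa using hf.pow_mul 1

theorem Sm_geom {r : ℝ} (h0 : 0 ≤ r) (h1 : r < 1) : Sm (fun n => r ^ n) := by
  refine ⟨max r (1 / 2), lt_max_of_lt_right (by norm_num), max_lt h1 (by norm_num), ?_⟩
  apply IsBigO.of_bound 1
  filter_upwards with n
  rw [one_mul, Real.norm_eq_abs, Real.norm_eq_abs, abs_of_nonneg (by positivity),
    abs_of_nonneg (by positivity)]
  exact pow_le_pow_left₀ h0 (le_max_left _ _) n

theorem Sm.shift {f : ℕ → ℝ} (hf : Sm f) : Sm (fun n => f (n + 1)) := by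
  obtain ⟨r, h0, h1, h2⟩ := hf
  refine ⟨r, h0, h1, ?_⟩
  have h3 : (fun n => f (n + 1)) =O[atTop] (fun n : ℕ => r ^ (n + 1)) :=
    h2.comp_tendsto (tendsto_add_atTop_nat 1)
  refine h3.trans ?_
  apply IsBigO.of_bound 1
  filter_upwards with n
  rw [one_mul, Real.norm_eq_abs, Real.norm_eq_abs, abs_of_nonneg (by positivity),
    abs_of_nonneg (by positivity)]
  exact pow_le_pow_of_le_one h0.le h1.le (by omega)

theorem Sm.tendsto {f : ℕ → ℝ} (hf : Sm f) : Tendsto f atTop (𝓝 0) := by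
  obtain ⟨r, h0, h1, h2⟩ := hf
  exact h2.trans_tendsto (tendsto_pow_atTop_nhds_zero_of_lt_one h0.le h1)

theorem Sm_floor {q : ℝ} (h0 : 0 < q) (h1 : q < 1) (c : ℕ) (hc : 0 < c) :
    Sm (fun n => q ^ (n / c)) := by
  have hρ0 : 0 < q ^ ((c : ℝ)⁻¹) := Real.rpow_pos_of_pos h0 _
  have hρc : (q ^ ((c : ℝ)⁻¹)) ^ c = q := Real.rpow_inv_natCast_pow h0.le (by omega)
  have hρ1 : q ^ ((c : ℝ)⁻¹) < 1 := by
    by_contra h
    push Not at h
    have := one_le_pow₀ h (n := c)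
    linarith
  refine ((Sm_geom hρ0.le hρ1).const_mul (1 / q)).of_le ?_
  filter_upwards with n
  rw [abs_of_nonneg (by positivity)]
  have h2 : q ^ (n / c) * q = (q ^ ((c : ℝ)⁻¹)) ^ (c * (n / c) + c) := by
    rw [pow_add, pow_mul, hρc]
  have h3 : (q ^ ((c : ℝ)⁻¹)) ^ (c * (n / c) + c) ≤ (q ^ ((c : ℝ)⁻¹)) ^ n := by
    apply pow_le_pow_of_le_one hρ0.le hρ1.le
    have := Nat.div_add_mod n c
    have := Nat.mod_lt n hc
    omega
  rw [← h2] at h3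
  rw [one_div, inv_mul_eq_div, le_div_iff₀ h0]
  exact h3

theorem Sm_super (c : ℝ) (hc : 0 ≤ c) : Sm (fun n => c ^ n / 2 ^ (n ^ 2 / 100)) := by
  obtain ⟨m, hm⟩ : ∃ m : ℕ, 2 * c < 2 ^ m := pow_unbounded_of_one_lt _ (by norm_num)
  refine (Sm_geom (r := 1 / 2) (by norm_num) (by norm_num)).of_le ?_
  filter_upwards [eventually_ge_atTop (100 * m)] with n hn
  rw [abs_of_nonneg (by positivity), div_le_iff₀ (by positivity)]
  have h1 : m * n ≤ n ^ 2 / 100 := by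
    rw [Nat.le_div_iff_mul_le (by norm_num)]
    nlinarith
  calc c ^ n ≤ ((1 / 2) * 2 ^ m) ^ n := pow_le_pow_left₀ hc (by linarith) n
    _ = (1 / 2) ^ n * 2 ^ (m * n) := by rw [mul_pow, pow_mul]
    _ ≤ (1 / 2) ^ n * 2 ^ (n ^ 2 / 100) := by
        apply mul_le_mul_of_nonneg_left _ (by positivity)
        exact pow_le_pow_right₀ (by norm_num) h1

/-- comparison of powers in the middle range -/
theorem mid_pow (a β : ℝ) (ha : 1 ≤ a) (hβ : 0 ≤ β) (h : a ^ 3 ≤ β ^ 5) (i n : ℕ)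
    (hi : 5 * i ≤ 3 * n) : a ^ i ≤ β ^ n := by
  have h1 : (a ^ i) ^ 5 ≤ (β ^ n) ^ 5 := by
    calc (a ^ i) ^ 5 = a ^ (5 * i) := by rw [← pow_mul]; congr 1; ring
      _ ≤ a ^ (3 * n) := pow_le_pow_right₀ ha hi
      _ = (a ^ 3) ^ n := by rw [pow_mul]
      _ ≤ (β ^ 5) ^ n := pow_le_pow_left₀ (by positivity) h n
      _ = (β ^ n) ^ 5 := by rw [← pow_mul, ← pow_mul]; congr 1; ring
  exact le_of_pow_le_pow_left₀ (by norm_num) (by positivity) h1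

theorem US_small (w : ℕ → ℕ → ℝ) (σ β c C : ℝ) (a : ℕ) (hσ : 1 ≤ σ) (hβ0 : 0 ≤ β) (hβ : β < σ)
    (hc : 0 ≤ c) (hC : 0 ≤ C)
    (h1 : ∀ n j, 1 ≤ n → j ≤ n → 2 * n ≤ 5 * j → 5 * j ≤ 3 * n → w n j ≤ C * ((n : ℝ) ^ a * β ^ n))
    (h2 : ∀ n j, 1 ≤ n → j ≤ n → w n j ≤ C * ((n : ℝ) ^ a * c ^ n)) :
    ∃ η : ℕ → ℝ, Sm η ∧ (∀ n, 0 ≤ η n) ∧ ∀ n, 1 ≤ n →
      US n (w n) ≤ η n * (σ ^ n * US n (fun _ => 1)) := by
  have hσ0 : 0 < σ := by linarith
  refine ⟨fun n => C * ((n : ℝ) ^ a * (β / σ) ^ n) + C * ((n : ℝ) ^ a * ((2 * c) ^ n / 2 ^ (n ^ 2 / 100))),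
    ?_, ?_, ?_⟩
  · apply Sm.add
    · exact ((Sm_geom (by positivity) ((div_lt_one hσ0).2 hβ)).pow_mul a).const_mul C
    · exact ((Sm_super (2 * c) (by positivity)).pow_mul a).const_mul C
  · intro n; positivity
  · intro n hn
    have h3 := US_mid n (w n) (C * ((n : ℝ) ^ a * β ^ n)) (C * ((n : ℝ) ^ a * c ^ n)) (by positivity)
      (fun j => h1 n j hn) (fun j => h2 n j hn) (by positivity)
    refine h3.trans ?_
    show _ ≤ (C * ((n : ℝ) ^ a * (β / σ) ^ n) + C * ((n : ℝ) ^ a * ((2 * c) ^ n / 2 ^ (n ^ 2 / 100))))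
      * (σ ^ n * US n (fun _ => 1))
    rw [← mul_assoc (C * ((n : ℝ) ^ a * (β / σ) ^ n) + C * ((n : ℝ) ^ a * ((2 * c) ^ n / 2 ^ (n ^ 2 / 100))))]
    apply mul_le_mul_of_nonneg_right _ (US_one_pos n).le
    have h4 : C * ((n : ℝ) ^ a * (β / σ) ^ n) * σ ^ n = C * ((n : ℝ) ^ a * β ^ n) := by
      rw [div_pow]; field_simp
    have h5 : (1 : ℝ) ≤ σ ^ n := one_le_pow₀ hσ
    have h6 : 2 ^ n * (C * ((n : ℝ) ^ a * c ^ n)) / 2 ^ (n ^ 2 / 100) =
        C * ((n : ℝ) ^ a * ((2 * c) ^ n / 2 ^ (n ^ 2 / 100))) := by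
      rw [mul_pow]; ring
    rw [h6, add_mul, h4]
    have h7 : 0 ≤ C * ((n : ℝ) ^ a * ((2 * c) ^ n / 2 ^ (n ^ 2 / 100))) := by positivity
    nlinarith

end Pool.Agent.Helper912
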