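import Pool.Agent.Helper912.KRAsym

set_option autoImplicit false
set_option linter.unusedVariables false
set_option linter.unusedSectionVars false
set_option linter.deprecated false

namespace Pool.Agent.Helper912

open Finset Classical Filter Asymptotics Topology

/-- binomial coefficient indexed from `N` by an integer -/
noncomputable def cc (n N : ℕ) (t : ℤ) : ℝ :=
  if 0 ≤ t + N then (n.choose (t + N).toNat : ℝ) else 0

theorem cc_nonneg (n N : ℕ) (t : ℤ) : 0 ≤ cc n N t := by
  unfold cc; split_ifs <;> positivity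

theorem sum_to_tsum (n N : ℕ) (h : ℤ → ℝ) :
    ∑ j ∈ range (n + 1), (n.choose j : ℝ) * h ((j : ℤ) - N) = ∑' t : ℤ, cc n N t * h t := by
  let g : ℤ → ℝ := fun i => (if 0 ≤ i then (n.choose i.toNat : ℝ) else 0) * h (i - N)
  have h1 : ∑' t : ℤ, cc n N t * h t = ∑' t : ℤ, g (t + N) := by
    congr 1
    funext t
    simp only [g, cc]
    rw [show t + (N : ℤ) - N = t by ring]
  have h2 : ∑' t : ℤ, g (t + N) = ∑' t : ℤ, g t := Equiv.tsum_eq (Equiv.addRight (N : ℤ)) g
  have h3 : ∑' t : ℕ, g (t : ℤ) = ∑' t : ℤ, g t := by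
    apply Function.Injective.tsum_eq Nat.cast_injective
    intro i hi
    rw [Function.mem_support] at hi
    have h0 : 0 ≤ i := by
      by_contra hc
      apply hi
      simp only [g]
      rw [if_neg hc, zero_mul]
    exact ⟨i.toNat, Int.toNat_of_nonneg h0⟩
  rw [h1, h2, ← h3]
  symm
  have h4 : ∀ j : ℕ, g (j : ℤ) = (n.choose j : ℝ) * h ((j : ℤ) - N) := by
    intro j
    simp only [g]
    rw [if_pos (Int.natCast_nonneg j), Int.toNat_natCast]
  rw [tsum_eq_sum (s := range (n + 1))]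
  · exact Finset.sum_congr rfl (fun j _ => h4 j)
  · intro j hj
    rw [h4, Nat.choose_eq_zero_of_lt (by simpa using hj)]
    simp

theorem tendsto_ratio (a b : ℝ) :
    Tendsto (fun N : ℕ => ((N : ℝ) + a) / ((N : ℝ) + b)) atTop (𝓝 1) := by
  have h1 : Tendsto (fun N : ℕ => (N : ℝ) + b) atTop atTop :=
    tendsto_atTop_add_const_right _ _ tendsto_natCast_atTop_atTop
  have h2 : Tendsto (fun N : ℕ => 1 + (a - b) / ((N : ℝ) + b)) atTop (𝓝 (1 + 0)) :=
    tendsto_const_nhds.add (h1.const_div_atTop _)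
  rw [add_zero] at h2
  refine h2.congr' ?_
  filter_upwards [h1.eventually (eventually_gt_atTop 0)] with N hN
  field_simp
  ring

theorem cc_step (ε N : ℕ) (t : ℤ) (h1 : 0 ≤ t + N) (h2 : 0 ≤ (N : ℤ) + ε - t) :
    cc (2 * N + ε) N (t + 1) * ((N : ℝ) + (t + 1)) = cc (2 * N + ε) N t * ((N : ℝ) + (ε - t)) := by
  unfold cc
  rw [if_pos h1, if_pos (by omega)]
  obtain ⟨k, hk⟩ := Int.eq_ofNat_of_zero_le h1
  have e1 : (t + N).toNat = k := by omega
  have e2 : (t + 1 + N).toNat = k + 1 := by omega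
  rw [e1, e2]
  have h3 := Nat.choose_succ_right_eq (2 * N + ε) k
  have h4 : k ≤ 2 * N + ε := by omega
  have h5 : (((2 * N + ε).choose (k + 1) * (k + 1) : ℕ) : ℝ) =
      (((2 * N + ε).choose k * (2 * N + ε - k) : ℕ) : ℝ) := by rw [h3]
  push_cast [Nat.cast_sub h4] at h5
  have h6 : (k : ℝ) = t + N := by
    have : ((k : ℤ) : ℝ) = ((t + N : ℤ) : ℝ) := by rw [hk]
    push_cast at this
    exact this
  rw [h6] at h5
  linear_combination h5

theorem cc_lim (ε : ℕ) (t : ℤ) :
    Tendsto (fun N : ℕ => cc (2 * N + ε) N t / ((2 * N + ε).choose N : ℝ)) atTop (𝓝 1) := by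
  induction t using Int.induction_on with
  | zero =>
    refine tendsto_const_nhds.congr' ?_
    filter_upwards with N
    unfold cc
    rw [if_pos (by omega), show ((0 : ℤ) + N).toNat = N by omega]
    have : (0 : ℝ) < ((2 * N + ε).choose N : ℝ) := by
      exact_mod_cast Nat.choose_pos (by omega)
    rw [div_self this.ne']
  | succ i ih =>
    have h := ih.mul (tendsto_ratio (ε - (i : ℤ)) ((i : ℤ) + 1))
    rw [one_mul] at h
    refine h.congr' ?_
    filter_upwards [eventually_ge_atTop (i + 1)] with N hN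
    have h1 := cc_step ε N i (by omega) (by omega)
    have h2 : (0 : ℝ) < ((2 * N + ε).choose N : ℝ) := by
      exact_mod_cast Nat.choose_pos (by omega)
    have h3 : (0 : ℝ) < (N : ℝ) + (((i : ℤ) : ℝ) + 1) := by positivity
    rw [div_mul_div_comm, div_eq_div_iff (by positivity) (by positivity)]
    linear_combination (-((2 * N + ε).choose N : ℝ)) * h1
  | pred i ih =>
    have h := ih.mul (tendsto_ratio ((-(i : ℤ) - 1 : ℤ) + 1) (ε - (-(i : ℤ) - 1 : ℤ)))
    rw [one_mul] at h
    refine h.congr' ?_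
    filter_upwards [eventually_ge_atTop (i + 1)] with N hN
    have h1 := cc_step ε N (-(i : ℤ) - 1) (by omega) (by omega)
    rw [show (-(i : ℤ) - 1 + 1) = -(i : ℤ) by ring] at h1
    have h2 : (0 : ℝ) < ((2 * N + ε).choose N : ℝ) := by
      exact_mod_cast Nat.choose_pos (by omega)
    have h3 : (0 : ℝ) < (N : ℝ) + ((ε : ℝ) - ((-(i : ℤ) - 1 : ℤ) : ℝ)) := by
      push_cast
      have : (0 : ℝ) ≤ i := by positivity
      have : (0 : ℝ) ≤ N := by positivity
      have : (0 : ℝ) ≤ ε := by positivity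
      linarith
    rw [div_mul_div_comm, div_eq_div_iff (by positivity) (by positivity)]
    linear_combination ((2 * N + ε).choose N : ℝ) * h1

theorem cc_le (ε N : ℕ) (hε : ε ≤ 1) (t : ℤ) :
    cc (2 * N + ε) N t / ((2 * N + ε).choose N : ℝ) ≤ 1 := by
  have h2 : (0 : ℝ) < ((2 * N + ε).choose N : ℝ) := by
    exact_mod_cast Nat.choose_pos (by omega)
  rw [div_le_one h2]
  unfold cc
  split_ifs
  · have h := Nat.choose_le_middle (t + N).toNat (2 * N + ε)
    rw [show (2 * N + ε) / 2 = N by omega] at h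
    exact_mod_cast h
  · exact h2.le

theorem sum_lim (ε : ℕ) (hε : ε ≤ 1) (h : ℤ → ℝ) (h0 : ∀ t, 0 ≤ h t) (hs : Summable h) :
    Tendsto (fun N : ℕ => (∑ j ∈ range (2 * N + ε + 1), ((2 * N + ε).choose j : ℝ) *
      h ((j : ℤ) - N)) / ((2 * N + ε).choose N : ℝ)) atTop (𝓝 (∑' t, h t)) := by
  have h1 : (fun N : ℕ => (∑ j ∈ range (2 * N + ε + 1), ((2 * N + ε).choose j : ℝ) *
      h ((j : ℤ) - N)) / ((2 * N + ε).choose N : ℝ)) =
      fun N : ℕ => ∑' t : ℤ, (cc (2 * N + ε) N t / ((2 * N + ε).choose N : ℝ)) * h t := by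
    funext N
    rw [sum_to_tsum, ← tsum_div_const]
    congr 1
    funext t
    ring
  rw [h1]
  apply tendsto_tsum_of_dominated_convergence (bound := h) hs
  · intro t
    simpa using (cc_lim ε t).mul_const (h t)
  · filter_upwards with N t
    have h2 : (0 : ℝ) < ((2 * N + ε).choose N : ℝ) := by
      exact_mod_cast Nat.choose_pos (by omega)
    have h3 := cc_le ε N hε t
    have h4 : 0 ≤ cc (2 * N + ε) N t / ((2 * N + ε).choose N : ℝ) :=
      div_nonneg (cc_nonneg _ _ _) h2.le
    rw [Real.norm_eq_abs, abs_of_nonneg (mul_nonneg h4 (h0 t))]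
    nlinarith [h0 t]

end Pool.Agent.Helper912
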