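import Pool.Agent.Helper912.KRTheta

set_option autoImplicit false
set_option linter.unusedVariables false
set_option linter.unusedSectionVars false
set_option linter.deprecated false

namespace Pool.Agent.Helper912

open Finset Classical Filter Asymptotics Topology

noncomputable def hA (t : ℤ) : ℝ := (2 : ℝ) ^ (-(t * t))
noncomputable def hB (t : ℤ) : ℝ := (2 : ℝ) ^ (-(t * t) - t)

theorem hA_pos (t : ℤ) : 0 < hA t := by unfold hA; positivity
theorem hB_pos (t : ℤ) : 0 < hB t := by unfold hB; positivity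

theorem two_zpow_le {a b : ℤ} (h : a ≤ b) : (2 : ℝ) ^ a ≤ 2 ^ b :=
  zpow_le_zpow_right₀ (by norm_num) h

theorem half_pow_eq (n : ℕ) : (1 / 2 : ℝ) ^ n = 2 ^ (-(n : ℤ)) := by
  rw [zpow_neg, zpow_natCast, one_div, inv_pow]

theorem sum_geom_half : Summable (fun n : ℕ => (1 / 2 : ℝ) ^ n) :=
  summable_geometric_of_lt_one (by norm_num) (by norm_num)

theorem hA_summable : Summable hA := by
  have h1 : ∀ n : ℕ, hA n ≤ (1 / 2 : ℝ) ^ n := by
    intro n
    unfold hA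
    rw [half_pow_eq]
    apply two_zpow_le
    have : (n : ℤ) ≤ n * n := by
      have : n ≤ n * n := Nat.le_mul_self n
      exact_mod_cast this
    linarith
  have h2 : ∀ n : ℕ, hA (-(n : ℤ)) = hA n := by
    intro n; unfold hA; congr 1; ring
  apply Summable.of_nat_of_neg
  · exact Summable.of_nonneg_of_le (fun n => (hA_pos _).le) h1 sum_geom_half
  · simp only [h2]
    exact Summable.of_nonneg_of_le (fun n => (hA_pos _).le) h1 sum_geom_half

theorem hB_summable : Summable hB := by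
  have h1 : ∀ n : ℕ, hB n ≤ (1 / 2 : ℝ) ^ n := by
    intro n
    unfold hB
    rw [half_pow_eq]
    apply two_zpow_le
    have : (0 : ℤ) ≤ n * n := by positivity
    linarith
  have h2 : ∀ n : ℕ, hB (-(n : ℤ)) ≤ 2 * (1 / 2 : ℝ) ^ n := by
    intro n
    unfold hB
    rw [half_pow_eq]
    have h3 : (2 : ℝ) * 2 ^ (-(n : ℤ)) = 2 ^ (-(n : ℤ) + 1) := by
      rw [zpow_add₀ (by norm_num), zpow_one, mul_comm]
    rw [h3]
    apply two_zpow_le
    nlinarith [sq_nonneg ((n : ℤ) - 1)]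
  apply Summable.of_nat_of_neg
  · exact Summable.of_nonneg_of_le (fun n => (hB_pos _).le) h1 sum_geom_half
  · exact Summable.of_nonneg_of_le (fun n => (hB_pos _).le) h2 (sum_geom_half.mul_left 2)

noncomputable def thA : ℝ := ∑' t, hA t
noncomputable def thB : ℝ := ∑' t, hB t

/-- reflected version of `hB` -/
theorem thB_neg : ∑' t : ℤ, hB (-t) = thB := by
  unfold thB
  exact (Equiv.neg ℤ).tsum_eq hB

theorem hBneg_summable : Summable (fun t : ℤ => hB (-t)) :=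
  (Equiv.neg ℤ).summable_iff.2 hB_summable

theorem thA_lower : 1 + 2 * (1 / 2 + 1 / 16 + 1 / 512 + 1 / 65536 : ℝ) ≤ thA := by
  have h := hA_summable.sum_le_tsum (Finset.Icc (-4 : ℤ) 4) (fun t _ => (hA_pos t).le)
  refine le_trans (le_of_eq ?_) h
  have : Finset.Icc (-4 : ℤ) 4 = {-4, -3, -2, -1, 0, 1, 2, 3, 4} := by decide
  rw [this]
  unfold hA
  norm_num

theorem hB_tail (n : ℕ) : hB ((n : ℤ) + 5) ≤ (1 / 2 : ℝ) ^ 30 * (1 / 2) ^ n := by
  have h0 : (0 : ℤ) ≤ n := Int.natCast_nonneg n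
  have h1 : -(((n : ℤ) + 5) * (n + 5)) - (n + 5) ≤ -((30 + n : ℕ) : ℤ) := by
    push_cast
    nlinarith
  rw [← pow_add, half_pow_eq]
  exact two_zpow_le h1

theorem hB_head : ∑ n ∈ range 5, hB (n : ℤ) = 1 + 1 / 4 + 1 / 64 + 1 / 4096 + 1 / 1048576 := by
  simp only [Finset.sum_range_succ, Finset.sum_range_zero, hB]
  norm_num

theorem thB_upper : thB ≤ 2 * (1 + 1 / 4 + 1 / 64 + 1 / 4096 + 1 / 1048576 + 1 / 536870912 : ℝ) := by
  -- fold
  have h1 : Summable (fun n : ℕ => hB (n : ℤ)) :=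
    hB_summable.comp_injective Nat.cast_injective
  have h2 : Summable (fun n : ℕ => hB (-((n : ℤ) + 1))) := by
    have : Function.Injective (fun n : ℕ => -((n : ℤ) + 1)) := by
      intro a b h; simp only at h; omega
    exact hB_summable.comp_injective this
  have h3 : thB = ∑' n : ℕ, hB (n : ℤ) + ∑' n : ℕ, hB (-((n : ℤ) + 1)) := by
    unfold thB
    exact tsum_of_nat_of_neg_add_one h1 h2
  have h4 : ∀ n : ℕ, hB (-((n : ℤ) + 1)) = hB (n : ℤ) := by
    intro n; unfold hB; congr 1; ring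
  simp only [h4] at h3
  have h5 : ∑' n : ℕ, hB (n : ℤ) = ∑ n ∈ range 5, hB (n : ℤ) + ∑' n : ℕ, hB ((n : ℤ) + 5) := by
    have h := (h1.sum_add_tsum_nat_add 5).symm
    simpa only [Nat.cast_add, Nat.cast_ofNat] using h
  have h9 : Summable (fun n : ℕ => hB ((n : ℤ) + 5)) := by
    have h := (summable_nat_add_iff 5).2 h1
    simpa only [Nat.cast_add, Nat.cast_ofNat] using h
  have h6 : ∑' n : ℕ, hB ((n : ℤ) + 5) ≤ ∑' n : ℕ, (1 / 2 : ℝ) ^ 30 * (1 / 2) ^ n :=
    Summable.tsum_le_tsum hB_tail h9 (sum_geom_half.mul_left _)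
  have h7 : ∑' n : ℕ, (1 / 2 : ℝ) ^ 30 * (1 / 2) ^ n = (1 / 2 : ℝ) ^ 29 := by
    rw [tsum_mul_left, tsum_geometric_two]
    norm_num
  have h8 := hB_head
  rw [h7] at h6
  rw [h3, h5, h8]
  norm_num at h6 ⊢
  linarith

theorem theta_ne : thB ^ 4 < 2 * thA ^ 4 := by
  have h1 := thA_lower
  have h2 := thB_upper
  have h3 : 0 ≤ thB := tsum_nonneg (fun t => (hB_pos t).le)
  have h4 : thB ^ 4 ≤ (2 * (1 + 1 / 4 + 1 / 64 + 1 / 4096 + 1 / 1048576 + 1 / 536870912 : ℝ)) ^ 4 :=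
    pow_le_pow_left₀ h3 h2 4
  have h5 : (1 + 2 * (1 / 2 + 1 / 16 + 1 / 512 + 1 / 65536 : ℝ)) ^ 4 ≤ thA ^ 4 :=
    pow_le_pow_left₀ (by norm_num) h1 4
  have h6 : (2 * (1 + 1 / 4 + 1 / 64 + 1 / 4096 + 1 / 1048576 + 1 / 536870912 : ℝ)) ^ 4 <
      2 * (1 + 2 * (1 / 2 + 1 / 16 + 1 / 512 + 1 / 65536 : ℝ)) ^ 4 := by norm_num
  linarith

theorem thA_pos : 0 < thA := lt_of_lt_of_le (by norm_num) thA_lower

theorem thB_pos : 0 < thB := by
  unfold thB
  exact hB_summable.tsum_pos (fun t => (hB_pos t).le) 0 (hB_pos 0)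

end Pool.Agent.Helper912
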