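import Pool.Agent.Helper912.KRSm

set_option autoImplicit false
set_option linter.unusedVariables false
set_option linter.unusedSectionVars false
set_option linter.deprecated false

namespace Pool.Agent.Helper912

open Finset Classical Filter Asymptotics Topology

/-- `F n V` is small: bounded by `τ n * K * TT n` whenever `pn m ≤ K * TT m` for `m < n` -/
def SmallFam (F : (V : Type) → [Fintype V] → ℝ) : Prop :=
  ∃ τ : ℕ → ℝ, Sm τ ∧ (∀ n, 0 ≤ τ n) ∧ ∀ᶠ n in atTop, ∀ K : ℝ, 1 ≤ K →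
    (∀ m, m < n → (pn m : ℝ) ≤ K * TT m) → ∀ (V : Type) [Fintype V], Fintype.card V = n →
      F V ≤ τ n * (K * TT n)

theorem small_bad1 (k : ℕ) (hk : 80000 ≤ k) :
    SmallFam (fun V _ => ((bad1 V k (Fintype.card V / 20000)).card : ℝ)) := by
  refine ⟨fun n => (s2 ^ (k * k) * 2 ^ k) * (3 / 4) ^ n,
    (Sm_geom (by norm_num) (by norm_num)).const_mul _, fun n => ?_, ?_⟩
  · have := s2_pos; positivity
  filter_upwards [eventually_ge_atTop (k + 1)] with n hn K hK hm V _ hV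
  have h1 := card_bad1 (V := V) k (Fintype.card V / 20000)
  rw [hV] at h1 ⊢
  have h1' : ((bad1 V k (n / 20000)).card : ℝ) ≤ 2 ^ n * (2 ^ (k * ((n - 2 * (n / 20000)) / 2)) *
      (pn (n - k) * (2 ^ n * 3 ^ n))) := by exact_mod_cast h1
  have h2 := hm (n - k) (by omega)
  have h3 := TT_add (n - k) k
  rw [show n - k + k = n by omega] at h3
  generalize he : n / 20000 = e at *
  have he1 : 20000 * e ≤ n := by omega
  have he2 : 4 * n ≤ k * e + k := by
    have : n < 20000 * (e + 1) := by omega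
    nlinarith
  have h4 : (2 : ℝ) ^ (k * ((n - 2 * e) / 2)) ≤ s2 ^ (k * (n - 2 * e)) := by
    rw [← s2_pow_two_mul]
    apply pow_le_pow_right₀ one_le_s2
    have : 2 * ((n - 2 * e) / 2) ≤ n - 2 * e := by omega
    nlinarith
  have hs := s2_pos
  have h5 : s2 ^ (k * (n - 2 * e)) * 2 ^ (k * e) = s2 ^ (k * k) * s2 ^ (k * (n - k)) := by
    rw [← s2_pow_two_mul, ← pow_add, ← pow_add]
    congr 1
    rw [show k * (n - 2 * e) + 2 * (k * e) = k * (n - 2 * e + 2 * e) by ring,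
      show n - 2 * e + 2 * e = n by omega, show k * k + k * (n - k) = k * (k + (n - k)) by ring,
      show k + (n - k) = n by omega]
  have h6 : (16 : ℝ) ^ n ≤ 2 ^ k * 2 ^ (k * e) := by
    rw [show (16 : ℝ) = 2 ^ 4 by norm_num, ← pow_mul, ← pow_add]
    apply pow_le_pow_right₀ (by norm_num)
    omega
  have hT := TT_pos n
  have h7 : ((bad1 V k e).card : ℝ) ≤ 12 ^ n * s2 ^ (k * (n - 2 * e)) * (K * TT (n - k)) := by
    calc ((bad1 V k e).card : ℝ) ≤ 2 ^ n * (2 ^ (k * ((n - 2 * e) / 2)) *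
      (pn (n - k) * (2 ^ n * 3 ^ n))) := h1'
      _ = 12 ^ n * (2 ^ (k * ((n - 2 * e) / 2)) * pn (n - k)) := by
          rw [show (12 : ℝ) = 2 * 2 * 3 by norm_num, mul_pow, mul_pow]; ring
      _ ≤ 12 ^ n * (s2 ^ (k * (n - 2 * e)) * (K * TT (n - k))) := by
          apply mul_le_mul_of_nonneg_left _ (by positivity)
          exact mul_le_mul h4 h2 (by positivity) (by positivity)
      _ = _ := by ring
  have hTk := TT_pos (n - k)
  have h8 : 16 ^ n * (s2 ^ (k * (n - 2 * e)) * TT (n - k)) ≤ s2 ^ (k * k) * 2 ^ k * TT n := by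
    calc 16 ^ n * (s2 ^ (k * (n - 2 * e)) * TT (n - k))
        ≤ (2 ^ k * 2 ^ (k * e)) * (s2 ^ (k * (n - 2 * e)) * TT (n - k)) :=
          mul_le_mul_of_nonneg_right h6 (by positivity)
      _ = 2 ^ k * ((s2 ^ (k * (n - 2 * e)) * 2 ^ (k * e)) * TT (n - k)) := by ring
      _ = 2 ^ k * s2 ^ (k * k) * (s2 ^ (k * (n - k)) * TT (n - k)) := by rw [h5]; ring
      _ ≤ 2 ^ k * s2 ^ (k * k) * TT n := mul_le_mul_of_nonneg_left h3 (by positivity)
      _ = _ := by ring
  have h9 : (3 / 4 : ℝ) ^ n * 16 ^ n = 12 ^ n := by rw [← mul_pow]; norm_num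
  calc ((bad1 V k e).card : ℝ) ≤ 12 ^ n * s2 ^ (k * (n - 2 * e)) * (K * TT (n - k)) := h7
    _ = (3 / 4) ^ n * K * (16 ^ n * (s2 ^ (k * (n - 2 * e)) * TT (n - k))) := by rw [← h9]; ring
    _ ≤ (3 / 4) ^ n * K * (s2 ^ (k * k) * 2 ^ k * TT n) :=
        mul_le_mul_of_nonneg_left h8 (by positivity)
    _ = _ := by ring

theorem TT_pred (n : ℕ) (hn : 1 ≤ n) : s2 ^ n * (TT (n - 1) : ℝ) ≤ s2 * TT n := by
  have h := TT_succ (n - 1)
  rw [show n - 1 + 1 = n by omega] at h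
  have hs := s2_pos
  calc s2 ^ n * (TT (n - 1) : ℝ) = s2 * (s2 ^ (n - 1) * TT (n - 1)) := by
        rw [← mul_assoc, ← pow_succ']; congr 2; omega
    _ ≤ _ := mul_le_mul_of_nonneg_left h hs.le

theorem TT_pred2 (n : ℕ) (hn : 2 ≤ n) : 2 ^ n * (TT (n - 2) : ℝ) ≤ 4 * TT n := by
  have h := TT_add (n - 2) 2
  rw [show n - 2 + 2 = n by omega, s2_pow_two_mul] at h
  calc 2 ^ n * (TT (n - 2) : ℝ) = 4 * (2 ^ (n - 2) * TT (n - 2)) := by
        rw [show (2 : ℝ) ^ n = 4 * 2 ^ (n - 2) by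
          rw [show (4 : ℝ) = 2 ^ 2 by norm_num, ← pow_add]; congr 1; omega]
        ring
    _ ≤ _ := mul_le_mul_of_nonneg_left h (by norm_num)

theorem small_bad2 :
    SmallFam (fun V _ => ((bad2 V (Fintype.card V / 20000)).card : ℝ)) := by
  have hs := s2_pos
  refine ⟨fun n => s2 * ((n : ℝ) * (27 / 20 / s2) ^ n),
    ((Sm_geom (r := 27 / 20 / s2) (by positivity) ?_).nat_mul).const_mul _, fun n => ?_, ?_⟩
  · rw [div_lt_one hs]; have := lt_s2; norm_num at this ⊢; linarith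
  · positivity
  filter_upwards [eventually_ge_atTop 1] with n hn K hK hm V _ hV
  have h1 := card_bad2 (V := V) (Fintype.card V / 20000)
  rw [hV] at h1 ⊢
  have h1' : ((bad2 V (n / 20000)).card : ℝ) * 8 ^ n ≤ n * (16 ^ (1000 * (n / 20000)) *
      (pn (n - 1) * 9 ^ n)) := by exact_mod_cast h1
  have h2 := hm (n - 1) (by omega)
  have h3 := TT_pred n hn
  generalize he : n / 20000 = e at *
  have he1 : 20000 * e ≤ n := by omega
  have h4 : (16 : ℝ) ^ (1000 * e) ≤ (6 / 5) ^ n := by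
    have h5 : ((16 : ℝ) ^ (1000 * e)) ^ 5 ≤ ((6 / 5) ^ n) ^ 5 := by
      calc ((16 : ℝ) ^ (1000 * e)) ^ 5 = 2 ^ (20000 * e) := by
            rw [show (16 : ℝ) = 2 ^ 4 by norm_num, ← pow_mul, ← pow_mul]; congr 1; ring
        _ ≤ 2 ^ n := pow_le_pow_right₀ (by norm_num) he1
        _ ≤ ((6 / 5) ^ 5) ^ n := pow_le_pow_left₀ (by norm_num) (by norm_num) n
        _ = _ := by rw [← pow_mul, ← pow_mul]; congr 1; ring
    exact le_of_pow_le_pow_left₀ (by norm_num) (by positivity) h5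
  have hT := TT_pos n
  have hT1 := TT_pos (n - 1)
  have hn0 : (0 : ℝ) ≤ n := by positivity
  have h8 : (0 : ℝ) < 8 ^ n := by positivity
  have hsn : 0 < s2 ^ n := by positivity
  have h6 : ((bad2 V e).card : ℝ) * 8 ^ n * s2 ^ n ≤ (s2 * (n * (27 / 20 / s2) ^ n)) * (K * TT n) * 8 ^ n * s2 ^ n := by
    calc ((bad2 V e).card : ℝ) * 8 ^ n * s2 ^ n ≤ (n * (16 ^ (1000 * e) * (pn (n - 1) * 9 ^ n))) * s2 ^ n :=
          mul_le_mul_of_nonneg_right h1' hsn.le
      _ ≤ (n * ((6 / 5) ^ n * ((K * TT (n - 1)) * 9 ^ n))) * s2 ^ n := by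
          apply mul_le_mul_of_nonneg_right _ hsn.le
          apply mul_le_mul_of_nonneg_left _ hn0
          apply mul_le_mul h4 _ (by positivity) (by positivity)
          exact mul_le_mul_of_nonneg_right h2 (by positivity)
      _ = n * (6 / 5) ^ n * K * 9 ^ n * (s2 ^ n * TT (n - 1)) := by ring
      _ ≤ n * (6 / 5) ^ n * K * 9 ^ n * (s2 * TT n) :=
          mul_le_mul_of_nonneg_left h3 (by positivity)
      _ = s2 * n * ((6 / 5) ^ n * 9 ^ n) * (K * TT n) := by ring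
      _ = s2 * n * ((27 / 20 / s2) ^ n * 8 ^ n * s2 ^ n) * (K * TT n) := by
          congr 2
          rw [← mul_pow, ← mul_pow, ← mul_pow]
          congr 1
          field_simp
          norm_num
      _ = _ := by ring
  have h7 := le_of_mul_le_mul_right h6 hsn
  exact le_of_mul_le_mul_right h7 h8

theorem small_bad3 (k : ℕ) :
    SmallFam (fun V _ => ((bad3 V k (Fintype.card V / 20000)).card : ℝ)) := by
  refine ⟨fun n => 32 * ((n : ℝ) ^ (2 * k + 2) * (729 / 1024) ^ (n / 20000)),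
    ((Sm_floor (q := 729 / 1024) (by norm_num) (by norm_num) 20000 (by norm_num)).pow_mul
      (2 * k + 2)).const_mul _, fun n => by positivity, ?_⟩
  filter_upwards [eventually_ge_atTop 2] with n hn K hK hm V _ hV
  have h1 := card_bad3 (V := V) k (Fintype.card V / 20000)
  rw [hV] at h1 ⊢
  have h2 := hm (n - 2) (by omega)
  have h3 := TT_pred2 n hn
  generalize he : n / 20000 = e at *
  have hT := TT_pos n
  calc ((bad3 V k e).card : ℝ) ≤ (n : ℝ) ^ (2 * k + 2) *
      (((2 : ℝ) ^ n * (729 / 1024) ^ e) * (8 * pn (n - 2))) := h1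
    _ ≤ (n : ℝ) ^ (2 * k + 2) *
      (((2 : ℝ) ^ n * (729 / 1024) ^ e) * (8 * (K * TT (n - 2)))) := by
        apply mul_le_mul_of_nonneg_left _ (by positivity)
        apply mul_le_mul_of_nonneg_left _ (by positivity)
        apply mul_le_mul_of_nonneg_left h2 (by norm_num)
    _ = (n : ℝ) ^ (2 * k + 2) * (729 / 1024) ^ e * 8 * K * (2 ^ n * TT (n - 2)) := by ring
    _ ≤ (n : ℝ) ^ (2 * k + 2) * (729 / 1024) ^ e * 8 * K * (4 * TT n) :=
        mul_le_mul_of_nonneg_left h3 (by positivity)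
    _ = _ := by ring

theorem small_bad4 (k : ℕ) :
    SmallFam (fun V _ => ((bad4 V k (Fintype.card V / 20000)).card : ℝ)) := by
  have hs := s2_pos
  refine ⟨fun n => (2 * s2) * ((n : ℝ) ^ (k + 3) * (2 * (81 / 256)) ^ (n / 20000)),
    ((Sm_floor (q := 2 * (81 / 256)) (by norm_num) (by norm_num) 20000 (by norm_num)).pow_mul
      (k + 3)).const_mul _, fun n => by positivity, ?_⟩
  filter_upwards [eventually_ge_atTop 1] with n hn K hK hm V _ hV
  have h1 := card_bad4 (V := V) k (Fintype.card V / 20000)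
  rw [hV] at h1 ⊢
  have h2 := hm (n - 1) (by omega)
  have h3 := TT_pred n hn
  have h4 : (2 : ℝ) ^ ((n : ℝ) / 2) = s2 ^ n := by
    unfold s2
    rw [Real.sqrt_eq_rpow, ← Real.rpow_natCast, ← Real.rpow_mul (by norm_num)]
    congr 1; ring
  rw [h4] at h1
  generalize he : n / 20000 = e at *
  have hT := TT_pos n
  calc ((bad4 V k e).card : ℝ) ≤ (n : ℝ) ^ (k + 3) *
      ((s2 ^ n * (2 * (81 / 256)) ^ e) * (2 * pn (n - 1))) := h1
    _ ≤ (n : ℝ) ^ (k + 3) *
      ((s2 ^ n * (2 * (81 / 256)) ^ e) * (2 * (K * TT (n - 1)))) := by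
        apply mul_le_mul_of_nonneg_left _ (by positivity)
        apply mul_le_mul_of_nonneg_left _ (by positivity)
        apply mul_le_mul_of_nonneg_left h2 (by norm_num)
    _ = (n : ℝ) ^ (k + 3) * (2 * (81 / 256)) ^ e * 2 * K * (s2 ^ n * TT (n - 1)) := by ring
    _ ≤ (n : ℝ) ^ (k + 3) * (2 * (81 / 256)) ^ e * 2 * K * (s2 * TT n) :=
        mul_le_mul_of_nonneg_left h3 (by positivity)
    _ = _ := by ring

theorem lay4_w_mid (n j : ℕ) (h : 1 ≤ n) (hj : j ≤ n) (h1 : 2 * n ≤ 5 * j) (h2 : 5 * j ≤ 3 * n) :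
    (j : ℝ) * (3 / 2) ^ (n - j) + (n - j : ℕ) * (3 / 2) ^ j + 4 * (11 / 8) ^ n
      ≤ 6 * ((n : ℝ) ^ 1 * 1.4 ^ n) := by
  have e1 : (3 / 2 : ℝ) ^ (n - j) ≤ (1.4 : ℝ) ^ n :=
    mid_pow _ _ (by norm_num) (by norm_num) (by norm_num) _ _ (by omega)
  have e2 : (3 / 2 : ℝ) ^ j ≤ (1.4 : ℝ) ^ n :=
    mid_pow _ _ (by norm_num) (by norm_num) (by norm_num) _ _ h2
  have e3 : (11 / 8 : ℝ) ^ n ≤ (1.4 : ℝ) ^ n := pow_le_pow_left₀ (by norm_num) (by norm_num) n
  have e4 : (1 : ℝ) ≤ n := by exact_mod_cast h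
  have e5 : (j : ℝ) ≤ n := by exact_mod_cast hj
  have e6 : ((n - j : ℕ) : ℝ) ≤ n := by exact_mod_cast Nat.sub_le n j
  have e7 : (0 : ℝ) < (1.4 : ℝ) ^ n := by positivity
  rw [pow_one]
  calc (j : ℝ) * (3 / 2) ^ (n - j) + (n - j : ℕ) * (3 / 2) ^ j + 4 * (11 / 8) ^ n
      ≤ n * 1.4 ^ n + n * 1.4 ^ n + 4 * (1.4 ^ n) := by
        apply add_le_add (add_le_add _ _) _
        · exact mul_le_mul e5 e1 (by positivity) (by positivity)
        · exact mul_le_mul e6 e2 (by positivity) (by positivity)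
        · linarith
    _ ≤ 6 * (n * 1.4 ^ n) := by nlinarith

theorem lay4_w_all (n j : ℕ) (h : 1 ≤ n) (hj : j ≤ n) :
    (j : ℝ) * (3 / 2) ^ (n - j) + (n - j : ℕ) * (3 / 2) ^ j + 4 * (11 / 8) ^ n
      ≤ 6 * ((n : ℝ) ^ 1 * 3 ^ n) := by
  have e1 : (3 / 2 : ℝ) ^ (n - j) ≤ 3 ^ n :=
    (pow_le_pow_right₀ (by norm_num) (Nat.sub_le n j)).trans
      (pow_le_pow_left₀ (by norm_num) (by norm_num) n)
  have e2 : (3 / 2 : ℝ) ^ j ≤ 3 ^ n :=
    (pow_le_pow_right₀ (by norm_num) hj).trans (pow_le_pow_left₀ (by norm_num) (by norm_num) n)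
  have e3 : (11 / 8 : ℝ) ^ n ≤ 3 ^ n := pow_le_pow_left₀ (by norm_num) (by norm_num) n
  have e4 : (1 : ℝ) ≤ n := by exact_mod_cast h
  have e5 : (j : ℝ) ≤ n := by exact_mod_cast hj
  have e6 : ((n - j : ℕ) : ℝ) ≤ n := by exact_mod_cast Nat.sub_le n j
  have e7 : (0 : ℝ) < 3 ^ n := by positivity
  rw [pow_one]
  calc (j : ℝ) * (3 / 2) ^ (n - j) + (n - j : ℕ) * (3 / 2) ^ j + 4 * (11 / 8) ^ n
      ≤ n * 3 ^ n + n * 3 ^ n + 4 * (3 ^ n) := by
        apply add_le_add (add_le_add _ _) _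
        · exact mul_le_mul e5 e1 (by positivity) (by positivity)
        · exact mul_le_mul e6 e2 (by positivity) (by positivity)
        · linarith
    _ ≤ 6 * (n * 3 ^ n) := by nlinarith

theorem small_lay4 : SmallFam (fun V _ => ((lay4 V).card : ℝ)) := by
  obtain ⟨η, h1, h2, h3⟩ := US_small (fun n j => j * (3 / 2) ^ (n - j) + (n - j : ℕ) * (3 / 2) ^ j
    + 4 * (11 / 8) ^ n) s2 (1.4) 3 6 1 one_le_s2 (by norm_num)
    (by have := lt_s2; norm_num at this ⊢; linarith) (by norm_num) (by norm_num) lay4_w_mid lay4_w_all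
  refine ⟨η, h1, h2, ?_⟩
  filter_upwards [eventually_ge_atTop 1] with n hn K hK hm V _ hV
  have h4 := card_lay4_real (V := V)
  rw [hV] at h4
  have h5 := h3 n hn
  have h6 := TT_lower n
  have hT := TT_pos n
  calc ((lay4 V).card : ℝ) ≤ _ := h4
    _ ≤ _ := h5
    _ ≤ η n * TT n := mul_le_mul_of_nonneg_left h6 (h2 n)
    _ ≤ η n * (K * TT n) := by
        apply mul_le_mul_of_nonneg_left _ (h2 n)
        nlinarith

theorem SmallFam.add {F G : (V : Type) → [Fintype V] → ℝ} (hF : SmallFam (fun V _ => F V))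
    (hG : SmallFam (fun V _ => G V)) : SmallFam (fun V _ => F V + G V) := by
  obtain ⟨τ, h1, h2, h3⟩ := hF
  obtain ⟨σ, k1, k2, k3⟩ := hG
  refine ⟨fun n => τ n + σ n, h1.add k1, fun n => add_nonneg (h2 n) (k2 n), ?_⟩
  filter_upwards [h3, k3] with n a b K hK hm V _ hV
  have := a K hK hm V hV
  have := b K hK hm V hV
  nlinarith

/-- everything outside the 3-layer posets -/
noncomputable def rest3 (V : Type) [Fintype V] : Finset (Pos V) :=
  univ.filter (fun P => P ∉ lay3 V)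

theorem card_rest3 (V : Type) [Fintype V] : pn (Fintype.card V) ≤ (rest3 V).card + (lay3 V).card := by
  rw [← card_Pos, ← card_univ]
  refine (card_le_card (fun P _ => ?_)).trans (card_union_le _ _)
  rw [mem_union]
  by_cases h : P ∈ lay3 V
  · exact Or.inr h
  · left
    simp only [rest3, mem_filter, mem_univ, true_and]
    exact h

theorem small_rest : SmallFam (fun V _ => ((rest3 V).card : ℝ)) := by
  obtain ⟨k, hk⟩ : ∃ k, k = 80000 := ⟨_, rfl⟩
  have h := ((((small_bad1 k (by omega)).add small_bad2).add (small_bad3 k)).add (small_bad4 k)).add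
    small_lay4
  obtain ⟨τ, h1, h2, h3⟩ := h
  refine ⟨τ, h1, h2, ?_⟩
  filter_upwards [h3, eventually_ge_atTop (20000 * 481)] with n a hn K hK hm V _ hV
  refine le_trans ?_ (a K hK hm V hV)
  have h4 : rest3 V ⊆ bad1 V k (Fintype.card V / 20000) ∪
      bad2 V (Fintype.card V / 20000) ∪ bad3 V k (Fintype.card V / 20000) ∪
      bad4 V k (Fintype.card V / 20000) ∪ lay4 V := by
    intro P hP
    simp only [rest3, mem_filter, mem_univ, true_and] at hP
    by_contra hc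
    simp only [mem_union, not_or] at hc
    obtain ⟨⟨⟨⟨c1, c2⟩, c3⟩, c4⟩, c5⟩ := hc
    have he : 481 ≤ Fintype.card V / 20000 := by omega
    rcases good_or_bad (k := k) (e := Fintype.card V / 20000) (by omega) (by omega) (by omega)
      P c1 c2 c3 c4 with h | h
    · exact hP h
    · exact c5 h
  have h5 := (card_le_card h4).trans ((card_union_le _ _).trans (Nat.add_le_add_right
    ((card_union_le _ _).trans (Nat.add_le_add_right ((card_union_le _ _).trans
      (Nat.add_le_add_right (card_union_le _ _) _)) _)) _))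
  exact_mod_cast h5

/-- the number of posets is at most a constant times `TT` -/
theorem exists_K : ∃ K : ℝ, 1 ≤ K ∧ ∀ n, (pn n : ℝ) ≤ K * TT n := by
  obtain ⟨τ, h1, h2, h3⟩ := small_rest
  have h4 := h1.tendsto.eventually (gt_mem_nhds (show (0 : ℝ) < 1 / 2 by norm_num))
  obtain ⟨N, hN⟩ := eventually_atTop.1 (h3.and h4)
  obtain ⟨K0, hK0⟩ : ∃ K0 : ℝ, ∀ n < N, (pn n : ℝ) / TT n ≤ K0 := by
    refine ⟨∑ i ∈ range N, (pn i : ℝ) / TT i, fun n hn => ?_⟩
    exact Finset.single_le_sum (f := fun i => (pn i : ℝ) / TT i)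
      (fun i _ => div_nonneg (Nat.cast_nonneg _) (TT_pos i).le) (Finset.mem_range.2 hn)
  refine ⟨max K0 2, le_max_of_le_right (by norm_num), fun n => ?_⟩
  induction n using Nat.strong_induction_on with
  | _ n ih =>
    have hT := TT_pos n
    by_cases hn : n < N
    · have := hK0 n hn
      rw [div_le_iff₀ hT] at this
      exact this.trans (mul_le_mul_of_nonneg_right (le_max_left _ _) hT.le)
    · push Not at hn
      obtain ⟨h5, h6⟩ := hN n hn
      have h7 := h5 (max K0 2) (le_max_of_le_right (by norm_num)) ih (Fin n) (by simp)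
      have h8 := card_lay3 (V := Fin n)
      rw [Fintype.card_fin] at h8
      have h9 := card_rest3 (Fin n)
      rw [Fintype.card_fin] at h9
      have h10 : (pn n : ℝ) ≤ ((rest3 (Fin n)).card : ℝ) +
          ((lay3 (Fin n)).card : ℝ) := by exact_mod_cast h9
      have h11 : ((lay3 (Fin n)).card : ℝ) ≤ TT n := by exact_mod_cast h8
      have h12 : (2 : ℝ) ≤ max K0 2 := le_max_right _ _
      have h13 : τ n * (max K0 2 * TT n) ≤ 1 / 2 * (max K0 2 * TT n) :=
        mul_le_mul_of_nonneg_right h6.le (by positivity)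
      nlinarith

/-- the number of posets outside the 3-layer ones is exponentially small -/
theorem rest_small : ∃ τ : ℕ → ℝ, Sm τ ∧ (∀ n, 0 ≤ τ n) ∧ ∀ᶠ n in atTop,
    ∀ (V : Type) [Fintype V], Fintype.card V = n →
      ((rest3 V).card : ℝ) ≤ τ n * TT n := by
  obtain ⟨K, hK1, hK⟩ := exists_K
  obtain ⟨τ, h1, h2, h3⟩ := small_rest
  refine ⟨fun n => K * τ n, h1.const_mul K, fun n => mul_nonneg (by linarith) (h2 n), ?_⟩
  filter_upwards [h3] with n hn V _ hV
  refine (hn K hK1 (fun m _ => hK m) V hV).trans (le_of_eq ?_)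
  ring

end Pool.Agent.Helper912
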