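import Pool.Agent.Helper912.TH9e

set_option autoImplicit false
open MeasureTheory Finset

namespace Helper912.TH9

noncomputable section

def T (f g h : ℝ × ℝ → ℝ) (k : ℤ) : ℝ :=
  ∑' ab : ℕ × ℕ, ∫ x, ∫ y, ∫ z, f (x,y) * g (y,z) * h (z,x) * haar k ab.1 x
        * haar k ab.2 y * haar k (ab.1 ^^^ ab.2) z

def Form (S : Finset ℤ) (ε : ℤ → ℝ) (f g h : ℝ × ℝ → ℝ) : ℝ :=
  ∑ k ∈ S, (2:ℝ)^(-k) * ε k * T f g h k

theorem nice3_of {f g h : ℝ × ℝ → ℝ} (hf : Nice f) (hg : Nice g) (hh : Nice h) :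
    ∃ B, Nice3 (fun x y z => f (x,y) * g (y,z) * h (z,x)) B := by
  obtain ⟨F, hF⟩ := hf.bdd
  obtain ⟨G, hG⟩ := hg.bdd
  obtain ⟨H, hH⟩ := hh.bdd
  have h0 : 0 ≤ F := (abs_nonneg _).trans (hF 0)
  have h1 : 0 ≤ G := (abs_nonneg _).trans (hG 0)
  refine ⟨F * G * H, ⟨?_, ?_⟩⟩
  · have a1 := hf.meas.comp (by fun_prop : Measurable (fun p : ℝ × ℝ × ℝ => (p.1, p.2.1)))
    have a2 := hg.meas.comp (by fun_prop : Measurable (fun p : ℝ × ℝ × ℝ => (p.2.1, p.2.2)))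
    have a3 := hh.meas.comp (by fun_prop : Measurable (fun p : ℝ × ℝ × ℝ => (p.2.2, p.1)))
    exact (a1.mul a2).mul a3
  · intro x y z
    rw [abs_mul, abs_mul]
    exact mul_le_mul (mul_le_mul (hF _) (hG _) (abs_nonneg _) h0) (hH _) (abs_nonneg _)
      (mul_nonneg h0 h1)

theorem supp_bound {f : ℝ × ℝ → ℝ} (hf : Nice f) :
    ∃ R : ℝ, ∀ L : ℝ, R < L → (∀ x y, L ≤ x → f (x,y) = 0) ∧ (∀ x y, L ≤ y → f (x,y) = 0) := by
  obtain ⟨R, hR⟩ := hf.supp.isBounded.subset_closedBall (0 : ℝ × ℝ)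
  refine ⟨R, fun L hL => ?_⟩
  have key : ∀ p : ℝ × ℝ, R < ‖p‖ → f p = 0 := by
    intro p hp
    by_contra hne
    have := hR (subset_tsupport f hne)
    rw [mem_closedBall_zero_iff] at this
    linarith
  constructor
  · intro x y hx
    apply key
    calc R < L := hL
      _ ≤ x := hx
      _ ≤ |x| := le_abs_self x
      _ ≤ ‖((x, y) : ℝ × ℝ)‖ := norm_fst_le ((x, y) : ℝ × ℝ)
  · intro x y hx
    apply key
    calc R < L := hL
      _ ≤ y := hx
      _ ≤ |y| := le_abs_self y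
      _ ≤ ‖((x, y) : ℝ × ℝ)‖ := norm_snd_le ((x, y) : ℝ × ℝ)

theorem sumcubes {C : ℝ} (hC0 : 0 ≤ C)
    (hC : ∀ (n : ℕ) (f g h : ℕ → ℕ → ℝ),
      ∑ s ∈ range n, |Lam n s f g h| ≤ C * (a3 n f + a3 n g + a3 n h))
    (S : Finset ℤ) (ε : ℤ → ℝ) (hε : ∀ k, |ε k| ≤ 1) {f g h : ℝ × ℝ → ℝ}
    (hf : Nice f) (hg : Nice g) (hh : Nice h) :
    |Form S ε f g h| ≤ C * ((∫ p, |f p|^3) + (∫ p, |g p|^3) + ∫ p, |h p|^3) := by
  obtain ⟨B, hB⟩ := nice3_of hf hg hh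
  obtain ⟨R, hR⟩ := supp_bound hf
  -- choice of the scales
  obtain ⟨L, hL1, hL2⟩ : ∃ L : ℕ, R < (2:ℝ)^L ∧ ∀ k ∈ S, k ≤ (L:ℤ) := by
    obtain ⟨L1, hL1⟩ := pow_unbounded_of_one_lt R (by norm_num : (1:ℝ) < 2)
    refine ⟨L1 + ∑ k ∈ S, k.natAbs, ?_, ?_⟩
    · exact lt_of_lt_of_le hL1 (pow_le_pow_right₀ (by norm_num) (by omega))
    · intro k hk
      have : k.natAbs ≤ ∑ k ∈ S, k.natAbs :=
        single_le_sum (f := fun k : ℤ => k.natAbs) (fun _ _ => Nat.zero_le _) hk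
      omega
  obtain ⟨m, hm⟩ : ∃ m : ℕ, ∀ k ∈ S, 1 - (m:ℤ) ≤ k := by
    refine ⟨1 + ∑ k ∈ S, k.natAbs, ?_⟩
    intro k hk
    have : k.natAbs ≤ ∑ k ∈ S, k.natAbs :=
      single_le_sum (f := fun k : ℤ => k.natAbs) (fun _ _ => Nat.zero_le _) hk
    omega
  obtain ⟨hs1, hs2⟩ := hR _ hL1
  set d : ℝ := (1/2:ℝ)^m with hd
  have hd0 : 0 < d := by positivity
  set n := L + m with hn
  set Q : ℕ → ℝ × ℝ × ℝ → ℝ := fun s q => Lam n s (sm d f q.1 q.2.1)
    (sm d g q.2.1 q.2.2) (sm d h q.2.2 q.1) with hQ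
  set J : ℕ → ℝ := fun s => ∫ q, Q s q ∂(nu d) with hJ
  have hQi : ∀ s, Integrable (Q s) (nu d) := fun s => lam_intble hB d n s
  have hone : ∀ k ∈ S, (2:ℝ)^(-k) * ε k * T f g h k = ε k * (2^(2*L+3*m) * J (((L:ℤ) - k).toNat)) := by
    intro k hk
    have h1 := hL2 k hk
    have h2 := hm k hk
    have := one_scale (f := f) (g := g) (h := h) hB (L := L) (m := m)
      (t := (k + m - 1).toNat) (s := ((L:ℤ) - k).toNat) (by omega) (k := k) (by omega) hs1 hs2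
    rw [hJ, hQ]
    simp only
    rw [← this]
    unfold T
    ring
  have h1 : |Form S ε f g h| ≤ 2^(2*L+3*m) * ∑ s ∈ range n, |J s| := by
    unfold Form
    rw [sum_congr rfl hone]
    refine (abs_sum_le_sum_abs _ _).trans ?_
    have : ∀ k ∈ S, |ε k * (2^(2*L+3*m) * J (((L:ℤ) - k).toNat))|
        ≤ 2^(2*L+3*m) * |J (((L:ℤ) - k).toNat)| := by
      intro k _
      rw [abs_mul, abs_mul, abs_of_nonneg (by positivity : (0:ℝ) ≤ 2^(2*L+3*m))]
      have h0 : (0:ℝ) ≤ 2^(2*L+3*m) * |J (((L:ℤ) - k).toNat)| := by positivity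
      calc |ε k| * (2^(2*L+3*m) * |J (((L:ℤ) - k).toNat)|)
          ≤ 1 * (2^(2*L+3*m) * |J (((L:ℤ) - k).toNat)|) := mul_le_mul_of_nonneg_right (hε k) h0
        _ = _ := one_mul _
    refine (sum_le_sum this).trans ?_
    rw [← mul_sum]
    refine mul_le_mul_of_nonneg_left ?_ (by positivity)
    have hinj : Set.InjOn (fun k : ℤ => ((L:ℤ) - k).toNat) (S : Set ℤ) := by
      intro a ha b hb hab
      have h1 := hL2 a ha
      have h2 := hL2 b hb
      simp only at hab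
      omega
    rw [← sum_image (f := fun s => |J s|) (g := fun k : ℤ => ((L:ℤ) - k).toNat) hinj]
    refine sum_le_sum_of_subset_of_nonneg ?_ (fun _ _ _ => abs_nonneg _)
    intro s hs
    rw [mem_image] at hs
    obtain ⟨k, hk, rfl⟩ := hs
    have h1 := hL2 k hk
    have h2 := hm k hk
    rw [mem_range, hn]
    omega
  have h2 : ∑ s ∈ range n, |J s| ≤ ∫ q, C * (a3 n (sm d f q.1 q.2.1) + a3 n (sm d g q.2.1 q.2.2)
      + a3 n (sm d h q.2.2 q.1)) ∂(nu d) := by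
    calc ∑ s ∈ range n, |J s| ≤ ∑ s ∈ range n, ∫ q, |Q s q| ∂(nu d) :=
          sum_le_sum (fun s _ => abs_integral_le_integral_abs)
      _ = ∫ q, ∑ s ∈ range n, |Q s q| ∂(nu d) := (integral_finsetSum _ (fun s _ => (hQi s).abs)).symm
      _ ≤ _ := by
        refine integral_mono (integrable_finsetSum _ (fun s _ => (hQi s).abs)) ?_ (fun q => ?_)
        · exact (((a3_f hf hd0 n).1.add (a3_g hg hd0 n).1).add (a3_h hh hd0 n).1).const_mul C
        · exact hC n _ _ _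
  have h3 : ∫ q, C * (a3 n (sm d f q.1 q.2.1) + a3 n (sm d g q.2.1 q.2.2)
      + a3 n (sm d h q.2.2 q.1)) ∂(nu d)
      ≤ C * ((1/4)^n * d * ((∫ p, |f p|^3) + (∫ p, |g p|^3) + ∫ p, |h p|^3)) := by
    rw [integral_const_mul]
    refine mul_le_mul_of_nonneg_left ?_ hC0
    have hfg : Integrable (fun q : ℝ × ℝ × ℝ => a3 n (sm d f q.1 q.2.1)
        + a3 n (sm d g q.2.1 q.2.2)) (nu d) := (a3_f hf hd0 n).1.add (a3_g hg hd0 n).1
    rw [integral_add hfg (a3_h hh hd0 n).1,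
      integral_add (a3_f hf hd0 n).1 (a3_g hg hd0 n).1]
    have := (a3_f hf hd0 n).2
    have := (a3_g hg hd0 n).2
    have := (a3_h hh hd0 n).2
    linarith
  have h4 : (2:ℝ)^(2*L+3*m) * ((1/4)^n * d) = 1 := by
    rw [hn, hd]
    have : (2:ℝ)^(2*L+3*m) = 4^(L+m) * 2^m := by
      rw [show (4:ℝ) = 2^2 by norm_num, ← pow_mul, ← pow_add]; congr 1; ring
    rw [this]
    simp only [one_div, inv_pow]
    have p2 : (4:ℝ)^(L+m) ≠ 0 := by positivity
    have p4 : (2:ℝ)^m ≠ 0 := by positivity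
    field_simp
  calc |Form S ε f g h| ≤ 2^(2*L+3*m) * ∑ s ∈ range n, |J s| := h1
    _ ≤ 2^(2*L+3*m) * (C * ((1/4)^n * d * ((∫ p, |f p|^3) + (∫ p, |g p|^3) + ∫ p, |h p|^3))) :=
      mul_le_mul_of_nonneg_left (h2.trans h3) (by positivity)
    _ = (2^(2*L+3*m) * ((1/4)^n * d)) *
        (C * ((∫ p, |f p|^3) + (∫ p, |g p|^3) + ∫ p, |h p|^3)) := by ring
    _ = _ := by rw [h4, one_mul]

theorem haar_form (S : Finset ℤ) (ε : ℤ → ℝ) (f g h : ℝ × ℝ → ℝ) (a b c : ℝ) :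
    Form S ε (fun p => a * f p) (fun p => b * g p) (fun p => c * h p)
      = a * b * c * Form S ε f g h := by
  unfold Form
  rw [mul_sum]
  refine sum_congr rfl (fun k _ => ?_)
  have : T (fun p => a * f p) (fun p => b * g p) (fun p => c * h p) k = a * b * c * T f g h k := by
    unfold T
    rw [← tsum_mul_left]
    refine tsum_congr (fun ab => ?_)
    rw [← integral_const_mul]
    refine integral_congr_ae (Filter.Eventually.of_forall (fun x => ?_))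
    simp only
    rw [← integral_const_mul]
    refine integral_congr_ae (Filter.Eventually.of_forall (fun y => ?_))
    simp only
    rw [← integral_const_mul]
    refine integral_congr_ae (Filter.Eventually.of_forall (fun z => ?_))
    simp only
    ring
  rw [this]; ring

theorem homog {X A B D C : ℝ} (hC : 0 ≤ C) (hA : 0 ≤ A) (hB : 0 ≤ B) (hD : 0 ≤ D)
    (h : ∀ a b c : ℝ, 0 < a → 0 < b → 0 < c →
      a * b * c * X ≤ C * ((a*A)^3 + (b*B)^3 + (c*D)^3)) : X ≤ 3 * C * A * B * D := by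
  have key : ∀ η : ℝ, 0 < η → X ≤ 3 * C * (A+η) * (B+η) * (D+η) := by
    intro η hη
    have pA : 0 < A + η := by linarith
    have pB : 0 < B + η := by linarith
    have pD : 0 < D + η := by linarith
    have h1 := h (A+η)⁻¹ (B+η)⁻¹ (D+η)⁻¹ (by positivity) (by positivity) (by positivity)
    have q : ∀ U : ℝ, 0 ≤ U → 0 < U + η → ((U+η)⁻¹ * U)^3 ≤ 1 := by
      intro U hU hUp
      have h0 : 0 ≤ (U+η)⁻¹ * U := by positivity
      have h1 : (U+η)⁻¹ * U ≤ 1 := by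
        rw [inv_mul_le_iff₀ hUp]; linarith
      exact pow_le_one₀ h0 h1
    have h2 : (A+η)⁻¹ * (B+η)⁻¹ * (D+η)⁻¹ * X ≤ 3 * C := by
      have := mul_le_mul_of_nonneg_left (add_le_add (add_le_add (q A hA pA) (q B hB pB)) (q D hD pD)) hC
      linarith
    have h3 : X = ((A+η) * (B+η) * (D+η)) * ((A+η)⁻¹ * (B+η)⁻¹ * (D+η)⁻¹ * X) := by
      field_simp
    rw [h3]
    calc _ ≤ ((A+η) * (B+η) * (D+η)) * (3 * C) := mul_le_mul_of_nonneg_left h2 (by positivity)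
      _ = _ := by ring
  have hc : Continuous (fun η : ℝ => 3 * C * (A+η) * (B+η) * (D+η)) := by fun_prop
  have ht : Filter.Tendsto (fun η : ℝ => 3 * C * (A+η) * (B+η) * (D+η)) (nhdsWithin 0 (Set.Ioi 0))
      (nhds (3 * C * A * B * D)) := by
    have := (hc.tendsto 0).mono_left (nhdsWithin_le_nhds (s := Set.Ioi 0))
    simpa using this
  refine ge_of_tendsto ht ?_
  filter_upwards [self_mem_nhdsWithin] with η hη
  exact key η hη

theorem Nice.const_mul {f : ℝ × ℝ → ℝ} (hf : Nice f) (a : ℝ) : Nice (fun p => a * f p) where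
  meas := hf.meas.const_mul a
  supp := hf.supp.mul_left
  bdd := by
    obtain ⟨M, hM⟩ := hf.bdd
    refine ⟨|a| * M, fun p => ?_⟩
    rw [abs_mul]
    exact mul_le_mul_of_nonneg_left (hM p) (abs_nonneg a)

theorem Nice.norm_cube {f : ℝ × ℝ → ℝ} (hf : Nice f) :
    ∫ p, |f p|^3 = (eLpNorm f 3 volume).toReal^3 := by
  have hml : MemLp f 3 volume := by
    have h3 : (3 : ENNReal) ≠ 0 := by norm_num
    have h3' : (3 : ENNReal) ≠ ⊤ := by norm_num
    rw [← integrable_norm_rpow_iff hf.meas.aestronglyMeasurable h3 h3']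
    refine hf.cube_intble.congr (Filter.Eventually.of_forall (fun p => ?_))
    simp only [Real.norm_eq_abs, ENNReal.toReal_ofNat]
    norm_cast
  rw [hml.eLpNorm_eq_integral_rpow_norm (by norm_num) (by norm_num)]
  have h0 : 0 ≤ ∫ p, |f p|^3 := integral_nonneg (fun p => by positivity)
  have e : ∫ a, ‖f a‖ ^ (3 : ENNReal).toReal = ∫ p, |f p|^3 := by
    refine integral_congr_ae (Filter.Eventually.of_forall (fun p => ?_))
    simp only [Real.norm_eq_abs, ENNReal.toReal_ofNat]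
    norm_cast
  rw [e, ENNReal.toReal_ofReal (by positivity), ← Real.rpow_natCast, ← Real.rpow_mul h0]
  norm_num

theorem main (hFS : FS) :
    ∃ C : ℝ, ∀ (S : Finset ℤ) (ε : ℤ → ℝ), (∀ k, |ε k| ≤ 1) →
      ∀ f g h : ℝ × ℝ → ℝ,
        Measurable f → Measurable g → Measurable h →
        HasCompactSupport f → HasCompactSupport g → HasCompactSupport h →
        (∃ M : ℝ, ∀ p, |f p| ≤ M) → (∃ M : ℝ, ∀ p, |g p| ≤ M) → (∃ M : ℝ, ∀ p, |h p| ≤ M) →
        |∑ k ∈ S, (2:ℝ) ^ (-k) * ε k *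
            ∑' ab : ℕ × ℕ, ∫ x : ℝ, ∫ y : ℝ, ∫ z : ℝ,
              f (x, y) * g (y, z) * h (z, x) *
              (Set.indicator (Set.Ico ((2:ℝ) ^ k * (ab.1 : ℝ))
                  ((2:ℝ) ^ k * (ab.1 : ℝ) + (2:ℝ) ^ (k - 1))) (fun _ => (1:ℝ)) x
                - Set.indicator (Set.Ico ((2:ℝ) ^ k * (ab.1 : ℝ) + (2:ℝ) ^ (k - 1))
                  ((2:ℝ) ^ k * ((ab.1 : ℝ) + 1))) (fun _ => (1:ℝ)) x) *
              (Set.indicator (Set.Ico ((2:ℝ) ^ k * (ab.2 : ℝ))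
                  ((2:ℝ) ^ k * (ab.2 : ℝ) + (2:ℝ) ^ (k - 1))) (fun _ => (1:ℝ)) y
                - Set.indicator (Set.Ico ((2:ℝ) ^ k * (ab.2 : ℝ) + (2:ℝ) ^ (k - 1))
                  ((2:ℝ) ^ k * ((ab.2 : ℝ) + 1))) (fun _ => (1:ℝ)) y) *
              (Set.indicator (Set.Ico ((2:ℝ) ^ k * ((ab.1 ^^^ ab.2 : ℕ) : ℝ))
                  ((2:ℝ) ^ k * ((ab.1 ^^^ ab.2 : ℕ) : ℝ) + (2:ℝ) ^ (k - 1))) (fun _ => (1:ℝ)) z
                - Set.indicator (Set.Ico ((2:ℝ) ^ k * ((ab.1 ^^^ ab.2 : ℕ) : ℝ) + (2:ℝ) ^ (k - 1))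
                  ((2:ℝ) ^ k * (((ab.1 ^^^ ab.2 : ℕ) : ℝ) + 1))) (fun _ => (1:ℝ)) z)|
          ≤ C * (eLpNorm f 3 volume).toReal * (eLpNorm g 3 volume).toReal
              * (eLpNorm h 3 volume).toReal := by
  obtain ⟨C₀, hC₀⟩ := hFS
  set C := max C₀ 0 with hCdef
  have hC0 : 0 ≤ C := le_max_right _ _
  have hC : ∀ (n : ℕ) (f g h : ℕ → ℕ → ℝ),
      ∑ s ∈ range n, |Lam n s f g h| ≤ C * (a3 n f + a3 n g + a3 n h) := by
    intro n f g h
    refine (hC₀ n f g h).trans ?_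
    have e : ∀ f : ℕ → ℕ → ℝ, 0 ≤ a3 n f := fun f => by unfold a3; positivity
    refine mul_le_mul_of_nonneg_right (le_max_left _ _) ?_
    have := e f; have := e g; have := e h
    linarith
  refine ⟨3 * C, fun S ε hε f g h mf mg mh sf sg' sh bf bg bh => ?_⟩
  have hf : Nice f := ⟨mf, sf, bf⟩
  have hg : Nice g := ⟨mg, sg', bg⟩
  have hh : Nice h := ⟨mh, sh, bh⟩
  change |Form S ε f g h| ≤ _
  refine homog hC0 ENNReal.toReal_nonneg ENNReal.toReal_nonneg ENNReal.toReal_nonneg ?_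
  intro a b c ha hb hc
  have h1 := sumcubes hC0 hC S ε hε (hf.const_mul a) (hg.const_mul b) (hh.const_mul c)
  rw [haar_form, abs_mul, abs_of_pos (by positivity : 0 < a * b * c)] at h1
  refine h1.trans (le_of_eq ?_)
  have e : ∀ (u : ℝ) (hu : 0 < u) (φ : ℝ × ℝ → ℝ) (hφ : Nice φ),
      ∫ p, |u * φ p|^3 = (u * (eLpNorm φ 3 volume).toReal)^3 := by
    intro u hu φ hφ
    rw [mul_pow, ← hφ.norm_cube, ← integral_const_mul]
    refine integral_congr_ae (Filter.Eventually.of_forall (fun p => ?_))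
    simp only [abs_mul, abs_of_pos hu, mul_pow]
  rw [e a ha f hf, e b hb g hg, e c hc h hh]

end

end Helper912.TH9
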