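import Pool.Agent.Helper912.LogDefs
import Pool.Agent.Helper912.TH9f

set_option autoImplicit false
open MeasureTheory Finset Filter Topology

namespace Helper912.LG

noncomputable section

/-! ### integrability and cyclic symmetry of `T4` -/

/-- integrand of `T4` -/
def F4 (f g h k : ℝ × ℝ × ℝ → ℝ) (p : ℝ × ℝ × ℝ × ℝ) : ℝ :=
  f (p.1, p.2.1, p.2.2.1) * g (p.2.1, p.2.2.1, p.2.2.2) *
    h (p.2.2.1, p.2.2.2, p.1) * k (p.2.2.2, p.1, p.2.1)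

theorem Ni.box {f : ℝ × ℝ × ℝ → ℝ} (hf : Ni f) :
    ∃ R : ℝ, ∀ x y z, (R < |x| ∨ R < |y| ∨ R < |z|) → f (x, y, z) = 0 := by
  obtain ⟨R, hR⟩ := hf.supp.isBounded.subset_closedBall (0 : ℝ × ℝ × ℝ)
  refine ⟨R, fun x y z h => ?_⟩
  by_contra hne
  have h1 := hR (subset_tsupport f hne)
  rw [mem_closedBall_zero_iff] at h1
  have hx : |x| ≤ R := le_trans (norm_fst_le ((x, y, z) : ℝ × ℝ × ℝ)) h1
  have hyz : ‖((y, z) : ℝ × ℝ)‖ ≤ R := le_trans (norm_snd_le ((x, y, z) : ℝ × ℝ × ℝ)) h1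
  have hy : |y| ≤ R := le_trans (norm_fst_le ((y, z) : ℝ × ℝ)) hyz
  have hz : |z| ≤ R := le_trans (norm_snd_le ((y, z) : ℝ × ℝ)) hyz
  rcases h with h | h | h <;> linarith

theorem F4_meas {f g h k : ℝ × ℝ × ℝ → ℝ} (hf : Measurable f) (hg : Measurable g)
    (hh : Measurable h) (hk : Measurable k) : Measurable (F4 f g h k) := by
  have a1 := hf.comp (by fun_prop : Measurable (fun p : ℝ × ℝ × ℝ × ℝ => (p.1, p.2.1, p.2.2.1)))
  have a2 := hg.comp (by fun_prop : Measurable (fun p : ℝ × ℝ × ℝ × ℝ => (p.2.1, p.2.2.1, p.2.2.2)))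
  have a3 := hh.comp (by fun_prop : Measurable (fun p : ℝ × ℝ × ℝ × ℝ => (p.2.2.1, p.2.2.2, p.1)))
  have a4 := hk.comp (by fun_prop : Measurable (fun p : ℝ × ℝ × ℝ × ℝ => (p.2.2.2, p.1, p.2.1)))
  exact ((a1.mul a2).mul a3).mul a4

theorem F4_intble {f g h k : ℝ × ℝ × ℝ → ℝ} (hf : Ni f) (hg : Ni g) (hh : Ni h) (hk : Ni k) :
    Integrable (F4 f g h k) := by
  obtain ⟨F, hF⟩ := hf.bdd
  obtain ⟨G, hG⟩ := hg.bdd
  obtain ⟨H, hH⟩ := hh.bdd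
  obtain ⟨K, hK⟩ := hk.bdd
  obtain ⟨R1, hR1⟩ := hf.box
  obtain ⟨R2, hR2⟩ := hg.box
  have F0 : 0 ≤ F := (abs_nonneg _).trans (hF 0)
  have G0 : 0 ≤ G := (abs_nonneg _).trans (hG 0)
  have H0 : 0 ≤ H := (abs_nonneg _).trans (hH 0)
  have K0 : 0 ≤ K := (abs_nonneg _).trans (hK 0)
  set R := max R1 R2 with hR
  set S : Set ℝ := Set.Icc (-R) R with hS
  have h1 : IntegrableOn (F4 f g h k) (S ×ˢ (S ×ˢ (S ×ˢ S))) volume := by
    refine Measure.integrableOn_of_bounded (M := F * G * H * K) ?_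
      (F4_meas hf.meas hg.meas hh.meas hk.meas).aestronglyMeasurable ?_
    · rw [Measure.volume_eq_prod, Measure.prod_prod, Measure.volume_eq_prod, Measure.prod_prod,
        Measure.volume_eq_prod, Measure.prod_prod]
      simp only [hS, Real.volume_Icc]
      exact ENNReal.mul_ne_top ENNReal.ofReal_ne_top (ENNReal.mul_ne_top ENNReal.ofReal_ne_top
        (ENNReal.mul_ne_top ENNReal.ofReal_ne_top ENNReal.ofReal_ne_top))
    · refine Filter.Eventually.of_forall (fun p => ?_)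
      unfold F4
      rw [Real.norm_eq_abs, abs_mul, abs_mul, abs_mul]
      have m1 : |f (p.1, p.2.1, p.2.2.1)| * |g (p.2.1, p.2.2.1, p.2.2.2)| ≤ F * G :=
        mul_le_mul (hF _) (hG _) (abs_nonneg _) F0
      have m2 : |f (p.1, p.2.1, p.2.2.1)| * |g (p.2.1, p.2.2.1, p.2.2.2)| *
          |h (p.2.2.1, p.2.2.2, p.1)| ≤ F * G * H :=
        mul_le_mul m1 (hH _) (abs_nonneg _) (mul_nonneg F0 G0)
      exact mul_le_mul m2 (hK _) (abs_nonneg _) (mul_nonneg (mul_nonneg F0 G0) H0)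
  rwa [integrableOn_iff_integrable_of_support_subset] at h1
  intro p hp
  by_contra hn
  apply hp
  have hcase : ¬ (|p.1| ≤ R ∧ |p.2.1| ≤ R ∧ |p.2.2.1| ≤ R ∧ |p.2.2.2| ≤ R) := by
    rintro ⟨a, b, c, e⟩
    exact hn ⟨abs_le.1 a, abs_le.1 b, abs_le.1 c, abs_le.1 e⟩
  have hR1' : R1 ≤ R := le_max_left _ _
  have hR2' : R2 ≤ R := le_max_right _ _
  unfold F4
  by_cases hx : |p.1| ≤ R ∧ |p.2.1| ≤ R ∧ |p.2.2.1| ≤ R
  · have h4 : R < |p.2.2.2| := by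
      by_contra hc
      exact hcase ⟨hx.1, hx.2.1, hx.2.2, not_lt.1 hc⟩
    rw [hR2 _ _ _ (Or.inr (Or.inr (lt_of_le_of_lt hR2' h4)))]; ring
  · have : R1 < |p.1| ∨ R1 < |p.2.1| ∨ R1 < |p.2.2.1| := by
      by_contra hc
      push Not at hc
      exact hx ⟨hc.1.trans hR1', hc.2.1.trans hR1', hc.2.2.trans hR1'⟩
    rw [hR1 _ _ _ this]; ring

theorem F4k_intble {f g h k : ℝ × ℝ × ℝ → ℝ} (hf : Ni f) (hg : Ni g) (hh : Ni h) (hk : Ni k)
    {κ : ℝ → ℝ} (hκ : Measurable κ) {K : ℝ} (hb : ∀ s, |κ s| ≤ K) :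
    Integrable (fun p => F4 f g h k p * κ (p.1 + p.2.1 + p.2.2.1 + p.2.2.2)) := by
  refine Integrable.mono' ((F4_intble hf hg hh hk).abs.mul_const K) ?_ ?_
  · exact ((F4_meas hf.meas hg.meas hh.meas hk.meas).mul
      (hκ.comp (by fun_prop))).aestronglyMeasurable
  · refine Filter.Eventually.of_forall (fun p => ?_)
    rw [Real.norm_eq_abs, abs_mul]
    exact mul_le_mul_of_nonneg_left (hb _) (abs_nonneg _)

/-- the cyclic change of variables -/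
def cyc : ℝ × ℝ × ℝ × ℝ ≃ᵐ ℝ × ℝ × ℝ × ℝ :=
  (MeasurableEquiv.prodComm).trans ((MeasurableEquiv.prodAssoc).trans
    ((MeasurableEquiv.refl ℝ).prodCongr MeasurableEquiv.prodAssoc))

theorem cyc_mp : MeasurePreserving cyc (volume : Measure (ℝ × ℝ × ℝ × ℝ)) volume := by
  unfold cyc
  have h1 : MeasurePreserving (MeasurableEquiv.prodComm : ℝ × (ℝ × ℝ × ℝ) ≃ᵐ (ℝ × ℝ × ℝ) × ℝ)
      (volume : Measure (ℝ × ℝ × ℝ × ℝ)) volume := Measure.measurePreserving_swap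
  have h2 : MeasurePreserving (MeasurableEquiv.prodAssoc : (ℝ × (ℝ × ℝ)) × ℝ ≃ᵐ ℝ × (ℝ × ℝ) × ℝ)
      (volume : Measure ((ℝ × (ℝ × ℝ)) × ℝ)) volume :=
    measurePreserving_prodAssoc volume volume volume
  have h3 : MeasurePreserving (MeasurableEquiv.prodAssoc : (ℝ × ℝ) × ℝ ≃ᵐ ℝ × ℝ × ℝ)
      (volume : Measure ((ℝ × ℝ) × ℝ)) volume :=
    measurePreserving_prodAssoc volume volume volume
  have h4 : MeasurePreserving ((MeasurableEquiv.refl ℝ).prodCongr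
      (MeasurableEquiv.prodAssoc : (ℝ × ℝ) × ℝ ≃ᵐ ℝ × ℝ × ℝ))
      (volume : Measure (ℝ × (ℝ × ℝ) × ℝ)) volume :=
    (MeasurePreserving.id (volume : Measure ℝ)).prod h3
  exact (h1.trans (h2.trans h4))

theorem T4_cyc (κ : ℝ → ℝ) (f g h k : ℝ × ℝ × ℝ → ℝ) : T4 κ f g h k = T4 κ g h k f := by
  unfold T4
  have := cyc_mp.integral_comp' (f := cyc) (fun p : ℝ × ℝ × ℝ × ℝ => g (p.1, p.2.1, p.2.2.1) *
    h (p.2.1, p.2.2.1, p.2.2.2) * k (p.2.2.1, p.2.2.2, p.1) * f (p.2.2.2, p.1, p.2.1) *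
    κ (p.1 + p.2.1 + p.2.2.1 + p.2.2.2))
  rw [← this]
  refine integral_congr_ae (Filter.Eventually.of_forall (fun p => ?_))
  have e : cyc p = (p.2.1, p.2.2.1, p.2.2.2, p.1) := rfl
  simp only [e]
  have : p.2.1 + p.2.2.1 + p.2.2.2 + p.1 = p.1 + p.2.1 + p.2.2.1 + p.2.2.2 := by ring
  rw [this]; ring

theorem T4_eq (κ : ℝ → ℝ) (f g h k : ℝ × ℝ × ℝ → ℝ) :
    T4 κ f g h k = ∫ p, F4 f g h k p * κ (p.1 + p.2.1 + p.2.2.1 + p.2.2.2) := rfl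

theorem T4_sum {κ : ℝ → ℝ} (hκ : Measurable κ) {K : ℝ} (hb : ∀ s, |κ s| ≤ K)
    {J : Finset ℤ} {u : ℤ → ℝ × ℝ × ℝ → ℝ} (hu : ∀ m, Ni (u m)) {g h k : ℝ × ℝ × ℝ → ℝ}
    (hg : Ni g) (hh : Ni h) (hk : Ni k) :
    T4 κ (fun x => ∑ m ∈ J, u m x) g h k = ∑ m ∈ J, T4 κ (u m) g h k := by
  simp only [T4_eq]
  rw [← integral_finsetSum _ (fun m _ => F4k_intble (hu m) hg hh hk hκ hb)]
  refine integral_congr_ae (Filter.Eventually.of_forall (fun p => ?_))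
  simp only [F4, sum_mul]

theorem T4_smul (κ : ℝ → ℝ) (f g h k : ℝ × ℝ × ℝ → ℝ) (a b c e : ℝ) :
    T4 κ (fun x => a * f x) (fun x => b * g x) (fun x => c * h x) (fun x => e * k x)
      = a * b * c * e * T4 κ f g h k := by
  simp only [T4_eq]
  rw [← integral_const_mul]
  refine integral_congr_ae (Filter.Eventually.of_forall (fun p => ?_))
  simp only [F4]; ring

end

end Helper912.LG
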