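import Pool.Agent.Helper912.LP1

set_option autoImplicit false
open MeasureTheory Finset Filter Topology

namespace Helper912.LG

noncomputable section

abbrev E3 := ℝ × ℝ × ℝ

/-- level set piece `8^m ≤ |f| < 8^(m+1)` -/
def lev (m : ℤ) (f : E3 → ℝ) : E3 → ℝ :=
  fun x => if (8:ℝ)^m ≤ |f x| ∧ |f x| < (8:ℝ)^(m+1) then f x else 0

/-- truncation from below -/
def tr (m : ℤ) (f : E3 → ℝ) : E3 → ℝ := fun x => if (8:ℝ)^m ≤ |f x| then f x else 0

theorem Ni.of_le {f u : E3 → ℝ} (hf : Ni f) (hu : Measurable u) (h : ∀ x, u x = f x ∨ u x = 0) :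
    Ni u where
  meas := hu
  supp := hf.supp.mono (fun x hx => by
    rcases h x with h1 | h1
    · rw [Function.mem_support] at hx ⊢; rwa [← h1]
    · exact absurd h1 hx)
  bdd := by
    obtain ⟨M, hM⟩ := hf.bdd
    refine ⟨M, fun x => ?_⟩
    rcases h x with h1 | h1
    · rw [h1]; exact hM x
    · rw [h1, abs_zero]; exact (abs_nonneg _).trans (hM x)

theorem lev_meas {f : E3 → ℝ} (hf : Measurable f) (m : ℤ) : Measurable (lev m f) := by
  unfold lev
  refine Measurable.ite ?_ hf measurable_const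
  have ha : Measurable (fun x => |f x|) := by fun_prop
  exact (measurableSet_le measurable_const ha).inter (measurableSet_lt ha measurable_const)

theorem tr_meas {f : E3 → ℝ} (hf : Measurable f) (m : ℤ) : Measurable (tr m f) := by
  unfold tr
  refine Measurable.ite ?_ hf measurable_const
  have ha : Measurable (fun x => |f x|) := by fun_prop
  exact measurableSet_le measurable_const ha

theorem lev_ni {f : E3 → ℝ} (hf : Ni f) (m : ℤ) : Ni (lev m f) :=
  hf.of_le (lev_meas hf.meas m) (fun x => by unfold lev; split_ifs <;> simp)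

theorem tr_ni {f : E3 → ℝ} (hf : Ni f) (m : ℤ) : Ni (tr m f) :=
  hf.of_le (tr_meas hf.meas m) (fun x => by unfold tr; split_ifs <;> simp)

/-- integrability of powers -/
theorem Ni.pow_intble {f : E3 → ℝ} (hf : Ni f) {q : ℕ} (hq : 1 ≤ q) :
    Integrable (fun x => |f x|^q) := by
  obtain ⟨M, hM⟩ := hf.bdd
  have hK : IsCompact (tsupport f) := hf.supp
  have hm : Measurable (fun x => |f x|^q) := by
    have := hf.meas
    fun_prop
  have h1 : IntegrableOn (fun x => |f x|^q) (tsupport f) volume := by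
    refine Measure.integrableOn_of_bounded (M := M^q) hK.measure_lt_top.ne
      hm.aestronglyMeasurable ?_
    refine Filter.Eventually.of_forall (fun p => ?_)
    rw [Real.norm_eq_abs, abs_of_nonneg (by positivity)]
    exact pow_le_pow_left₀ (abs_nonneg _) (hM _) q
  rwa [integrableOn_iff_integrable_of_support_subset] at h1
  intro p hp
  apply subset_tsupport
  intro h0
  apply hp
  simp only [h0, abs_zero]
  exact zero_pow (by omega)

theorem Ni.nm_pow {f : E3 → ℝ} (hf : Ni f) {q : ℕ} (hq : 1 ≤ q) :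
    nm (q : ENNReal) f ^ q = ∫ x, |f x|^q := by
  have hq0 : ((q : ℕ) : ENNReal) ≠ 0 := by
    simp only [ne_eq, Nat.cast_eq_zero]; omega
  have hqt : ((q : ℕ) : ENNReal) ≠ ⊤ := ENNReal.natCast_ne_top q
  have hml : MemLp f (q : ENNReal) volume := by
    rw [← integrable_norm_rpow_iff hf.meas.aestronglyMeasurable hq0 hqt]
    refine (hf.pow_intble hq).congr (Filter.Eventually.of_forall (fun p => ?_))
    simp only [Real.norm_eq_abs, ENNReal.toReal_natCast, Real.rpow_natCast]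
  unfold nm
  rw [hml.eLpNorm_eq_integral_rpow_norm hq0 hqt]
  have h0 : 0 ≤ ∫ x, |f x|^q := integral_nonneg (fun p => by positivity)
  have e : ∫ a, ‖f a‖ ^ ((q : ℕ) : ENNReal).toReal = ∫ x, |f x|^q := by
    refine integral_congr_ae (Filter.Eventually.of_forall (fun p => ?_))
    simp only [Real.norm_eq_abs, ENNReal.toReal_natCast, Real.rpow_natCast]
  rw [e, ENNReal.toReal_ofReal (by positivity), ← Real.rpow_natCast, ← Real.rpow_mul h0]
  have : ((ENNReal.toReal (q : ENNReal))⁻¹ * (q : ℝ)) = 1 := by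
    rw [ENNReal.toReal_natCast]
    exact inv_mul_cancel₀ (by exact_mod_cast (by omega : q ≠ 0))
  rw [this, Real.rpow_one]

theorem nm_nonneg {E : Type*} [MeasureSpace E] (p : ENNReal) (f : E → ℝ) : 0 ≤ nm p f :=
  ENNReal.toReal_nonneg

/-- `L^4` mass of a level -/
def I4 (m : ℤ) (f : E3 → ℝ) : ℝ := ∫ x, |lev m f x|^4

theorem I4_nonneg (m : ℤ) (f : E3 → ℝ) : 0 ≤ I4 m f := integral_nonneg (fun _ => by positivity)

theorem zz (m : ℤ) : (0:ℝ) < (8:ℝ)^m := by positivity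

/-- `‖lev m f‖_2^2 * 64^m ≤ I4` -/
theorem lev2 {f : E3 → ℝ} (hf : Ni f) (m : ℤ) : (nm 2 (lev m f) * (8:ℝ)^m)^2 ≤ I4 m f := by
  have h := (lev_ni hf m).nm_pow (q := 2) (by norm_num)
  have h' : nm 2 (lev m f) ^ 2 = ∫ x, |lev m f x|^2 := by exact_mod_cast h
  rw [mul_pow, h', ← integral_mul_const]
  unfold I4
  refine integral_mono (((lev_ni hf m).pow_intble (by norm_num)).mul_const _)
    ((lev_ni hf m).pow_intble (by norm_num)) (fun x => ?_)
  simp only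
  unfold lev
  split_ifs with hc
  · have h1 : ((8:ℝ)^m)^2 ≤ |f x|^2 := pow_le_pow_left₀ (zz m).le hc.1 2
    calc |f x|^2 * ((8:ℝ)^m)^2 ≤ |f x|^2 * |f x|^2 :=
          mul_le_mul_of_nonneg_left h1 (by positivity)
      _ = |f x|^4 := by ring
  · simp

/-- `‖lev m f‖_6^6 ≤ 64^(m+1) I4` -/
theorem lev6 {f : E3 → ℝ} (hf : Ni f) (m : ℤ) :
    (nm 6 (lev m f) * ((2:ℝ)^(m+1))⁻¹)^6 ≤ I4 m f := by
  have h := (lev_ni hf m).nm_pow (q := 6) (by norm_num)
  have h' : nm 6 (lev m f) ^ 6 = ∫ x, |lev m f x|^6 := by exact_mod_cast h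
  rw [mul_pow, h', ← integral_mul_const]
  unfold I4
  refine integral_mono (((lev_ni hf m).pow_intble (by norm_num)).mul_const _)
    ((lev_ni hf m).pow_intble (by norm_num)) (fun x => ?_)
  simp only
  unfold lev
  split_ifs with hc
  · have e8 : (8:ℝ)^(m+1) = ((2:ℝ)^(m+1))^3 := by
      rw [show (8:ℝ) = 2^3 by norm_num, ← zpow_natCast, ← zpow_mul, ← zpow_natCast, ← zpow_mul]
      congr 1; ring
    have h2p : (0:ℝ) < (2:ℝ)^(m+1) := by positivity
    have h1 : |f x|^2 ≤ (((2:ℝ)^(m+1))^3)^2 := by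
      refine pow_le_pow_left₀ (abs_nonneg _) ?_ 2
      rw [← e8]; exact hc.2.le
    calc |f x|^6 * (((2:ℝ)^(m+1))⁻¹)^6 = |f x|^4 * (|f x|^2 * (((2:ℝ)^(m+1))⁻¹)^6) := by ring
      _ ≤ |f x|^4 * ((((2:ℝ)^(m+1))^3)^2 * (((2:ℝ)^(m+1))⁻¹)^6) := by
          refine mul_le_mul_of_nonneg_left (mul_le_mul_of_nonneg_right h1 (by positivity))
            (by positivity)
      _ = |f x|^4 := by field_simp
  · simp

/-- the weight -/
def w (M m : ℤ) : ℝ := if m ≤ M then (1/2:ℝ)^((M - m).toNat) else 0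

theorem w_nonneg (M m : ℤ) : 0 ≤ w M m := by unfold w; split_ifs <;> positivity

theorem w_row (J : Finset ℤ) (M : ℤ) : ∑ m ∈ J, w M m ≤ 2 := by
  have h1 : ∑ m ∈ J, w M m = ∑ m ∈ J.filter (fun m => m ≤ M), (1/2:ℝ)^((M - m).toNat) := by
    unfold w; rw [sum_filter]
  rw [h1]
  have hinj : Set.InjOn (fun m : ℤ => (M - m).toNat) (J.filter (fun m => m ≤ M) : Set ℤ) := by
    intro a ha b hb hab
    have ha' := (mem_filter.1 (mem_coe.1 ha)).2
    have hb' := (mem_filter.1 (mem_coe.1 hb)).2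
    simp only at hab
    omega
  rw [← sum_image (f := fun n : ℕ => (1/2:ℝ)^n) (g := fun m : ℤ => (M - m).toNat) hinj]
  have hs : Summable (fun n : ℕ => (1/2:ℝ)^n) := summable_geometric_two
  calc _ ≤ ∑' n : ℕ, (1/2:ℝ)^n := hs.sum_le_tsum _ (fun _ _ => by positivity)
    _ = 2 := tsum_geometric_two

theorem w_col (J : Finset ℤ) (m : ℤ) : ∑ M ∈ J, w M m ≤ 2 := by
  have h1 : ∑ M ∈ J, w M m = ∑ M ∈ J.filter (fun M => m ≤ M), (1/2:ℝ)^((M - m).toNat) := by
    unfold w; rw [sum_filter]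
  rw [h1]
  have hinj : Set.InjOn (fun M : ℤ => (M - m).toNat) (J.filter (fun M => m ≤ M) : Set ℤ) := by
    intro a ha b hb hab
    have ha' := (mem_filter.1 (mem_coe.1 ha)).2
    have hb' := (mem_filter.1 (mem_coe.1 hb)).2
    simp only at hab
    omega
  rw [← sum_image (f := fun n : ℕ => (1/2:ℝ)^n) (g := fun M : ℤ => (M - m).toNat) hinj]
  have hs : Summable (fun n : ℕ => (1/2:ℝ)^n) := summable_geometric_two
  calc _ ≤ ∑' n : ℕ, (1/2:ℝ)^n := hs.sum_le_tsum _ (fun _ _ => by positivity)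
    _ = 2 := tsum_geometric_two

/-- the basic inequality at one quadruple of levels -/
theorem level_ineq {u v1 v2 v3 : E3 → ℝ} (hu : Ni u) (h1 : Ni v1) (h2 : Ni v2) (h3 : Ni v3)
    {M m1 m2 m3 : ℤ} (l1 : m1 ≤ M) (l2 : m2 ≤ M) (l3 : m3 ≤ M) :
    nm 2 (lev M u) * nm 6 (lev m1 v1) * nm 6 (lev m2 v2) * nm 6 (lev m3 v3)
      ≤ 8 * (w M m1 * w M m2 * w M m3) * (I4 M u + I4 m1 v1 + I4 m2 v2 + I4 m3 v3) := by
  have X := lev2 hu M
  have Y1 := lev6 h1 m1
  have Y2 := lev6 h2 m2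
  have Y3 := lev6 h3 m3
  set x := nm 2 (lev M u) * (8:ℝ)^M with hx
  set y1 := nm 6 (lev m1 v1) * ((2:ℝ)^(m1+1))⁻¹ with hy1
  set y2 := nm 6 (lev m2 v2) * ((2:ℝ)^(m2+1))⁻¹ with hy2
  set y3 := nm 6 (lev m3 v3) * ((2:ℝ)^(m3+1))⁻¹ with hy3
  have x0 : 0 ≤ x := mul_nonneg (nm_nonneg _ _) (zz M).le
  have y10 : 0 ≤ y1 := mul_nonneg (nm_nonneg _ _) (by positivity)
  have y20 : 0 ≤ y2 := mul_nonneg (nm_nonneg _ _) (by positivity)
  have y30 : 0 ≤ y3 := mul_nonneg (nm_nonneg _ _) (by positivity)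
  -- AM-GM
  have am : x * y1 * y2 * y3 ≤ x^2 + y1^6 + y2^6 + y3^6 := by
    have s1 : x * y1 * y2 * y3 ≤ (x^2 + (y1*y2*y3)^2) / 2 := by
      nlinarith [sq_nonneg (x - y1*y2*y3)]
    have s2 : (y1*y2*y3)^2 ≤ y1^6 + y2^6 + y3^6 := by
      have a1 : 0 ≤ y1^2 := by positivity
      have a2 : 0 ≤ y2^2 := by positivity
      have a3 : 0 ≤ y3^2 := by positivity
      have key : ∀ a b c : ℝ, 0 ≤ a → 0 ≤ b → 0 ≤ c → a*b*c ≤ a^3 + b^3 + c^3 := by
        intro a b c ha hb hc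
        nlinarith [mul_nonneg ha hb, mul_nonneg hb hc, mul_nonneg ha hc, sq_nonneg (a-b),
          sq_nonneg (b-c), sq_nonneg (a-c), mul_nonneg (add_nonneg (add_nonneg ha hb) hc)
          (add_nonneg (add_nonneg (sq_nonneg (a-b)) (sq_nonneg (b-c))) (sq_nonneg (a-c))),
          pow_nonneg ha 3, pow_nonneg hb 3, pow_nonneg hc 3]
      have := key (y1^2) (y2^2) (y3^2) a1 a2 a3
      nlinarith [this]
    nlinarith [sq_nonneg x, pow_nonneg y10 6, pow_nonneg y20 6, pow_nonneg y30 6]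
  have am2 : x * y1 * y2 * y3 ≤ I4 M u + I4 m1 v1 + I4 m2 v2 + I4 m3 v3 := by linarith
  -- the powers of two
  have ew : ∀ m : ℤ, m ≤ M → (2:ℝ)^(m+1) * ((2:ℝ)^M)⁻¹ = 2 * w M m := by
    intro m hm
    unfold w
    rw [if_pos hm]
    have h0 : (((M - m).toNat : ℕ) : ℤ) = M - m := Int.toNat_of_nonneg (by omega)
    have h1 : ((1/2:ℝ))^((M-m).toNat) = (2:ℝ)^(-(M - m)) := by
      have h2 : (2:ℝ)^(-(((M-m).toNat : ℕ) : ℤ)) = (1/2:ℝ)^((M-m).toNat) := by
        rw [zpow_neg, zpow_natCast, one_div, inv_pow]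
      rw [← h2, h0]
    rw [h1, ← zpow_neg, ← zpow_add₀ (by norm_num)]
    rw [show (m + 1 + -M) = 1 + (-(M-m)) by ring, zpow_add₀ (by norm_num), zpow_one]
  have e8 : ((8:ℝ)^M)⁻¹ = ((2:ℝ)^M)⁻¹ * ((2:ℝ)^M)⁻¹ * ((2:ℝ)^M)⁻¹ := by
    rw [← mul_inv, ← mul_inv]
    congr 1
    rw [← mul_zpow, ← mul_zpow]; norm_num
  have eq : nm 2 (lev M u) * nm 6 (lev m1 v1) * nm 6 (lev m2 v2) * nm 6 (lev m3 v3)
      = (x * y1 * y2 * y3) * (8 * (w M m1 * w M m2 * w M m3)) := by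
    have p8 : (8:ℝ)^M ≠ 0 := (zz M).ne'
    have p1 : (2:ℝ)^(m1+1) ≠ 0 := by positivity
    have p2 : (2:ℝ)^(m2+1) ≠ 0 := by positivity
    have p3 : (2:ℝ)^(m3+1) ≠ 0 := by positivity
    have q : 8 * (w M m1 * w M m2 * w M m3) = ((8:ℝ)^M)⁻¹ * (2:ℝ)^(m1+1) * (2:ℝ)^(m2+1)
        * (2:ℝ)^(m3+1) := by
      rw [e8]
      calc 8 * (w M m1 * w M m2 * w M m3) = (2 * w M m1) * (2 * w M m2) * (2 * w M m3) := by ring
        _ = _ := by rw [← ew m1 l1, ← ew m2 l2, ← ew m3 l3]; ring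
    rw [q, hx, hy1, hy2, hy3]
    field_simp
  rw [eq, mul_comm]
  exact mul_le_mul_of_nonneg_left am2 (by
    have := w_nonneg M m1; have := w_nonneg M m2; have := w_nonneg M m3; positivity)

end

end Helper912.LG
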