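import Pool.Agent.Helper912.LP2

set_option autoImplicit false
open MeasureTheory Finset Filter Topology

namespace Helper912.LG

noncomputable section

theorem s1 (J : Finset ℤ) (u : ℤ → ℝ) (α β : ℝ) (d : ℤ → ℝ) :
    ∑ z ∈ J, u z * (α + β * d z) = α * (∑ z ∈ J, u z) + β * ∑ z ∈ J, u z * d z := by
  rw [mul_sum, mul_sum, ← sum_add_distrib]
  refine sum_congr rfl (fun z _ => ?_)
  ring

theorem comb (J : Finset ℤ) (a b c d : ℤ → ℝ) (ha : ∀ m, 0 ≤ a m) (hb : ∀ m, 0 ≤ b m)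
    (hc : ∀ m, 0 ≤ c m) (hd : ∀ m, 0 ≤ d m) :
    ∑ M ∈ J, ∑ x ∈ J, ∑ y ∈ J, ∑ z ∈ J, (w M x * w M y * w M z) * (a M + b x + c y + d z)
      ≤ 8 * (∑ m ∈ J, a m + ∑ m ∈ J, b m + ∑ m ∈ J, c m + ∑ m ∈ J, d m) := by
  set r : ℤ → ℝ := fun M => ∑ x ∈ J, w M x with hr
  have hr0 : ∀ M, 0 ≤ r M := fun M => sum_nonneg (fun _ _ => w_nonneg _ _)
  have hr2 : ∀ M, r M ≤ 2 := fun M => w_row J M
  have hcol : ∀ (b : ℤ → ℝ), (∀ m, 0 ≤ b m) → ∑ M ∈ J, ∑ x ∈ J, w M x * b x ≤ 2 * ∑ m ∈ J, b m := by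
    intro b hb
    rw [sum_comm, mul_sum]
    refine sum_le_sum (fun x _ => ?_)
    rw [← sum_mul]
    exact mul_le_mul_of_nonneg_right (w_col J x) (hb x)
  have hpt : ∀ M, ∑ x ∈ J, ∑ y ∈ J, ∑ z ∈ J, (w M x * w M y * w M z) * (a M + b x + c y + d z)
      ≤ 8 * a M + 4 * (∑ x ∈ J, w M x * b x) + 4 * (∑ x ∈ J, w M x * c x)
        + 4 * (∑ x ∈ J, w M x * d x) := by
    intro M
    set Bs := ∑ x ∈ J, w M x * b x with hBs
    set Cs := ∑ x ∈ J, w M x * c x with hCs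
    set Ds := ∑ x ∈ J, w M x * d x with hDs
    have B0 : 0 ≤ Bs := sum_nonneg (fun x _ => mul_nonneg (w_nonneg _ _) (hb x))
    have C0 : 0 ≤ Cs := sum_nonneg (fun x _ => mul_nonneg (w_nonneg _ _) (hc x))
    have D0 : 0 ≤ Ds := sum_nonneg (fun x _ => mul_nonneg (w_nonneg _ _) (hd x))
    have e : ∑ x ∈ J, ∑ y ∈ J, ∑ z ∈ J, (w M x * w M y * w M z) * (a M + b x + c y + d z)
        = a M * (r M * r M * r M) + (r M * r M) * Bs + (r M * r M) * Cs + (r M * r M) * Ds := by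
      have ez : ∀ x y, ∑ z ∈ J, (w M x * w M y * w M z) * (a M + b x + c y + d z)
          = w M x * (w M y * ((a M + b x) * r M + Ds + r M * c y)) := by
        intro x y
        have h := s1 J (fun z => w M z) (a M + b x + c y) 1 d
        have : ∑ z ∈ J, (w M x * w M y * w M z) * (a M + b x + c y + d z)
            = w M x * w M y * ∑ z ∈ J, w M z * (a M + b x + c y + 1 * d z) := by
          rw [mul_sum]
          refine sum_congr rfl (fun z _ => ?_)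
          ring
        rw [this, h]; ring
      have ey : ∀ x, ∑ y ∈ J, ∑ z ∈ J, (w M x * w M y * w M z) * (a M + b x + c y + d z)
          = w M x * ((a M * r M + Ds) * r M + r M * Cs + (r M * r M) * b x) := by
        intro x
        simp only [ez]
        rw [← mul_sum, s1 J (fun y => w M y) ((a M + b x) * r M + Ds) (r M) c]
        ring
      simp only [ey]
      rw [s1 J (fun x => w M x) ((a M * r M + Ds) * r M + r M * Cs) (r M * r M) b]
      ring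
    rw [e]
    have h0 := hr0 M
    have h2 := hr2 M
    have hrr : r M * r M ≤ 4 := by nlinarith
    have hrrr : r M * r M * r M ≤ 8 := by nlinarith [mul_nonneg h0 h0]
    have t1 : a M * (r M * r M * r M) ≤ a M * 8 := mul_le_mul_of_nonneg_left hrrr (ha M)
    have t2 : (r M * r M) * Bs ≤ 4 * Bs := mul_le_mul_of_nonneg_right hrr B0
    have t3 : (r M * r M) * Cs ≤ 4 * Cs := mul_le_mul_of_nonneg_right hrr C0
    have t4 : (r M * r M) * Ds ≤ 4 * Ds := mul_le_mul_of_nonneg_right hrr D0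
    linarith
  calc _ ≤ ∑ M ∈ J, (8 * a M + 4 * (∑ x ∈ J, w M x * b x) + 4 * (∑ x ∈ J, w M x * c x)
        + 4 * (∑ x ∈ J, w M x * d x)) := sum_le_sum (fun M _ => hpt M)
    _ = 8 * ∑ m ∈ J, a m + 4 * (∑ M ∈ J, ∑ x ∈ J, w M x * b x)
        + 4 * (∑ M ∈ J, ∑ x ∈ J, w M x * c x) + 4 * (∑ M ∈ J, ∑ x ∈ J, w M x * d x) := by
        rw [sum_add_distrib, sum_add_distrib, sum_add_distrib, ← mul_sum, ← mul_sum, ← mul_sum,
          ← mul_sum]
    _ ≤ _ := by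
        have := hcol b hb
        have := hcol c hc
        have := hcol d hd
        linarith

theorem cyc4 (J : Finset ℤ) (F : ℤ → ℤ → ℤ → ℤ → ℝ) :
    ∑ a ∈ J, ∑ b ∈ J, ∑ c ∈ J, ∑ d ∈ J, F a b c d
      = ∑ b ∈ J, ∑ c ∈ J, ∑ d ∈ J, ∑ a ∈ J, F a b c d := by
  rw [sum_comm]
  refine sum_congr rfl (fun b _ => ?_)
  rw [sum_comm]
  refine sum_congr rfl (fun c _ => ?_)
  rw [sum_comm]

/-- hypothesis: the `(2,6,6,6)` bound for the kernel `κ` -/
def HB (A : ℝ) (κ : ℝ → ℝ) : Prop := ∀ f g h k : E3 → ℝ, Ni f → Ni g → Ni h → Ni k →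
  |T4 κ f g h k| ≤ A * nm 2 f * nm 6 g * nm 6 h * nm 6 k

theorem one_max {A : ℝ} (hA : 0 ≤ A) {κ : ℝ → ℝ} (H : HB A κ) {u v1 v2 v3 : E3 → ℝ}
    (hu : Ni u) (h1 : Ni v1) (h2 : Ni v2) (h3 : Ni v3)
    {M m1 m2 m3 : ℤ} (l1 : m1 ≤ M) (l2 : m2 ≤ M) (l3 : m3 ≤ M) :
    |T4 κ (lev M u) (lev m1 v1) (lev m2 v2) (lev m3 v3)|
      ≤ 8 * A * ((w M m1 * w M m2 * w M m3) * (I4 M u + I4 m1 v1 + I4 m2 v2 + I4 m3 v3)) := by
  refine (H _ _ _ _ (lev_ni hu M) (lev_ni h1 m1) (lev_ni h2 m2) (lev_ni h3 m3)).trans ?_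
  have := level_ineq hu h1 h2 h3 l1 l2 l3
  calc A * nm 2 (lev M u) * nm 6 (lev m1 v1) * nm 6 (lev m2 v2) * nm 6 (lev m3 v3)
      = A * (nm 2 (lev M u) * nm 6 (lev m1 v1) * nm 6 (lev m2 v2) * nm 6 (lev m3 v3)) := by ring
    _ ≤ A * (8 * (w M m1 * w M m2 * w M m3) * (I4 M u + I4 m1 v1 + I4 m2 v2 + I4 m3 v3)) :=
      mul_le_mul_of_nonneg_left this hA
    _ = _ := by ring

theorem quad {A : ℝ} (hA : 0 ≤ A) {κ : ℝ → ℝ} (H : HB A κ) {f g h k : E3 → ℝ}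
    (hf : Ni f) (hg : Ni g) (hh : Ni h) (hk : Ni k) (a b c d : ℤ) :
    |T4 κ (lev a f) (lev b g) (lev c h) (lev d k)|
      ≤ 8 * A * ((w a b * w a c * w a d) * (I4 a f + I4 b g + I4 c h + I4 d k))
      + 8 * A * ((w b c * w b d * w b a) * (I4 b g + I4 c h + I4 d k + I4 a f))
      + 8 * A * ((w c d * w c a * w c b) * (I4 c h + I4 d k + I4 a f + I4 b g))
      + 8 * A * ((w d a * w d b * w d c) * (I4 d k + I4 a f + I4 b g + I4 c h)) := by
  have W : ∀ x y : ℤ, 0 ≤ w x y := w_nonneg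
  have ia := I4_nonneg a f
  have ib := I4_nonneg b g
  have ic := I4_nonneg c h
  have id := I4_nonneg d k
  have p1 : 0 ≤ 8 * A * ((w a b * w a c * w a d) * (I4 a f + I4 b g + I4 c h + I4 d k)) := by
    have := W a b; have := W a c; have := W a d; positivity
  have p2 : 0 ≤ 8 * A * ((w b c * w b d * w b a) * (I4 b g + I4 c h + I4 d k + I4 a f)) := by
    have := W b c; have := W b d; have := W b a; positivity
  have p3 : 0 ≤ 8 * A * ((w c d * w c a * w c b) * (I4 c h + I4 d k + I4 a f + I4 b g)) := by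
    have := W c d; have := W c a; have := W c b; positivity
  have p4 : 0 ≤ 8 * A * ((w d a * w d b * w d c) * (I4 d k + I4 a f + I4 b g + I4 c h)) := by
    have := W d a; have := W d b; have := W d c; positivity
  have hmax : (b ≤ a ∧ c ≤ a ∧ d ≤ a) ∨ (c ≤ b ∧ d ≤ b ∧ a ≤ b) ∨ (d ≤ c ∧ a ≤ c ∧ b ≤ c) ∨
      (a ≤ d ∧ b ≤ d ∧ c ≤ d) := by omega
  rcases hmax with hm | hm | hm | hm
  · have := one_max hA H hf hg hh hk hm.1 hm.2.1 hm.2.2
    linarith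
  · rw [T4_cyc]
    have := one_max hA H hg hh hk hf hm.1 hm.2.1 hm.2.2
    linarith
  · rw [T4_cyc, T4_cyc]
    have := one_max hA H hh hk hf hg hm.1 hm.2.1 hm.2.2
    linarith
  · rw [T4_cyc, T4_cyc, T4_cyc]
    have := one_max hA H hk hf hg hh hm.1 hm.2.1 hm.2.2
    linarith

theorem sum_levels {A : ℝ} (hA : 0 ≤ A) {κ : ℝ → ℝ} (H : HB A κ) {f g h k : E3 → ℝ}
    (hf : Ni f) (hg : Ni g) (hh : Ni h) (hk : Ni k) (J : Finset ℤ) :
    ∑ a ∈ J, ∑ b ∈ J, ∑ c ∈ J, ∑ d ∈ J, |T4 κ (lev a f) (lev b g) (lev c h) (lev d k)|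
      ≤ 256 * A * (∑ m ∈ J, I4 m f + ∑ m ∈ J, I4 m g + ∑ m ∈ J, I4 m h + ∑ m ∈ J, I4 m k) := by
  have nf : ∀ m, 0 ≤ I4 m f := fun m => I4_nonneg m f
  have ng : ∀ m, 0 ≤ I4 m g := fun m => I4_nonneg m g
  have nh : ∀ m, 0 ≤ I4 m h := fun m => I4_nonneg m h
  have nk : ∀ m, 0 ≤ I4 m k := fun m => I4_nonneg m k
  have c1 := comb J (fun m => I4 m f) (fun m => I4 m g) (fun m => I4 m h) (fun m => I4 m k) nf ng nh nk
  have c2 := comb J (fun m => I4 m g) (fun m => I4 m h) (fun m => I4 m k) (fun m => I4 m f) ng nh nk nf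
  have c3 := comb J (fun m => I4 m h) (fun m => I4 m k) (fun m => I4 m f) (fun m => I4 m g) nh nk nf ng
  have c4 := comb J (fun m => I4 m k) (fun m => I4 m f) (fun m => I4 m g) (fun m => I4 m h) nk nf ng nh
  have e2 := cyc4 J (fun a b c d => (w b c * w b d * w b a) * (I4 b g + I4 c h + I4 d k + I4 a f))
  have e3 := cyc4 J (fun a b c d => (w c d * w c a * w c b) * (I4 c h + I4 d k + I4 a f + I4 b g))
  have e3' := cyc4 J (fun b c d a => (w c d * w c a * w c b) * (I4 c h + I4 d k + I4 a f + I4 b g))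
  have e4 := cyc4 J (fun a b c d => (w d a * w d b * w d c) * (I4 d k + I4 a f + I4 b g + I4 c h))
  have e4' := cyc4 J (fun b c d a => (w d a * w d b * w d c) * (I4 d k + I4 a f + I4 b g + I4 c h))
  have e4'' := cyc4 J (fun c d a b => (w d a * w d b * w d c) * (I4 d k + I4 a f + I4 b g + I4 c h))
  calc _ ≤ ∑ a ∈ J, ∑ b ∈ J, ∑ c ∈ J, ∑ d ∈ J,
        (8 * A * ((w a b * w a c * w a d) * (I4 a f + I4 b g + I4 c h + I4 d k))
      + 8 * A * ((w b c * w b d * w b a) * (I4 b g + I4 c h + I4 d k + I4 a f))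
      + 8 * A * ((w c d * w c a * w c b) * (I4 c h + I4 d k + I4 a f + I4 b g))
      + 8 * A * ((w d a * w d b * w d c) * (I4 d k + I4 a f + I4 b g + I4 c h))) :=
        sum_le_sum (fun a _ => sum_le_sum (fun b _ => sum_le_sum (fun c _ => sum_le_sum
          (fun d _ => quad hA H hf hg hh hk a b c d))))
    _ = 8 * A * (∑ a ∈ J, ∑ b ∈ J, ∑ c ∈ J, ∑ d ∈ J,
          (w a b * w a c * w a d) * (I4 a f + I4 b g + I4 c h + I4 d k))
      + 8 * A * (∑ a ∈ J, ∑ b ∈ J, ∑ c ∈ J, ∑ d ∈ J,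
          (w b c * w b d * w b a) * (I4 b g + I4 c h + I4 d k + I4 a f))
      + 8 * A * (∑ a ∈ J, ∑ b ∈ J, ∑ c ∈ J, ∑ d ∈ J,
          (w c d * w c a * w c b) * (I4 c h + I4 d k + I4 a f + I4 b g))
      + 8 * A * (∑ a ∈ J, ∑ b ∈ J, ∑ c ∈ J, ∑ d ∈ J,
          (w d a * w d b * w d c) * (I4 d k + I4 a f + I4 b g + I4 c h)) := by
        simp only [sum_add_distrib, mul_sum]
    _ ≤ _ := by
        rw [e2, e3, e3', e4, e4', e4'']
        have hA8 : 0 ≤ 8 * A := by linarith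
        have d1 := mul_le_mul_of_nonneg_left c1 hA8
        have d2 := mul_le_mul_of_nonneg_left c2 hA8
        have d3 := mul_le_mul_of_nonneg_left c3 hA8
        have d4 := mul_le_mul_of_nonneg_left c4 hA8
        linarith

end

end Helper912.LG
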