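import Pool.Agent.Helper912.LP3

set_option autoImplicit false
open MeasureTheory Finset Filter Topology

namespace Helper912.LG

noncomputable section

/-- summing over the levels gives the truncation -/
theorem lev_sum {f : E3 → ℝ} {m0 m1 : ℤ} {x : E3} (hx : |f x| < (8:ℝ)^m1) (φ : ℝ → ℝ)
    (h0 : φ 0 = 0) : ∑ m ∈ Ico m0 m1, φ (lev m f x) = φ (tr m0 f x) := by
  by_cases hc : (8:ℝ)^m0 ≤ |f x|
  · have hpos : 0 < |f x| := lt_of_lt_of_le (zz m0) hc
    obtain ⟨m, hm⟩ := exists_mem_Ico_zpow hpos (by norm_num : (1:ℝ) < 8)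
    have h8 : (1:ℝ) < 8 := by norm_num
    have hm0 : m0 ≤ m := by
      have := lt_of_le_of_lt hc hm.2
      rw [zpow_lt_zpow_iff_right₀ h8] at this
      omega
    have hm1 : m < m1 := by
      have := lt_of_le_of_lt hm.1 hx
      rwa [zpow_lt_zpow_iff_right₀ h8] at this
    rw [sum_eq_single m]
    · unfold lev tr
      rw [if_pos ⟨hm.1, hm.2⟩, if_pos hc]
    · intro b _ hb
      unfold lev
      rw [if_neg, h0]
      rintro ⟨h1, h2⟩
      have a1 := lt_of_le_of_lt h1 hm.2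
      have a2 := lt_of_le_of_lt hm.1 h2
      rw [zpow_lt_zpow_iff_right₀ h8] at a1 a2
      omega
    · intro h
      exact absurd (mem_Ico.2 ⟨hm0, hm1⟩) h
  · rw [sum_eq_zero]
    · unfold tr; rw [if_neg hc, h0]
    · intro m hm
      unfold lev
      rw [if_neg, h0]
      rintro ⟨h1, _⟩
      apply hc
      refine le_trans ?_ h1
      exact zpow_le_zpow_right₀ (by norm_num) (mem_Ico.1 hm).1

theorem I4_sum {f : E3 → ℝ} (hf : Ni f) {m0 m1 : ℤ} (hx : ∀ x, |f x| < (8:ℝ)^m1) :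
    ∑ m ∈ Ico m0 m1, I4 m f ≤ ∫ x, |f x|^4 := by
  unfold I4
  rw [← integral_finsetSum _ (fun m _ => (lev_ni hf m).pow_intble (by norm_num))]
  refine integral_mono (integrable_finsetSum _ (fun m _ => (lev_ni hf m).pow_intble (by norm_num)))
    (hf.pow_intble (by norm_num)) (fun x => ?_)
  simp only
  rw [lev_sum (hx x) (fun y => |y|^4) (by simp)]
  unfold tr
  split_ifs
  · exact le_refl _
  · rw [abs_zero, zero_pow (by norm_num)]
    positivity

theorem tr_bound {A : ℝ} (hA : 0 ≤ A) {κ : ℝ → ℝ} (H : HB A κ) (hκ : Measurable κ) {K : ℝ}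
    (hb : ∀ s, |κ s| ≤ K) {f g h k : E3 → ℝ}
    (hf : Ni f) (hg : Ni g) (hh : Ni h) (hk : Ni k) {m1 : ℤ} (xf : ∀ x, |f x| < (8:ℝ)^m1)
    (xg : ∀ x, |g x| < (8:ℝ)^m1) (xh : ∀ x, |h x| < (8:ℝ)^m1) (xk : ∀ x, |k x| < (8:ℝ)^m1)
    (m0 : ℤ) :
    |T4 κ (tr m0 f) (tr m0 g) (tr m0 h) (tr m0 k)|
      ≤ 256 * A * ((∫ x, |f x|^4) + (∫ x, |g x|^4) + (∫ x, |h x|^4) + ∫ x, |k x|^4) := by
  set J := Ico m0 m1 with hJ
  have ef : tr m0 f = fun x => ∑ m ∈ J, lev m f x := by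
    funext x; exact (lev_sum (xf x) (fun y => y) rfl).symm
  have eg : tr m0 g = fun x => ∑ m ∈ J, lev m g x := by
    funext x; exact (lev_sum (xg x) (fun y => y) rfl).symm
  have eh : tr m0 h = fun x => ∑ m ∈ J, lev m h x := by
    funext x; exact (lev_sum (xh x) (fun y => y) rfl).symm
  have ek : tr m0 k = fun x => ∑ m ∈ J, lev m k x := by
    funext x; exact (lev_sum (xk x) (fun y => y) rfl).symm
  have tg : Ni (tr m0 g) := tr_ni hg m0
  have th : Ni (tr m0 h) := tr_ni hh m0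
  have tk : Ni (tr m0 k) := tr_ni hk m0
  have step1 : T4 κ (tr m0 f) (tr m0 g) (tr m0 h) (tr m0 k)
      = ∑ a ∈ J, T4 κ (lev a f) (tr m0 g) (tr m0 h) (tr m0 k) := by
    rw [ef]
    exact T4_sum hκ hb (fun m => lev_ni hf m) tg th tk
  have step2 : ∀ a, T4 κ (lev a f) (tr m0 g) (tr m0 h) (tr m0 k)
      = ∑ b ∈ J, T4 κ (lev a f) (lev b g) (tr m0 h) (tr m0 k) := by
    intro a
    rw [T4_cyc, eg, T4_sum hκ hb (fun m => lev_ni hg m) th tk (lev_ni hf a)]
    refine sum_congr rfl (fun b _ => ?_)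
    rw [T4_cyc κ (lev a f)]
  have step3 : ∀ a b, T4 κ (lev a f) (lev b g) (tr m0 h) (tr m0 k)
      = ∑ c ∈ J, T4 κ (lev a f) (lev b g) (lev c h) (tr m0 k) := by
    intro a b
    rw [T4_cyc, T4_cyc, eh, T4_sum hκ hb (fun m => lev_ni hh m) tk (lev_ni hf a) (lev_ni hg b)]
    refine sum_congr rfl (fun c _ => ?_)
    rw [T4_cyc κ (lev a f), T4_cyc κ (lev b g)]
  have step4 : ∀ a b c, T4 κ (lev a f) (lev b g) (lev c h) (tr m0 k)
      = ∑ d ∈ J, T4 κ (lev a f) (lev b g) (lev c h) (lev d k) := by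
    intro a b c
    rw [T4_cyc, T4_cyc, T4_cyc, ek, T4_sum hκ hb (fun m => lev_ni hk m) (lev_ni hf a)
      (lev_ni hg b) (lev_ni hh c)]
    refine sum_congr rfl (fun d _ => ?_)
    rw [T4_cyc κ (lev a f), T4_cyc κ (lev b g), T4_cyc κ (lev c h)]
  rw [step1]
  simp only [step2, step3, step4]
  have habs : |∑ a ∈ J, ∑ b ∈ J, ∑ c ∈ J, ∑ d ∈ J, T4 κ (lev a f) (lev b g) (lev c h) (lev d k)|
      ≤ ∑ a ∈ J, ∑ b ∈ J, ∑ c ∈ J, ∑ d ∈ J, |T4 κ (lev a f) (lev b g) (lev c h) (lev d k)| := by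
    refine (abs_sum_le_sum_abs _ _).trans (sum_le_sum (fun a _ => ?_))
    refine (abs_sum_le_sum_abs _ _).trans (sum_le_sum (fun b _ => ?_))
    refine (abs_sum_le_sum_abs _ _).trans (sum_le_sum (fun c _ => ?_))
    exact abs_sum_le_sum_abs _ _
  refine habs.trans ((sum_levels hA H hf hg hh hk J).trans ?_)
  refine mul_le_mul_of_nonneg_left ?_ (by linarith)
  have := I4_sum hf (m0 := m0) xf
  have := I4_sum hg (m0 := m0) xg
  have := I4_sum hh (m0 := m0) xh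
  have := I4_sum hk (m0 := m0) xk
  linarith

theorem tr_abs (m : ℤ) (f : E3 → ℝ) (x : E3) : |tr m f x| ≤ |f x| := by
  unfold tr; split_ifs
  · exact le_refl _
  · rw [abs_zero]; exact abs_nonneg _

theorem tr_tendsto (f : E3 → ℝ) (x : E3) :
    Tendsto (fun n : ℕ => tr (-(n:ℤ)) f x) atTop (𝓝 (f x)) := by
  by_cases h0 : f x = 0
  · refine tendsto_const_nhds.congr (fun n => ?_)
    unfold tr; split_ifs <;> simp [h0]
  · have hpos : 0 < |f x| := abs_pos.2 h0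
    have ht : Tendsto (fun n : ℕ => (1/8:ℝ)^n) atTop (𝓝 0) :=
      tendsto_pow_atTop_nhds_zero_of_lt_one (by norm_num) (by norm_num)
    refine Tendsto.congr' ?_ tendsto_const_nhds
    filter_upwards [ht.eventually_lt_const hpos] with n hn
    unfold tr
    rw [if_pos]
    rw [zpow_neg, zpow_natCast]
    rw [one_div, inv_pow] at hn
    exact hn.le

theorem full_bound {A : ℝ} (hA : 0 ≤ A) {κ : ℝ → ℝ} (H : HB A κ) (hκ : Measurable κ) {K : ℝ}
    (hb : ∀ s, |κ s| ≤ K) {f g h k : E3 → ℝ}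
    (hf : Ni f) (hg : Ni g) (hh : Ni h) (hk : Ni k) :
    |T4 κ f g h k|
      ≤ 256 * A * ((∫ x, |f x|^4) + (∫ x, |g x|^4) + (∫ x, |h x|^4) + ∫ x, |k x|^4) := by
  obtain ⟨F, hF⟩ := hf.bdd
  obtain ⟨G, hG⟩ := hg.bdd
  obtain ⟨HH, hH⟩ := hh.bdd
  obtain ⟨KK, hK⟩ := hk.bdd
  obtain ⟨n1, hn1⟩ := pow_unbounded_of_one_lt (max (max F G) (max HH KK)) (by norm_num : (1:ℝ) < 8)
  have hn : ∀ y : ℝ, y ≤ max (max F G) (max HH KK) → y < (8:ℝ)^(n1:ℤ) := by
    intro y hy; rw [zpow_natCast]; exact lt_of_le_of_lt hy hn1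
  have xf : ∀ x, |f x| < (8:ℝ)^(n1:ℤ) := fun x =>
    hn _ ((hF x).trans ((le_max_left _ _).trans (le_max_left _ _)))
  have xg : ∀ x, |g x| < (8:ℝ)^(n1:ℤ) := fun x =>
    hn _ ((hG x).trans ((le_max_right _ _).trans (le_max_left _ _)))
  have xh : ∀ x, |h x| < (8:ℝ)^(n1:ℤ) := fun x =>
    hn _ ((hH x).trans ((le_max_left _ _).trans (le_max_right _ _)))
  have xk : ∀ x, |k x| < (8:ℝ)^(n1:ℤ) := fun x =>
    hn _ ((hK x).trans ((le_max_right _ _).trans (le_max_right _ _)))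
  have hlim : Tendsto (fun n : ℕ => T4 κ (tr (-(n:ℤ)) f) (tr (-(n:ℤ)) g) (tr (-(n:ℤ)) h)
      (tr (-(n:ℤ)) k)) atTop (𝓝 (T4 κ f g h k)) := by
    simp only [T4_eq]
    refine tendsto_integral_of_dominated_convergence (fun p => |F4 f g h k p| * K) ?_ ?_ ?_ ?_
    · intro n
      exact ((F4_meas (tr_meas hf.meas _) (tr_meas hg.meas _) (tr_meas hh.meas _)
        (tr_meas hk.meas _)).mul (hκ.comp (by fun_prop))).aestronglyMeasurable
    · exact (F4_intble hf hg hh hk).abs.mul_const K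
    · intro n
      refine Filter.Eventually.of_forall (fun p => ?_)
      rw [Real.norm_eq_abs, abs_mul]
      refine mul_le_mul ?_ (hb _) (abs_nonneg _) (abs_nonneg _)
      unfold F4
      rw [abs_mul, abs_mul, abs_mul, abs_mul, abs_mul, abs_mul]
      have a1 := tr_abs (-(n:ℤ)) f (p.1, p.2.1, p.2.2.1)
      have a2 := tr_abs (-(n:ℤ)) g (p.2.1, p.2.2.1, p.2.2.2)
      have a3 := tr_abs (-(n:ℤ)) h (p.2.2.1, p.2.2.2, p.1)
      have a4 := tr_abs (-(n:ℤ)) k (p.2.2.2, p.1, p.2.1)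
      exact mul_le_mul (mul_le_mul (mul_le_mul a1 a2 (abs_nonneg _) (abs_nonneg _)) a3
        (abs_nonneg _) (by positivity)) a4 (abs_nonneg _) (by positivity)
    · refine Filter.Eventually.of_forall (fun p => ?_)
      refine Tendsto.mul ?_ tendsto_const_nhds
      unfold F4
      exact (((tr_tendsto f _).mul (tr_tendsto g _)).mul (tr_tendsto h _)).mul (tr_tendsto k _)
  exact le_of_tendsto' hlim.abs (fun n => tr_bound hA H hκ hb hf hg hh hk xf xg xh xk _)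

theorem homog4 {X A B C E D : ℝ} (hD : 0 ≤ D) (hA : 0 ≤ A) (hB : 0 ≤ B) (hC : 0 ≤ C) (hE : 0 ≤ E)
    (h : ∀ a b c e : ℝ, 0 < a → 0 < b → 0 < c → 0 < e →
      a * b * c * e * X ≤ D * ((a*A)^4 + (b*B)^4 + (c*C)^4 + (e*E)^4)) :
    X ≤ 4 * D * A * B * C * E := by
  have key : ∀ η : ℝ, 0 < η → X ≤ 4 * D * (A+η) * (B+η) * (C+η) * (E+η) := by
    intro η hη
    have pA : 0 < A + η := by linarith
    have pB : 0 < B + η := by linarith
    have pC : 0 < C + η := by linarith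
    have pE : 0 < E + η := by linarith
    have h1 := h (A+η)⁻¹ (B+η)⁻¹ (C+η)⁻¹ (E+η)⁻¹ (by positivity) (by positivity) (by positivity)
      (by positivity)
    have q : ∀ U : ℝ, 0 ≤ U → 0 < U + η → ((U+η)⁻¹ * U)^4 ≤ 1 := by
      intro U hU hUp
      have h0 : 0 ≤ (U+η)⁻¹ * U := by positivity
      have h1 : (U+η)⁻¹ * U ≤ 1 := by
        rw [inv_mul_le_iff₀ hUp]; linarith
      exact pow_le_one₀ h0 h1
    have h2 : (A+η)⁻¹ * (B+η)⁻¹ * (C+η)⁻¹ * (E+η)⁻¹ * X ≤ 4 * D := by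
      have := mul_le_mul_of_nonneg_left (add_le_add (add_le_add (add_le_add (q A hA pA) (q B hB pB))
        (q C hC pC)) (q E hE pE)) hD
      linarith
    have h3 : X = ((A+η) * (B+η) * (C+η) * (E+η)) *
        ((A+η)⁻¹ * (B+η)⁻¹ * (C+η)⁻¹ * (E+η)⁻¹ * X) := by
      field_simp
    rw [h3]
    calc _ ≤ ((A+η) * (B+η) * (C+η) * (E+η)) * (4 * D) :=
          mul_le_mul_of_nonneg_left h2 (by positivity)
      _ = _ := by ring
  have hc : Continuous (fun η : ℝ => 4 * D * (A+η) * (B+η) * (C+η) * (E+η)) := by fun_prop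
  have ht : Filter.Tendsto (fun η : ℝ => 4 * D * (A+η) * (B+η) * (C+η) * (E+η))
      (nhdsWithin 0 (Set.Ioi 0)) (nhds (4 * D * A * B * C * E)) := by
    have := (hc.tendsto 0).mono_left (nhdsWithin_le_nhds (s := Set.Ioi 0))
    simpa using this
  refine ge_of_tendsto ht ?_
  filter_upwards [self_mem_nhdsWithin] with η hη
  exact key η hη

theorem Ni.smul {f : E3 → ℝ} (hf : Ni f) (a : ℝ) : Ni (fun p => a * f p) where
  meas := hf.meas.const_mul a
  supp := hf.supp.mul_left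
  bdd := by
    obtain ⟨M, hM⟩ := hf.bdd
    refine ⟨|a| * M, fun p => ?_⟩
    rw [abs_mul]
    exact mul_le_mul_of_nonneg_left (hM p) (abs_nonneg a)

theorem L4_of_HB {A : ℝ} (hA : 0 ≤ A) {κ : ℝ → ℝ} (H : HB A κ) (hκ : Measurable κ) {K : ℝ}
    (hb : ∀ s, |κ s| ≤ K) {f g h k : E3 → ℝ}
    (hf : Ni f) (hg : Ni g) (hh : Ni h) (hk : Ni k) :
    |T4 κ f g h k| ≤ 1024 * A * nm 4 f * nm 4 g * nm 4 h * nm 4 k := by
  have h1 : |T4 κ f g h k| ≤ 4 * (256 * A) * nm 4 f * nm 4 g * nm 4 h * nm 4 k := by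
    refine homog4 (by positivity) (nm_nonneg _ _) (nm_nonneg _ _) (nm_nonneg _ _) (nm_nonneg _ _) ?_
    intro a b c e ha hb' hc he
    have h1 := full_bound hA H hκ hb (hf.smul a) (hg.smul b) (hh.smul c) (hk.smul e)
    rw [T4_smul, abs_mul, abs_of_pos (by positivity : 0 < a * b * c * e)] at h1
    refine h1.trans (le_of_eq ?_)
    have e4 : ∀ (u : ℝ) (hu : 0 < u) (φ : E3 → ℝ) (hφ : Ni φ),
        ∫ p, |u * φ p|^4 = (u * nm 4 φ)^4 := by
      intro u hu φ hφ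
      have h := hφ.nm_pow (q := 4) (by norm_num)
      have h' : nm 4 φ ^ 4 = ∫ x, |φ x|^4 := by exact_mod_cast h
      rw [mul_pow, h', ← integral_const_mul]
      refine integral_congr_ae (Filter.Eventually.of_forall (fun p => ?_))
      simp only [abs_mul, abs_of_pos hu, mul_pow]
    rw [e4 a ha f hf, e4 b hb' g hg, e4 c hc h hh, e4 e he k hk]
  calc _ ≤ _ := h1
    _ = _ := by ring

theorem kap_meas (ε N : ℝ) : Measurable (kap ε N) := by
  unfold kap
  refine Measurable.ite ?_ (by fun_prop) measurable_const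
  have ha : Measurable (fun x : ℝ => |x|) := by fun_prop
  exact (measurableSet_lt measurable_const ha).inter (measurableSet_lt ha measurable_const)

theorem kap_bdd {ε N : ℝ} (hε : 0 < ε) (s : ℝ) : |kap ε N s| ≤ 1 / ε := by
  unfold kap
  split_ifs with h
  · rw [abs_div, abs_one]
    exact one_div_le_one_div_of_le hε h.1.le
  · rw [abs_zero]; positivity

theorem P4_of_P2 (hP : P2) : P4 := by
  obtain ⟨C, hC, H⟩ := hP
  refine ⟨1024 * C, by positivity, fun f g h k hf hg hh hk ε N hε hN => ?_⟩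
  have hHB : HB (C * Real.sqrt (1 + Real.log (N / ε))) (kap ε N) := by
    intro f g h k hf hg hh hk
    exact H f g h k hf hg hh hk ε N hε hN
  have := L4_of_HB (mul_nonneg hC (Real.sqrt_nonneg _)) hHB (kap_meas ε N) (kap_bdd hε) hf hg hh hk
  calc _ ≤ _ := this
    _ = _ := by ring

end

end Helper912.LG
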