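import Pool.Agent.Helper912.LP4

set_option autoImplicit false
open MeasureTheory Finset Filter Topology

namespace Helper912.LG

noncomputable section

/-- the truncated simplex form as a set integral -/
theorem T4_set (ε N : ℝ) (f g h k : E3 → ℝ) :
    ∫ x in {x : ℝ × ℝ × ℝ × ℝ | ε < |x.1 + x.2.1 + x.2.2.1 + x.2.2.2| ∧
        |x.1 + x.2.1 + x.2.2.1 + x.2.2.2| < N},
      f (x.1, x.2.1, x.2.2.1) * g (x.2.1, x.2.2.1, x.2.2.2) * h (x.2.2.1, x.2.2.2, x.1) *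
        k (x.2.2.2, x.1, x.2.1) / (x.1 + x.2.1 + x.2.2.1 + x.2.2.2)
      = T4 (kap ε N) f g h k := by
  have hms : MeasurableSet {x : ℝ × ℝ × ℝ × ℝ | ε < |x.1 + x.2.1 + x.2.2.1 + x.2.2.2| ∧
        |x.1 + x.2.1 + x.2.2.1 + x.2.2.2| < N} := by
    have ha : Measurable (fun x : ℝ × ℝ × ℝ × ℝ => |x.1 + x.2.1 + x.2.2.1 + x.2.2.2|) := by
      fun_prop
    exact (measurableSet_lt measurable_const ha).inter (measurableSet_lt ha measurable_const)
  rw [← integral_indicator hms]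
  unfold T4
  refine integral_congr_ae (Filter.Eventually.of_forall (fun x => ?_))
  simp only [Set.indicator, Set.mem_setOf_eq, kap]
  split_ifs with hx
  · ring
  · ring

theorem final_of_P4 (hP : P4) :
    ∃ C : ℝ, ∀ f g h k : ℝ × ℝ × ℝ → ℝ,
      Measurable f → Measurable g → Measurable h → Measurable k →
      HasCompactSupport f → HasCompactSupport g → HasCompactSupport h → HasCompactSupport k →
      (∃ M : ℝ, ∀ x, |f x| ≤ M) → (∃ M : ℝ, ∀ x, |g x| ≤ M) → (∃ M : ℝ, ∀ x, |h x| ≤ M) →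
      (∃ M : ℝ, ∀ x, |k x| ≤ M) →
      ∀ ε N : ℝ, 0 < ε → ε < N →
        |∫ x in {x : ℝ × ℝ × ℝ × ℝ | ε < |x.1 + x.2.1 + x.2.2.1 + x.2.2.2| ∧
              |x.1 + x.2.1 + x.2.2.1 + x.2.2.2| < N},
            f (x.1, x.2.1, x.2.2.1) * g (x.2.1, x.2.2.1, x.2.2.2) *
              h (x.2.2.1, x.2.2.2, x.1) * k (x.2.2.2, x.1, x.2.1) /
              (x.1 + x.2.1 + x.2.2.1 + x.2.2.2)|
          ≤ C * Real.sqrt (1 + Real.log (N / ε)) *
            (eLpNorm f 4 volume).toReal * (eLpNorm g 4 volume).toReal *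
            (eLpNorm h 4 volume).toReal * (eLpNorm k 4 volume).toReal := by
  obtain ⟨C, _, H⟩ := hP
  refine ⟨C, fun f g h k mf mg mh mk sf sg' sh sk bf bg bh bk ε N hε hN => ?_⟩
  rw [T4_set]
  exact H f g h k ⟨mf, sf, bf⟩ ⟨mg, sg', bg⟩ ⟨mh, sh, bh⟩ ⟨mk, sk, bk⟩ ε N hε hN

end

end Helper912.LG
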