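import Mathlib

set_option autoImplicit false
open MeasureTheory Finset

namespace Helper912.TH9

noncomputable section

/-- sign of the position `i` in an interval of `M` cells -/
def sg (M i : ℕ) : ℝ := if 2 * i < M then 1 else -1

def Lam (n s : ℕ) (f g h : ℕ → ℕ → ℝ) : ℝ :=
  (1/4)^s * (1/8)^(n-s) *
    ∑ p ∈ range (2^s), ∑ q ∈ range (2^s),
      ∑ i ∈ range (2^(n-s)), ∑ j ∈ range (2^(n-s)), ∑ k ∈ range (2^(n-s)),
        sg (2^(n-s)) i * sg (2^(n-s)) j * sg (2^(n-s)) k *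
        f (p*2^(n-s)+i) (q*2^(n-s)+j) * g (q*2^(n-s)+j) ((p^^^q)*2^(n-s)+k) *
        h ((p^^^q)*2^(n-s)+k) (p*2^(n-s)+i)

def a3 (n : ℕ) (f : ℕ → ℕ → ℝ) : ℝ :=
  (1/4)^n * ∑ i ∈ range (2^n), ∑ j ∈ range (2^n), |f i j|^3

def FS : Prop := ∃ C : ℝ, ∀ (n : ℕ) (f g h : ℕ → ℕ → ℝ),
  ∑ s ∈ range n, |Lam n s f g h| ≤ C * (a3 n f + a3 n g + a3 n h)

/-- the Haar function of the statement -/
def haar (k : ℤ) (a : ℕ) (x : ℝ) : ℝ :=
  Set.indicator (Set.Ico ((2:ℝ) ^ k * (a : ℝ))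
      ((2:ℝ) ^ k * (a : ℝ) + (2:ℝ) ^ (k - 1))) (fun _ => (1:ℝ)) x
    - Set.indicator (Set.Ico ((2:ℝ) ^ k * (a : ℝ) + (2:ℝ) ^ (k - 1))
      ((2:ℝ) ^ k * ((a : ℝ) + 1))) (fun _ => (1:ℝ)) x

def mu (d : ℝ) : Measure ℝ := (volume : Measure ℝ).restrict (Set.Ioc 0 d)

instance (d : ℝ) : IsFiniteMeasure (mu d) := by
  unfold mu; infer_instance

def LI (φ : ℝ → ℝ) : Prop := ∀ a b : ℝ, IntervalIntegrable φ volume a b

theorem LI_of_bdd {φ : ℝ → ℝ} (h1 : Measurable φ) {B : ℝ} (h2 : ∀ x, |φ x| ≤ B) : LI φ := by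
  intro a b
  rw [intervalIntegrable_iff]
  refine Measure.integrableOn_of_bounded (M := B) ?_ h1.aestronglyMeasurable ?_
  · simp [Set.uIoc]
  · exact Filter.Eventually.of_forall (fun x => by simpa using h2 x)

theorem int_mu {d : ℝ} (hd : 0 ≤ d) (φ : ℝ → ℝ) : ∫ u, φ u ∂(mu d) = ∫ u in (0:ℝ)..d, φ u := by
  rw [intervalIntegral.integral_of_le hd]; rfl

theorem mu_real {d : ℝ} (hd : 0 ≤ d) : (mu d).real Set.univ = d := by
  simp [mu, Measure.real, hd]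

theorem int_cells {φ : ℝ → ℝ} (hφ : LI φ) {d : ℝ} (hd : 0 ≤ d) (A N : ℕ) :
    ∫ x in ((A:ℝ)*d)..(((A:ℝ)+(N:ℝ))*d), φ x
      = ∑ i ∈ range N, ∫ u, φ ((((A + i : ℕ) : ℝ))*d + u) ∂(mu d) := by
  have h := intervalIntegral.sum_integral_adjacent_intervals (f := φ) (μ := volume)
    (a := fun i : ℕ => ((A:ℝ)+(i:ℝ))*d) (n := N) (fun k _ => hφ _ _)
  simp only [Nat.cast_zero, add_zero] at h
  rw [← h]
  refine sum_congr rfl (fun i _ => ?_)
  rw [int_mu hd, intervalIntegral.integral_comp_add_left]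
  congr 1 <;> push_cast <;> ring

theorem int_mul_ind {φ : ℝ → ℝ} {a b : ℝ} (hab : a ≤ b) :
    ∫ x, φ x * Set.indicator (Set.Ico a b) (fun _ => (1:ℝ)) x = ∫ x in a..b, φ x := by
  have : (fun x => φ x * Set.indicator (Set.Ico a b) (fun _ => (1:ℝ)) x)
      = Set.indicator (Set.Ico a b) φ := by
    funext x
    by_cases hx : x ∈ Set.Ico a b <;> simp [hx]
  rw [this, integral_indicator measurableSet_Ico, intervalIntegral.integral_of_le hab,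
    integral_Ico_eq_integral_Ioc]

theorem intble_mul_ind {φ : ℝ → ℝ} (hφ : LI φ) {a b : ℝ} (hab : a ≤ b) :
    Integrable (fun x => φ x * Set.indicator (Set.Ico a b) (fun _ => (1:ℝ)) x) := by
  have : (fun x => φ x * Set.indicator (Set.Ico a b) (fun _ => (1:ℝ)) x)
      = Set.indicator (Set.Ico a b) φ := by
    funext x
    by_cases hx : x ∈ Set.Ico a b <;> simp [hx]
  rw [this, integrable_indicator_iff measurableSet_Ico]
  rw [integrableOn_Ico_iff_integrableOn_Ioo, ← integrableOn_Ioc_iff_integrableOn_Ioo]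
  exact (intervalIntegrable_iff_integrableOn_Ioc_of_le hab).1 (hφ a b)

/-- integral against a Haar function as a signed sum over cells of side `d` -/
theorem haar_int {φ : ℝ → ℝ} (hφ : LI φ) {d : ℝ} (hd : 0 < d) {k : ℤ} {t : ℕ}
    (hk : (2:ℝ)^k = 2^(t+1) * d) (a : ℕ) :
    ∫ x, φ x * haar k a x
      = ∑ i ∈ range (2^(t+1)), sg (2^(t+1)) i * ∫ u, φ ((((a*2^(t+1) + i : ℕ) : ℝ))*d + u) ∂(mu d) := by
  have hk1 : (2:ℝ)^(k-1) = 2^t * d := by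
    rw [zpow_sub_one₀ (by norm_num), hk]; ring
  have e1 : (2:ℝ)^k * (a:ℝ) = ((a*2^(t+1) : ℕ):ℝ) * d := by rw [hk]; push_cast; ring
  have e2 : (2:ℝ)^k * (a:ℝ) + (2:ℝ)^(k-1) = (((a*2^(t+1) : ℕ):ℝ) + ((2^t : ℕ):ℝ)) * d := by
    rw [hk, hk1]; push_cast; ring
  have e2' : (((a*2^(t+1) : ℕ):ℝ) + ((2^t : ℕ):ℝ)) * d = ((a*2^(t+1) + 2^t : ℕ):ℝ) * d := by
    push_cast; ring
  have e3 : (2:ℝ)^k * ((a:ℝ)+1) = (((a*2^(t+1) + 2^t : ℕ):ℝ) + ((2^t : ℕ):ℝ)) * d := by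
    rw [hk]; push_cast; ring
  have hp : (0:ℝ) ≤ ((2^t : ℕ):ℝ) * d := by positivity
  unfold haar
  simp only [mul_sub]
  have l1 : (2:ℝ)^k * (a:ℝ) ≤ (2:ℝ)^k * (a:ℝ) + (2:ℝ)^(k-1) := by
    have : (0:ℝ) < (2:ℝ)^(k-1) := by positivity
    linarith
  have l2 : (2:ℝ)^k * (a:ℝ) + (2:ℝ)^(k-1) ≤ (2:ℝ)^k * ((a:ℝ)+1) := by
    rw [e2, e3]; push_cast; nlinarith
  rw [integral_sub (by simpa only [mul_add, mul_one] using intble_mul_ind hφ l1)
    (by have := intble_mul_ind hφ l2; simpa only [mul_add, mul_one] using this)]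
  rw [int_mul_ind l1, int_mul_ind l2, e2, e1, e3, int_cells hφ hd.le, e2', int_cells hφ hd.le]
  have hM : 2^(t+1) = 2^t + 2^t := by rw [pow_succ]; ring
  conv_rhs => rw [show range (2^(t+1)) = range (2^t + 2^t) by rw [← hM]]
  rw [sum_range_add, sub_eq_add_neg, ← sum_neg_distrib]
  congr 1
  · refine sum_congr rfl (fun i hi => ?_)
    have hi' : i < 2^t := mem_range.1 hi
    have : sg (2^(t+1)) i = 1 := by
      unfold sg; rw [if_pos]; rw [pow_succ]; omega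
    rw [this, one_mul]
  · refine sum_congr rfl (fun i hi => ?_)
    have : sg (2^(t+1)) (2^t + i) = -1 := by
      unfold sg; rw [if_neg]; rw [pow_succ]; omega
    rw [this, add_assoc]; ring_nf

end

end Helper912.TH9
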