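import Pool.Agent.Helper912.TH9a

set_option autoImplicit false
open MeasureTheory Finset

namespace Helper912.TH9

noncomputable section

def nu (d : ℝ) : Measure (ℝ × ℝ × ℝ) := (mu d).prod ((mu d).prod (mu d))

instance (d : ℝ) : IsFiniteMeasure (nu d) := by
  unfold nu; infer_instance

structure Nice3 (Φ : ℝ → ℝ → ℝ → ℝ) (B : ℝ) : Prop where
  meas : Measurable (fun p : ℝ × ℝ × ℝ => Φ p.1 p.2.1 p.2.2)
  bdd : ∀ x y z, |Φ x y z| ≤ B

theorem meas_int {α : Type*} [MeasurableSpace α] {Ψ : α → ℝ → ℝ}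
    (h : Measurable (fun p : α × ℝ => Ψ p.1 p.2)) (d : ℝ) :
    Measurable (fun a => ∫ w, Ψ a w ∂(mu d)) :=
  (StronglyMeasurable.integral_prod_right (f := Ψ) h.stronglyMeasurable).measurable

theorem bdd_int {φ : ℝ → ℝ} {B : ℝ} (h : ∀ w, |φ w| ≤ B) (d : ℝ) :
    |∫ w, φ w ∂(mu d)| ≤ B * (mu d).real Set.univ := by
  have := norm_integral_le_of_norm_le_const (μ := mu d) (f := φ) (C := B)
    (Filter.Eventually.of_forall (fun x => by simpa using h x))
  simpa using this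

theorem nu_int {Φ : ℝ → ℝ → ℝ → ℝ} {B : ℝ} (h : Nice3 Φ B) (d : ℝ) :
    ∫ q, Φ q.1 q.2.1 q.2.2 ∂(nu d) = ∫ u, ∫ v, ∫ w, Φ u v w ∂(mu d) ∂(mu d) ∂(mu d) := by
  unfold nu
  rw [integral_prod]
  · refine integral_congr_ae (Filter.Eventually.of_forall (fun u => ?_))
    simp only
    rw [integral_prod]
    refine Integrable.of_bound ?_ B (Filter.Eventually.of_forall (fun p => by simpa using h.bdd _ _ _))
    exact (h.meas.comp (by fun_prop : Measurable (fun p : ℝ × ℝ => (u, p.1, p.2)))).aestronglyMeasurable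
  · exact Integrable.of_bound h.meas.aestronglyMeasurable B
      (Filter.Eventually.of_forall (fun p => by simpa using h.bdd _ _ _))

theorem Nice3.shift {Φ : ℝ → ℝ → ℝ → ℝ} {B : ℝ} (h : Nice3 Φ B) (a b c : ℝ) :
    Nice3 (fun x y z => Φ (a + x) (b + y) (c + z)) B where
  meas := h.meas.comp (by fun_prop : Measurable (fun p : ℝ × ℝ × ℝ => (a + p.1, b + p.2.1, c + p.2.2)))
  bdd := fun _ _ _ => h.bdd _ _ _

theorem intble_mu {φ : ℝ → ℝ} (h1 : Measurable φ) {B : ℝ} (h2 : ∀ x, |φ x| ≤ B) (d : ℝ) :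
    Integrable φ (mu d) :=
  Integrable.of_bound h1.aestronglyMeasurable B
    (Filter.Eventually.of_forall (fun p => by simpa using h2 _))

theorem abs_sg (M i : ℕ) : |sg M i| = 1 := by
  unfold sg; split_ifs <;> simp

theorem sum_bdd {φ : ℕ → ℝ} {B : ℝ} {M N : ℕ} (h : ∀ l, |φ l| ≤ B) :
    |∑ l ∈ range N, sg M l * φ l| ≤ N * B := by
  calc |∑ l ∈ range N, sg M l * φ l| ≤ ∑ l ∈ range N, |sg M l * φ l| := abs_sum_le_sum_abs _ _
    _ ≤ ∑ l ∈ range N, B := sum_le_sum (fun l _ => by rw [abs_mul, abs_sg, one_mul]; exact h l)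
    _ = N * B := by simp

theorem tri {Φ : ℝ → ℝ → ℝ → ℝ} {B : ℝ} (h : Nice3 Φ B) {d : ℝ} (hd : 0 < d) {k : ℤ} {t : ℕ}
    (hk : (2:ℝ)^k = 2^(t+1) * d) (a b c : ℕ) :
    ∫ x, ∫ y, ∫ z, Φ x y z * haar k a x * haar k b y * haar k c z
      = ∑ i ∈ range (2^(t+1)), ∑ j ∈ range (2^(t+1)), ∑ l ∈ range (2^(t+1)),
          sg (2^(t+1)) i * sg (2^(t+1)) j * sg (2^(t+1)) l *
          ∫ q, Φ ((((a*2^(t+1) + i : ℕ) : ℝ))*d + q.1) ((((b*2^(t+1) + j : ℕ) : ℝ))*d + q.2.1)
            ((((c*2^(t+1) + l : ℕ) : ℝ))*d + q.2.2) ∂(nu d) := by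
  set M := 2^(t+1) with hM
  -- the innermost integral
  set Z : ℝ → ℝ → ℝ := fun x y => ∑ l ∈ range M, sg M l *
    ∫ w, Φ x y ((((c*M + l : ℕ) : ℝ))*d + w) ∂(mu d) with hZ
  set D := (mu d).real Set.univ with hD
  have hZm : Measurable (fun p : ℝ × ℝ => Z p.1 p.2) := by
    simp only [hZ]
    refine Finset.measurable_fun_sum _ (fun l _ => Measurable.const_mul ?_ _)
    exact meas_int (Ψ := fun p : ℝ × ℝ => fun w => Φ p.1 p.2 ((((c*M + l : ℕ) : ℝ))*d + w))
      (h.meas.comp (by fun_prop : Measurable (fun p : (ℝ × ℝ) × ℝ =>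
        (p.1.1, p.1.2, (((c*M + l : ℕ) : ℝ))*d + p.2)))) d
  have hZb : ∀ x y, |Z x y| ≤ M * (B * D) := fun x y =>
    sum_bdd (fun l => bdd_int (fun w => h.bdd _ _ _) d)
  set Y : ℝ → ℝ := fun x => ∑ j ∈ range M, sg M j *
    ∫ v, Z x ((((b*M + j : ℕ) : ℝ))*d + v) ∂(mu d) with hY
  have hYm : Measurable Y := by
    simp only [hY]
    refine Finset.measurable_fun_sum _ (fun l _ => Measurable.const_mul ?_ _)
    exact meas_int (Ψ := fun x : ℝ => fun v => Z x ((((b*M + l : ℕ) : ℝ))*d + v))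
      (hZm.comp (by fun_prop : Measurable (fun p : ℝ × ℝ =>
        (p.1, (((b*M + l : ℕ) : ℝ))*d + p.2)))) d
  have hYb : ∀ x, |Y x| ≤ M * (M * (B * D) * D) := fun x =>
    sum_bdd (fun l => bdd_int (fun w => hZb _ _) d)
  have s1 : ∀ x y, ∫ z, Φ x y z * haar k a x * haar k b y * haar k c z
      = haar k a x * (Z x y * haar k b y) := by
    intro x y
    have : ∀ z, Φ x y z * haar k a x * haar k b y * haar k c z
        = (haar k a x * haar k b y) * (Φ x y z * haar k c z) := fun z => by ring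
    simp only [this]
    rw [integral_const_mul, haar_int (LI_of_bdd (φ := fun z => Φ x y z)
      (h.meas.comp (by fun_prop : Measurable (fun z : ℝ => (x, y, z)))) (h.bdd x y)) hd hk c]
    simp only [hZ]
    ring
  have s2 : ∀ x, ∫ y, haar k a x * (Z x y * haar k b y) = Y x * haar k a x := by
    intro x
    rw [integral_const_mul, haar_int (LI_of_bdd (φ := fun y => Z x y)
      (hZm.comp (by fun_prop : Measurable (fun y : ℝ => (x, y)))) (hZb x)) hd hk b]
    simp only [hY]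
    ring
  simp only [s1, s2]
  rw [haar_int (LI_of_bdd hYm hYb) hd hk a]
  rw [← hM]
  refine sum_congr rfl (fun i _ => ?_)
  simp only [hY]
  rw [integral_finsetSum]
  · rw [mul_sum]
    refine sum_congr rfl (fun j _ => ?_)
    rw [integral_const_mul]
    simp only [hZ]
    have e1 : ∀ u, ∫ v, ∑ l ∈ range M, sg M l * ∫ w, Φ ((((a*M + i : ℕ) : ℝ))*d + u)
          ((((b*M + j : ℕ) : ℝ))*d + v) ((((c*M + l : ℕ) : ℝ))*d + w) ∂(mu d) ∂(mu d)
        = ∑ l ∈ range M, sg M l * ∫ v, ∫ w, Φ ((((a*M + i : ℕ) : ℝ))*d + u)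
          ((((b*M + j : ℕ) : ℝ))*d + v) ((((c*M + l : ℕ) : ℝ))*d + w) ∂(mu d) ∂(mu d) := by
      intro u
      rw [integral_finsetSum]
      · refine sum_congr rfl (fun l _ => ?_)
        rw [integral_const_mul]
      · intro l _
        refine Integrable.const_mul (intble_mu (B := B * D) ?_ ?_ d) _
        · exact meas_int (Ψ := fun v w => Φ ((((a*M + i : ℕ) : ℝ))*d + u)
            ((((b*M + j : ℕ) : ℝ))*d + v) ((((c*M + l : ℕ) : ℝ))*d + w))
            (h.meas.comp (by fun_prop : Measurable (fun p : ℝ × ℝ =>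
              ((((a*M + i : ℕ) : ℝ))*d + u, (((b*M + j : ℕ) : ℝ))*d + p.1,
                (((c*M + l : ℕ) : ℝ))*d + p.2)))) d
        · intro v
          exact bdd_int (fun w => h.bdd _ _ _) d
    simp only [e1]
    rw [integral_finsetSum]
    · rw [mul_sum, mul_sum]
      refine sum_congr rfl (fun l _ => ?_)
      rw [integral_const_mul, nu_int (h.shift _ _ _) d]
      ring
    · intro l _
      refine Integrable.const_mul (intble_mu (B := B * D * D) ?_ ?_ d) _
      · refine meas_int (Ψ := fun u v => ∫ w, Φ ((((a*M + i : ℕ) : ℝ))*d + u)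
            ((((b*M + j : ℕ) : ℝ))*d + v) ((((c*M + l : ℕ) : ℝ))*d + w) ∂(mu d)) ?_ d
        exact meas_int (Ψ := fun (p : ℝ × ℝ) w => Φ ((((a*M + i : ℕ) : ℝ))*d + p.1)
            ((((b*M + j : ℕ) : ℝ))*d + p.2) ((((c*M + l : ℕ) : ℝ))*d + w))
            (h.meas.comp (by fun_prop : Measurable (fun p : (ℝ × ℝ) × ℝ =>
              ((((a*M + i : ℕ) : ℝ))*d + p.1.1, (((b*M + j : ℕ) : ℝ))*d + p.1.2,
                (((c*M + l : ℕ) : ℝ))*d + p.2)))) d
      · intro u
        exact bdd_int (fun v => bdd_int (fun w => h.bdd _ _ _) d) d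
  · intro j _
    refine Integrable.const_mul (intble_mu (B := M * (B * D) * D) ?_ ?_ d) _
    · exact meas_int (Ψ := fun u v => Z ((((a*M + i : ℕ) : ℝ))*d + u)
            ((((b*M + j : ℕ) : ℝ))*d + v))
            (hZm.comp (by fun_prop : Measurable (fun p : ℝ × ℝ =>
              ((((a*M + i : ℕ) : ℝ))*d + p.1, (((b*M + j : ℕ) : ℝ))*d + p.2)))) d
    · intro u
      exact bdd_int (fun v => hZb _ _) d

end

end Helper912.TH9
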