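import Pool.Agent.Helper912.TH9b

set_option autoImplicit false
open MeasureTheory Finset

namespace Helper912.TH9

noncomputable section

theorem cellsum {ψ : ℝ → ℝ → ℝ} (hm : Measurable (fun p : ℝ × ℝ => ψ p.1 p.2)) {B : ℝ}
    (hb : ∀ x y, |ψ x y| ≤ B) (h0 : ∀ x y, 0 ≤ ψ x y)
    (hi : Integrable (fun p : ℝ × ℝ => ψ p.1 p.2)) {d : ℝ} (hd : 0 ≤ d) (N : ℕ) :
    ∑ i ∈ range N, ∑ j ∈ range N, ∫ u, ∫ v, ψ ((i:ℝ)*d + u) ((j:ℝ)*d + v) ∂(mu d) ∂(mu d)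
      ≤ ∫ p : ℝ × ℝ, ψ p.1 p.2 := by
  have hc : ∀ x, ∑ j ∈ range N, ∫ v, ψ x ((j:ℝ)*d + v) ∂(mu d)
      = ∫ y in (0:ℝ)..((N:ℝ)*d), ψ x y := by
    intro x
    have := int_cells (φ := fun y => ψ x y) (LI_of_bdd (hm.comp
      (by fun_prop : Measurable (fun y : ℝ => (x, y)))) (hb x)) hd 0 N
    simpa using this.symm
  have hNd : (0:ℝ) ≤ (N:ℝ)*d := by positivity
  have hR : Measurable (fun x => ∫ y in (0:ℝ)..((N:ℝ)*d), ψ x y) := by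
    simp only [← int_mu hNd]
    exact meas_int hm _
  have hRb : ∀ x, |∫ y in (0:ℝ)..((N:ℝ)*d), ψ x y| ≤ B * (mu ((N:ℝ)*d)).real Set.univ := by
    intro x
    rw [← int_mu hNd]
    exact bdd_int (hb x) _
  have h1 : ∀ i ∈ range N, ∑ j ∈ range N, ∫ u, ∫ v, ψ ((i:ℝ)*d + u) ((j:ℝ)*d + v) ∂(mu d) ∂(mu d)
      = ∫ u, (∫ y in (0:ℝ)..((N:ℝ)*d), ψ (((0 + i : ℕ):ℝ)*d+u) y) ∂(mu d) := by
    intro i _
    rw [← integral_finsetSum]
    · refine integral_congr_ae (Filter.Eventually.of_forall (fun u => ?_))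
      simp only
      rw [hc]; simp
    · intro j _
      refine intble_mu (B := B * (mu d).real Set.univ) ?_ ?_ d
      · exact meas_int (Ψ := fun u v => ψ ((i:ℝ)*d + u) ((j:ℝ)*d + v))
          (hm.comp (by fun_prop : Measurable (fun p : ℝ × ℝ => ((i:ℝ)*d + p.1, (j:ℝ)*d + p.2)))) d
      · intro u; exact bdd_int (fun v => hb _ _) d
  rw [sum_congr rfl h1]
  rw [← int_cells (φ := fun x => ∫ y in (0:ℝ)..((N:ℝ)*d), ψ x y) (LI_of_bdd hR hRb) hd 0 N]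
  simp only [Nat.cast_zero, zero_mul, zero_add]
  rw [intervalIntegral.integral_of_le hNd]
  simp only [intervalIntegral.integral_of_le hNd]
  rw [← setIntegral_prod (f := fun p : ℝ × ℝ => ψ p.1 p.2)]
  · exact setIntegral_le_integral hi (Filter.Eventually.of_forall (fun p => h0 _ _))
  · exact hi.integrableOn

theorem nu_fst {ψ : ℝ → ℝ → ℝ} (hm : Measurable (fun p : ℝ × ℝ => ψ p.1 p.2)) {B : ℝ}
    (hb : ∀ x y, |ψ x y| ≤ B) {d : ℝ} (hd : 0 ≤ d) :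
    ∫ q, ψ q.1 q.2.1 ∂(nu d) = d * ∫ u, ∫ v, ψ u v ∂(mu d) ∂(mu d) := by
  have := nu_int (Φ := fun x y _ => ψ x y) (B := B)
    ⟨hm.comp (by fun_prop : Measurable (fun p : ℝ × ℝ × ℝ => (p.1, p.2.1))), fun x y _ => hb x y⟩ d
  rw [this]
  simp only [integral_const, mu_real hd, smul_eq_mul, integral_const_mul]

theorem nu_snd {ψ : ℝ → ℝ → ℝ} (hm : Measurable (fun p : ℝ × ℝ => ψ p.1 p.2)) {B : ℝ}
    (hb : ∀ x y, |ψ x y| ≤ B) {d : ℝ} (hd : 0 ≤ d) :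
    ∫ q, ψ q.2.1 q.2.2 ∂(nu d) = d * ∫ u, ∫ v, ψ u v ∂(mu d) ∂(mu d) := by
  have := nu_int (Φ := fun _ x y => ψ x y) (B := B)
    ⟨hm.comp (by fun_prop : Measurable (fun p : ℝ × ℝ × ℝ => (p.2.1, p.2.2))), fun _ x y => hb x y⟩ d
  rw [this]
  simp only [integral_const, mu_real hd, smul_eq_mul]

theorem nu_thd {ψ : ℝ → ℝ → ℝ} (hm : Measurable (fun p : ℝ × ℝ => ψ p.1 p.2)) {B : ℝ}
    (hb : ∀ x y, |ψ x y| ≤ B) {d : ℝ} (hd : 0 ≤ d) :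
    ∫ q, ψ q.1 q.2.2 ∂(nu d) = d * ∫ u, ∫ v, ψ u v ∂(mu d) ∂(mu d) := by
  have := nu_int (Φ := fun x _ y => ψ x y) (B := B)
    ⟨hm.comp (by fun_prop : Measurable (fun p : ℝ × ℝ × ℝ => (p.1, p.2.2))), fun x _ y => hb x y⟩ d
  rw [this]
  simp only [integral_const, mu_real hd, smul_eq_mul, integral_const_mul]

end

end Helper912.TH9
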