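import Pool.Agent.Helper912.TH9c

set_option autoImplicit false
open MeasureTheory Finset

namespace Helper912.TH9

noncomputable section

def sm (d : ℝ) (f : ℝ × ℝ → ℝ) (u v : ℝ) : ℕ → ℕ → ℝ := fun i j => f ((i:ℝ)*d + u, (j:ℝ)*d + v)

/-- integrability of the terms of `Lam` in the shift variables -/
theorem term_intble {f g h : ℝ × ℝ → ℝ} {B : ℝ}
    (hΦ : Nice3 (fun x y z => f (x,y) * g (y,z) * h (z,x)) B) (d : ℝ) (c : ℝ) (i j l : ℕ) :
    Integrable (fun q : ℝ × ℝ × ℝ => c * sm d f q.1 q.2.1 i j * sm d g q.2.1 q.2.2 j l *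
      sm d h q.2.2 q.1 l i) (nu d) := by
  have h1 := hΦ.shift ((i:ℝ)*d) ((j:ℝ)*d) ((l:ℝ)*d)
  have h2 : Integrable (fun q : ℝ × ℝ × ℝ => c * (f ((i:ℝ)*d + q.1, (j:ℝ)*d + q.2.1) *
      g ((j:ℝ)*d + q.2.1, (l:ℝ)*d + q.2.2) * h ((l:ℝ)*d + q.2.2, (i:ℝ)*d + q.1))) (nu d) := by
    refine Integrable.const_mul ?_ _
    exact Integrable.of_bound h1.meas.aestronglyMeasurable B
      (Filter.Eventually.of_forall (fun p => by simpa using h1.bdd _ _ _))
  refine h2.congr (Filter.Eventually.of_forall (fun q => ?_))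
  simp only [sm]; ring

theorem term_int {f g h : ℝ × ℝ → ℝ} (d : ℝ) (c : ℝ) (i j l : ℕ) :
    ∫ q : ℝ × ℝ × ℝ, c * sm d f q.1 q.2.1 i j * sm d g q.2.1 q.2.2 j l *
      sm d h q.2.2 q.1 l i ∂(nu d)
    = c * ∫ q : ℝ × ℝ × ℝ, f ((i:ℝ)*d + q.1, (j:ℝ)*d + q.2.1) *
      g ((j:ℝ)*d + q.2.1, (l:ℝ)*d + q.2.2) * h ((l:ℝ)*d + q.2.2, (i:ℝ)*d + q.1) ∂(nu d) := by
  rw [← integral_const_mul]
  refine integral_congr_ae (Filter.Eventually.of_forall (fun q => ?_))
  simp only [sm]; ring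

theorem lam_intble {f g h : ℝ × ℝ → ℝ} {B : ℝ}
    (hΦ : Nice3 (fun x y z => f (x,y) * g (y,z) * h (z,x)) B) (d : ℝ) (n s : ℕ) :
    Integrable (fun q : ℝ × ℝ × ℝ => Lam n s (sm d f q.1 q.2.1) (sm d g q.2.1 q.2.2)
      (sm d h q.2.2 q.1)) (nu d) := by
  unfold Lam
  refine Integrable.const_mul ?_ _
  refine integrable_finsetSum _ (fun p _ => ?_)
  refine integrable_finsetSum _ (fun p' _ => ?_)
  refine integrable_finsetSum _ (fun i _ => ?_)
  refine integrable_finsetSum _ (fun j _ => ?_)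
  refine integrable_finsetSum _ (fun l _ => ?_)
  exact term_intble hΦ d _ _ _ _

theorem lam_int {f g h : ℝ × ℝ → ℝ} {B : ℝ}
    (hΦ : Nice3 (fun x y z => f (x,y) * g (y,z) * h (z,x)) B) {d : ℝ} (hd : 0 < d)
    {k : ℤ} {t s : ℕ} (hk : (2:ℝ)^k = 2^(t+1) * d) :
    ∫ q : ℝ × ℝ × ℝ, Lam (s + (t+1)) s (sm d f q.1 q.2.1) (sm d g q.2.1 q.2.2)
      (sm d h q.2.2 q.1) ∂(nu d)
    = (1/4)^s * (1/8)^(t+1) * ∑ a ∈ range (2^s), ∑ b ∈ range (2^s),
        ∫ x, ∫ y, ∫ z, f (x,y) * g (y,z) * h (z,x) * haar k a x * haar k b y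
          * haar k (a ^^^ b) z := by
  unfold Lam
  rw [integral_const_mul, Nat.add_sub_cancel_left]
  congr 1
  rw [integral_finsetSum]
  · refine sum_congr rfl (fun a _ => ?_)
    rw [integral_finsetSum]
    · refine sum_congr rfl (fun b _ => ?_)
      rw [tri hΦ hd hk]
      rw [integral_finsetSum]
      · refine sum_congr rfl (fun i _ => ?_)
        rw [integral_finsetSum]
        · refine sum_congr rfl (fun j _ => ?_)
          rw [integral_finsetSum]
          · refine sum_congr rfl (fun l _ => ?_)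
            rw [term_int]
          · intro l _
            exact term_intble hΦ d _ _ _ _
        · intro j _
          refine integrable_finsetSum _ (fun l _ => ?_)
          exact term_intble hΦ d _ _ _ _
      · intro i _
        refine integrable_finsetSum _ (fun j _ => ?_)
        refine integrable_finsetSum _ (fun l _ => ?_)
        exact term_intble hΦ d _ _ _ _
    · intro b _
      refine integrable_finsetSum _ (fun i _ => ?_)
      refine integrable_finsetSum _ (fun j _ => ?_)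
      refine integrable_finsetSum _ (fun l _ => ?_)
      exact term_intble hΦ d _ _ _ _
  · intro a _
    refine integrable_finsetSum _ (fun b _ => ?_)
    refine integrable_finsetSum _ (fun i _ => ?_)
    refine integrable_finsetSum _ (fun j _ => ?_)
    refine integrable_finsetSum _ (fun l _ => ?_)
    exact term_intble hΦ d _ _ _ _

theorem haar_zero {k : ℤ} {a : ℕ} {x : ℝ} (hx : x < (2:ℝ)^k * (a:ℝ)) : haar k a x = 0 := by
  have h0 : (0:ℝ) < (2:ℝ)^(k-1) := by positivity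
  unfold haar
  rw [Set.indicator_of_notMem, Set.indicator_of_notMem, sub_zero]
  · intro h; have := h.1; linarith
  · intro h; have := h.1; linarith

/-- one scale: the form is the average of the discrete forms over all shifts -/
theorem one_scale {f g h : ℝ × ℝ → ℝ} {B : ℝ}
    (hΦ : Nice3 (fun x y z => f (x,y) * g (y,z) * h (z,x)) B)
    {L m t s : ℕ} (hL : s + (t+1) = L + m) {k : ℤ} (hk : k = (t:ℤ) + 1 - m)
    (hs1 : ∀ x y, (2:ℝ)^L ≤ x → f (x,y) = 0) (hs2 : ∀ x y, (2:ℝ)^L ≤ y → f (x,y) = 0) :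
    (2:ℝ)^(-k) * ∑' ab : ℕ × ℕ, ∫ x, ∫ y, ∫ z, f (x,y) * g (y,z) * h (z,x) * haar k ab.1 x
        * haar k ab.2 y * haar k (ab.1 ^^^ ab.2) z
      = 2^(2*L+3*m) * ∫ q : ℝ × ℝ × ℝ, Lam (L + m) s (sm ((1/2)^m) f q.1 q.2.1)
          (sm ((1/2)^m) g q.2.1 q.2.2) (sm ((1/2)^m) h q.2.2 q.1) ∂(nu ((1/2)^m)) := by
  have hd : (0:ℝ) < (1/2:ℝ)^m := by positivity
  have hk2 : (2:ℝ)^k = 2^(t+1) * (1/2)^m := by
    rw [hk, zpow_sub₀ (by norm_num), zpow_natCast]
    rw [show ((t:ℤ)+1) = ((t+1 : ℕ) : ℤ) by push_cast; ring, zpow_natCast, one_div, inv_pow]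
    rfl
  have hbig : (2:ℝ)^k * 2^s = 2^L := by
    rw [hk2]
    have : (2:ℝ)^(t+1) * 2^s = 2^L * 2^m := by rw [← pow_add, ← pow_add, ← hL, add_comm]
    rw [show (2:ℝ)^(t+1) * (1/2)^m * 2^s = (2^(t+1) * 2^s) * (1/2)^m by ring, this, mul_assoc,
      ← mul_pow]
    norm_num
  have hz : ∀ ab ∉ (range (2^s) ×ˢ range (2^s) : Finset (ℕ × ℕ)),
      ∫ x, ∫ y, ∫ z, f (x,y) * g (y,z) * h (z,x) * haar k ab.1 x
        * haar k ab.2 y * haar k (ab.1 ^^^ ab.2) z = 0 := by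
    intro ab hab
    have hlarge : ∀ c : ℕ, ¬ c < 2^s → (2:ℝ)^L ≤ (2:ℝ)^k * (c:ℝ) := by
      intro c hc
      rw [← hbig]
      have : ((2^s : ℕ):ℝ) ≤ (c:ℝ) := by exact_mod_cast (not_lt.1 hc)
      push_cast at this
      exact mul_le_mul_of_nonneg_left this (by positivity)
    rw [mem_product, mem_range, mem_range, not_and_or] at hab
    have key : ∀ x y, f (x,y) * haar k ab.1 x * haar k ab.2 y = 0 := by
      intro x y
      rcases hab with ha | hb
      · by_cases hx : x < (2:ℝ)^k * (ab.1:ℝ)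
        · rw [haar_zero hx]; ring
        · rw [hs1 x y (le_trans (hlarge _ ha) (not_lt.1 hx))]; ring
      · by_cases hy : y < (2:ℝ)^k * (ab.2:ℝ)
        · rw [haar_zero hy]; ring
        · rw [hs2 x y (le_trans (hlarge _ hb) (not_lt.1 hy))]; ring
    have : ∀ x y z, f (x,y) * g (y,z) * h (z,x) * haar k ab.1 x
        * haar k ab.2 y * haar k (ab.1 ^^^ ab.2) z = 0 := by
      intro x y z
      have := key x y
      calc _ = (f (x,y) * haar k ab.1 x * haar k ab.2 y) * (g (y,z) * h (z,x)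
            * haar k (ab.1 ^^^ ab.2) z) := by ring
        _ = 0 := by rw [this, zero_mul]
    simp only [this, integral_zero]
  rw [tsum_eq_sum hz, sum_product, ← hL, lam_int hΦ hd hk2]
  simp only
  rw [← mul_assoc, ← mul_assoc]
  congr 1
  rw [zpow_neg, hk2]
  have e1 : (2:ℝ)^(2*L+3*m) = 4^s * 4^(t+1) * 2^m := by
    have : (2:ℝ)^(2*L+3*m) = (2^(L+m))^2 * 2^m := by rw [← pow_mul, ← pow_add]; congr 1; ring
    rw [this, ← hL, pow_add, mul_pow, ← pow_mul, ← pow_mul, mul_comm s 2, mul_comm (t+1) 2,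
      pow_mul, pow_mul]
    norm_num
  rw [e1]
  have e2 : (8:ℝ)^(t+1) = 4^(t+1) * 2^(t+1) := by rw [← mul_pow]; norm_num
  simp only [one_div, inv_pow]
  rw [e2]
  have p1 : (4:ℝ)^s ≠ 0 := by positivity
  have p2 : (4:ℝ)^(t+1) ≠ 0 := by positivity
  have p3 : (2:ℝ)^(t+1) ≠ 0 := by positivity
  have p4 : (2:ℝ)^m ≠ 0 := by positivity
  field_simp

end

end Helper912.TH9
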