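import Pool.Agent.Helper912.TH9d

set_option autoImplicit false
open MeasureTheory Finset

namespace Helper912.TH9

noncomputable section

structure Nice (f : ℝ × ℝ → ℝ) : Prop where
  meas : Measurable f
  supp : HasCompactSupport f
  bdd : ∃ M : ℝ, ∀ p, |f p| ≤ M

theorem Nice.cube_meas {f : ℝ × ℝ → ℝ} (hf : Nice f) :
    Measurable (fun p : ℝ × ℝ => |f (p.1, p.2)|^3) := by
  have := hf.meas
  have h2 : Measurable (fun p : ℝ × ℝ => |f p|^3) := by fun_prop
  exact h2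

theorem Nice.cube_bdd {f : ℝ × ℝ → ℝ} (hf : Nice f) :
    ∃ B : ℝ, ∀ x y, |(|f (x, y)|^3)| ≤ B := by
  obtain ⟨M, hM⟩ := hf.bdd
  refine ⟨M^3, fun x y => ?_⟩
  rw [abs_of_nonneg (by positivity)]
  exact pow_le_pow_left₀ (abs_nonneg _) (hM _) 3

theorem Nice.cube_intble {f : ℝ × ℝ → ℝ} (hf : Nice f) :
    Integrable (fun p : ℝ × ℝ => |f p|^3) := by
  obtain ⟨M, hM⟩ := hf.bdd
  have hK : IsCompact (tsupport f) := hf.supp
  have h1 : IntegrableOn (fun p : ℝ × ℝ => |f p|^3) (tsupport f) volume := by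
    refine Measure.integrableOn_of_bounded (M := M^3) hK.measure_lt_top.ne
      (hf.cube_meas.aestronglyMeasurable) ?_
    refine Filter.Eventually.of_forall (fun p => ?_)
    rw [Real.norm_eq_abs, abs_of_nonneg (by positivity)]
    exact pow_le_pow_left₀ (abs_nonneg _) (hM _) 3
  rwa [integrableOn_iff_integrable_of_support_subset] at h1
  intro p hp
  apply subset_tsupport
  intro h0
  apply hp
  simp [h0]

theorem a3_f {f : ℝ × ℝ → ℝ} (hf : Nice f) {d : ℝ} (hd : 0 < d) (n : ℕ) :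
    Integrable (fun q : ℝ × ℝ × ℝ => a3 n (sm d f q.1 q.2.1)) (nu d) ∧
    ∫ q, a3 n (sm d f q.1 q.2.1) ∂(nu d) ≤ (1/4)^n * d * ∫ p, |f p|^3 := by
  obtain ⟨B, hB⟩ := hf.cube_bdd
  have hm := hf.cube_meas
  have hti : ∀ i j : ℕ, Integrable (fun q : ℝ × ℝ × ℝ => |f ((i:ℝ)*d + q.1, (j:ℝ)*d + q.2.1)|^3)
      (nu d) := fun i j => by
    refine Integrable.of_bound ?_ B (Filter.Eventually.of_forall (fun p => hB _ _))
    exact (hm.comp (by fun_prop : Measurable (fun q : ℝ × ℝ × ℝ =>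
      ((i:ℝ)*d + q.1, (j:ℝ)*d + q.2.1)))).aestronglyMeasurable
  constructor
  · unfold a3
    refine Integrable.const_mul ?_ _
    refine integrable_finsetSum _ (fun i _ => integrable_finsetSum _ (fun j _ => hti i j))
  · unfold a3 sm
    rw [integral_const_mul, mul_assoc]
    refine mul_le_mul_of_nonneg_left ?_ (by positivity)
    rw [integral_finsetSum _ (fun i _ => integrable_finsetSum _ (fun j _ => hti i j))]
    have : ∀ i ∈ range (2^n), ∫ q : ℝ × ℝ × ℝ, ∑ j ∈ range (2^n),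
        |f ((i:ℝ)*d + q.1, (j:ℝ)*d + q.2.1)|^3 ∂(nu d)
        = d * ∑ j ∈ range (2^n), ∫ u, ∫ v, |f ((i:ℝ)*d + u, (j:ℝ)*d + v)|^3 ∂(mu d) ∂(mu d) := by
      intro i _
      rw [integral_finsetSum _ (fun j _ => hti i j), mul_sum]
      refine sum_congr rfl (fun j _ => ?_)
      exact nu_fst (ψ := fun u v => |f ((i:ℝ)*d + u, (j:ℝ)*d + v)|^3)
        (hm.comp (by fun_prop : Measurable (fun q : ℝ × ℝ => ((i:ℝ)*d + q.1, (j:ℝ)*d + q.2))))
        (fun u v => hB _ _) hd.le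
    rw [sum_congr rfl this, ← mul_sum]
    refine mul_le_mul_of_nonneg_left ?_ hd.le
    exact cellsum (ψ := fun x y => |f (x,y)|^3) hm hB (fun x y => by positivity)
      hf.cube_intble hd.le _

theorem a3_g {f : ℝ × ℝ → ℝ} (hf : Nice f) {d : ℝ} (hd : 0 < d) (n : ℕ) :
    Integrable (fun q : ℝ × ℝ × ℝ => a3 n (sm d f q.2.1 q.2.2)) (nu d) ∧
    ∫ q, a3 n (sm d f q.2.1 q.2.2) ∂(nu d) ≤ (1/4)^n * d * ∫ p, |f p|^3 := by
  obtain ⟨B, hB⟩ := hf.cube_bdd
  have hm := hf.cube_meas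
  have hti : ∀ i j : ℕ, Integrable (fun q : ℝ × ℝ × ℝ => |f ((i:ℝ)*d + q.2.1, (j:ℝ)*d + q.2.2)|^3)
      (nu d) := fun i j => by
    refine Integrable.of_bound ?_ B (Filter.Eventually.of_forall (fun p => hB _ _))
    exact (hm.comp (by fun_prop : Measurable (fun q : ℝ × ℝ × ℝ =>
      ((i:ℝ)*d + q.2.1, (j:ℝ)*d + q.2.2)))).aestronglyMeasurable
  constructor
  · unfold a3
    refine Integrable.const_mul ?_ _
    refine integrable_finsetSum _ (fun i _ => integrable_finsetSum _ (fun j _ => hti i j))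
  · unfold a3 sm
    rw [integral_const_mul, mul_assoc]
    refine mul_le_mul_of_nonneg_left ?_ (by positivity)
    rw [integral_finsetSum _ (fun i _ => integrable_finsetSum _ (fun j _ => hti i j))]
    have : ∀ i ∈ range (2^n), ∫ q : ℝ × ℝ × ℝ, ∑ j ∈ range (2^n),
        |f ((i:ℝ)*d + q.2.1, (j:ℝ)*d + q.2.2)|^3 ∂(nu d)
        = d * ∑ j ∈ range (2^n), ∫ u, ∫ v, |f ((i:ℝ)*d + u, (j:ℝ)*d + v)|^3 ∂(mu d) ∂(mu d) := by
      intro i _
      rw [integral_finsetSum _ (fun j _ => hti i j), mul_sum]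
      refine sum_congr rfl (fun j _ => ?_)
      exact nu_snd (ψ := fun u v => |f ((i:ℝ)*d + u, (j:ℝ)*d + v)|^3)
        (hm.comp (by fun_prop : Measurable (fun q : ℝ × ℝ => ((i:ℝ)*d + q.1, (j:ℝ)*d + q.2))))
        (fun u v => hB _ _) hd.le
    rw [sum_congr rfl this, ← mul_sum]
    refine mul_le_mul_of_nonneg_left ?_ hd.le
    exact cellsum (ψ := fun x y => |f (x,y)|^3) hm hB (fun x y => by positivity)
      hf.cube_intble hd.le _

theorem a3_h {f : ℝ × ℝ → ℝ} (hf : Nice f) {d : ℝ} (hd : 0 < d) (n : ℕ) :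
    Integrable (fun q : ℝ × ℝ × ℝ => a3 n (sm d f q.2.2 q.1)) (nu d) ∧
    ∫ q, a3 n (sm d f q.2.2 q.1) ∂(nu d) ≤ (1/4)^n * d * ∫ p, |f p|^3 := by
  obtain ⟨B, hB⟩ := hf.cube_bdd
  have hm := hf.cube_meas
  have hm' : Measurable (fun p : ℝ × ℝ => |f (p.2, p.1)|^3) :=
    hm.comp (by fun_prop : Measurable (fun p : ℝ × ℝ => (p.2, p.1)))
  have hti : ∀ i j : ℕ, Integrable (fun q : ℝ × ℝ × ℝ => |f ((i:ℝ)*d + q.2.2, (j:ℝ)*d + q.1)|^3)
      (nu d) := fun i j => by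
    refine Integrable.of_bound ?_ B (Filter.Eventually.of_forall (fun p => hB _ _))
    exact (hm.comp (by fun_prop : Measurable (fun q : ℝ × ℝ × ℝ =>
      ((i:ℝ)*d + q.2.2, (j:ℝ)*d + q.1)))).aestronglyMeasurable
  constructor
  · unfold a3
    refine Integrable.const_mul ?_ _
    refine integrable_finsetSum _ (fun i _ => integrable_finsetSum _ (fun j _ => hti i j))
  · unfold a3 sm
    rw [integral_const_mul, mul_assoc]
    refine mul_le_mul_of_nonneg_left ?_ (by positivity)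
    rw [integral_finsetSum _ (fun i _ => integrable_finsetSum _ (fun j _ => hti i j))]
    have : ∀ i ∈ range (2^n), ∫ q : ℝ × ℝ × ℝ, ∑ j ∈ range (2^n),
        |f ((i:ℝ)*d + q.2.2, (j:ℝ)*d + q.1)|^3 ∂(nu d)
        = d * ∑ j ∈ range (2^n), ∫ u, ∫ v, |f ((i:ℝ)*d + v, (j:ℝ)*d + u)|^3 ∂(mu d) ∂(mu d) := by
      intro i _
      rw [integral_finsetSum _ (fun j _ => hti i j), mul_sum]
      refine sum_congr rfl (fun j _ => ?_)
      exact nu_thd (ψ := fun u v => |f ((i:ℝ)*d + v, (j:ℝ)*d + u)|^3)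
        (hm.comp (by fun_prop : Measurable (fun q : ℝ × ℝ => ((i:ℝ)*d + q.2, (j:ℝ)*d + q.1))))
        (fun u v => hB _ _) hd.le
    rw [sum_congr rfl this, ← mul_sum]
    refine mul_le_mul_of_nonneg_left ?_ hd.le
    rw [sum_comm]
    have hsw : ∫ p : ℝ × ℝ, |f p|^3 = ∫ p : ℝ × ℝ, |f (p.2, p.1)|^3 := by
      have := integral_prod_swap (μ := (volume : Measure ℝ)) (ν := (volume : Measure ℝ))
        (fun p : ℝ × ℝ => |f p|^3)
      exact this.symm
    rw [hsw]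
    exact cellsum (ψ := fun x y => |f (y,x)|^3) hm' (fun x y => hB y x) (fun x y => by positivity)
      (hf.cube_intble.swap) hd.le _

end

end Helper912.TH9
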