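import Pool.Agent.Helper912.TH9f

set_option autoImplicit false
open MeasureTheory Finset

namespace Helper912.TH9

noncomputable section

namespace B71

/-- normalised third moment on the grid -/
noncomputable def a3 (n : ℕ) (f : ℕ → ℕ → ℝ) : ℝ :=
  (1/4 ^ n) * ∑ i ∈ Finset.range (2^n), ∑ j ∈ Finset.range (2^n), |f i j| ^ 3

/-- sign of the top bit -/
def sgn (M i : ℕ) : ℝ := if i < M / 2 then 1 else -1

/-- flat form of level `s` -/
noncomputable def Lam (n s : ℕ) (f g h : ℕ → ℕ → ℝ) : ℝ :=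
  (1/4 ^ s) * (1/8 ^ (n - s)) * ∑ p ∈ Finset.range (2^s), ∑ q ∈ Finset.range (2^s),
    ∑ i ∈ Finset.range (2^(n-s)), ∑ j ∈ Finset.range (2^(n-s)), ∑ k ∈ Finset.range (2^(n-s)),
      sgn (2^(n-s)) i * sgn (2^(n-s)) j * sgn (2^(n-s)) k *
      f (p * 2^(n-s) + i) (q * 2^(n-s) + j) * g (q * 2^(n-s) + j) ((p ^^^ q) * 2^(n-s) + k) *
      h ((p ^^^ q) * 2^(n-s) + k) (p * 2^(n-s) + i)

end B71

theorem sgn_eq {t i : ℕ} : B71.sgn (2^(t+1)) i = sg (2^(t+1)) i := by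
  unfold B71.sgn sg
  rw [pow_succ]
  congr 1
  simp only [eq_iff_iff]
  omega

/-- the conclusion of `FSflat` in the notation of helper71 implies `FS` -/
theorem FS_of_71 (H : ∃ C : ℝ, ∀ (n : ℕ) (f g h : ℕ → ℕ → ℝ),
    ∑ s ∈ Finset.range n, |B71.Lam n s f g h| ≤ C * (B71.a3 n f + B71.a3 n g + B71.a3 n h)) :
    FS := by
  obtain ⟨C, hC⟩ := H
  refine ⟨C, fun n f g h => ?_⟩
  have e : ∀ f : ℕ → ℕ → ℝ, B71.a3 n f = a3 n f := fun f => by
    unfold B71.a3 a3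
    simp only [one_div, inv_pow]
  have e2 : ∀ s ∈ range n, |Lam n s f g h| = |B71.Lam n s f g h| := by
    intro s hs
    obtain ⟨t, ht⟩ : ∃ t, n - s = t + 1 := ⟨n - s - 1, by have := mem_range.1 hs; omega⟩
    unfold B71.Lam Lam
    rw [ht]
    simp only [sgn_eq, one_div, inv_pow]
  rw [sum_congr rfl e2]
  simpa only [e] using hC n f g h

end

end Helper912.TH9
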