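import Pool.Agent.Helper912.ZDefs
import Pool.Agent.Helper912.TH9f

set_option autoImplicit false
open MeasureTheory Finset

namespace Helper912.Z

noncomputable section

open Helper912.TH9 (mu nu LI LI_of_bdd int_mu int_cells Nice3 meas_int bdd_int nu_int intble_mu)

/-- 1-D decomposition into integer cells -/
theorem cells1 {φ : ℝ → ℝ} (hm : Measurable φ) {B : ℝ} (hb : ∀ x, |φ x| ≤ B) {d : ℝ} (hd : 0 < d)
    {R : ℕ} (hs : ∀ x, ¬ (-(R:ℝ)*d < x ∧ x ≤ (R:ℝ)*d) → φ x = 0) :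
    ∫ x, φ x = ∑ i ∈ Ico (-(R:ℤ)) R, ∫ u, φ ((i:ℝ)*d + u) ∂(mu d) := by
  have h1 : ∫ x, φ x = ∫ x in (-(R:ℝ)*d)..((R:ℝ)*d), φ x := by
    rw [intervalIntegral.integral_of_le (by nlinarith [Nat.cast_nonneg (α := ℝ) R])]
    rw [← integral_indicator measurableSet_Ioc]
    refine integral_congr_ae (Filter.Eventually.of_forall (fun x => ?_))
    simp only [Set.indicator]
    split_ifs with h
    · rfl
    · exact hs x h
  have hLI := LI_of_bdd (φ := fun x => φ (x - (R:ℝ)*d)) (hm.comp (by fun_prop)) (fun x => hb _)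
  have h2 := int_cells hLI hd.le 0 (2*R)
  rw [h1]
  have h3 : ∫ x in (-(R:ℝ)*d)..((R:ℝ)*d), φ x
      = ∫ x in ((0:ℕ):ℝ)*d..(((0:ℕ):ℝ)+((2*R:ℕ):ℝ))*d, φ (x - (R:ℝ)*d) := by
    rw [intervalIntegral.integral_comp_sub_right (fun x => φ x)]
    congr 1 <;> push_cast <;> ring
  rw [h3, h2]
  refine sum_bij (fun (i:ℕ) _ => (i:ℤ) - R) ?_ ?_ ?_ ?_
  · intro i hi
    have := mem_range.1 hi
    rw [mem_Ico]; omega
  · intro a _ b _ hab
    omega
  · intro b hb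
    rw [mem_Ico] at hb
    refine ⟨(b + R).toNat, ?_, ?_⟩
    · rw [mem_range]; omega
    · omega
  · intro i _
    refine integral_congr_ae (Filter.Eventually.of_forall (fun u => ?_))
    simp only
    congr 1
    push_cast
    ring

/-- 3-D decomposition into integer cells -/
theorem cells3 {Φ : ℝ → ℝ → ℝ → ℝ} {B : ℝ} (h : Nice3 Φ B) {d : ℝ} (hd : 0 < d) {R : ℕ}
    (hs : ∀ x y z, ¬ ((-(R:ℝ)*d < x ∧ x ≤ (R:ℝ)*d) ∧ (-(R:ℝ)*d < y ∧ y ≤ (R:ℝ)*d) ∧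
      (-(R:ℝ)*d < z ∧ z ≤ (R:ℝ)*d)) → Φ x y z = 0) :
    ∫ p : ℝ × ℝ × ℝ, Φ p.1 p.2.1 p.2.2
      = ∑ i ∈ Ico (-(R:ℤ)) R, ∑ k ∈ Ico (-(R:ℤ)) R, ∑ l ∈ Ico (-(R:ℤ)) R,
          ∫ q, Φ ((i:ℝ)*d + q.1) ((k:ℝ)*d + q.2.1) ((l:ℝ)*d + q.2.2) ∂(nu d) := by
  set S : Set ℝ := Set.Ioc (-(R:ℝ)*d) ((R:ℝ)*d) with hS
  -- integrability on the whole space
  have hint : Integrable (fun p : ℝ × ℝ × ℝ => Φ p.1 p.2.1 p.2.2) := by
    have h1 : IntegrableOn (fun p : ℝ × ℝ × ℝ => Φ p.1 p.2.1 p.2.2) (S ×ˢ (S ×ˢ S)) volume := by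
      refine Measure.integrableOn_of_bounded (M := B) ?_ h.meas.aestronglyMeasurable ?_
      · rw [Measure.volume_eq_prod, Measure.prod_prod, Measure.volume_eq_prod, Measure.prod_prod]
        simp only [hS, Real.volume_Ioc]
        exact ENNReal.mul_ne_top ENNReal.ofReal_ne_top
          (ENNReal.mul_ne_top ENNReal.ofReal_ne_top ENNReal.ofReal_ne_top)
      · exact Filter.Eventually.of_forall (fun p => by simpa using h.bdd _ _ _)
    rwa [integrableOn_iff_integrable_of_support_subset] at h1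
    intro p hp
    by_contra hn
    apply hp
    apply hs
    intro hh
    exact hn ⟨hh.1, hh.2.1, hh.2.2⟩
  have h23 : ∀ x, Integrable (fun p : ℝ × ℝ => Φ x p.1 p.2) := by
    intro x
    have h1 : IntegrableOn (fun p : ℝ × ℝ => Φ x p.1 p.2) (S ×ˢ S) volume := by
      refine Measure.integrableOn_of_bounded (M := B) ?_
        (h.meas.comp (by fun_prop : Measurable (fun p : ℝ × ℝ => (x, p.1, p.2)))).aestronglyMeasurable ?_
      · rw [Measure.volume_eq_prod, Measure.prod_prod]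
        simp only [hS, Real.volume_Ioc]
        exact ENNReal.mul_ne_top ENNReal.ofReal_ne_top ENNReal.ofReal_ne_top
      · exact Filter.Eventually.of_forall (fun p => by simpa using h.bdd _ _ _)
    rwa [integrableOn_iff_integrable_of_support_subset] at h1
    intro p hp
    by_contra hn
    apply hp
    apply hs
    intro hh
    exact hn ⟨hh.2.1, hh.2.2⟩
  -- iterated form
  have e0 : ∫ p : ℝ × ℝ × ℝ, Φ p.1 p.2.1 p.2.2 = ∫ x, ∫ y, ∫ z, Φ x y z := by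
    rw [Measure.volume_eq_prod, integral_prod _ hint]
    refine integral_congr_ae (Filter.Eventually.of_forall (fun x => ?_))
    simp only
    rw [Measure.volume_eq_prod, integral_prod _ (h23 x)]
  rw [e0]
  set D := (mu d).real Set.univ with hD
  have b0 : ∀ x y z, ¬ (-(R:ℝ)*d < z ∧ z ≤ (R:ℝ)*d) → Φ x y z = 0 := fun x y z hz =>
    hs x y z (fun hh => hz hh.2.2)
  have b1 : ∀ x y z, ¬ (-(R:ℝ)*d < y ∧ y ≤ (R:ℝ)*d) → Φ x y z = 0 := fun x y z hz =>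
    hs x y z (fun hh => hz hh.2.1)
  have b2 : ∀ x y z, ¬ (-(R:ℝ)*d < x ∧ x ≤ (R:ℝ)*d) → Φ x y z = 0 := fun x y z hz =>
    hs x y z (fun hh => hz hh.1)
  -- z
  have ez : ∀ x y, ∫ z, Φ x y z = ∑ l ∈ Ico (-(R:ℤ)) R, ∫ w, Φ x y ((l:ℝ)*d + w) ∂(mu d) := by
    intro x y
    exact cells1 (h.meas.comp (by fun_prop : Measurable (fun z : ℝ => (x, y, z)))) (h.bdd x y) hd
      (fun z hz => b0 x y z hz)
  have mz : ∀ l : ℤ, Measurable (fun p : ℝ × ℝ => ∫ w, Φ p.1 p.2 ((l:ℝ)*d + w) ∂(mu d)) := fun l =>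
    meas_int (Ψ := fun p : ℝ × ℝ => fun w => Φ p.1 p.2 ((l:ℝ)*d + w))
      (h.meas.comp (by fun_prop : Measurable (fun p : (ℝ × ℝ) × ℝ =>
        (p.1.1, p.1.2, (l:ℝ)*d + p.2)))) d
  have ey : ∀ x, ∫ y, ∫ z, Φ x y z = ∑ k ∈ Ico (-(R:ℤ)) R, ∫ v, ∑ l ∈ Ico (-(R:ℤ)) R,
      ∫ w, Φ x ((k:ℝ)*d + v) ((l:ℝ)*d + w) ∂(mu d) ∂(mu d) := by
    intro x
    simp only [ez]
    refine cells1 (φ := fun y => ∑ l ∈ Ico (-(R:ℤ)) R, ∫ w, Φ x y ((l:ℝ)*d + w) ∂(mu d))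
      (B := ∑ l ∈ Ico (-(R:ℤ)) R, B * D) ?_ ?_ hd ?_
    · refine Finset.measurable_fun_sum _ (fun l _ => ?_)
      exact (mz l).comp (by fun_prop : Measurable (fun y : ℝ => (x, y)))
    · intro y
      refine (abs_sum_le_sum_abs _ _).trans (sum_le_sum (fun l _ => ?_))
      exact bdd_int (fun w => h.bdd _ _ _) d
    · intro y hy
      refine sum_eq_zero (fun l _ => ?_)
      simp only [b1 x y _ hy, integral_zero]
  have mzz : ∀ k l : ℤ, Measurable (fun x : ℝ => ∫ v, ∫ w, Φ x ((k:ℝ)*d + v) ((l:ℝ)*d + w)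
      ∂(mu d) ∂(mu d)) := fun k l =>
    meas_int (Ψ := fun x v => ∫ w, Φ x ((k:ℝ)*d + v) ((l:ℝ)*d + w) ∂(mu d))
      ((mz l).comp (by fun_prop : Measurable (fun p : ℝ × ℝ => (p.1, (k:ℝ)*d + p.2)))) d
  have bz : ∀ x y (l : ℤ), |∫ w, Φ x y ((l:ℝ)*d + w) ∂(mu d)| ≤ B * D := fun x y l =>
    bdd_int (fun w => h.bdd _ _ _) d
  have ey' : ∀ x, ∫ y, ∫ z, Φ x y z = ∑ k ∈ Ico (-(R:ℤ)) R, ∑ l ∈ Ico (-(R:ℤ)) R, ∫ v,
      ∫ w, Φ x ((k:ℝ)*d + v) ((l:ℝ)*d + w) ∂(mu d) ∂(mu d) := by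
    intro x
    rw [ey x]
    refine sum_congr rfl (fun k _ => ?_)
    rw [integral_finsetSum]
    intro l _
    refine intble_mu ((mz l).comp (by fun_prop : Measurable (fun v : ℝ => (x, (k:ℝ)*d + v))))
      (B := B * D) (fun v => bz _ _ _) d
  simp only [ey']
  rw [cells1 (φ := fun x => ∑ k ∈ Ico (-(R:ℤ)) R, ∑ l ∈ Ico (-(R:ℤ)) R, ∫ v,
      ∫ w, Φ x ((k:ℝ)*d + v) ((l:ℝ)*d + w) ∂(mu d) ∂(mu d))
      (B := ∑ k ∈ Ico (-(R:ℤ)) R, ∑ l ∈ Ico (-(R:ℤ)) R, B * D * D) ?_ ?_ hd ?_]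
  · refine sum_congr rfl (fun i _ => ?_)
    have ii : ∀ k l : ℤ, Integrable (fun u => ∫ v, ∫ w, Φ ((i:ℝ)*d+u) ((k:ℝ)*d + v) ((l:ℝ)*d + w)
        ∂(mu d) ∂(mu d)) (mu d) := fun k l =>
      intble_mu ((mzz k l).comp (by fun_prop : Measurable (fun u : ℝ => (i:ℝ)*d + u)))
        (B := B * D * D) (fun u => bdd_int (fun v => bz _ _ _) d) d
    rw [integral_finsetSum _ (fun k _ => integrable_finsetSum _ (fun l _ => ii k l))]
    refine sum_congr rfl (fun k _ => ?_)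
    rw [integral_finsetSum _ (fun l _ => ii k l)]
    refine sum_congr rfl (fun l _ => ?_)
    rw [nu_int (h.shift _ _ _) d]
  · refine Finset.measurable_fun_sum _ (fun k _ => Finset.measurable_fun_sum _ (fun l _ => mzz k l))
  · intro x
    refine (abs_sum_le_sum_abs _ _).trans (sum_le_sum (fun k _ => ?_))
    refine (abs_sum_le_sum_abs _ _).trans (sum_le_sum (fun l _ => ?_))
    exact bdd_int (fun v => bz _ _ _) d
  · intro x hx
    refine sum_eq_zero (fun k _ => sum_eq_zero (fun l _ => ?_))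
    simp only [b2 x _ _ hx, integral_zero]

end

end Helper912.Z
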