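import Pool.Agent.Helper912.ZA

set_option autoImplicit false
open MeasureTheory Finset

namespace Helper912.Z

noncomputable section

open Helper912.TH9 (mu nu LI LI_of_bdd int_mu int_cells Nice3 meas_int bdd_int nu_int intble_mu
  Nice nice3_of nu_fst nu_snd nu_thd)

/-- 2-D decomposition -/
theorem cells2 {ψ : ℝ → ℝ → ℝ} (hm : Measurable (fun p : ℝ × ℝ => ψ p.1 p.2)) {B : ℝ}
    (hb : ∀ x y, |ψ x y| ≤ B) {d : ℝ} (hd : 0 < d) {R : ℕ}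
    (hs : ∀ x y, ¬ ((-(R:ℝ)*d < x ∧ x ≤ (R:ℝ)*d) ∧ (-(R:ℝ)*d < y ∧ y ≤ (R:ℝ)*d)) → ψ x y = 0) :
    ∫ p : ℝ × ℝ, ψ p.1 p.2 = ∑ i ∈ Ico (-(R:ℤ)) R, ∑ k ∈ Ico (-(R:ℤ)) R,
      ∫ u, ∫ v, ψ ((i:ℝ)*d + u) ((k:ℝ)*d + v) ∂(mu d) ∂(mu d) := by
  set S : Set ℝ := Set.Ioc (-(R:ℝ)*d) ((R:ℝ)*d) with hS
  have hint : Integrable (fun p : ℝ × ℝ => ψ p.1 p.2) := by
    have h1 : IntegrableOn (fun p : ℝ × ℝ => ψ p.1 p.2) (S ×ˢ S) volume := by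
      refine Measure.integrableOn_of_bounded (M := B) ?_ hm.aestronglyMeasurable ?_
      · rw [Measure.volume_eq_prod, Measure.prod_prod]
        simp only [hS, Real.volume_Ioc]
        exact ENNReal.mul_ne_top ENNReal.ofReal_ne_top ENNReal.ofReal_ne_top
      · exact Filter.Eventually.of_forall (fun p => by simpa using hb _ _)
    rwa [integrableOn_iff_integrable_of_support_subset] at h1
    intro p hp
    by_contra hn
    apply hp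
    apply hs
    intro hh
    exact hn ⟨hh.1, hh.2⟩
  rw [Measure.volume_eq_prod, integral_prod _ hint]
  set D := (mu d).real Set.univ with hD
  have ez : ∀ x, ∫ y, ψ x y = ∑ l ∈ Ico (-(R:ℤ)) R, ∫ w, ψ x ((l:ℝ)*d + w) ∂(mu d) := by
    intro x
    exact cells1 (hm.comp (by fun_prop : Measurable (fun z : ℝ => (x, z)))) (hb x) hd
      (fun z hz => hs x z (fun hh => hz hh.2))
  have mz : ∀ l : ℤ, Measurable (fun x : ℝ => ∫ w, ψ x ((l:ℝ)*d + w) ∂(mu d)) := fun l =>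
    meas_int (Ψ := fun x : ℝ => fun w => ψ x ((l:ℝ)*d + w))
      (hm.comp (by fun_prop : Measurable (fun p : ℝ × ℝ => (p.1, (l:ℝ)*d + p.2)))) d
  simp only [ez]
  rw [cells1 (φ := fun x => ∑ l ∈ Ico (-(R:ℤ)) R, ∫ w, ψ x ((l:ℝ)*d + w) ∂(mu d))
    (B := ∑ l ∈ Ico (-(R:ℤ)) R, B * D) ?_ ?_ hd ?_]
  · refine sum_congr rfl (fun i _ => ?_)
    rw [integral_finsetSum]
    intro l _
    exact intble_mu ((mz l).comp (by fun_prop : Measurable (fun u : ℝ => (i:ℝ)*d + u)))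
        (B := B * D) (fun u => bdd_int (fun v => hb _ _) d) d
  · exact Finset.measurable_fun_sum _ (fun l _ => mz l)
  · intro x
    refine (abs_sum_le_sum_abs _ _).trans (sum_le_sum (fun l _ => ?_))
    exact bdd_int (fun v => hb _ _) d
  · intro x hx
    refine sum_eq_zero (fun l _ => ?_)
    have : ∀ y, ψ x y = 0 := fun y => hs x y (fun hh => hx hh.1)
    simp only [this, integral_zero]

theorem mu_eq (d : ℝ) : mu d = (volume : Measure ℝ).restrict (Set.Ioo 0 d) := by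
  unfold mu
  exact Measure.restrict_congr_set Ioo_ae_eq_Ioc.symm

theorem nu_eq (d : ℝ) : nu d = (volume : Measure (ℝ × ℝ × ℝ)).restrict
    (Set.Ioo 0 d ×ˢ (Set.Ioo 0 d ×ˢ Set.Ioo 0 d)) := by
  unfold nu
  rw [mu_eq, Measure.prod_restrict, Measure.prod_restrict]
  rfl

theorem nu_ae (d : ℝ) : ∀ᵐ q ∂(nu d), (0 < q.1 ∧ q.1 < d) ∧ (0 < q.2.1 ∧ q.2.1 < d) ∧
    (0 < q.2.2 ∧ q.2.2 < d) := by
  rw [nu_eq]
  have hms : MeasurableSet (Set.Ioo 0 d ×ˢ (Set.Ioo 0 d ×ˢ Set.Ioo 0 d) : Set (ℝ × ℝ × ℝ)) :=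
    measurableSet_Ioo.prod (measurableSet_Ioo.prod measurableSet_Ioo)
  filter_upwards [ae_restrict_mem hms] with q hq
  exact ⟨hq.1, hq.2.1, hq.2.2⟩

/-- sampled function -/
def smz (d : ℝ) (f : ℝ × ℝ → ℝ) (u v : ℝ) : ℤ → ℤ → ℝ := fun i k => f ((i:ℝ)*d + u, (k:ℝ)*d + v)

def Supp (R : ℕ) (d : ℝ) (f : ℝ × ℝ → ℝ) : Prop :=
  ∀ x y, ¬ ((-(R:ℝ)*d < x ∧ x ≤ (R:ℝ)*d) ∧ (-(R:ℝ)*d < y ∧ y ≤ (R:ℝ)*d)) → f (x, y) = 0

theorem floor_cell {d u : ℝ} (hd : 0 < d) (h0 : 0 < u) (h1 : u < d) (i : ℤ) :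
    ⌊((i:ℝ)*d + u)/d⌋ = i := by
  rw [Int.floor_eq_iff]
  constructor
  · rw [le_div_iff₀ hd]; linarith
  · rw [div_lt_iff₀ hd]; nlinarith

theorem box_smz {R : ℕ} {d : ℝ} (hd : 0 < d) {f : ℝ × ℝ → ℝ} (hs : Supp R d f) {u v : ℝ}
    (hu : 0 < u ∧ u < d) (hv : 0 < v ∧ v < d) : Box R (smz d f u v) := by
  intro x y hxy
  apply hs
  intro hh
  apply hxy
  have key : ∀ (x : ℤ) (u : ℝ), (0 < u ∧ u < d) → (-(R:ℝ)*d < (x:ℝ)*d+u ∧ (x:ℝ)*d+u ≤ (R:ℝ)*d) →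
      -(R:ℤ) ≤ x ∧ x < R := by
    intro x u hu h
    constructor
    · by_contra hc
      have h2 : x + 1 ≤ -(R:ℤ) := by omega
      have h3 : ((x:ℝ) + 1) ≤ -(R:ℝ) := by exact_mod_cast h2
      nlinarith [h.1, hu.2]
    · by_contra hc
      have h2 : (R:ℤ) ≤ x := by omega
      have h3 : (R:ℝ) ≤ (x:ℝ) := by exact_mod_cast h2
      nlinarith [h.2, hu.1]
  obtain ⟨a1, a2⟩ := key x u hu hh.1
  obtain ⟨a3, a4⟩ := key y v hv hh.2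
  exact ⟨a1, a2, a3, a4⟩

theorem one {f g h : ℝ × ℝ → ℝ} {B : ℝ} (hΦ : Nice3 (fun x y z => f (x,y) * g (y,z) * h (z,x)) B)
    {R : ℕ} {d : ℝ} (hd : 0 < d) (hf : Supp R d f) (hg : Supp R d g)
    {κ : ℤ → ℝ} {K : ℝ} (hκ : ∀ m, |κ m| ≤ K) :
    ∫ p : ℝ × ℝ × ℝ, F3 f g h p * κ (⌊p.1/d⌋ + ⌊p.2.1/d⌋ + ⌊p.2.2/d⌋)
      = ∫ q, ∑ x ∈ Ico (-(R:ℤ)) R, ∑ y ∈ Ico (-(R:ℤ)) R, ∑ z ∈ Ico (-(R:ℤ)) R,
          smz d f q.1 q.2.1 x y * smz d g q.2.1 q.2.2 y z * smz d h q.2.2 q.1 z x * κ (x + y + z)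
          ∂(nu d) := by
  have hK : 0 ≤ K := (abs_nonneg _).trans (hκ 0)
  have hB : 0 ≤ B := (abs_nonneg _).trans (hΦ.bdd 0 0 0)
  have hκm : Measurable κ := measurable_from_top
  have hN : Nice3 (fun x y z => f (x,y) * g (y,z) * h (z,x) * κ (⌊x/d⌋ + ⌊y/d⌋ + ⌊z/d⌋)) (B*K) := by
    constructor
    · refine hΦ.meas.mul (hκm.comp ?_)
      have m1 : Measurable (fun p : ℝ × ℝ × ℝ => ⌊p.1/d⌋) :=
        Int.measurable_floor.comp (by fun_prop)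
      have m2 : Measurable (fun p : ℝ × ℝ × ℝ => ⌊p.2.1/d⌋) :=
        Int.measurable_floor.comp (by fun_prop)
      have m3 : Measurable (fun p : ℝ × ℝ × ℝ => ⌊p.2.2/d⌋) :=
        Int.measurable_floor.comp (by fun_prop)
      exact (m1.add m2).add m3
    · intro x y z
      rw [abs_mul]
      exact mul_le_mul (hΦ.bdd _ _ _) (hκ _) (abs_nonneg _) hB
  have h1 := cells3 hN hd (R := R) (by
    intro x y z hh
    by_cases hx : (-(R:ℝ)*d < x ∧ x ≤ (R:ℝ)*d) ∧ (-(R:ℝ)*d < y ∧ y ≤ (R:ℝ)*d)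
    · have : g (y, z) = 0 := hg y z (fun h2 => hh ⟨hx.1, hx.2, h2.2⟩)
      simp only [this]; ring
    · have : f (x, y) = 0 := hf x y hx
      simp only [this]; ring)
  have h2 : ∫ p : ℝ × ℝ × ℝ, F3 f g h p * κ (⌊p.1/d⌋ + ⌊p.2.1/d⌋ + ⌊p.2.2/d⌋)
      = ∫ p : ℝ × ℝ × ℝ, f (p.1,p.2.1) * g (p.2.1,p.2.2) * h (p.2.2,p.1)
        * κ (⌊p.1/d⌋ + ⌊p.2.1/d⌋ + ⌊p.2.2/d⌋) := rfl
  rw [h2, h1]
  have hti : ∀ x y z : ℤ, Integrable (fun q : ℝ × ℝ × ℝ =>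
      smz d f q.1 q.2.1 x y * smz d g q.2.1 q.2.2 y z * smz d h q.2.2 q.1 z x * κ (x + y + z))
      (nu d) := by
    intro x y z
    refine Integrable.mul_const ?_ _
    have h3 := hΦ.shift ((x:ℝ)*d) ((y:ℝ)*d) ((z:ℝ)*d)
    exact Integrable.of_bound h3.meas.aestronglyMeasurable B
      (Filter.Eventually.of_forall (fun p => h3.bdd _ _ _))
  rw [integral_finsetSum _ (fun x _ => integrable_finsetSum _ (fun y _ =>
    integrable_finsetSum _ (fun z _ => hti x y z)))]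
  refine sum_congr rfl (fun x _ => ?_)
  rw [integral_finsetSum _ (fun y _ => integrable_finsetSum _ (fun z _ => hti x y z))]
  refine sum_congr rfl (fun y _ => ?_)
  rw [integral_finsetSum _ (fun z _ => hti x y z)]
  refine sum_congr rfl (fun z _ => ?_)
  refine integral_congr_ae ?_
  filter_upwards [nu_ae d] with q hq
  simp only [smz]
  rw [floor_cell hd hq.1.1 hq.1.2, floor_cell hd hq.2.1.1 hq.2.1.2, floor_cell hd hq.2.2.1 hq.2.2.2]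

end

end Helper912.Z
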