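import Pool.Agent.Helper912.ZB

set_option autoImplicit false
open MeasureTheory Finset Filter Topology

namespace Helper912.Z

noncomputable section

open Helper912.TH9 (mu nu LI LI_of_bdd int_mu int_cells Nice3 meas_int bdd_int nu_int intble_mu
  Nice nice3_of nu_fst nu_snd nu_thd mu_real)

theorem et_meas : Measurable et := by
  unfold et
  refine Measurable.ite ?_ measurable_const (Measurable.ite ?_ measurable_const measurable_const)
  · exact measurableSet_Ico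
  · exact measurableSet_Ico

theorem et_abs (w : ℝ) : |et w| ≤ 1 := by
  unfold et; split_ifs <;> simp

theorem et_zero {w : ℝ} (h : w < 0 ∨ 1 ≤ w) : et w = 0 := by
  unfold et
  rw [if_neg, if_neg]
  · rintro ⟨h1, h2⟩; rcases h with h | h <;> linarith
  · rintro ⟨h1, h2⟩; rcases h with h | h <;> linarith

theorem et_cont {w : ℝ} (h0 : w ≠ 0) (h1 : w ≠ 1/2) (h2 : w ≠ 1) : ContinuousAt et w := by
  rcases lt_or_gt_of_ne h0 with a | a
  · refine (continuousAt_const (y := (0:ℝ))).congr ?_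
    filter_upwards [Iio_mem_nhds a] with x hx
    rw [et_zero (Or.inl hx)]
  · rcases lt_or_gt_of_ne h1 with b | b
    · refine (continuousAt_const (y := (1:ℝ))).congr ?_
      filter_upwards [Ioo_mem_nhds a b] with x hx
      unfold et; rw [if_pos ⟨hx.1.le, hx.2⟩]
    · rcases lt_or_gt_of_ne h2 with c | c
      · refine (continuousAt_const (y := (-1:ℝ))).congr ?_
        filter_upwards [Ioo_mem_nhds b c] with x hx
        unfold et; rw [if_neg (fun h => by linarith [h.2, hx.1]), if_pos ⟨hx.1.le, hx.2⟩]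
      · refine (continuousAt_const (y := (0:ℝ))).congr ?_
        filter_upwards [Ioi_mem_nhds c] with x hx
        rw [et_zero (Or.inr (le_of_lt hx))]

theorem et_intble : Integrable et := by
  have h1 : IntegrableOn et (Set.Icc 0 1) volume := by
    refine Measure.integrableOn_of_bounded (M := 1) (by simp) et_meas.aestronglyMeasurable ?_
    exact Filter.Eventually.of_forall (fun p => by simpa using et_abs p)
  rwa [integrableOn_iff_integrable_of_support_subset] at h1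
  intro p hp
  by_contra hn
  apply hp
  apply et_zero
  by_contra hc
  push Not at hc
  exact hn ⟨hc.1, hc.2.le⟩

theorem half_pow {j : ℕ} : ((2:ℝ)^j) * (1/2)^j = 1 := by
  rw [← mul_pow]; norm_num

/-- values of `et` at grid points -/
theorem et_grid {j : ℕ} (hj : 1 ≤ j) (r : ℤ) :
    et ((r:ℝ) * (1/2)^j) = ∑ l ∈ range (2^j), if (l:ℤ) = r then sgn (2^j) l else 0 := by
  obtain ⟨t, rfl⟩ : ∃ t, j = t + 1 := ⟨j - 1, by omega⟩
  have hd : (0:ℝ) < (1/2)^(t+1) := by positivity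
  have hp : (2:ℝ)^(t+1) * (1/2)^(t+1) = 1 := half_pow
  have hp2 : (2:ℝ)^t * (1/2)^(t+1) = 1/2 := by rw [pow_succ, ← mul_assoc, half_pow]; ring
  by_cases h0 : 0 ≤ r
  · by_cases h1 : r < 2^(t+1)
    · obtain ⟨l0, rfl⟩ := Int.eq_ofNat_of_zero_le h0
      have hl0 : l0 < 2^(t+1) := by exact_mod_cast h1
      rw [sum_eq_single l0]
      · rw [if_pos rfl]
        unfold sgn et
        have hc : ((l0:ℤ):ℝ) = (l0:ℝ) := by push_cast; rfl
        rw [hc]
        have hnn : (0:ℝ) ≤ (l0:ℝ) * (1/2)^(t+1) := by positivity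
        have hle1 : (l0:ℝ) * (1/2)^(t+1) < 1 := by
          calc (l0:ℝ) * (1/2)^(t+1) < 2^(t+1) * (1/2)^(t+1) :=
                mul_lt_mul_of_pos_right (by exact_mod_cast hl0) hd
            _ = 1 := hp
        have hiff : l0 < 2^(t+1)/2 ↔ (l0:ℝ) * (1/2)^(t+1) < 1/2 := by
          have hdiv : 2^(t+1)/2 = 2^t := by rw [pow_succ, Nat.mul_div_cancel _ (by norm_num)]
          rw [hdiv]
          constructor
          · intro h
            calc (l0:ℝ) * (1/2)^(t+1) < 2^t * (1/2)^(t+1) :=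
                  mul_lt_mul_of_pos_right (by exact_mod_cast h) hd
              _ = 1/2 := hp2
          · intro h
            have h' : (l0:ℝ) * (1/2)^(t+1) < 2^t * (1/2)^(t+1) := by rw [hp2]; exact h
            have := lt_of_mul_lt_mul_right h' hd.le
            exact_mod_cast this
        by_cases h : l0 < 2^(t+1)/2
        · rw [if_pos h, if_pos ⟨hnn, hiff.1 h⟩]
        · have hge : 1/2 ≤ (l0:ℝ) * (1/2)^(t+1) := not_lt.1 (fun hh => h (hiff.2 hh))
          rw [if_neg h, if_neg (fun hh => h (hiff.2 hh.2)), if_pos ⟨hge, hle1⟩]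
      · intro b _ hb
        rw [if_neg]; intro h; apply hb; exact_mod_cast h
      · intro h; exact absurd (mem_range.2 hl0) h
    · rw [et_zero (Or.inr ?_), sum_eq_zero]
      · intro l hl
        have := mem_range.1 hl
        rw [if_neg]; rintro rfl
        apply h1
        exact_mod_cast this
      · have := not_lt.1 h1
        calc (1:ℝ) = 2^(t+1) * (1/2)^(t+1) := hp.symm
          _ ≤ (r:ℝ) * (1/2)^(t+1) := mul_le_mul_of_nonneg_right (by exact_mod_cast this) hd.le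
  · rw [et_zero (Or.inl ?_), sum_eq_zero]
    · intro l _
      rw [if_neg]; rintro rfl; exact h0 (by positivity)
    · have : (r:ℝ) < 0 := by exact_mod_cast (not_le.1 h0)
      exact mul_neg_of_neg_of_pos this hd

/-- `et` is constant on grid cells -/
theorem et_cell {j : ℕ} (hj : 1 ≤ j) (i : ℤ) {u : ℝ} (h0 : 0 < u) (h1 : u < (1/2:ℝ)^j) :
    et ((i:ℝ) * (1/2)^j + u) = et ((i:ℝ) * (1/2)^j) := by
  obtain ⟨t, rfl⟩ : ∃ t, j = t + 1 := ⟨j - 1, by omega⟩
  have hd : (0:ℝ) < (1/2)^(t+1) := by positivity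
  have hp : (2:ℝ)^(t+1) * (1/2)^(t+1) = 1 := half_pow
  have hp2 : (2:ℝ)^t * (1/2)^(t+1) = 1/2 := by rw [pow_succ, ← mul_assoc, half_pow]; ring
  -- comparison with grid points
  have key : ∀ c : ℤ, ((i:ℝ) * (1/2)^(t+1) + u < (c:ℝ) * (1/2)^(t+1) ↔
      (i:ℝ) * (1/2)^(t+1) < (c:ℝ) * (1/2)^(t+1)) := by
    intro c
    constructor
    · intro h; linarith
    · intro h
      have h2 : (i:ℝ) < (c:ℝ) := lt_of_mul_lt_mul_right h hd.le
      have h3 : i + 1 ≤ c := by
        have : i < c := by exact_mod_cast h2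
        omega
      have h4 : (i:ℝ) + 1 ≤ (c:ℝ) := by exact_mod_cast h3
      nlinarith
  have k0 := key 0
  have k1 := key (2^t)
  have k2 := key (2^(t+1))
  push_cast at k0 k1 k2
  rw [zero_mul] at k0
  rw [hp2] at k1
  rw [hp] at k2
  unfold et
  have e0 : (0 ≤ (i:ℝ) * (1/2)^(t+1) + u) ↔ (0 ≤ (i:ℝ) * (1/2)^(t+1)) := by
    rw [← not_lt, ← not_lt, k0]
  have e1 : (1/2 ≤ (i:ℝ) * (1/2)^(t+1) + u) ↔ (1/2 ≤ (i:ℝ) * (1/2)^(t+1)) := by
    rw [← not_lt, ← not_lt, k1]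
  simp only [e0, e1, k1, k2]

theorem disc1 {j : ℕ} (hj : 1 ≤ j) {H : ℤ → ℝ} {K : ℝ} (hH : ∀ m, |H m| ≤ K) :
    ∫ b, et b * H ⌊b/((1/2:ℝ)^j)⌋ = ∑ k ∈ range (2^j), (1/2:ℝ)^j * (sgn (2^j) k * H k) := by
  have hd : (0:ℝ) < (1/2)^j := by positivity
  have hHm : Measurable H := measurable_from_top
  have hK : 0 ≤ K := (abs_nonneg _).trans (hH 0)
  have h1 := cells1 (φ := fun b => et b * H ⌊b/((1/2:ℝ)^j)⌋) (B := K) (R := 2^j)
    (et_meas.mul (hHm.comp (Int.measurable_floor.comp (by fun_prop))))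
    (fun x => by
      rw [abs_mul]
      calc |et x| * |H ⌊x/((1/2:ℝ)^j)⌋| ≤ 1 * K :=
            mul_le_mul (et_abs x) (hH _) (abs_nonneg _) (by norm_num)
        _ = K := one_mul K) hd
    (fun x hx => by
      rw [et_zero, zero_mul]
      by_contra hc
      push Not at hc
      apply hx
      push_cast
      rw [neg_mul, half_pow]
      exact ⟨by linarith [hc.1], hc.2.le⟩)
  rw [h1]
  have h2 : ∀ i ∈ Ico (-((2^j : ℕ):ℤ)) ((2^j : ℕ):ℤ),
      ∫ u, et ((i:ℝ)*(1/2)^j + u) * H ⌊((i:ℝ)*(1/2)^j + u)/((1/2:ℝ)^j)⌋ ∂(mu ((1/2)^j))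
        = (1/2:ℝ)^j * (et ((i:ℝ) * (1/2)^j) * H i) := by
    intro i _
    have : ∀ᵐ u ∂(mu ((1/2:ℝ)^j)), et ((i:ℝ)*(1/2)^j + u) * H ⌊((i:ℝ)*(1/2)^j + u)/((1/2:ℝ)^j)⌋
        = et ((i:ℝ) * (1/2)^j) * H i := by
      rw [mu_eq]
      filter_upwards [ae_restrict_mem measurableSet_Ioo] with u hu
      rw [et_cell hj i hu.1 hu.2, floor_cell hd hu.1 hu.2]
    rw [integral_congr_ae this, integral_const, mu_real hd.le, smul_eq_mul]
  rw [sum_congr rfl h2]
  -- expand `et` at the grid points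
  have h3 : ∀ i ∈ Ico (-((2^j : ℕ):ℤ)) ((2^j : ℕ):ℤ), (1/2:ℝ)^j * (et ((i:ℝ) * (1/2)^j) * H i)
      = ∑ l ∈ range (2^j), if (l:ℤ) = i then (1/2:ℝ)^j * (sgn (2^j) l * H l) else 0 := by
    intro i _
    rw [et_grid hj, sum_mul, mul_sum]
    refine sum_congr rfl (fun l _ => ?_)
    split_ifs with h
    · rw [h]
    · ring
  rw [sum_congr rfl h3, sum_comm]
  refine sum_congr rfl (fun l hl => ?_)
  rw [sum_ite_eq]
  rw [if_pos]
  rw [mem_Ico]
  have := mem_range.1 hl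
  constructor
  · have : (0:ℤ) ≤ (l:ℤ) := by positivity
    have h4 : (0:ℤ) ≤ ((2^j : ℕ):ℤ) := by positivity
    omega
  · exact_mod_cast this

def kap (j : ℕ) (m : ℤ) : ℝ := 2^j * kk j m

theorem kap_eq {j : ℕ} (hj : 1 ≤ j) (m : ℤ) :
    kap j m = ∫ a, ∫ b, et a * et b *
      et (((m:ℝ) - (⌊a/((1/2:ℝ)^j)⌋:ℝ) - (⌊b/((1/2:ℝ)^j)⌋:ℝ)) * (1/2)^j) := by
  have h1 : ∀ a, ∫ b, et a * et b *
      et (((m:ℝ) - (⌊a/((1/2:ℝ)^j)⌋:ℝ) - (⌊b/((1/2:ℝ)^j)⌋:ℝ)) * (1/2)^j)
      = et a * (fun i : ℤ => ∑ k ∈ range (2^j), (1/2:ℝ)^j * (sgn (2^j) k *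
          et (((m - i - (k:ℤ) : ℤ):ℝ) * (1/2)^j))) ⌊a/((1/2:ℝ)^j)⌋ := by
    intro a
    have := disc1 hj (H := fun k : ℤ => et (((m - ⌊a/((1/2:ℝ)^j)⌋ - k : ℤ):ℝ) * (1/2)^j)) (K := 1)
      (fun k => et_abs _)
    simp only
    rw [← this, ← integral_const_mul]
    refine integral_congr_ae (Filter.Eventually.of_forall (fun b => ?_))
    simp only
    push_cast
    ring
  simp only [h1]
  rw [disc1 hj (H := fun i : ℤ => ∑ k ∈ range (2^j), (1/2:ℝ)^j * (sgn (2^j) k *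
          et (((m - i - (k:ℤ) : ℤ):ℝ) * (1/2)^j))) (K := ∑ k ∈ range (2^j), (1/2:ℝ)^j * 1)
      (fun i => by
        refine (abs_sum_le_sum_abs _ _).trans (sum_le_sum (fun k _ => ?_))
        rw [abs_mul, abs_of_nonneg (by positivity : (0:ℝ) ≤ (1/2)^j)]
        refine mul_le_mul_of_nonneg_left ?_ (by positivity)
        rw [abs_mul]
        have : |sgn (2^j) k| ≤ 1 := by unfold sgn; split_ifs <;> simp
        calc _ ≤ (1:ℝ) * 1 := mul_le_mul this (et_abs _) (abs_nonneg _) (by norm_num)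
          _ = 1 := one_mul 1)]
  unfold kap kk
  rw [mul_sum, mul_sum]
  refine sum_congr rfl (fun i _ => ?_)
  rw [mul_sum, mul_sum, mul_sum, mul_sum]
  refine sum_congr rfl (fun k _ => ?_)
  rw [et_grid hj]
  have hco : (2:ℝ)^j * (1/8^j) = (1/2)^j * (1/2)^j := by
    have h8 : (8:ℝ)^j = 2^j * 2^j * 2^j := by rw [← mul_pow, ← mul_pow]; norm_num
    rw [h8]
    simp only [one_div, inv_pow]
    have : (2:ℝ)^j ≠ 0 := by positivity
    field_simp
  rw [← mul_assoc, hco]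
  rw [mul_sum, mul_sum, mul_sum, mul_sum, mul_sum]
  refine sum_congr rfl (fun l _ => ?_)
  by_cases h : ((i:ℤ) + k + l) = m
  · rw [if_pos h, if_pos (by omega)]; ring
  · rw [if_neg h, if_neg (by omega)]; ring

end

end Helper912.Z
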