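import Pool.Agent.Helper912.ZC

set_option autoImplicit false
open MeasureTheory Finset Filter Topology

namespace Helper912.Z

noncomputable section

open Helper912.TH9 (mu nu LI LI_of_bdd int_mu int_cells Nice3 meas_int bdd_int nu_int intble_mu
  Nice nice3_of nu_fst nu_snd nu_thd mu_real)

theorem floor_tendsto {d : ℕ → ℝ} (hd : ∀ n, 0 < d n) (h0 : Tendsto d atTop (𝓝 0)) (a : ℝ) :
    Tendsto (fun n => (⌊a / d n⌋ : ℝ) * d n) atTop (𝓝 a) := by
  have h1 : Tendsto (fun n => a - d n) atTop (𝓝 (a - 0)) := tendsto_const_nhds.sub h0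
  rw [sub_zero] at h1
  refine tendsto_of_tendsto_of_tendsto_of_le_of_le h1 tendsto_const_nhds ?_ ?_
  · intro n
    have := Int.lt_floor_add_one (a / d n)
    rw [div_lt_iff₀ (hd n)] at this
    simp only
    nlinarith
  · intro n
    have := Int.floor_le (a / d n)
    rw [le_div_iff₀ (hd n)] at this
    exact this

theorem hp0 {J : ℕ → ℕ} (hJ : Tendsto J atTop atTop) :
    Tendsto (fun n => (1/2:ℝ)^(J n)) atTop (𝓝 0) :=
  (tendsto_pow_atTop_nhds_zero_of_lt_one (by norm_num) (by norm_num)).comp hJ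

theorem kap_tendsto {J : ℕ → ℕ} (hJ : Tendsto J atTop atTop) {m : ℕ → ℤ} {w : ℝ}
    (hm : Tendsto (fun n => (m n : ℝ) * (1/2)^(J n)) atTop (𝓝 w)) :
    Tendsto (fun n => kap (J n) (m n)) atTop (𝓝 (ps w)) := by
  have hd0 := hp0 hJ
  have hdp : ∀ n, (0:ℝ) < (1/2)^(J n) := fun n => by positivity
  have hEq : ∀ᶠ n in atTop, (∫ a, ∫ b, et a * et b *
      et (((m n:ℝ) - (⌊a/((1/2:ℝ)^(J n))⌋:ℝ) - (⌊b/((1/2:ℝ)^(J n))⌋:ℝ)) * (1/2)^(J n)))
      = kap (J n) (m n) := by
    filter_upwards [hJ.eventually_ge_atTop 1] with n hn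
    exact (kap_eq hn _).symm
  refine Tendsto.congr' hEq ?_
  unfold ps
  -- the inner limit
  have inner : ∀ a, Tendsto (fun n => ∫ b, et a * et b *
      et (((m n:ℝ) - (⌊a/((1/2:ℝ)^(J n))⌋:ℝ) - (⌊b/((1/2:ℝ)^(J n))⌋:ℝ)) * (1/2)^(J n))) atTop
      (𝓝 (∫ b, et a * et b * et (w - a - b))) := by
    intro a
    refine tendsto_integral_of_dominated_convergence (fun b => |et a| * |et b|) ?_ ?_ ?_ ?_
    · intro n
      refine (Measurable.aestronglyMeasurable ?_)
      refine (measurable_const.mul et_meas).mul (et_meas.comp ?_)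
      refine Measurable.mul_const ?_ _
      refine Measurable.sub measurable_const ?_
      exact measurable_from_top.comp (Int.measurable_floor.comp (by fun_prop))
    · exact et_intble.abs.const_mul _
    · intro n
      refine Filter.Eventually.of_forall (fun b => ?_)
      rw [Real.norm_eq_abs, abs_mul, abs_mul]
      calc |et a| * |et b| * _ ≤ |et a| * |et b| * 1 :=
            mul_le_mul_of_nonneg_left (et_abs _) (by positivity)
        _ = _ := mul_one _
    · have hfin : ({w - a, w - a - 1/2, w - a - 1} : Set ℝ).Finite := by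
        simp
      have hnull : ∀ᵐ b : ℝ, b ∉ ({w - a, w - a - 1/2, w - a - 1} : Set ℝ) :=
        hfin.countable.ae_notMem _
      filter_upwards [hnull] with b hb
      simp only [Set.mem_insert_iff, Set.mem_singleton_iff, not_or] at hb
      refine Tendsto.mul tendsto_const_nhds ?_
      have hc : ContinuousAt et (w - a - b) := by
        apply et_cont
        · intro h; apply hb.1; linarith
        · intro h; apply hb.2.1; linarith
        · intro h; apply hb.2.2; linarith
      refine hc.tendsto.comp ?_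
      have h1 := floor_tendsto hdp hd0 a
      have h2 := floor_tendsto hdp hd0 b
      have h3 := (hm.sub h1).sub h2
      refine h3.congr (fun n => ?_)
      ring
  refine tendsto_integral_of_dominated_convergence (fun a => |et a| * ∫ b, |et b|) ?_ ?_ ?_ ?_
  · intro n
    have hmm : Measurable (fun p : ℝ × ℝ => et p.1 * et p.2 *
      et (((m n:ℝ) - (⌊p.1/((1/2:ℝ)^(J n))⌋:ℝ) - (⌊p.2/((1/2:ℝ)^(J n))⌋:ℝ)) * (1/2)^(J n))) := by
      refine ((et_meas.comp measurable_fst).mul (et_meas.comp measurable_snd)).mul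
        (et_meas.comp ?_)
      refine Measurable.mul_const ?_ _
      refine Measurable.sub (Measurable.sub measurable_const ?_) ?_
      · exact measurable_from_top.comp (Int.measurable_floor.comp (by fun_prop))
      · exact measurable_from_top.comp (Int.measurable_floor.comp (by fun_prop))
    exact (StronglyMeasurable.integral_prod_right (ν := volume) (f := fun a b => et a * et b *
      et (((m n:ℝ) - (⌊a/((1/2:ℝ)^(J n))⌋:ℝ) - (⌊b/((1/2:ℝ)^(J n))⌋:ℝ)) * (1/2)^(J n)))
      hmm.stronglyMeasurable).aestronglyMeasurable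
  · exact et_intble.abs.mul_const _
  · intro n
    refine Filter.Eventually.of_forall (fun a => ?_)
    rw [← integral_const_mul]
    refine norm_integral_le_of_norm_le (et_intble.abs.const_mul _) ?_
    refine Filter.Eventually.of_forall (fun b => ?_)
    rw [Real.norm_eq_abs, abs_mul, abs_mul]
    calc |et a| * |et b| * _ ≤ |et a| * |et b| * 1 :=
          mul_le_mul_of_nonneg_left (et_abs _) (by positivity)
      _ = _ := mul_one _
  · exact Filter.Eventually.of_forall (fun a => inner a)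

theorem sgn_abs (M i : ℕ) : |sgn M i| ≤ 1 := by unfold sgn; split_ifs <;> simp

theorem kap_abs {j : ℕ} (hj : 1 ≤ j) (m : ℤ) : |kap j m| ≤ 1 := by
  have h1 : ∀ i k : ℕ, |∑ l ∈ range (2^j), (if ((i:ℤ) + k + l) = m then
      sgn (2^j) i * sgn (2^j) k * sgn (2^j) l else 0)| ≤ 1 := by
    intro i k
    have : ∑ l ∈ range (2^j), (if ((i:ℤ) + k + l) = m then
      sgn (2^j) i * sgn (2^j) k * sgn (2^j) l else 0)
      = sgn (2^j) i * sgn (2^j) k * et (((m - i - k : ℤ):ℝ) * (1/2)^j) := by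
      rw [et_grid hj, mul_sum]
      refine sum_congr rfl (fun l _ => ?_)
      by_cases h : ((i:ℤ) + k + l) = m
      · rw [if_pos h, if_pos (by omega)]
      · rw [if_neg h, if_neg (by omega)]; ring
    rw [this, abs_mul, abs_mul]
    have a1 := sgn_abs (2^j) i
    have a2 := sgn_abs (2^j) k
    have a3 := et_abs (((m - i - k : ℤ):ℝ) * (1/2)^j)
    calc _ ≤ (1:ℝ) * 1 * 1 := mul_le_mul (mul_le_mul a1 a2 (abs_nonneg _) (by norm_num)) a3
            (abs_nonneg _) (by norm_num)
      _ = 1 := by norm_num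
  unfold kap kk
  rw [abs_mul, abs_mul, abs_of_nonneg (by positivity : (0:ℝ) ≤ 2^j),
    abs_of_nonneg (by positivity : (0:ℝ) ≤ 1/8^j)]
  have h2 : |∑ i ∈ range (2^j), ∑ k ∈ range (2^j), ∑ l ∈ range (2^j),
      (if ((i:ℤ) + k + l) = m then sgn (2^j) i * sgn (2^j) k * sgn (2^j) l else 0)|
      ≤ (2^j) * (2^j) := by
    refine (abs_sum_le_sum_abs _ _).trans ?_
    calc _ ≤ ∑ i ∈ range (2^j), ∑ k ∈ range (2^j), (1:ℝ) := by
          refine sum_le_sum (fun i _ => (abs_sum_le_sum_abs _ _).trans (sum_le_sum (fun k _ => h1 i k)))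
      _ = _ := by simp
  have h8 : (8:ℝ)^j = 2^j * 2^j * 2^j := by rw [← mul_pow, ← mul_pow]; norm_num
  have hpos : (0:ℝ) < 2^j := by positivity
  calc (2:ℝ)^j * (1/8^j * |∑ i ∈ range (2^j), ∑ k ∈ range (2^j), ∑ l ∈ range (2^j),
      (if ((i:ℤ) + k + l) = m then sgn (2^j) i * sgn (2^j) k * sgn (2^j) l else 0)|)
      ≤ (2:ℝ)^j * (1/8^j * ((2^j) * (2^j))) := by
        refine mul_le_mul_of_nonneg_left (mul_le_mul_of_nonneg_left h2 (by positivity)) hpos.le
    _ = 1 := by rw [h8]; field_simp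

theorem kk_abs {j : ℕ} (hj : 1 ≤ j) (m : ℤ) : |kk j m| ≤ 1 := by
  have h := kap_abs hj m
  unfold kap at h
  rw [abs_mul, abs_of_nonneg (by positivity : (0:ℝ) ≤ 2^j)] at h
  have h1 : (1:ℝ) ≤ 2^j := one_le_pow₀ (by norm_num)
  nlinarith [abs_nonneg (kk j m)]

/-- a box containing the support -/
theorem supp_exists {f : ℝ × ℝ → ℝ} (hf : Nice f) {d : ℝ} (hd : 0 < d) :
    ∃ R0 : ℕ, ∀ R : ℕ, R0 ≤ R → Supp R d f := by
  obtain ⟨B, hB⟩ := hf.supp.isBounded.subset_closedBall (0 : ℝ × ℝ)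
  obtain ⟨R0, hR0⟩ := exists_nat_gt (B / d)
  refine ⟨R0, fun R hR x y hxy => ?_⟩
  by_contra hne
  have h1 := hB (subset_tsupport f hne)
  rw [mem_closedBall_zero_iff] at h1
  have hx : |x| ≤ B := le_trans (norm_fst_le ((x, y) : ℝ × ℝ)) h1
  have hy : |y| ≤ B := le_trans (norm_snd_le ((x, y) : ℝ × ℝ)) h1
  have h2 : B < (R0:ℝ) * d := by rwa [div_lt_iff₀ hd] at hR0
  have h3 : (R0:ℝ) * d ≤ (R:ℝ) * d := mul_le_mul_of_nonneg_right (by exact_mod_cast hR) hd.le
  rw [abs_le] at hx hy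
  apply hxy
  refine ⟨⟨?_, ?_⟩, ⟨?_, ?_⟩⟩ <;> nlinarith [hx.1, hx.2, hy.1, hy.2]

end

end Helper912.Z
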