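import Pool.Agent.Helper912.ZD

set_option autoImplicit false
open MeasureTheory Finset Filter Topology

namespace Helper912.Z

noncomputable section

open Helper912.TH9 (mu nu LI LI_of_bdd int_mu int_cells Nice3 meas_int bdd_int nu_int intble_mu
  Nice nice3_of nu_fst nu_snd nu_thd mu_real homog)

theorem DD_intble {f g h : ℝ × ℝ → ℝ} {B : ℝ}
    (hΦ : Nice3 (fun x y z => f (x,y) * g (y,z) * h (z,x)) B) (d : ℝ) (R j : ℕ) (n : ℤ) :
    Integrable (fun q : ℝ × ℝ × ℝ => DD R j n (smz d f q.1 q.2.1) (smz d g q.2.1 q.2.2)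
      (smz d h q.2.2 q.1)) (nu d) := by
  unfold DD
  refine integrable_finsetSum _ (fun x _ => integrable_finsetSum _ (fun y _ =>
    integrable_finsetSum _ (fun z _ => ?_)))
  refine Integrable.mul_const ?_ _
  have h3 := hΦ.shift ((x:ℝ)*d) ((y:ℝ)*d) ((z:ℝ)*d)
  exact Integrable.of_bound h3.meas.aestronglyMeasurable B
    (Filter.Eventually.of_forall (fun p => h3.bdd _ _ _))

theorem A3_f {f : ℝ × ℝ → ℝ} (hf : Nice f) {d : ℝ} (hd : 0 < d) {R : ℕ} (hs : Supp R d f) :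
    (Integrable (fun q : ℝ × ℝ × ℝ => A3 R (smz d f q.1 q.2.1)) (nu d) ∧
      ∫ q, A3 R (smz d f q.1 q.2.1) ∂(nu d) = d * ∫ p, |f p|^3) ∧
    (Integrable (fun q : ℝ × ℝ × ℝ => A3 R (smz d f q.2.1 q.2.2)) (nu d) ∧
      ∫ q, A3 R (smz d f q.2.1 q.2.2) ∂(nu d) = d * ∫ p, |f p|^3) ∧
    (Integrable (fun q : ℝ × ℝ × ℝ => A3 R (smz d f q.2.2 q.1)) (nu d) ∧
      ∫ q, A3 R (smz d f q.2.2 q.1) ∂(nu d) = d * ∫ p, |f p|^3) := by
  obtain ⟨B, hB⟩ := hf.cube_bdd
  have hm := hf.cube_meas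
  have hm' : Measurable (fun p : ℝ × ℝ => |f (p.2, p.1)|^3) :=
    hm.comp (by fun_prop : Measurable (fun p : ℝ × ℝ => (p.2, p.1)))
  have c1 := cells2 (ψ := fun x y => |f (x,y)|^3) hm hB hd (R := R) (by
    intro x y hxy; simp only [hs x y hxy]; simp)
  have c2 := cells2 (ψ := fun x y => |f (y,x)|^3) hm' (fun x y => hB y x) hd (R := R) (by
    intro x y hxy; simp only [hs y x (fun hh => hxy ⟨hh.2, hh.1⟩)]; simp)
  have e1 : ∫ p : ℝ × ℝ, |f (p.1, p.2)|^3 = ∫ p, |f p|^3 := rfl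
  have e2 : ∫ p : ℝ × ℝ, |f (p.2, p.1)|^3 = ∫ p, |f p|^3 := by
    have := integral_prod_swap (μ := (volume : Measure ℝ)) (ν := (volume : Measure ℝ))
      (fun p : ℝ × ℝ => |f p|^3)
    exact this
  refine ⟨?_, ?_, ?_⟩
  · have hti : ∀ i j : ℤ, Integrable (fun q : ℝ × ℝ × ℝ =>
        |f ((i:ℝ)*d + q.1, (j:ℝ)*d + q.2.1)|^3) (nu d) := fun i j => by
      refine Integrable.of_bound ?_ B (Filter.Eventually.of_forall (fun p => hB _ _))
      exact (hm.comp (by fun_prop : Measurable (fun q : ℝ × ℝ × ℝ =>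
        ((i:ℝ)*d + q.1, (j:ℝ)*d + q.2.1)))).aestronglyMeasurable
    refine ⟨integrable_finsetSum _ (fun i _ => integrable_finsetSum _ (fun j _ => hti i j)), ?_⟩
    rw [← e1, c1]
    unfold A3 smz
    rw [integral_finsetSum _ (fun i _ => integrable_finsetSum _ (fun j _ => hti i j)), mul_sum]
    refine sum_congr rfl (fun i _ => ?_)
    rw [integral_finsetSum _ (fun j _ => hti i j), mul_sum]
    refine sum_congr rfl (fun j _ => ?_)
    exact nu_fst (ψ := fun u v => |f ((i:ℝ)*d + u, (j:ℝ)*d + v)|^3)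
        (hm.comp (by fun_prop : Measurable (fun q : ℝ × ℝ => ((i:ℝ)*d + q.1, (j:ℝ)*d + q.2))))
        (fun u v => hB _ _) hd.le
  · have hti : ∀ i j : ℤ, Integrable (fun q : ℝ × ℝ × ℝ =>
        |f ((i:ℝ)*d + q.2.1, (j:ℝ)*d + q.2.2)|^3) (nu d) := fun i j => by
      refine Integrable.of_bound ?_ B (Filter.Eventually.of_forall (fun p => hB _ _))
      exact (hm.comp (by fun_prop : Measurable (fun q : ℝ × ℝ × ℝ =>
        ((i:ℝ)*d + q.2.1, (j:ℝ)*d + q.2.2)))).aestronglyMeasurable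
    refine ⟨integrable_finsetSum _ (fun i _ => integrable_finsetSum _ (fun j _ => hti i j)), ?_⟩
    rw [← e1, c1]
    unfold A3 smz
    rw [integral_finsetSum _ (fun i _ => integrable_finsetSum _ (fun j _ => hti i j)), mul_sum]
    refine sum_congr rfl (fun i _ => ?_)
    rw [integral_finsetSum _ (fun j _ => hti i j), mul_sum]
    refine sum_congr rfl (fun j _ => ?_)
    exact nu_snd (ψ := fun u v => |f ((i:ℝ)*d + u, (j:ℝ)*d + v)|^3)
        (hm.comp (by fun_prop : Measurable (fun q : ℝ × ℝ => ((i:ℝ)*d + q.1, (j:ℝ)*d + q.2))))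
        (fun u v => hB _ _) hd.le
  · have hti : ∀ i j : ℤ, Integrable (fun q : ℝ × ℝ × ℝ =>
        |f ((i:ℝ)*d + q.2.2, (j:ℝ)*d + q.1)|^3) (nu d) := fun i j => by
      refine Integrable.of_bound ?_ B (Filter.Eventually.of_forall (fun p => hB _ _))
      exact (hm.comp (by fun_prop : Measurable (fun q : ℝ × ℝ × ℝ =>
        ((i:ℝ)*d + q.2.2, (j:ℝ)*d + q.1)))).aestronglyMeasurable
    refine ⟨integrable_finsetSum _ (fun i _ => integrable_finsetSum _ (fun j _ => hti i j)), ?_⟩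
    rw [← e2, c2, sum_comm]
    unfold A3 smz
    rw [integral_finsetSum _ (fun i _ => integrable_finsetSum _ (fun j _ => hti i j)), mul_sum]
    refine sum_congr rfl (fun i _ => ?_)
    rw [integral_finsetSum _ (fun j _ => hti i j), mul_sum]
    refine sum_congr rfl (fun j _ => ?_)
    exact nu_thd (ψ := fun u v => |f ((i:ℝ)*d + v, (j:ℝ)*d + u)|^3)
        (hm.comp (by fun_prop : Measurable (fun q : ℝ × ℝ => ((i:ℝ)*d + q.2, (j:ℝ)*d + q.1))))
        (fun u v => hB _ _) hd.le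

/-- the value of the discretised integral -/
def XX (f g h : ℝ × ℝ → ℝ) (d : ℝ) (j : ℕ) (n : ℤ) : ℝ :=
  ∫ p : ℝ × ℝ × ℝ, F3 f g h p * kap j (⌊p.1/d⌋ + ⌊p.2.1/d⌋ + ⌊p.2.2/d⌋ - n)

theorem XX_eq {f g h : ℝ × ℝ → ℝ} {B : ℝ}
    (hΦ : Nice3 (fun x y z => f (x,y) * g (y,z) * h (z,x)) B)
    {R : ℕ} {d : ℝ} (hd : 0 < d) (hf : Supp R d f) (hg : Supp R d g) {j : ℕ} (hj : 1 ≤ j) (n : ℤ) :
    XX f g h d j n = 2^j * ∫ q, DD R j n (smz d f q.1 q.2.1) (smz d g q.2.1 q.2.2)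
      (smz d h q.2.2 q.1) ∂(nu d) := by
  have h1 := one hΦ hd hf hg (κ := fun m => kk j (m - n)) (K := 1) (fun m => kk_abs hj _)
  unfold XX DD
  rw [← h1, ← integral_const_mul]
  refine integral_congr_ae (Filter.Eventually.of_forall (fun p => ?_))
  simp only [kap]
  ring

theorem discrete_bound {C : ℝ} (hC0 : 0 ≤ C)
    (hC : ∀ (R J : ℕ) (f g h : ℤ → ℤ → ℝ), Box R f → Box R g → Box R h →
      ∑ j ∈ Icc 1 J, (|DD R j (-2*(2^j-1)) f g h| + |DD R j (-2*(2^j-1) + 2^j) f g h|)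
      ≤ C * (A3 R f + A3 R g + A3 R h))
    {f g h : ℝ × ℝ → ℝ} (hf : Nice f) (hg : Nice g) (hh : Nice h) {d : ℝ} (hd : 0 < d) (J : ℕ) :
    ∑ j ∈ Icc 1 J, (2^j)⁻¹ * (|XX f g h d j (-2*(2^j-1))| + |XX f g h d j (-2*(2^j-1) + 2^j)|)
      ≤ d * (C * ((∫ p, |f p|^3) + (∫ p, |g p|^3) + ∫ p, |h p|^3)) := by
  obtain ⟨B, hB⟩ := nice3_of hf hg hh
  obtain ⟨R1, hR1⟩ := supp_exists hf hd
  obtain ⟨R2, hR2⟩ := supp_exists hg hd
  obtain ⟨R3, hR3⟩ := supp_exists hh hd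
  set R := max R1 (max R2 R3) with hR
  have sf : Supp R d f := hR1 R (le_max_left _ _)
  have sg' : Supp R d g := hR2 R ((le_max_left _ _).trans (le_max_right _ _))
  have sh : Supp R d h := hR3 R ((le_max_right _ _).trans (le_max_right _ _))
  set Q : ℕ → ℤ → ℝ × ℝ × ℝ → ℝ := fun j n q => DD R j n (smz d f q.1 q.2.1)
    (smz d g q.2.1 q.2.2) (smz d h q.2.2 q.1) with hQ
  have hQi : ∀ j n, Integrable (Q j n) (nu d) := fun j n => DD_intble hB d R j n
  have hval : ∀ j ∈ Icc 1 J, ∀ n : ℤ, (2^j)⁻¹ * |XX f g h d j n| ≤ ∫ q, |Q j n q| ∂(nu d) := by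
    intro j hj n
    rw [XX_eq hB hd sf sg' (mem_Icc.1 hj).1, abs_mul, abs_of_nonneg (by positivity : (0:ℝ) ≤ 2^j),
      ← mul_assoc, inv_mul_cancel₀ (by positivity), one_mul]
    exact abs_integral_le_integral_abs
  calc ∑ j ∈ Icc 1 J, (2^j)⁻¹ * (|XX f g h d j (-2*(2^j-1))| + |XX f g h d j (-2*(2^j-1) + 2^j)|)
      ≤ ∑ j ∈ Icc 1 J, ∫ q, (|Q j (-2*(2^j-1)) q| + |Q j (-2*(2^j-1) + 2^j) q|) ∂(nu d) := by
        refine sum_le_sum (fun j hj => ?_)
        rw [mul_add, integral_add (hQi _ _).abs (hQi _ _).abs]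
        exact add_le_add (hval j hj _) (hval j hj _)
    _ = ∫ q, ∑ j ∈ Icc 1 J, (|Q j (-2*(2^j-1)) q| + |Q j (-2*(2^j-1) + 2^j) q|) ∂(nu d) :=
        (integral_finsetSum _ (fun j _ => (hQi _ _).abs.add (hQi _ _).abs)).symm
    _ ≤ ∫ q, C * (A3 R (smz d f q.1 q.2.1) + A3 R (smz d g q.2.1 q.2.2)
          + A3 R (smz d h q.2.2 q.1)) ∂(nu d) := by
        refine integral_mono_ae (integrable_finsetSum _ (fun j _ =>
          (hQi _ _).abs.add (hQi _ _).abs)) ?_ ?_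
        · exact (((A3_f hf hd sf).1.1.add (A3_f hg hd sg').2.1.1).add
            (A3_f hh hd sh).2.2.1).const_mul C
        · filter_upwards [nu_ae d] with q hq
          exact hC R J _ _ _ (box_smz hd sf hq.1 hq.2.1) (box_smz hd sg' hq.2.1 hq.2.2)
            (box_smz hd sh hq.2.2 hq.1)
    _ = d * (C * ((∫ p, |f p|^3) + (∫ p, |g p|^3) + ∫ p, |h p|^3)) := by
        have hfg : Integrable (fun q : ℝ × ℝ × ℝ => A3 R (smz d f q.1 q.2.1)
          + A3 R (smz d g q.2.1 q.2.2)) (nu d) := (A3_f hf hd sf).1.1.add (A3_f hg hd sg').2.1.1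
        rw [integral_const_mul, integral_add hfg (A3_f hh hd sh).2.2.1,
          integral_add (A3_f hf hd sf).1.1 (A3_f hg hd sg').2.1.1, (A3_f hf hd sf).1.2,
          (A3_f hg hd sg').2.1.2, (A3_f hh hd sh).2.2.2]
        ring

theorem F3_intble {f g h : ℝ × ℝ → ℝ} (hf : Nice f) (hg : Nice g) (hh : Nice h) :
    Integrable (F3 f g h) := by
  obtain ⟨B, hB⟩ := nice3_of hf hg hh
  obtain ⟨R1, hR1⟩ := supp_exists hf (d := 1) one_pos
  obtain ⟨R2, hR2⟩ := supp_exists hg (d := 1) one_pos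
  set R := max R1 R2 with hR
  have sf : Supp R 1 f := hR1 R (le_max_left _ _)
  have sg' : Supp R 1 g := hR2 R (le_max_right _ _)
  set S : Set ℝ := Set.Ioc (-(R:ℝ)*1) ((R:ℝ)*1) with hS
  have h1 : IntegrableOn (F3 f g h) (S ×ˢ (S ×ˢ S)) volume := by
    refine Measure.integrableOn_of_bounded (M := B) ?_ hB.meas.aestronglyMeasurable ?_
    · rw [Measure.volume_eq_prod, Measure.prod_prod, Measure.volume_eq_prod, Measure.prod_prod]
      simp only [hS, Real.volume_Ioc]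
      exact ENNReal.mul_ne_top ENNReal.ofReal_ne_top
        (ENNReal.mul_ne_top ENNReal.ofReal_ne_top ENNReal.ofReal_ne_top)
    · exact Filter.Eventually.of_forall (fun p => hB.bdd _ _ _)
  rwa [integrableOn_iff_integrable_of_support_subset] at h1
  intro p hp
  by_contra hn
  apply hp
  unfold F3
  by_cases hx : (-(R:ℝ)*1 < p.1 ∧ p.1 ≤ (R:ℝ)*1) ∧ (-(R:ℝ)*1 < p.2.1 ∧ p.2.1 ≤ (R:ℝ)*1)
  · have : g (p.2.1, p.2.2) = 0 := sg' _ _ (fun h2 => hn ⟨hx.1, hx.2, h2.2⟩)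
    rw [this]; ring
  · have : f (p.1, p.2.1) = 0 := sf _ _ hx
    rw [this]; ring

theorem F3_meas {f g h : ℝ × ℝ → ℝ} (hf : Nice f) (hg : Nice g) (hh : Nice h) :
    Measurable (F3 f g h) := by
  obtain ⟨B, hB⟩ := nice3_of hf hg hh
  exact hB.meas

/-- convergence of the discretised integrals -/
theorem XX_tendsto {f g h : ℝ × ℝ → ℝ} (hf : Nice f) (hg : Nice g) (hh : Nice h)
    {d : ℕ → ℝ} (hd : ∀ n, 0 < d n) (hd0 : Tendsto d atTop (𝓝 0)) {J : ℕ → ℕ}
    (hJ : Tendsto J atTop atTop) {T : ℝ} (hT : 0 < T) (hdJ : ∀ᶠ n in atTop, d n = T * (1/2)^(J n))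
    (ν : ℕ → ℤ) {c : ℝ} (hν : Tendsto (fun n => (ν n : ℝ) * (1/2)^(J n)) atTop (𝓝 (-c))) :
    Tendsto (fun n => XX f g h (d n) (J n) (ν n)) atTop
      (𝓝 (∫ p : ℝ × ℝ × ℝ, F3 f g h p * ps ((p.1 + p.2.1 + p.2.2) / T + c))) := by
  have hev : ∀ᶠ n in atTop, 1 ≤ J n := hJ.eventually_ge_atTop 1
  unfold XX
  refine tendsto_integral_filter_of_dominated_convergence (fun p => |F3 f g h p|) ?_ ?_ ?_ ?_
  · refine Filter.Eventually.of_forall (fun n => ?_)
    refine ((F3_meas hf hg hh).mul ?_).aestronglyMeasurable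
    have hk : Measurable (kap (J n)) := measurable_from_top
    refine hk.comp ?_
    have m1 : Measurable (fun p : ℝ × ℝ × ℝ => ⌊p.1/(d n)⌋) :=
      Int.measurable_floor.comp (by fun_prop)
    have m2 : Measurable (fun p : ℝ × ℝ × ℝ => ⌊p.2.1/(d n)⌋) :=
      Int.measurable_floor.comp (by fun_prop)
    have m3 : Measurable (fun p : ℝ × ℝ × ℝ => ⌊p.2.2/(d n)⌋) :=
      Int.measurable_floor.comp (by fun_prop)
    exact ((m1.add m2).add m3).sub measurable_const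
  · filter_upwards [hev] with n hn
    refine Filter.Eventually.of_forall (fun p => ?_)
    rw [Real.norm_eq_abs, abs_mul]
    calc |F3 f g h p| * _ ≤ |F3 f g h p| * 1 :=
          mul_le_mul_of_nonneg_left (kap_abs hn _) (abs_nonneg _)
      _ = _ := mul_one _
  · exact (F3_intble hf hg hh).abs
  · refine Filter.Eventually.of_forall (fun p => ?_)
    refine Tendsto.mul tendsto_const_nhds ?_
    refine kap_tendsto hJ ?_
    have h1 := floor_tendsto hd hd0 p.1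
    have h2 := floor_tendsto hd hd0 p.2.1
    have h3 := floor_tendsto hd hd0 p.2.2
    have h4 := (((h1.add h2).add h3).div_const T).sub hν
    rw [sub_neg_eq_add] at h4
    refine h4.congr' ?_
    filter_upwards [hdJ] with n hn
    have e : d n / T = (1/2)^(J n) := by rw [hn]; field_simp
    push_cast
    rw [← e]
    ring

end

end Helper912.Z
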