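import Pool.Agent.Helper912.ZE
import Pool.Agent.Helper519.CTH.Spline

set_option autoImplicit false
open MeasureTheory Finset Filter Topology

namespace Helper912.Z

noncomputable section

open Helper912.TH9 (mu nu LI LI_of_bdd int_mu int_cells Nice3 meas_int bdd_int nu_int intble_mu
  Nice nice3_of nu_fst nu_snd nu_thd mu_real homog)

/-- the window of scales applied to `f, g, h` -/
def W (t : ℝ) (I : Finset ℤ) (e : ℤ → ℝ) (f g h : ℝ × ℝ → ℝ) : ℝ :=
  ∑ i ∈ I, e i * ((2:ℝ)^i * t)⁻¹ * ∫ p : ℝ × ℝ × ℝ,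
      F3 f g h p * phi ((p.1 + p.2.1 + p.2.2) / ((2:ℝ)^i * t))

theorem F3_ps_intble {f g h : ℝ × ℝ → ℝ} (hf : Nice f) (hg : Nice g) (hh : Nice h) (T c : ℝ) :
    Integrable (fun p : ℝ × ℝ × ℝ => F3 f g h p * ps ((p.1 + p.2.1 + p.2.2) / T + c)) := by
  refine Integrable.mono' (F3_intble hf hg hh).abs ?_ ?_
  · refine ((F3_meas hf hg hh).mul ?_).aestronglyMeasurable
    exact Pool.Agent.Helper519.CTH.ps_meas.comp (by fun_prop)
  · refine Filter.Eventually.of_forall (fun p => ?_)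
    rw [Real.norm_eq_abs, abs_mul]
    calc |F3 f g h p| * _ ≤ |F3 f g h p| * 1 :=
          mul_le_mul_of_nonneg_left (Pool.Agent.Helper519.CTH.ps_abs _) (abs_nonneg _)
      _ = _ := mul_one _

theorem W_bound {C : ℝ} (hC0 : 0 ≤ C)
    (hC : ∀ (R J : ℕ) (f g h : ℤ → ℤ → ℝ), Box R f → Box R g → Box R h →
      ∑ j ∈ Icc 1 J, (|DD R j (-2*(2^j-1)) f g h| + |DD R j (-2*(2^j-1) + 2^j) f g h|)
      ≤ C * (A3 R f + A3 R g + A3 R h))
    {f g h : ℝ × ℝ → ℝ} (hf : Nice f) (hg : Nice g) (hh : Nice h) {t : ℝ} (ht : 0 < t)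
    (I : Finset ℤ) (e : ℤ → ℝ) (he : ∀ i, |e i| ≤ 1) :
    |W t I e f g h| ≤ C * ((∫ p, |f p|^3) + (∫ p, |g p|^3) + ∫ p, |h p|^3) := by
  -- meshes
  set d : ℕ → ℝ := fun n => t * (1/2)^n with hdd
  have hd : ∀ n, 0 < d n := fun n => by simp only [hdd]; positivity
  have hd0 : Tendsto d atTop (𝓝 0) := by
    have := (tendsto_pow_atTop_nhds_zero_of_lt_one (by norm_num : (0:ℝ) ≤ 1/2)
      (by norm_num)).const_mul t
    rwa [mul_zero] at this
  set Jn : ℤ → ℕ → ℕ := fun i n => ((n:ℤ) + i).toNat with hJn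
  have hJt : ∀ i, Tendsto (Jn i) atTop atTop := by
    intro i
    rw [tendsto_atTop_atTop]
    intro b
    refine ⟨b + i.natAbs, fun n hn => ?_⟩
    simp only [hJn]
    omega
  have hdJ : ∀ i, ∀ᶠ n in atTop, d n = ((2:ℝ)^i * t) * (1/2)^(Jn i n) := by
    intro i
    filter_upwards [eventually_ge_atTop i.natAbs] with n hn
    have h0 : 0 ≤ (n:ℤ) + i := by omega
    have h1 : ((Jn i n : ℕ) : ℤ) = (n:ℤ) + i := Int.toNat_of_nonneg h0
    have h2 : ((1/2:ℝ))^(Jn i n) = (2:ℝ)^(-((n:ℤ)+i)) := by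
      rw [← h1, zpow_neg, zpow_natCast, one_div, inv_pow]
    have h3 : ((1/2:ℝ))^n = (2:ℝ)^(-(n:ℤ)) := by
      rw [zpow_neg, zpow_natCast, one_div, inv_pow]
    simp only [hdd]
    rw [h2, h3]
    have h4 : (2:ℝ)^(-(n:ℤ)) = (2:ℝ)^i * (2:ℝ)^(-((n:ℤ)+i)) := by
      rw [← zpow_add₀ (by norm_num)]; congr 1; ring
    rw [h4]; ring
  have hpowJ : ∀ i n, (2:ℝ)^(Jn i n) * (1/2)^(Jn i n) = 1 := fun i n => half_pow
  -- the two planes
  set ν1 : ℤ → ℕ → ℤ := fun i n => -2*(2^(Jn i n)-1) with hν1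
  set ν2 : ℤ → ℕ → ℤ := fun i n => -2*(2^(Jn i n)-1) + 2^(Jn i n) with hν2
  have l1 : ∀ i, Tendsto (fun n => ((ν1 i n : ℤ):ℝ) * (1/2)^(Jn i n)) atTop (𝓝 (-2)) := by
    intro i
    have h := (hp0 (hJt i)).const_mul (2:ℝ)
    have h' := h.add (tendsto_const_nhds (x := (-2:ℝ)))
    rw [mul_zero, zero_add] at h'
    refine h'.congr (fun n => ?_)
    simp only [hν1]
    push_cast
    have := hpowJ i n
    linear_combination (2:ℝ) * this
  have l2 : ∀ i, Tendsto (fun n => ((ν2 i n : ℤ):ℝ) * (1/2)^(Jn i n)) atTop (𝓝 (-1)) := by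
    intro i
    have h := (hp0 (hJt i)).const_mul (2:ℝ)
    have h' := h.add (tendsto_const_nhds (x := (-1:ℝ)))
    rw [mul_zero, zero_add] at h'
    refine h'.congr (fun n => ?_)
    simp only [hν2]
    push_cast
    have := hpowJ i n
    linear_combination (1:ℝ) * this
  -- discretised sum
  set A : ℕ → ℝ := fun n => ∑ i ∈ I, e i * ((2:ℝ)^i * t)⁻¹ *
    (XX f g h (d n) (Jn i n) (ν1 i n) + XX f g h (d n) (Jn i n) (ν2 i n)) with hA
  have hAlim : Tendsto A atTop (𝓝 (W t I e f g h)) := by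
    unfold W
    refine tendsto_finsetSum _ (fun i _ => ?_)
    refine Tendsto.mul tendsto_const_nhds ?_
    have hT : 0 < (2:ℝ)^i * t := by positivity
    have t1 := XX_tendsto hf hg hh hd hd0 (hJt i) hT (hdJ i) (ν1 i) (l1 i)
    have t2 := XX_tendsto hf hg hh hd hd0 (hJt i) hT (hdJ i) (ν2 i) (l2 i)
    have t3 := t1.add t2
    rw [← integral_add (F3_ps_intble hf hg hh _ _) (F3_ps_intble hf hg hh _ _)] at t3
    have e3 : (fun p : ℝ × ℝ × ℝ => F3 f g h p * phi ((p.1 + p.2.1 + p.2.2) / ((2:ℝ)^i * t)))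
        = fun p : ℝ × ℝ × ℝ => F3 f g h p * ps ((p.1 + p.2.1 + p.2.2) / ((2:ℝ)^i * t) + 2)
          + F3 f g h p * ps ((p.1 + p.2.1 + p.2.2) / ((2:ℝ)^i * t) + 1) := by
      funext p
      unfold phi; ring
    rw [e3]
    exact t3
  have hAb : ∀ᶠ n in atTop, |A n| ≤ C * ((∫ p, |f p|^3) + (∫ p, |g p|^3) + ∫ p, |h p|^3) := by
    filter_upwards [eventually_ge_atTop (1 + ∑ i ∈ I, i.natAbs)] with n hn
    have hni : ∀ i ∈ I, i.natAbs + 1 ≤ n := by
      intro i hi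
      have : i.natAbs ≤ ∑ i ∈ I, i.natAbs :=
        single_le_sum (f := fun k : ℤ => k.natAbs) (fun _ _ => Nat.zero_le _) hi
      omega
    have hJmax : ∀ i ∈ I, Jn i n ∈ Icc 1 (2*n) := by
      intro i hi
      have := hni i hi
      rw [mem_Icc]
      simp only [hJn]
      omega
    have hdn : ∀ i ∈ I, d n = ((2:ℝ)^i * t) * (1/2)^(Jn i n) := by
      intro i hi
      have hh1 := hni i hi
      have h0 : 0 ≤ (n:ℤ) + i := by omega
      have h1 : ((Jn i n : ℕ) : ℤ) = (n:ℤ) + i := Int.toNat_of_nonneg h0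
      have h2 : ((1/2:ℝ))^(Jn i n) = (2:ℝ)^(-((n:ℤ)+i)) := by
        rw [← h1, zpow_neg, zpow_natCast, one_div, inv_pow]
      have h3 : ((1/2:ℝ))^n = (2:ℝ)^(-(n:ℤ)) := by
        rw [zpow_neg, zpow_natCast, one_div, inv_pow]
      simp only [hdd]
      rw [h2, h3]
      have h4 : (2:ℝ)^(-(n:ℤ)) = (2:ℝ)^i * (2:ℝ)^(-((n:ℤ)+i)) := by
        rw [← zpow_add₀ (by norm_num)]; congr 1; ring
      rw [h4]; ring
    set Y : ℕ → ℝ := fun j => (2^j)⁻¹ * (|XX f g h (d n) j (-2*(2^j-1))|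
      + |XX f g h (d n) j (-2*(2^j-1) + 2^j)|) with hY
    have hY0 : ∀ j, 0 ≤ Y j := fun j => by simp only [hY]; positivity
    have hb := discrete_bound hC0 hC hf hg hh (hd n) (2*n)
    have h1 : |A n| ≤ ∑ i ∈ I, (d n)⁻¹ * Y (Jn i n) := by
      refine (abs_sum_le_sum_abs _ _).trans (sum_le_sum (fun i hi => ?_))
      have hT : 0 < (2:ℝ)^i * t := by positivity
      have e4 : ((2:ℝ)^i * t)⁻¹ = (d n)⁻¹ * (2^(Jn i n))⁻¹ := by
        rw [hdn i hi, ← mul_inv, mul_assoc, mul_comm ((1/2:ℝ)^(Jn i n)), hpowJ i n, mul_one]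
      rw [abs_mul, abs_mul, abs_of_pos (inv_pos.2 hT), e4]
      simp only [hY]
      have hdi : 0 < (d n)⁻¹ := inv_pos.2 (hd n)
      have h2i : (0:ℝ) < (2^(Jn i n))⁻¹ := by positivity
      have hab : |XX f g h (d n) (Jn i n) (ν1 i n) + XX f g h (d n) (Jn i n) (ν2 i n)| ≤
          |XX f g h (d n) (Jn i n) (-2*(2^(Jn i n)-1))|
          + |XX f g h (d n) (Jn i n) (-2*(2^(Jn i n)-1) + 2^(Jn i n))| := abs_add_le _ _
      calc |e i| * ((d n)⁻¹ * (2^(Jn i n))⁻¹) *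
            |XX f g h (d n) (Jn i n) (ν1 i n) + XX f g h (d n) (Jn i n) (ν2 i n)|
          ≤ 1 * ((d n)⁻¹ * (2^(Jn i n))⁻¹) * (|XX f g h (d n) (Jn i n) (-2*(2^(Jn i n)-1))|
          + |XX f g h (d n) (Jn i n) (-2*(2^(Jn i n)-1) + 2^(Jn i n))|) := by
            refine mul_le_mul (mul_le_mul_of_nonneg_right (he i) (by positivity)) hab
              (abs_nonneg _) (by positivity)
        _ = _ := by ring
    have h2 : ∑ i ∈ I, (d n)⁻¹ * Y (Jn i n) ≤ (d n)⁻¹ * ∑ j ∈ Icc 1 (2*n), Y j := by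
      rw [← mul_sum]
      refine mul_le_mul_of_nonneg_left ?_ (inv_pos.2 (hd n)).le
      have hinj : Set.InjOn (fun i : ℤ => Jn i n) (I : Set ℤ) := by
        intro a ha b hb hab
        have h1 := hni a ha
        have h2 := hni b hb
        simp only [hJn] at hab
        omega
      rw [← sum_image (f := Y) (g := fun i : ℤ => Jn i n) hinj]
      refine sum_le_sum_of_subset_of_nonneg ?_ (fun _ _ _ => hY0 _)
      intro s hs
      rw [mem_image] at hs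
      obtain ⟨k, hk, rfl⟩ := hs
      exact hJmax k hk
    calc |A n| ≤ (d n)⁻¹ * ∑ j ∈ Icc 1 (2*n), Y j := h1.trans h2
      _ ≤ (d n)⁻¹ * (d n * (C * ((∫ p, |f p|^3) + (∫ p, |g p|^3) + ∫ p, |h p|^3))) :=
          mul_le_mul_of_nonneg_left hb (inv_pos.2 (hd n)).le
      _ = _ := by rw [← mul_assoc, inv_mul_cancel₀ (hd n).ne', one_mul]
  exact le_of_tendsto hAlim.abs hAb

theorem W_smul (t : ℝ) (I : Finset ℤ) (e : ℤ → ℝ) (f g h : ℝ × ℝ → ℝ) (a b c : ℝ) :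
    W t I e (fun p => a * f p) (fun p => b * g p) (fun p => c * h p)
      = a * b * c * W t I e f g h := by
  unfold W
  rw [mul_sum]
  refine sum_congr rfl (fun i _ => ?_)
  have : ∫ p : ℝ × ℝ × ℝ, F3 (fun p => a * f p) (fun p => b * g p) (fun p => c * h p) p
        * phi ((p.1 + p.2.1 + p.2.2) / ((2:ℝ)^i * t))
      = a * b * c * ∫ p : ℝ × ℝ × ℝ, F3 f g h p * phi ((p.1 + p.2.1 + p.2.2) / ((2:ℝ)^i * t)) := by
    rw [← integral_const_mul]
    refine integral_congr_ae (Filter.Eventually.of_forall (fun p => ?_))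
    simp only [F3]
    ring
  rw [this]; ring

theorem Z2_of_Z1 (hZ1 : Z1) : Z2 := by
  obtain ⟨C₀, hC₀⟩ := hZ1
  set C := max C₀ 0 with hCdef
  have hC0 : 0 ≤ C := le_max_right _ _
  have hC : ∀ (R J : ℕ) (f g h : ℤ → ℤ → ℝ), Box R f → Box R g → Box R h →
      ∑ j ∈ Icc 1 J, (|DD R j (-2*(2^j-1)) f g h| + |DD R j (-2*(2^j-1) + 2^j) f g h|)
      ≤ C * (A3 R f + A3 R g + A3 R h) := by
    intro R J f g h b1 b2 b3
    refine (hC₀ R J f g h b1 b2 b3).trans ?_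
    have e : ∀ f : ℤ → ℤ → ℝ, 0 ≤ A3 R f := fun f => by unfold A3; positivity
    refine mul_le_mul_of_nonneg_right (le_max_left _ _) ?_
    have := e f; have := e g; have := e h
    linarith
  refine ⟨3 * C, fun f g h mf mg mh sf sg' sh bf bg bh t ht I e he => ?_⟩
  have hf : Nice f := ⟨mf, sf, bf⟩
  have hg : Nice g := ⟨mg, sg', bg⟩
  have hh : Nice h := ⟨mh, sh, bh⟩
  change |W t I e f g h| ≤ _
  refine homog hC0 ENNReal.toReal_nonneg ENNReal.toReal_nonneg ENNReal.toReal_nonneg ?_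
  intro a b c ha hb hc
  have h1 := W_bound hC0 hC (hf.const_mul a) (hg.const_mul b) (hh.const_mul c) ht I e he
  rw [W_smul, abs_mul, abs_of_pos (by positivity : 0 < a * b * c)] at h1
  refine h1.trans (le_of_eq ?_)
  have e : ∀ (u : ℝ) (hu : 0 < u) (φ : ℝ × ℝ → ℝ) (hφ : Nice φ),
      ∫ p, |u * φ p|^3 = (u * (eLpNorm φ 3 volume).toReal)^3 := by
    intro u hu φ hφ
    rw [mul_pow, ← hφ.norm_cube, ← integral_const_mul]
    refine integral_congr_ae (Filter.Eventually.of_forall (fun p => ?_))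
    simp only [abs_mul, abs_of_pos hu, mul_pow]
  rw [e a ha f hf, e b hb g hg, e c hc h hh]

end

end Helper912.Z
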